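import Mathlib
import Pool.Agent.Work.MP_59f3ad_nt.Tw.Stmts

/-! Bundle of small proof modules (one section per former module). -/

section

/-! Independence of distinct characters, applied to a sum of cocycles. -/

namespace Pool.Agent.Work.MP_59f3ad_nt.Tw

universe u

namespace ChiX

/-- the power of a character as a map to `ℤ_p` -/
noncomputable def pw {p : ℕ} [Fact p.Prime] {G : Type u} [Group G] (χ : G →* ℤ_[p]ˣ) (ρ : ℤ) :
    G →* ℤ_[p] :=
  (Units.coeHom ℤ_[p]).comp ((zpowGroupHom ρ).comp χ)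

theorem pw_apply {p : ℕ} [Fact p.Prime] {G : Type u} [Group G] (χ : G →* ℤ_[p]ˣ) (ρ : ℤ) (g : G) :
    pw χ ρ g = (((χ g) ^ ρ : ℤ_[p]ˣ) : ℤ_[p]) := rfl

theorem pw_injective {p : ℕ} [Fact p.Prime] {G : Type u} [Group G] (χ : G →* ℤ_[p]ˣ)
    (h : ∀ ρ ρ' : ℤ, (∀ g, (χ g) ^ ρ = (χ g) ^ ρ') → ρ = ρ') : Function.Injective (pw χ) := by
  intro ρ ρ' hρ
  refine h ρ ρ' fun g => Units.ext ?_
  have := DFunLike.congr_fun hρ g
  rwa [pw_apply, pw_apply] at this

end ChiX

open ChiX in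
theorem pr_Chi : StChi.{u} := by
  classical
  intro p _ G _ χ hχ k r c hc a ha ρ g
  have h1 : ∀ g h, ∑ i, a i * c i h * pw χ (r i) g = 0 := by
    intro g h
    have h2 := ha (g * h)
    simp only [hc, mul_add, Finset.sum_add_distrib, ha g, zero_add] at h2
    rw [← h2]
    refine Finset.sum_congr rfl fun i _ => ?_
    rw [pw_apply]
    ring
  have hli : LinearIndependent ℤ_[p] (fun ρ : ℤ => (pw χ ρ : G → ℤ_[p])) :=
    (linearIndependent_monoidHom G ℤ_[p]).comp (pw χ) (pw_injective χ hχ)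
  rw [linearIndependent_iff'] at hli
  by_cases hρ : ρ ∈ Finset.univ.image r
  · refine hli (Finset.univ.image r) (fun ρ => ∑ i with r i = ρ, a i * c i g) ?_ ρ hρ
    funext g'
    rw [Finset.sum_apply, Pi.zero_apply, ← h1 g' g]
    rw [← Finset.sum_fiberwise_of_maps_to (s := Finset.univ) (t := Finset.univ.image r) (g := r)
      (fun i _ => Finset.mem_image_of_mem r (Finset.mem_univ i))]
    refine Finset.sum_congr rfl fun ρ' _ => ?_
    rw [Pi.smul_apply, smul_eq_mul, Finset.sum_mul]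
    refine Finset.sum_congr rfl fun i hi => ?_
    rw [Finset.mem_filter] at hi
    rw [hi.2]
  · refine Finset.sum_eq_zero fun i hi => ?_
    rw [Finset.mem_filter] at hi
    exact absurd (Finset.mem_image.2 ⟨i, Finset.mem_univ i, hi.2⟩) hρ

end Pool.Agent.Work.MP_59f3ad_nt.Tw

end

section

open NumberField IsDedekindDomain

namespace Pool.Agent.Work.MP_59f3ad_nt.Tw

universe u

namespace ClX

variable (L : Type u) [Field L] [NumberField L]

theorem exists_ideal_pow (a : 𝓞 L) (ha : a ≠ 0) (n : ℕ)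
    (h : ∀ w : HeightOneSpectrum (𝓞 L),
      n ∣ (Associates.mk w.asIdeal).count (Associates.mk (Ideal.span {a})).factors) :
    ∃ I : Ideal (𝓞 L), I ^ n = Ideal.span {a} := by
  have hI : Ideal.span {a} ≠ (0 : Ideal (𝓞 L)) := by
    rw [Ne, Ideal.zero_eq_bot, Ideal.span_singleton_eq_bot]
    exact ha
  choose k hk using h
  refine ⟨∏ᶠ w : HeightOneSpectrum (𝓞 L), w.asIdeal ^ k w, ?_⟩
  rcases Nat.eq_zero_or_pos n with hn | hn
  · subst hn
    rw [pow_zero, ← Ideal.finprod_heightOneSpectrum_factorization hI]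
    symm
    rw [← finprod_one]
    refine finprod_congr fun w => ?_
    rw [HeightOneSpectrum.maxPowDividing, hk w, zero_mul, pow_zero]
  · rw [finprod_pow]
    · rw [← Ideal.finprod_heightOneSpectrum_factorization hI]
      refine finprod_congr fun w => ?_
      rw [HeightOneSpectrum.maxPowDividing, hk w, ← pow_mul, mul_comm n]
    · refine (Ideal.hasFiniteMulSupport hI).subset ?_
      intro w hw
      rw [Function.mem_mulSupport] at hw ⊢
      intro h1
      apply hw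
      rw [HeightOneSpectrum.maxPowDividing, hk w, mul_comm, pow_mul] at h1
      exact (pow_eq_one_iff.mp h1).resolve_right hn.ne'

/-- The data of an element all of whose valuations are `n`-th powers. -/
structure Dat (n : ℕ) (α : L) (I : nonZeroDivisors (Ideal (𝓞 L))) (s a : 𝓞 L) : Prop where
  s0 : s ≠ 0
  a0 : a ≠ 0
  eq : (a : L) = α * (s : L) ^ n
  pw : (I : Ideal (𝓞 L)) ^ n = Ideal.span {a}

theorem exists_dat (n : ℕ) (hn : n ≠ 0) (α : L) (hα0 : α ≠ 0)
    (h : ∀ w : HeightOneSpectrum (𝓞 L), ∃ y : L, w.valuation L α = w.valuation L y ^ n) :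
    ∃ (I : nonZeroDivisors (Ideal (𝓞 L))) (s a : 𝓞 L), Dat L n α I s a := by
  obtain ⟨c, m, hm, hcm⟩ := IsFractionRing.div_surjective (A := 𝓞 L) α
  have hm0 : m ≠ 0 := nonZeroDivisors.ne_zero hm
  have hmL : (m : L) ≠ 0 := by
    intro h0
    exact hm0 (RingOfIntegers.ext h0)
  set a : 𝓞 L := c * m ^ (n - 1) with ha
  have haα : (a : L) = α * (m : L) ^ n := by
    have h1 : (m : L) ^ n = (m : L) ^ (n - 1) * m := by
      rw [← pow_succ]; congr 1; omega
    rw [ha, ← hcm, h1]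
    push_cast
    field_simp
  have ha0 : a ≠ 0 := by
    intro h0
    have h1 : (a : L) = 0 := by rw [h0]; rfl
    rw [haα] at h1
    exact (mul_ne_zero hα0 (pow_ne_zero _ hmL)) h1
  obtain ⟨I, hI⟩ := exists_ideal_pow L a ha0 n fun w => by
    obtain ⟨y, hy⟩ := h w
    have h1 : w.valuation L (a : L) = w.valuation L (y * m) ^ n := by
      rw [haα, map_mul, hy, map_mul, map_pow, mul_pow]
    have h2 := w.valuation_of_algebraMap (K := L) a
    rw [w.intValuation_if_neg ha0] at h2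
    have h3 : w.valuation L (y * m) ≠ 0 := by
      intro h0
      have h4 : w.valuation L (a : L) = 0 := by rw [h1, h0, zero_pow hn]
      have h5 : w.valuation L (a : L) ≠ 0 := by
        rw [Ne, Valuation.zero_iff]
        exact fun h6 => ha0 (RingOfIntegers.ext h6)
      exact h5 h4
    obtain ⟨k, hk⟩ : ∃ k : ℤ, w.valuation L (y * m) = WithZero.exp k :=
      ⟨WithZero.log (w.valuation L (y * m)), (WithZero.exp_log h3).symm⟩
    rw [h1, hk, ← WithZero.exp_nsmul, WithZero.exp_inj] at h2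
    have h4 : (n : ℤ) ∣ ((Associates.mk w.asIdeal).count
        (Associates.mk (Ideal.span {a})).factors : ℤ) := by
      refine ⟨-k, ?_⟩
      rw [nsmul_eq_mul] at h2
      linarith
    exact_mod_cast h4
  have hIbot : I ≠ ⊥ := by
    rintro rfl
    rw [← Ideal.zero_eq_bot, zero_pow hn, Ideal.zero_eq_bot] at hI
    exact ha0 (Ideal.span_singleton_eq_bot.mp hI.symm)
  exact ⟨⟨I, mem_nonZeroDivisors_of_ne_zero hIbot⟩, m, a, hm0, ha0, haα, hI⟩

end ClX

open ClX in
/-- Item Cl. -/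
theorem pr_Cl : StCl.{u} := by
  classical
  intro K _ _ q hq
  refine ⟨fun α => if h : ∃ I : nonZeroDivisors (Ideal (𝓞 K)), ∃ s a : 𝓞 K, Dat K q α I s a
    then ClassGroup.mk0 h.choose else 1, ?_⟩
  intro α α' h0 h0' hv hv' hcl
  have hd := exists_dat K q hq α h0 hv
  have hd' := exists_dat K q hq α' h0' hv'
  simp only [dif_pos hd, dif_pos hd'] at hcl
  obtain ⟨s, a, hD⟩ := hd.choose_spec
  obtain ⟨s', a', hD'⟩ := hd'.choose_spec
  generalize hd.choose = I at hcl hD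
  generalize hd'.choose = I' at hcl hD'
  rw [ClassGroup.mk0_eq_mk0_iff] at hcl
  obtain ⟨x, y, hx, hy, hxy⟩ := hcl
  have h1 : Ideal.span {x ^ q * a} = Ideal.span {y ^ q * a'} := by
    rw [← Ideal.span_singleton_mul_span_singleton, ← Ideal.span_singleton_mul_span_singleton,
      ← Ideal.span_singleton_pow, ← Ideal.span_singleton_pow, ← hD.pw, ← hD'.pw, ← mul_pow,
      ← mul_pow, hxy]
  rw [Ideal.span_singleton_eq_span_singleton] at h1
  obtain ⟨u, hu⟩ := h1.symm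
  have hsK : (s : K) ≠ 0 := fun h => hD.s0 (RingOfIntegers.ext h)
  have hsK' : (s' : K) ≠ 0 := fun h => hD'.s0 (RingOfIntegers.ext h)
  have hxK : (x : K) ≠ 0 := fun h => hx (RingOfIntegers.ext h)
  have hyK : (y : K) ≠ 0 := fun h => hy (RingOfIntegers.ext h)
  refine ⟨u, ((y : K) * s') / ((x : K) * s), div_ne_zero (mul_ne_zero hyK hsK')
    (mul_ne_zero hxK hsK), ?_⟩
  have h2 : (y : K) ^ q * (α' * (s' : K) ^ q) * ((u : 𝓞 K) : K) =
      (x : K) ^ q * (α * (s : K) ^ q) := by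
    rw [← hD.eq, ← hD'.eq]
    have := congrArg (fun z : 𝓞 K => (z : K)) hu
    push_cast at this
    exact this
  have h3 : ((x : K) * s) ^ q ≠ 0 := pow_ne_zero _ (mul_ne_zero hxK hsK)
  rw [div_pow, eq_comm, mul_div_assoc', div_mul_eq_mul_div, div_eq_iff h3, mul_pow, mul_pow]
  linear_combination h2

end Pool.Agent.Work.MP_59f3ad_nt.Tw

end

section

/-! Item Cpt of the block Tw of MP_59f3ad_nt (helper64). -/

universe u

namespace Pool.Agent.Work.MP_59f3ad_nt.Tw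

namespace CptX

theorem closed_dvd (p : ℕ) [Fact p.Prime] (m : ℕ) : IsClosed {a : ℤ_[p] | (p : ℤ_[p]) ^ m ∣ a} := by
  have h1 : {a : ℤ_[p] | (p : ℤ_[p]) ^ m ∣ a} = {a : ℤ_[p] | ‖a‖ ≤ (p : ℝ) ^ (-m : ℤ)} := by
    ext a
    rw [Set.mem_ofPred_eq, Set.mem_ofPred_eq, PadicInt.norm_le_pow_iff_mem_span_pow,
      Ideal.mem_span_singleton]
  rw [h1]
  exact isClosed_le continuous_norm continuous_const

theorem eq_zero_of_forall_dvd (p : ℕ) [Fact p.Prime] (a : ℤ_[p])
    (h : ∀ m : ℕ, (p : ℤ_[p]) ^ m ∣ a) : a = 0 := by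
  by_contra hne
  have h1 : ∀ m : ℕ, ‖a‖ ≤ (p : ℝ) ^ (-m : ℤ) := fun m =>
    (PadicInt.norm_le_pow_iff_mem_span_pow _ m).mpr (Ideal.mem_span_singleton.mpr (h m))
  have h2 : 0 < ‖a‖ := norm_pos_iff.mpr hne
  obtain ⟨k, hk⟩ := PadicInt.exists_pow_neg_lt p h2
  exact absurd (h1 k) (not_le.mpr hk)

theorem stepA (p : ℕ) [Fact p.Prime] (G : Type u) (k : ℕ) (c : Fin k → G → ℤ_[p])
    (hc : ∀ a : Fin k → ℤ_[p], (∀ g, ∑ i, a i * c i g = 0) → a = 0) :
    ∃ M0 : ℕ, ∀ b : Fin k → ℤ_[p], (∃ i, ‖b i‖ = 1) →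
      ¬ ∀ g, (p : ℤ_[p]) ^ M0 ∣ ∑ i, b i * c i g := by
  by_contra hcon
  push Not at hcon
  let C : ℕ → Set (Fin k → ℤ_[p]) := fun M =>
    {b | (∃ i, ‖b i‖ = 1) ∧ ∀ g, (p : ℤ_[p]) ^ M ∣ ∑ i, b i * c i g}
  have hclosed : ∀ M, IsClosed (C M) := by
    intro M
    have h1 : C M = (⋃ i, {b : Fin k → ℤ_[p] | ‖b i‖ = 1}) ∩
        ⋂ g, (fun b : Fin k → ℤ_[p] => ∑ i, b i * c i g) ⁻¹'
          {a : ℤ_[p] | (p : ℤ_[p]) ^ M ∣ a} := by
      ext b
      simp [C]
    rw [h1]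
    refine IsClosed.inter ?_ ?_
    · exact isClosed_iUnion_of_finite fun i =>
        isClosed_eq (continuous_norm.comp (continuous_apply i)) continuous_const
    · refine isClosed_iInter fun g => (closed_dvd p M).preimage ?_
      exact continuous_finsetSum _ fun i _ => (continuous_apply i).mul continuous_const
  obtain ⟨b, hb⟩ := IsCompact.nonempty_iInter_of_sequence_nonempty_isCompact_isClosed C
    (fun M b hb => ⟨hb.1, fun g => (pow_dvd_pow _ (Nat.le_succ M)).trans (hb.2 g)⟩)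
    (fun M => by
      obtain ⟨b, h1, h2⟩ := hcon M
      exact ⟨b, h1, h2⟩)
    (hclosed 0).isCompact hclosed
  rw [Set.mem_iInter] at hb
  have h0 : b = 0 := hc b fun g => eq_zero_of_forall_dvd p _ fun m => (hb m).2 g
  obtain ⟨i, hi⟩ := (hb 0).1
  rw [h0] at hi
  simp at hi

end CptX

open CptX in
theorem pr_Cpt : StCpt.{u} := by
  intro p _ G k c hc
  obtain ⟨M0, hM0⟩ := stepA p G k c hc
  refine ⟨M0, ?_⟩
  intro m b hb
  have hp : p.Prime := Fact.out
  have hp0 : (p : ℤ_[p]) ≠ 0 := by exact_mod_cast hp.ne_zero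
  have key : ∀ j : ℕ, j ≤ m - M0 → ∀ i, (p : ℤ_[p]) ^ j ∣ b i := by
    intro j
    induction j with
    | zero => intro _ i; simp
    | succ j ih =>
      intro hj
      have hj' := ih (by omega)
      choose b' hb' using hj'
      by_cases hu : ∃ i, ‖b' i‖ = 1
      · exfalso
        refine hM0 b' hu fun g => ?_
        have h1 := hb g
        have h2 : ∑ i, b i * c i g = (p : ℤ_[p]) ^ j * ∑ i, b' i * c i g := by
          rw [Finset.mul_sum]
          apply Finset.sum_congr rfl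
          intro i _
          rw [hb' i]
          ring
        have h3 : (p : ℤ_[p]) ^ m = (p : ℤ_[p]) ^ j * (p : ℤ_[p]) ^ (m - j) := by
          rw [← pow_add]
          congr 1
          omega
        rw [h2, h3] at h1
        have h4 := (mul_dvd_mul_iff_left (pow_ne_zero j hp0)).mp h1
        exact (pow_dvd_pow _ (by omega)).trans h4
      · push Not at hu
        intro i
        have h1 : ‖b' i‖ < 1 := lt_of_le_of_ne (PadicInt.norm_le_one _) (hu i)
        have h2 : (p : ℤ_[p]) ∣ b' i := PadicInt.norm_lt_one_iff_dvd _ |>.mp h1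
        rw [hb' i, pow_succ]
        exact mul_dvd_mul_left _ h2
  exact key (m - M0) le_rfl

end Pool.Agent.Work.MP_59f3ad_nt.Tw

end

section

/-! Divisibility of `u ^ s - 1` for `p - 1 ∣ s`. -/

namespace Pool.Agent.Work.MP_59f3ad_nt.Tw

namespace EpsX

theorem unit_dvd {R : Type*} [CommRing R] (y : Rˣ) (r : ℤ) :
    (y : R) - 1 ∣ ((y ^ r : Rˣ) : R) - 1 := by
  have hn : ∀ n : ℕ, (y : R) - 1 ∣ ((y ^ n : Rˣ) : R) - 1 := fun n => by
    have := sub_dvd_pow_sub_pow (y : R) 1 n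
    simpa using this
  obtain ⟨n, rfl | rfl⟩ := r.eq_nat_or_neg
  · rw [zpow_natCast]; exact hn n
  · have h : ((y ^ (-(n : ℤ)) : Rˣ) : R) - 1 =
        -((y ^ (-(n : ℤ)) : Rˣ) : R) * (((y ^ n : Rˣ) : R) - 1) := by
      have h1 : ((y ^ (-(n : ℤ)) : Rˣ) : R) * ((y ^ n : Rˣ) : R) = 1 := by
        rw [← Units.val_mul, zpow_neg, zpow_natCast, inv_mul_cancel, Units.val_one]
      linear_combination h1
    rw [h]
    exact Dvd.dvd.mul_left (hn n) _

theorem p_dvd (p : ℕ) [Fact p.Prime] (u : ℤ_[p]ˣ) :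
    (p : ℤ_[p]) ∣ ((u ^ (p - 1) : ℤ_[p]ˣ) : ℤ_[p]) - 1 := by
  have hu : PadicInt.toZMod (u : ℤ_[p]) ≠ 0 := by
    have : IsUnit (PadicInt.toZMod (u : ℤ_[p])) := u.isUnit.map _
    exact this.ne_zero
  have h : PadicInt.toZMod (((u ^ (p - 1) : ℤ_[p]ˣ) : ℤ_[p]) - 1) = 0 := by
    rw [map_sub, Units.val_pow_eq_pow_val, map_pow, ZMod.pow_card_sub_one_eq_one hu, map_one,
      sub_self]
  have h2 : (((u ^ (p - 1) : ℤ_[p]ˣ) : ℤ_[p]) - 1) ∈ RingHom.ker (PadicInt.toZMod (p := p)) := h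
  rw [PadicInt.ker_toZMod, PadicInt.maximalIdeal_eq_span_p, Ideal.mem_span_singleton] at h2
  exact h2

end EpsX

theorem pr_Eps : StEps := by
  intro p _ u s hs hs0
  have hp : p.Prime := Fact.out
  obtain ⟨q, rfl⟩ := hs
  have hq0 : q ≠ 0 := right_ne_zero_of_mul hs0
  have hp0 : ((p : ℤ) - 1) ≠ 0 := left_ne_zero_of_mul hs0
  have hnd : ¬ (p : ℤ) ∣ (p : ℤ) - 1 := by
    intro h
    have h1 : (p : ℤ) ∣ 1 := by
      have := dvd_sub (dvd_refl (p : ℤ)) h
      simpa using this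
    have h2 : p ∣ 1 := by exact_mod_cast h1
    exact hp.one_lt.ne' (Nat.dvd_one.1 h2)
  have hval : padicValInt p (((p : ℤ) - 1) * q) = padicValInt p q := by
    rw [padicValInt.mul hp0 hq0, padicValInt.eq_zero_of_not_dvd hnd, zero_add]
  rw [hval]
  obtain ⟨q', hq'⟩ : (p : ℤ) ^ (padicValInt p q) ∣ q := by
    exact padicValInt_dvd q
  set a := padicValInt p q with ha
  have hx : u ^ (((p : ℤ) - 1) * q) = ((u ^ (p - 1)) ^ (p ^ a)) ^ q' := by
    have h1 : (p : ℤ) - 1 = ((p - 1 : ℕ) : ℤ) := by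
      rw [Nat.cast_sub hp.one_lt.le]; simp
    conv_lhs => rw [hq', h1, zpow_mul, zpow_mul, zpow_natCast]
    rw [← Nat.cast_pow, zpow_natCast]
  rw [hx]
  refine dvd_trans ?_ (EpsX.unit_dvd _ q')
  have := dvd_sub_pow_of_dvd_sub (EpsX.p_dvd p u) a
  rw [one_pow] at this
  rw [Units.val_pow_eq_pow_val _ (p ^ a), add_comm 1 a]
  exact this

end Pool.Agent.Work.MP_59f3ad_nt.Tw

end

section

/-!
A polynomial bound for the class number in terms of the discriminant.
-/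

open NumberField IsDedekindDomain Polynomial

namespace Pool.Agent.Work.MP_59f3ad_nt.Tw

universe u

namespace HclX

open scoped nonZeroDivisors

theorem mink (K : Type u) [Field K] [NumberField K] (C : ClassGroup (𝓞 K)) :
    ∃ I : (Ideal (𝓞 K))⁰, ClassGroup.mk0 I = C ∧
      Ideal.absNorm (I : Ideal (𝓞 K)) ≤ 2 ^ (Module.finrank ℚ K) * (discr K).natAbs := by
  obtain ⟨I, hI, hN⟩ := NumberField.exists_ideal_in_class_of_norm_le C
  refine ⟨I, hI, ?_⟩
  set d := Module.finrank ℚ K with hd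
  have hD : (1 : ℝ) ≤ |((discr K : ℤ) : ℝ)| := by
    have h1 : (1 : ℤ) ≤ |discr K| := Int.one_le_abs (discr_ne_zero K)
    exact_mod_cast h1
  have hr2 : InfinitePlace.nrComplexPlaces K ≤ d := by
    have := InfinitePlace.card_add_two_mul_card_eq_rank K
    omega
  have hpi : (4 / Real.pi : ℝ) ≤ 2 := by
    rw [div_le_iff₀ Real.pi_pos]
    linarith [Real.pi_gt_three]
  have h4 : (4 / Real.pi : ℝ) ^ InfinitePlace.nrComplexPlaces K ≤ 2 ^ d := by
    calc (4 / Real.pi : ℝ) ^ InfinitePlace.nrComplexPlaces K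
        ≤ 2 ^ InfinitePlace.nrComplexPlaces K := by
          apply pow_le_pow_left₀ _ hpi
          positivity
      _ ≤ 2 ^ d := pow_le_pow_right₀ (by norm_num) hr2
  have hf : ((d.factorial : ℝ) / (d : ℝ) ^ d) ≤ 1 := by
    apply div_le_one_of_le₀ _ (by positivity)
    exact_mod_cast Nat.factorial_le_pow d
  have hs : √|((discr K : ℤ) : ℝ)| ≤ |((discr K : ℤ) : ℝ)| := by
    rw [Real.sqrt_le_left (by positivity)]
    nlinarith
  have hM : (4 / Real.pi : ℝ) ^ InfinitePlace.nrComplexPlaces K *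
      (((d.factorial : ℝ) / (d : ℝ) ^ d) * √|((discr K : ℤ) : ℝ)|) ≤
      2 ^ d * |((discr K : ℤ) : ℝ)| := by
    have h5 : ((d.factorial : ℝ) / (d : ℝ) ^ d) * √|((discr K : ℤ) : ℝ)| ≤
        |((discr K : ℤ) : ℝ)| := by
      calc ((d.factorial : ℝ) / (d : ℝ) ^ d) * √|((discr K : ℤ) : ℝ)|
          ≤ 1 * √|((discr K : ℤ) : ℝ)| := by
            apply mul_le_mul_of_nonneg_right hf (Real.sqrt_nonneg _)
        _ ≤ _ := by rw [one_mul]; exact hs
    apply mul_le_mul h4 h5 (by positivity) (by positivity)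
  have hN' := hN.trans hM
  have hc : |((discr K : ℤ) : ℝ)| = (((discr K).natAbs : ℕ) : ℝ) := by
    rw [Nat.cast_natAbs, Int.cast_abs]
  rw [hc] at hN'
  exact_mod_cast hN'

theorem count (K : Type u) [Field K] [NumberField K] (M : ℕ)
    (h : ∀ C : ClassGroup (𝓞 K), ∃ I : (Ideal (𝓞 K))⁰, ClassGroup.mk0 I = C ∧
      Ideal.absNorm (I : Ideal (𝓞 K)) ≤ M) :
    classNumber K ≤ M ^ (Module.finrank ℚ K) * M := by
  classical
  choose I hI hN using h
  have hpos : ∀ C, 1 ≤ Ideal.absNorm (I C : Ideal (𝓞 K)) := fun C => by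
    rw [Nat.one_le_iff_ne_zero]
    exact Ideal.absNorm_ne_zero_of_nonZeroDivisors (I C)
  have hgen : ∀ C, ∃ y : 𝓞 K, (I C : Ideal (𝓞 K)) =
      Ideal.span {((Ideal.absNorm (I C : Ideal (𝓞 K)) : ℕ) : 𝓞 K), y} := fun C => by
    apply IsDedekindDomain.exists_eq_span_pair (Ideal.absNorm_mem _)
    exact_mod_cast (Nat.one_le_iff_ne_zero.mp (hpos C))
  choose y hy using hgen
  unfold classNumber
  have key := Finset.card_le_mul_card_image_of_maps_to (s := (Finset.univ : Finset (ClassGroup (𝓞 K))))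
    (t := Finset.Icc 1 M) (f := fun C => Ideal.absNorm (I C : Ideal (𝓞 K)))
    (fun C _ => Finset.mem_Icc.mpr ⟨hpos C, hN C⟩) (M ^ (Module.finrank ℚ K)) ?_
  · simpa using key
  intro n hn
  rw [Finset.mem_Icc] at hn
  have hcard : Nat.card (𝓞 K ⧸ (Ideal.span {((n : ℕ) : 𝓞 K)} : Ideal (𝓞 K))) =
      n ^ (Module.finrank ℚ K) := by
    have := Ideal.absNorm_span_natCast (S := 𝓞 K) n
    rw [RingOfIntegers.rank] at this
    rw [← this]
    rfl
  have hfin : Finite (𝓞 K ⧸ (Ideal.span {((n : ℕ) : 𝓞 K)} : Ideal (𝓞 K))) := by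
    apply Nat.finite_of_card_ne_zero
    rw [hcard]
    exact pow_ne_zero _ (by omega)
  let g : {C : ClassGroup (𝓞 K) // Ideal.absNorm (I C : Ideal (𝓞 K)) = n} →
      𝓞 K ⧸ (Ideal.span {((n : ℕ) : 𝓞 K)} : Ideal (𝓞 K)) := fun C => Ideal.Quotient.mk _ (y C.1)
  have hg : Function.Injective g := by
    rintro ⟨C, hC⟩ ⟨C', hC'⟩ hgg
    have h1 : y C - y C' ∈ (Ideal.span {((n : ℕ) : 𝓞 K)} : Ideal (𝓞 K)) :=
      Ideal.Quotient.eq.mp hgg
    obtain ⟨z, hz⟩ := Ideal.mem_span_singleton'.mp h1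
    have h2 : (I C : Ideal (𝓞 K)) = (I C' : Ideal (𝓞 K)) := by
      rw [hy C, hy C', hC, hC']
      have h3 : y C = y C' + z * (n : 𝓞 K) := by rw [hz]; ring
      rw [h3]
      exact Ideal.span_pair_add_mul_left _ _ z
    have h4 : I C = I C' := Subtype.ext h2
    have h5 : C = C' := by rw [← hI C, ← hI C', h4]
    exact Subtype.ext h5
  have h6 := Nat.card_le_card_of_injective g hg
  rw [hcard] at h6
  have h7 : (Finset.univ.filter fun C : ClassGroup (𝓞 K) =>
      Ideal.absNorm (I C : Ideal (𝓞 K)) = n).card =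
      Nat.card {C : ClassGroup (𝓞 K) // Ideal.absNorm (I C : Ideal (𝓞 K)) = n} := by
    rw [Nat.card_eq_fintype_card, Fintype.card_subtype]
  rw [h7]
  exact h6.trans (Nat.pow_le_pow_left hn.2 _)

end HclX

theorem pr_Hcl : StHcl.{u} := by
  intro d
  refine ⟨2 ^ (d * (d + 1)) + (d + 1), ?_⟩
  intro K _ _ hd
  have h1 := HclX.count K (2 ^ (Module.finrank ℚ K) * (discr K).natAbs) (HclX.mink K)
  rw [hd] at h1
  have hD : 1 ≤ (discr K).natAbs := by
    have := discr_ne_zero K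
    omega
  calc classNumber K ≤ (2 ^ d * (discr K).natAbs) ^ d * (2 ^ d * (discr K).natAbs) := h1
    _ = 2 ^ (d * (d + 1)) * (discr K).natAbs ^ (d + 1) := by ring
    _ ≤ (2 ^ (d * (d + 1)) + (d + 1)) * (discr K).natAbs ^ (2 ^ (d * (d + 1)) + (d + 1)) := by
        apply Nat.mul_le_mul (Nat.le_add_right _ _)
        exact Nat.pow_le_pow_right hD (Nat.le_add_left _ _)

end Pool.Agent.Work.MP_59f3ad_nt.Tw

end

section

/-!
# Item Idx: bounds for the index and the discriminant in terms of the size of a generator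
-/

open NumberField IsDedekindDomain Polynomial Matrix

namespace Pool.Agent.Work.MP_59f3ad_nt.Tw

universe u

namespace IdxX

/-- The index constant from a multiplier `ν`. -/
theorem index_const {K : Type u} [Field K] [NumberField K] (p : ℕ) (hp : p.Prime) (d : ℕ)
    (x : 𝓞 K) (hv : LinearIndependent ℤ (fun i : Fin d => x ^ (i : ℕ))) (ν : ℕ) (hν0 : ν ≠ 0)
    (hν : ∀ z : 𝓞 K, (ν : ℤ) • z ∈ Submodule.span ℤ (Set.range (fun i : Fin d => x ^ (i : ℕ)))) :
    ∃ c1 : ℕ, IdxC K x d p c1 ∧ p ^ c1 ≤ ν := by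
  obtain ⟨c1, ν', hν', hνeq⟩ := Nat.exists_eq_pow_mul_and_not_dvd hν0 p hp.ne_one
  refine ⟨c1, fun k c ⟨z, hz⟩ i hi => ?_, ?_⟩
  · have h1 := hν z
    rw [Submodule.mem_span_range_iff_exists_fun] at h1
    obtain ⟨b, hb⟩ := h1
    have h2 : ∑ i : Fin d, ((ν : ℤ) * c i - (p : ℤ) ^ k * b i) • x ^ (i : ℕ) = 0 := by
      have h3 : ∑ i : Fin d, ((ν : ℤ) * c i - (p : ℤ) ^ k * b i) • x ^ (i : ℕ) =
          (ν : 𝓞 K) * (∑ i ∈ Finset.range d, (c i : 𝓞 K) * x ^ i) -
            (p : 𝓞 K) ^ k * ∑ i : Fin d, b i • x ^ (i : ℕ) := by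
        rw [← Fin.sum_univ_eq_sum_range (fun i => (c i : 𝓞 K) * x ^ i), Finset.mul_sum,
          Finset.mul_sum, ← Finset.sum_sub_distrib]
        refine Finset.sum_congr rfl fun j _ => ?_
        simp only [zsmul_eq_mul]
        push_cast
        ring
      rw [h3, hb, hz, zsmul_eq_mul]
      push_cast
      ring
    have h4 := (Fintype.linearIndependent_iff.mp hv) _ h2 ⟨i, hi⟩
    simp only at h4
    have h5 : (p : ℤ) ^ k ∣ (ν : ℤ) * c i := ⟨b ⟨i, hi⟩, by linarith⟩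
    rw [hνeq] at h5
    push_cast at h5
    rcases lt_or_ge k c1 with h | h
    · rw [Nat.sub_eq_zero_of_le h.le, pow_zero]; exact one_dvd _
    · have h6 : (p : ℤ) ^ k = (p : ℤ) ^ c1 * (p : ℤ) ^ (k - c1) := by
        rw [← pow_add]; congr 1; omega
      rw [h6, mul_assoc, mul_dvd_mul_iff_left (pow_ne_zero _ (by exact_mod_cast hp.ne_zero))] at h5
      have hc : IsCoprime ((p : ℤ) ^ (k - c1)) (ν' : ℤ) := by
        refine IsCoprime.pow_left ?_
        rw [Nat.isCoprime_iff_coprime]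
        exact (Nat.Prime.coprime_iff_not_dvd hp).mpr hν'
      exact hc.dvd_of_dvd_mul_left h5
  · refine Nat.le_of_dvd (Nat.pos_of_ne_zero hν0) ?_
    rw [hνeq]
    exact dvd_mul_right _ _

/-- The determinant of the powers of a generator with respect to an integral basis. -/
theorem exists_det {K : Type u} [Field K] [NumberField K] (d : ℕ)
    (x : 𝓞 K) (hv : LinearIndependent ℤ (fun i : Fin d => x ^ (i : ℕ)))
    (hd : d = Module.finrank ℚ K) (R : ℝ) (hR : 1 ≤ R) (hx : ∀ σ : K →+* ℂ, ‖σ (x : K)‖ ≤ R) :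
    ∃ δ : ℤ, δ ≠ 0 ∧
      (∀ z : 𝓞 K, δ • z ∈ Submodule.span ℤ (Set.range (fun i : Fin d => x ^ (i : ℕ)))) ∧
      (δ : ℝ) ^ 2 * |((discr K : ℤ) : ℝ)| ≤ (d.factorial * R ^ (d * d)) ^ 2 := by
  classical
  have hcard : Fintype.card (Module.Free.ChooseBasisIndex ℤ (𝓞 K)) = d := by
    rw [← Module.finrank_eq_card_chooseBasisIndex, RingOfIntegers.rank, hd]
  let e : Module.Free.ChooseBasisIndex ℤ (𝓞 K) ≃ Fin d := Fintype.equivFinOfCardEq hcard
  set B := RingOfIntegers.basis K with hB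
  set P : Matrix (Module.Free.ChooseBasisIndex ℤ (𝓞 K)) (Module.Free.ChooseBasisIndex ℤ (𝓞 K)) ℤ :=
    Matrix.of fun i j => B.repr (x ^ ((e j : Fin d) : ℕ)) i with hP
  have hPsum : ∀ j, ∑ i, P i j • B i = x ^ ((e j : Fin d) : ℕ) := by
    intro j
    simp only [hP, Matrix.of_apply]
    exact B.sum_repr _
  refine ⟨P.det, ?_, ?_, ?_⟩
  · -- the determinant does not vanish
    intro h0
    obtain ⟨c, hc0, hc⟩ := Matrix.exists_mulVec_eq_zero_iff.mpr h0
    apply hc0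
    have h1 : ∑ k : Fin d, c (e.symm k) • x ^ (k : ℕ) = 0 := by
      have h2 : ∑ k : Fin d, c (e.symm k) • x ^ (k : ℕ) =
          ∑ j, c j • x ^ ((e j : Fin d) : ℕ) := by
        rw [← Equiv.sum_comp e]
        simp
      rw [h2]
      calc ∑ j, c j • x ^ ((e j : Fin d) : ℕ) = ∑ j, ∑ i, (P i j * c j) • B i := by
            refine Finset.sum_congr rfl fun j _ => ?_
            rw [← hPsum j, Finset.smul_sum]
            refine Finset.sum_congr rfl fun i _ => ?_
            rw [smul_smul, mul_comm]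
        _ = ∑ i, (P *ᵥ c) i • B i := by
            rw [Finset.sum_comm]
            refine Finset.sum_congr rfl fun i _ => ?_
            rw [← Finset.sum_smul]
            rfl
        _ = 0 := by rw [hc]; simp
    have h3 := Fintype.linearIndependent_iff.mp hv _ h1
    funext j
    have := h3 (e j)
    simpa using this
  · -- multiples of the determinant
    intro z
    set w := P.adjugate *ᵥ (fun i => B.repr z i) with hw
    have h1 : P.det • z = ∑ j, w j • x ^ ((e j : Fin d) : ℕ) := by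
      symm
      calc ∑ j, w j • x ^ ((e j : Fin d) : ℕ) = ∑ j, ∑ i, (P i j * w j) • B i := by
            refine Finset.sum_congr rfl fun j _ => ?_
            rw [← hPsum j, Finset.smul_sum]
            refine Finset.sum_congr rfl fun i _ => ?_
            rw [smul_smul, mul_comm]
        _ = ∑ i, (P *ᵥ w) i • B i := by
            rw [Finset.sum_comm]
            refine Finset.sum_congr rfl fun i _ => ?_
            rw [← Finset.sum_smul]
            rfl
        _ = ∑ i, P.det • (B.repr z i • B i) := by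
            refine Finset.sum_congr rfl fun i _ => ?_
            rw [hw, Matrix.mulVec_mulVec, Matrix.mul_adjugate, Matrix.smul_mulVec,
              Matrix.one_mulVec, Pi.smul_apply, smul_eq_mul, mul_smul]
        _ = P.det • z := by
            rw [← Finset.smul_sum, B.sum_repr]
    rw [h1]
    refine Submodule.sum_mem _ fun j _ => Submodule.smul_mem _ _ (Submodule.subset_span ⟨e j, rfl⟩)
  · -- the size of the determinant
    let e' : Module.Free.ChooseBasisIndex ℤ (𝓞 K) ≃ (K →ₐ[ℚ] ℂ) :=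
      Fintype.equivOfCardEq (by rw [hcard, hd, AlgHom.card ℚ K ℂ])
    have h1 : Algebra.discr ℚ (fun j => (x : K) ^ ((e j : Fin d) : ℕ)) =
        ((P.det : ℤ) : ℚ) ^ 2 * ((discr K : ℤ) : ℚ) := by
      have h2 : (fun j => (x : K) ^ ((e j : Fin d) : ℕ)) =
          (integralBasis K) ᵥ* (P.map (Int.cast : ℤ → ℚ)).map (algebraMap ℚ K) := by
        funext j
        have h3 := congrArg (algebraMap (𝓞 K) K) (hPsum j)
        rw [map_sum, map_pow] at h3
        rw [← h3]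
        simp only [Matrix.vecMul, dotProduct, Matrix.map_apply, integralBasis_apply]
        refine Finset.sum_congr rfl fun i _ => ?_
        rw [zsmul_eq_mul, map_mul]
        simp [mul_comm, ← hB]
      rw [h2, Algebra.discr_of_matrix_vecMul, coe_discr]
      congr 2
      exact (Int.cast_det P).symm
    have h4 := Algebra.discr_eq_det_embeddingsMatrixReindex_pow_two ℚ ℂ
      (fun j => (x : K) ^ ((e j : Fin d) : ℕ)) e'
    rw [h1] at h4
    set D := (Algebra.embeddingsMatrixReindex ℚ ℂ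
      (fun j => (x : K) ^ ((e j : Fin d) : ℕ)) e').det with hD
    have h5 : ‖D‖ ≤ d.factorial * R ^ (d * d) := by
      have h6 := Matrix.det_le (A := Algebra.embeddingsMatrixReindex ℚ ℂ
        (fun j => (x : K) ^ ((e j : Fin d) : ℕ)) e') (abv := NormedField.toAbsoluteValue ℂ)
        (x := R ^ d) (by
          intro i j
          have h8 : ∀ z : ℂ, NormedField.toAbsoluteValue ℂ z = ‖z‖ := fun _ => rfl
          rw [h8]
          simp only [Algebra.embeddingsMatrixReindex, Algebra.embeddingsMatrix,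
            Matrix.reindex_apply, Matrix.submatrix_apply, Matrix.of_apply, map_pow, norm_pow]
          calc _ ≤ R ^ ((e ((Equiv.refl _).symm i) : Fin d) : ℕ) := by
                gcongr
                exact hx _
            _ ≤ R ^ d := pow_le_pow_right₀ hR (Fin.is_le')
          )
      rw [hcard, nsmul_eq_mul, ← pow_mul] at h6
      exact h6
    have h7 : (P.det : ℝ) ^ 2 * |((discr K : ℤ) : ℝ)| = ‖D‖ ^ 2 := by
      rw [← norm_pow, ← h4]
      simp
    rw [h7]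
    gcongr

end IdxX

theorem pr_Idx : StIdx.{u} := by
  intro K _ _ d x hv hd R hR hx
  obtain ⟨δ, hδ0, hδ, hδR⟩ := IdxX.exists_det d x hv hd R hR hx
  have hB : 0 ≤ (d.factorial : ℝ) * R ^ (d * d) := by positivity
  have h1 : (1 : ℝ) ≤ |((discr K : ℤ) : ℝ)| := by
    have := Int.one_le_abs (discr_ne_zero K)
    exact_mod_cast this
  have h2 : (1 : ℝ) ≤ (δ : ℝ) ^ 2 := by
    have h3 : (1 : ℤ) ≤ δ ^ 2 := by
      have := Int.one_le_abs hδ0
      nlinarith [sq_abs δ, abs_nonneg δ]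
    exact_mod_cast h3
  refine ⟨?_, ?_⟩
  · refine le_trans ?_ hδR
    nlinarith [abs_nonneg ((discr K : ℤ) : ℝ)]
  · intro p hp
    have h4 : |(δ : ℝ)| ≤ d.factorial * R ^ (d * d) := by
      apply abs_le_of_sq_le_sq' _ hB |> abs_le.mpr
      refine le_trans ?_ hδR
      nlinarith [sq_nonneg (δ : ℝ)]
    obtain ⟨c1, h5, h6⟩ := IdxX.index_const p hp d x hv δ.natAbs (Int.natAbs_ne_zero.mpr hδ0) (by
      intro z
      have h7 := hδ z
      rcases Int.natAbs_eq δ with h | h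
      · rw [h] at h7
        exact h7
      · rw [h, neg_smul] at h7
        exact (Submodule.neg_mem_iff _).mp h7)
    refine ⟨c1, h5, ?_⟩
    refine le_trans ?_ h4
    have h8 : ((p ^ c1 : ℕ) : ℝ) ≤ ((δ.natAbs : ℕ) : ℝ) := by exact_mod_cast h6
    rw [Nat.cast_natAbs] at h8
    push_cast at h8
    exact h8

end Pool.Agent.Work.MP_59f3ad_nt.Tw

end

section

/-!
# Counting in `(ℤ/p^m)^k`
-/

namespace Pool.Agent.Work.MP_59f3ad_nt.Tw

namespace LatX

lemma inj_aux {p m : ℕ} [hp : Fact p.Prime] {e : ℕ} (he : e ≤ m) {i j : ℕ} (hi : i < p ^ e)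
    (hj : j < p ^ e) (h : ((p ^ (m - e) * i : ℕ) : ZMod (p ^ m)) =
      ((p ^ (m - e) * j : ℕ) : ZMod (p ^ m))) : i = j := by
  have hpos : 0 < p ^ (m - e) := pow_pos hp.out.pos _
  have hlt : ∀ k, k < p ^ e → p ^ (m - e) * k < p ^ m := by
    intro k hk
    calc p ^ (m - e) * k < p ^ (m - e) * p ^ e := Nat.mul_lt_mul_of_pos_left hk hpos
      _ = p ^ m := by rw [← pow_add]; congr 1; omega
  rw [ZMod.natCast_eq_natCast_iff', Nat.mod_eq_of_lt (hlt i hi), Nat.mod_eq_of_lt (hlt j hj)] at h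
  exact Nat.eq_of_mul_eq_mul_left hpos h

lemma zero_aux {p m : ℕ} {e : ℕ} (he : e ≤ m) (i : ℕ) {x : ZMod (p ^ m)}
    (hx : (p : ZMod (p ^ m)) ^ e ∣ x) :
    x * ((p ^ (m - e) * i : ℕ) : ZMod (p ^ m)) = 0 := by
  obtain ⟨y, rfl⟩ := hx
  have h0 : (p : ZMod (p ^ m)) ^ e * (p : ZMod (p ^ m)) ^ (m - e) = 0 := by
    rw [← pow_add, Nat.add_sub_cancel' he, ← Nat.cast_pow, ZMod.natCast_self]
  push_cast
  linear_combination (y * i) * h0

end LatX

open LatX in
theorem pr_Lat : StLat := by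
  intro p m k hp e he ε hε B0 hB hS
  classical
  have : NeZero (p ^ m) := ⟨pow_ne_zero _ hp.out.ne_zero⟩
  let D : (Fin k → ZMod (p ^ m)) →+ (Fin k → ZMod (p ^ m)) :=
    { toFun := fun b i => ε i * b i
      map_zero' := by ext i; simp
      map_add' := fun a b => by ext i; simp [mul_add] }
  have hDa : ∀ b, D b = fun i => ε i * b i := fun b => rfl
  let K1 : AddSubgroup (Fin k → ZMod (p ^ m)) := B0.comap D
  have hle : B0 ≤ K1 := fun b hb => hB b hb
  let f : K1 →+ B0 := (D.comp K1.subtype).codRestrict B0 (fun x => x.2)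
  have hf : Function.Surjective f := by
    rintro ⟨b, hb⟩
    obtain ⟨x, hx⟩ := hS b hb
    have hxK : x ∈ K1 := by
      show D x ∈ B0
      rw [hDa, hx]; exact hb
    refine ⟨⟨x, hxK⟩, ?_⟩
    apply Subtype.ext
    exact hx
  have c1 : Nat.card K1 = Nat.card B0 * Nat.card f.ker := by
    rw [AddSubgroup.card_eq_card_quotient_mul_card_addSubgroup f.ker]
    congr 1
    exact Nat.card_congr (QuotientAddGroup.quotientKerEquivOfSurjective f hf).toEquiv
  have c2 : Nat.card K1 = Nat.card (K1 ⧸ B0.addSubgroupOf K1) * Nat.card B0 := by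
    rw [AddSubgroup.card_eq_card_quotient_mul_card_addSubgroup (B0.addSubgroupOf K1)]
    congr 1
    exact Nat.card_congr (AddSubgroup.addSubgroupOfEquivOfLe hle).toEquiv
  have c3 : Nat.card (K1 ⧸ B0.addSubgroupOf K1) = Nat.card f.ker := by
    have h0 : 0 < Nat.card B0 := Nat.card_pos
    refine Nat.eq_of_mul_eq_mul_left h0 ?_
    rw [mul_comm, ← c2, c1]
  have c4 : p ^ (∑ i, e i) ≤ Nat.card f.ker := by
    have hc : Nat.card (∀ i : Fin k, Fin (p ^ e i)) = p ^ (∑ i, e i) := by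
      rw [Nat.card_pi]
      simp [Finset.prod_pow_eq_pow_sum]
    rw [← hc]
    have hz : ∀ j : (∀ i : Fin k, Fin (p ^ e i)),
        D (fun i => ((p ^ (m - e i) * (j i : ℕ) : ℕ) : ZMod (p ^ m))) = 0 := by
      intro j
      rw [hDa]
      funext i
      exact zero_aux (he i) _ (hε i)
    have hk : ∀ j : (∀ i : Fin k, Fin (p ^ e i)),
        (fun i => ((p ^ (m - e i) * (j i : ℕ) : ℕ) : ZMod (p ^ m))) ∈ K1 := by
      intro j
      show D _ ∈ B0
      rw [hz]
      exact B0.zero_mem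
    let g : (∀ i : Fin k, Fin (p ^ e i)) → f.ker := fun j =>
      ⟨⟨fun i => ((p ^ (m - e i) * (j i : ℕ) : ℕ) : ZMod (p ^ m)), hk j⟩, by
        rw [AddMonoidHom.mem_ker]
        apply Subtype.ext
        exact hz j⟩
    refine Nat.card_le_card_of_injective g ?_
    intro j j' hjj
    have h1 : (fun i => ((p ^ (m - e i) * (j i : ℕ) : ℕ) : ZMod (p ^ m))) =
        (fun i => ((p ^ (m - e i) * (j' i : ℕ) : ℕ) : ZMod (p ^ m))) :=
      congrArg (fun z : f.ker => ((z : K1) : Fin k → ZMod (p ^ m))) hjj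
    funext i
    apply Fin.ext
    exact inj_aux (he i) (j i).2 (j' i).2 (congrFun h1 i)
  have hinj : Function.Injective (fun q : K1 ⧸ B0.addSubgroupOf K1 =>
      ((Quotient.out q : K1) : Fin k → ZMod (p ^ m))) := by
    intro q q' h
    have h1 : (Quotient.out q : K1) = Quotient.out q' := Subtype.ext h
    rw [← Quotient.out_eq q, ← Quotient.out_eq q', h1]
  have : Finite (K1 ⧸ B0.addSubgroupOf K1) := inferInstance
  let _ : Fintype (K1 ⧸ B0.addSubgroupOf K1) := Fintype.ofFinite _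
  refine ⟨Finset.univ.image (fun q : K1 ⧸ B0.addSubgroupOf K1 =>
      ((Quotient.out q : K1) : Fin k → ZMod (p ^ m))), ?_, ?_, ?_⟩
  · intro b hb
    obtain ⟨q, -, rfl⟩ := Finset.mem_image.1 hb
    exact (Quotient.out q : K1).2
  · intro b hb b' hb' hd
    obtain ⟨q, -, rfl⟩ := Finset.mem_image.1 hb
    obtain ⟨q', -, rfl⟩ := Finset.mem_image.1 hb'
    have h1 : q = q' := by
      rw [← QuotientAddGroup.out_eq' q, ← QuotientAddGroup.out_eq' q', QuotientAddGroup.eq]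
      rw [AddSubgroup.mem_addSubgroupOf]
      have h2 := B0.neg_mem hd
      convert h2 using 1
      simp only [AddSubgroup.coe_add, AddSubgroup.coe_neg]
      abel
    rw [h1]
  · rw [Finset.card_image_of_injective _ hinj, Finset.card_univ, ← Nat.card_eq_fintype_card, c3]
    exact c4

end Pool.Agent.Work.MP_59f3ad_nt.Tw

end

section

/-!
A cocycle modulo `p^m` which is a combination of coboundaries of other twists, on a monoid, is a
coboundary modulo `p^m`.
-/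

namespace Pool.Agent.Work.MP_59f3ad_nt.Tw

universe u

namespace LocX

variable {p : ℕ} [Fact p.Prime]

theorem dvd_of_not_isUnit {x : ℤ_[p]} (h : ¬ IsUnit x) : (p : ℤ_[p]) ∣ x := by
  have h1 : x ∈ IsLocalRing.maximalIdeal ℤ_[p] := h
  rw [PadicInt.maximalIdeal_eq_span_p, Ideal.mem_span_singleton] at h1
  exact h1

theorem exists_not_dvd {x : ℤ_[p]} (h : x ≠ 0) : ∃ n : ℕ, ¬ (p : ℤ_[p]) ^ (n + 1) ∣ x := by
  by_contra hc
  push Not at hc
  have hp : (p : ℤ_[p]) ≠ 0 := by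
    exact_mod_cast (Fact.out : p.Prime).ne_zero
  have hu : ¬ IsUnit (p : ℤ_[p]) := PadicInt.prime_p.not_isUnit
  have hfin := FiniteMultiplicity.of_not_isUnit hu h
  obtain ⟨n, hn⟩ := hfin
  exact hn (hc n)

end LocX

open LocX in
theorem pr_Loc : StPow → StZp → StLoc.{u} := by
  intro hPow hZp p _ hp2 G _ χ k m r b y F hF hco
  have hcomm : ∀ g h, F (g * h) = F (h * g) := by
    intro g h
    rw [hF, hF, map_mul, map_mul, mul_comm (χ g) (χ h)]
  by_cases hA : ∃ h0, IsUnit ((χ h0 : ℤ_[p]) - 1)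
  · obtain ⟨h0, u, hu⟩ := hA
    refine ⟨F h0 * ((u⁻¹ : ℤ_[p]ˣ) : ℤ_[p]), fun h => ?_⟩
    have h1 := hco h h0
    have h2 := hco h0 h
    rw [hcomm h h0] at h1
    have h3 := dvd_sub h1 h2
    have hui : (u : ℤ_[p]) * ((u⁻¹ : ℤ_[p]ˣ) : ℤ_[p]) = 1 := by simp
    have h4 : F h - ((χ h : ℤ_[p]) - 1) * (F h0 * ((u⁻¹ : ℤ_[p]ˣ) : ℤ_[p])) =
        (F (h0 * h) - (F h + (χ h : ℤ_[p]) * F h0) -
          (F (h0 * h) - (F h0 + (χ h0 : ℤ_[p]) * F h))) * ((u⁻¹ : ℤ_[p]ˣ) : ℤ_[p]) := by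
      have e : (χ h0 : ℤ_[p]) = u + 1 := by rw [hu]; ring
      rw [e]
      linear_combination (- F h) * hui
    rw [h4]
    exact Dvd.dvd.mul_right h3 _
  · push Not at hA
    have hdv : ∀ h, (p : ℤ_[p]) ∣ (χ h : ℤ_[p]) - 1 := fun h => dvd_of_not_isUnit (hA h)
    by_cases hB : ∀ h, (χ h : ℤ_[p]) - 1 = 0
    · refine ⟨0, fun h => ?_⟩
      have hχ : χ h = 1 := by
        apply Units.ext
        rw [Units.val_one]
        exact sub_eq_zero.1 (hB h)
      have : F h = 0 := by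
        rw [hF, hχ]
        simp
      rw [this]
      simp
    · push Not at hB
      obtain ⟨h1, hh1⟩ := hB
      have hex : ∃ n : ℕ, ∃ h, ¬ (p : ℤ_[p]) ^ (n + 1) ∣ (χ h : ℤ_[p]) - 1 := by
        obtain ⟨n, hn⟩ := exists_not_dvd hh1
        exact ⟨n, h1, hn⟩
      classical
      obtain ⟨μ, ⟨h0, hμ⟩, hmin⟩ : ∃ μ : ℕ, (∃ h, ¬ (p : ℤ_[p]) ^ (μ + 1) ∣ (χ h : ℤ_[p]) - 1) ∧
          ∀ ν < μ, ∀ h, (p : ℤ_[p]) ^ (ν + 1) ∣ (χ h : ℤ_[p]) - 1 := by
        refine ⟨Nat.find hex, Nat.find_spec hex, fun ν hν h => ?_⟩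
        by_contra hc
        exact Nat.find_min hex hν ⟨h, hc⟩
      have hμ1 : 1 ≤ μ := by
        by_contra hc
        have : μ = 0 := by omega
        subst this
        apply hμ
        rw [zero_add, pow_one]
        exact hdv h0
      have hall : ∀ h, (p : ℤ_[p]) ^ μ ∣ (χ h : ℤ_[p]) - 1 := by
        intro h
        have := hmin (μ - 1) (by omega) h
        rwa [Nat.sub_add_cancel hμ1] at this
      have hq : ∀ i, ∃ q : ℤ_[p], (((χ h0) ^ (r i) : ℤ_[p]ˣ) : ℤ_[p]) - 1 =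
          ((χ h0 : ℤ_[p]) - 1) * q := fun i => (hZp p (χ h0) (χ h0) (r i)).1
      choose q hq using hq
      set t : ℤ_[p] := ∑ i, b i * q i * y i with ht
      have hF0 : F h0 = ((χ h0 : ℤ_[p]) - 1) * t := by
        rw [hF, ht, Finset.mul_sum]
        refine Finset.sum_congr rfl fun i _ => ?_
        rw [hq i]
        ring
      have hind : ∀ z : ℕ, (p : ℤ_[p]) ^ m ∣ F (h0 ^ z) - (((χ h0 : ℤ_[p]) ^ z) - 1) * t := by
        intro z
        induction z with
        | zero =>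
          have : F (h0 ^ 0) = 0 := by
            rw [hF, pow_zero, map_one]
            simp
          rw [this]
          simp
        | succ z ih =>
          have e : F (h0 ^ (z + 1)) - ((χ h0 : ℤ_[p]) ^ (z + 1) - 1) * t =
              (F (h0 * h0 ^ z) - (F h0 + (χ h0 : ℤ_[p]) * F (h0 ^ z))) +
              (χ h0 : ℤ_[p]) * (F (h0 ^ z) - (((χ h0 : ℤ_[p]) ^ z) - 1) * t) := by
            rw [pow_succ' h0 z, hF0]
            ring
          rw [e]
          exact dvd_add (hco _ _) (Dvd.dvd.mul_left ih _)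
      refine ⟨t, fun h => ?_⟩
      obtain ⟨z, hz⟩ := hPow p hp2 μ hμ1 (χ h : ℤ_[p]) (χ h0 : ℤ_[p]) (hall h) (hall h0) hμ m
      have hz' : (p : ℤ_[p]) ^ m ∣ (χ h : ℤ_[p]) - (((χ h0) ^ z : ℤ_[p]ˣ) : ℤ_[p]) := by
        rw [Units.val_pow_eq_pow_val]
        exact hz
      have hd : (p : ℤ_[p]) ^ m ∣ F h - F (h0 ^ z) := by
        rw [hF, hF, ← Finset.sum_sub_distrib]
        refine Finset.dvd_sum fun i _ => ?_
        have h3 := (hZp p (χ h) ((χ h0) ^ z) (r i)).2.1 m hz'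
        rw [map_pow]
        have e : b i * ((((χ h) ^ (r i) : ℤ_[p]ˣ) : ℤ_[p]) - 1) * y i -
            b i * (((((χ h0) ^ z) ^ (r i) : ℤ_[p]ˣ) : ℤ_[p]) - 1) * y i =
            ((((χ h) ^ (r i) : ℤ_[p]ˣ) : ℤ_[p]) - ((((χ h0) ^ z) ^ (r i) : ℤ_[p]ˣ) : ℤ_[p])) *
              (b i * y i) := by ring
        rw [e]
        exact Dvd.dvd.mul_right h3 _
      have e : F h - ((χ h : ℤ_[p]) - 1) * t = (F h - F (h0 ^ z)) +
          (F (h0 ^ z) - (((χ h0 : ℤ_[p]) ^ z) - 1) * t) -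
          ((χ h : ℤ_[p]) - (χ h0 : ℤ_[p]) ^ z) * t := by ring
      rw [e]
      exact dvd_sub (dvd_add hd (hind z)) (Dvd.dvd.mul_right hz _)

end Pool.Agent.Work.MP_59f3ad_nt.Tw

end

section

/-!
# Powers of an element of exact level are dense in `1 + p^μ ℤ_p`
-/

namespace Pool.Agent.Work.MP_59f3ad_nt.Tw

namespace PowX

variable {p : ℕ} [hp : Fact p.Prime]

lemma dvd_iff_mem (x : ℤ_[p]) : (p : ℤ_[p]) ∣ x ↔ x ∈ IsLocalRing.maximalIdeal ℤ_[p] := by
  rw [PadicInt.maximalIdeal_eq_span_p, Ideal.mem_span_singleton]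

lemma exists_inv {c : ℤ_[p]} (hc : ¬ (p : ℤ_[p]) ∣ c) : ∃ c' : ℤ_[p], c * c' = 1 := by
  rw [dvd_iff_mem, IsLocalRing.notMem_maximalIdeal] at hc
  exact hc.exists_right_inv

lemma exists_nat {c : ℤ_[p]} (hc : ¬ (p : ℤ_[p]) ∣ c) (s : ℤ_[p]) :
    ∃ j : ℕ, (p : ℤ_[p]) ∣ s - j * c := by
  obtain ⟨c', hc'⟩ := exists_inv hc
  obtain ⟨j, -, hj⟩ := PadicInt.exists_mem_range (s * c')
  rw [← dvd_iff_mem] at hj
  refine ⟨j, ?_⟩
  have e : s - j * c = c * (s * c' - j) := by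
    linear_combination (-s) * hc'
  rw [e]
  exact Dvd.dvd.mul_left hj c

/-- The level of a `p`-power. -/
lemma level (hp2 : p ≠ 2) {μ : ℕ} (hμ : 1 ≤ μ) {b : ℤ_[p]} (h1 : (p : ℤ_[p]) ^ μ ∣ b - 1)
    (h2 : ¬ (p : ℤ_[p]) ^ (μ + 1) ∣ b - 1) (hb : ¬ (p : ℤ_[p]) ∣ b) (k : ℕ) :
    ∃ w : ℤ_[p], b ^ p ^ k = 1 + (p : ℤ_[p]) ^ (μ + k) * w ∧ ¬ (p : ℤ_[p]) ∣ w := by
  have hpp : Prime (p : ℤ_[p]) := PadicInt.prime_p
  have hodd : Odd p := hp.out.odd_of_ne_two hp2
  have hd : (p : ℤ_[p]) ∣ b - 1 := (dvd_pow_self _ (by omega)).trans h1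
  have h3 := emultiplicity_pow_prime_pow_sub_pow_prime_pow hpp hodd hd hb k
  rw [one_pow, emultiplicity_eq_coe.2 ⟨h1, h2⟩, ← Nat.cast_add, emultiplicity_eq_coe] at h3
  obtain ⟨⟨w, hw⟩, h4⟩ := h3
  refine ⟨w, by rw [← hw]; ring, fun ⟨v, hv⟩ => h4 ⟨v, ?_⟩⟩
  rw [hw, hv]
  ring

end PowX

open PowX in
theorem pr_Pow : StPow := by
  intro p hp hp2 μ hμ a b ha hb1 hb2 M
  have hpp : Prime (p : ℤ_[p]) := PadicInt.prime_p
  have hb : ¬ (p : ℤ_[p]) ∣ b := by
    intro h
    have hd : (p : ℤ_[p]) ∣ b - 1 := (dvd_pow_self _ (by omega)).trans hb1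
    have h1 : (p : ℤ_[p]) ∣ 1 := by
      have := dvd_sub h hd
      rwa [sub_sub_cancel] at this
    exact hpp.not_dvd_one h1
  induction M with
  | zero => exact ⟨0, by rw [pow_zero]; exact one_dvd _⟩
  | succ M ih =>
    rcases Nat.lt_or_ge M μ with hM | hM
    · refine ⟨0, ?_⟩
      rw [pow_zero]
      exact (pow_dvd_pow _ (by omega)).trans ha
    · obtain ⟨z, s, hs⟩ := ih
      obtain ⟨k, rfl⟩ := Nat.exists_eq_add_of_le hM
      obtain ⟨w, hw, hpw⟩ := level hp2 hμ hb1 hb2 hb k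
      have hc : ¬ (p : ℤ_[p]) ∣ b ^ z * w := by
        intro h
        rcases hpp.dvd_or_dvd h with h | h
        · exact hb (hpp.dvd_of_dvd_pow h)
        · exact hpw h
      obtain ⟨j, r, hj⟩ := exists_nat hc s
      obtain ⟨e, he⟩ := sq_dvd_add_pow_sub_sub ((p : ℤ_[p]) ^ (μ + k) * w) 1 j
      rw [one_pow, one_pow, one_mul] at he
      refine ⟨z + p ^ k * j, ?_⟩
      rw [pow_add b z, pow_mul b, hw]
      have e1 : a - b ^ z * (1 + (p : ℤ_[p]) ^ (μ + k) * w) ^ j =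
          (p : ℤ_[p]) ^ (μ + k + 1) * r -
            (p : ℤ_[p]) ^ (μ + k + (μ + k)) * (b ^ z * w ^ 2 * e) := by
        rw [pow_succ, pow_add _ (μ + k) (μ + k)]
        linear_combination hs + (p : ℤ_[p]) ^ (μ + k) * hj - b ^ z * he
      rw [e1]
      exact dvd_sub (Dvd.intro _ rfl) (Dvd.dvd.mul_right (pow_dvd_pow _ (by omega)) _)

end Pool.Agent.Work.MP_59f3ad_nt.Tw

end

section

/-!
# Roots of the specialisations of a family are bounded by a power of the height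
-/

open NumberField IsDedekindDomain Polynomial

namespace Pool.Agent.Work.MP_59f3ad_nt.Tw

namespace RootX

lemma mono_bound {A B H : ℕ} (hAB : A ≤ B) (hH : 1 ≤ H) : A * H ^ A ≤ B * H ^ B :=
  Nat.mul_le_mul hAB (Nat.pow_le_pow_right hH hAB)

/-- Values of an integral polynomial. -/
lemma eval_bound {σ : Type} (f : MvPolynomial σ ℤ) : ∃ A : ℕ, ∀ H : ℕ, 1 ≤ H →
    ∀ t : σ → ℤ, (∀ i, |t i| ≤ H) → (MvPolynomial.eval t f).natAbs ≤ A * H ^ A := by
  induction f using MvPolynomial.induction_on with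
  | C a =>
    refine ⟨a.natAbs, fun H hH t _ => ?_⟩
    rw [MvPolynomial.eval_C]
    exact Nat.le_mul_of_pos_right _ (Nat.pow_pos hH)
  | add f g hf hg =>
    obtain ⟨A, hA⟩ := hf
    obtain ⟨B, hB⟩ := hg
    refine ⟨A + B, fun H hH t ht => ?_⟩
    rw [map_add]
    calc (MvPolynomial.eval t f + MvPolynomial.eval t g).natAbs
        ≤ (MvPolynomial.eval t f).natAbs + (MvPolynomial.eval t g).natAbs := Int.natAbs_add_le _ _
      _ ≤ A * H ^ A + B * H ^ B := Nat.add_le_add (hA H hH t ht) (hB H hH t ht)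
      _ ≤ A * H ^ (A + B) + B * H ^ (A + B) := by
        gcongr <;> omega
      _ = _ := by ring
  | mul_X f i hf =>
    obtain ⟨A, hA⟩ := hf
    refine ⟨A + 1, fun H hH t ht => ?_⟩
    rw [map_mul, MvPolynomial.eval_X, Int.natAbs_mul]
    have h1 : (t i).natAbs ≤ H := by
      have := ht i
      rw [Int.abs_eq_natAbs] at this
      exact_mod_cast this
    calc (MvPolynomial.eval t f).natAbs * (t i).natAbs ≤ (A * H ^ A) * H :=
          Nat.mul_le_mul (hA H hH t ht) h1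
      _ = A * H ^ (A + 1) := by ring
      _ ≤ _ := Nat.mul_le_mul_right _ (Nat.le_succ A)

end RootX

open RootX in
theorem pr_Root : StRoot := by
  intro m F hF
  choose A hA using fun k : ℕ => eval_bound (F.coeff k)
  obtain ⟨B, hB⟩ : ∃ B : ℕ, ∀ k < F.natDegree, A k ≤ B :=
    ⟨∑ k ∈ Finset.range F.natDegree, A k, fun k hk =>
      Finset.single_le_sum (f := A) (fun i _ => Nat.zero_le _) (Finset.mem_range.2 hk)⟩
  refine ⟨B + 1, fun H hH t ht z hz => ?_⟩
  set G := (F.map (MvPolynomial.eval t)).map (Int.castRingHom ℂ) with hG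
  have hGm : G.Monic := (hF.map _).map _
  have hdeg : G.natDegree ≤ F.natDegree := by
    rw [hG]
    exact natDegree_map_le.trans natDegree_map_le
  have hco : ∀ k < F.natDegree, ‖G.coeff k‖₊ ≤ ((B * H ^ B : ℕ) : NNReal) := by
    intro k hk
    rw [hG, coeff_map, coeff_map]
    have h1 := (hA k H hH t ht).trans (mono_bound (hB k hk) hH)
    rw [← NNReal.coe_le_coe, coe_nnnorm, NNReal.coe_natCast]
    show ‖((MvPolynomial.eval t (F.coeff k) : ℤ) : ℂ)‖ ≤ _
    rw [Complex.norm_intCast, ← Int.cast_abs, Int.abs_eq_natAbs, Int.cast_natCast]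
    exact_mod_cast h1
  have h2 := IsRoot.norm_lt_cauchyBound hGm.ne_zero (a := z) hz
  have h3 : cauchyBound G ≤ ((B * H ^ B : ℕ) : NNReal) + 1 := by
    unfold cauchyBound
    rw [hGm.leadingCoeff, nnnorm_one, div_one]
    gcongr
    refine Finset.sup_le fun k hk => hco k (lt_of_lt_of_le (Finset.mem_range.1 hk) hdeg)
  have h4 : ‖z‖ ≤ ((B * H ^ B + 1 : ℕ) : ℝ) := by
    have h5 := h2.le.trans h3
    rw [← NNReal.coe_le_coe] at h5
    simpa using h5
  refine h4.trans ?_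
  have h6 : B * H ^ B + 1 ≤ (B + 1) * H ^ (B + 1) := by
    calc B * H ^ B + 1 ≤ B * H ^ (B + 1) + H ^ (B + 1) := by
          refine Nat.add_le_add ?_ (Nat.pow_pos hH)
          gcongr <;> omega
      _ = _ := by ring
  exact_mod_cast h6

end Pool.Agent.Work.MP_59f3ad_nt.Tw

end

section

/-!
# `1 + p ℤ_p` is torsion free
-/

namespace Pool.Agent.Work.MP_59f3ad_nt.Tw

namespace TfX

variable {p : ℕ} [hp : Fact p.Prime]

lemma not_dvd_cast {s : ℕ} (h : ¬ p ∣ s) : ¬ (p : ℤ_[p]) ∣ (s : ℤ_[p]) := by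
  intro h1
  have h2 := (PadicInt.pow_p_dvd_int_iff (p := p) 1 (s : ℤ)).1 (by simpa using h1)
  rw [pow_one] at h2
  exact h (by exact_mod_cast h2)

end TfX

open TfX in
theorem pr_Tf : StTf := by
  intro p hp hp2 μ hμ b hb1 hb2 s hs h
  have hpp : Prime (p : ℤ_[p]) := PadicInt.prime_p
  have hodd : Odd p := hp.out.odd_of_ne_two hp2
  have hd : (p : ℤ_[p]) ∣ b - 1 := (dvd_pow_self _ (by omega)).trans hb1
  have hb : ¬ (p : ℤ_[p]) ∣ b := by
    intro h0
    have h1 : (p : ℤ_[p]) ∣ 1 := by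
      have := dvd_sub h0 hd
      rwa [sub_sub_cancel] at this
    exact hpp.not_dvd_one h1
  obtain ⟨a, t, ht, rfl⟩ := Nat.exists_eq_pow_mul_and_not_dvd hs p hp.out.ne_one
  have h3 := emultiplicity_pow_prime_pow_sub_pow_prime_pow hpp hodd hd hb a
  rw [one_pow, emultiplicity_eq_coe.2 ⟨hb1, hb2⟩] at h3
  have hd2 : (p : ℤ_[p]) ∣ b ^ p ^ a - 1 := by
    have := sub_dvd_pow_sub_pow b 1 (p ^ a)
    rw [one_pow] at this
    exact hd.trans this
  have h4 := emultiplicity_pow_sub_pow_of_prime hpp hd2 (fun h5 => hb (hpp.dvd_of_dvd_pow h5))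
    (not_dvd_cast ht)
  rw [← pow_mul, h, one_pow, sub_self, emultiplicity_zero, h3, ← Nat.cast_add] at h4
  exact absurd h4.symm (ENat.natCast_ne_top _)

end Pool.Agent.Work.MP_59f3ad_nt.Tw

end

section

/-!
# Units modulo `p ^ c`-th powers
-/

open NumberField IsDedekindDomain Polynomial

namespace Pool.Agent.Work.MP_59f3ad_nt.Tw

universe u

namespace UnX

/-- The order of a unit of finite order is prime to `p` if there is no `p`-th root of unity. -/
lemma coprime {K : Type u} [Field K] [NumberField K] {p : ℕ} (hp : p.Prime)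
    (h : ∀ ζ : K, ζ ^ p = 1 → ζ = 1) {ξ : (𝓞 K)ˣ} (hξ : IsOfFinOrder ξ) :
    p.Coprime (orderOf ξ) := by
  rw [hp.coprime_iff_not_dvd]
  rintro ⟨k, hk⟩
  have hpos : 0 < orderOf ξ := hξ.orderOf_pos
  have hk0 : 0 < k := by
    rcases Nat.eq_zero_or_pos k with h0 | h0
    · rw [h0, mul_zero] at hk; omega
    · exact h0
  have h1 : (ξ ^ k) ^ p = 1 := by
    rw [← pow_mul, mul_comm, ← hk]; exact pow_orderOf_eq_one ξ
  have h2 : (((ξ ^ k : (𝓞 K)ˣ) : 𝓞 K) : K) ^ p = 1 := by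
    have h3 : ((((ξ ^ k) ^ p : (𝓞 K)ˣ) : 𝓞 K) : K) = 1 := by rw [h1]; simp
    rw [Units.val_pow_eq_pow_val] at h3
    rw [← h3]
    push_cast
    ring
  have h4 := h _ h2
  have h5 : ξ ^ k = 1 := by
    apply Units.ext
    apply NumberField.RingOfIntegers.ext
    rw [h4]
    simp
  have h6 : orderOf ξ ∣ k := orderOf_dvd_of_pow_eq_one h5
  have h7 := Nat.le_of_dvd hk0 h6
  rw [hk] at h7
  have h8 := hp.two_le
  nlinarith

end UnX

open UnX in
theorem pr_Un : StUn.{u} := by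
  intro K _ _ p hp h c m hcm
  have hex : ∀ w : (𝓞 K)ˣ, ∃ (z : (𝓞 K)ˣ) (a : Fin (Units.rank K) → ℤ), z ∈ Units.torsion K ∧
      w = z * ∏ i, (Units.fundSystem K i) ^ (a i) := by
    intro w
    obtain ⟨⟨z, a⟩, h1, -⟩ := Units.exist_unique_eq_mul_prod K w
    exact ⟨z, a, z.2, h1⟩
  choose z a hz hw using hex
  refine ⟨fun w i => ((a w i : ℤ) : ZMod (p ^ c)), fun w w' hww => ?_⟩
  have hb : ∀ i, ∃ b : ℤ, a w i = a w' i + b * ((p ^ c : ℕ) : ℤ) := by
    intro i
    have h1 : ((a w i : ℤ) : ZMod (p ^ c)) = ((a w' i : ℤ) : ZMod (p ^ c)) := congrFun hww i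
    rw [ZMod.intCast_eq_intCast_iff_dvd_sub] at h1
    obtain ⟨b, hb⟩ := h1
    exact ⟨-b, by linear_combination -hb⟩
  choose b hb using hb
  set f := Units.fundSystem K with hf
  have hξt : z w * (z w')⁻¹ ∈ Units.torsion K := (Units.torsion K).mul_mem (hz w)
    ((Units.torsion K).inv_mem (hz w'))
  set ξ := z w * (z w')⁻¹ with hξ
  have hfin : IsOfFinOrder ξ := (CommGroup.mem_torsion _).1 hξt
  have hcop : (p ^ m).Coprime (orderOf ξ) := Nat.Coprime.pow_left m (coprime hp h hfin)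
  obtain ⟨k, hk⟩ := exists_pow_eq_self_of_coprime hcop
  have hprod : ∏ i, f i ^ (a w i) = (∏ i, f i ^ (a w' i)) * (∏ i, f i ^ (b i)) ^ (p ^ c) := by
    rw [← Finset.prod_pow, ← Finset.prod_mul_distrib]
    refine Finset.prod_congr rfl fun i _ => ?_
    rw [hb i, zpow_add, zpow_mul, zpow_natCast]
  have hmain : w = ξ * w' * (∏ i, f i ^ (b i)) ^ (p ^ c) := by
    have h1 := hw w
    have h2 := hw w'
    rw [hprod] at h1
    calc w = z w * ((∏ i, f i ^ (a w' i)) * (∏ i, f i ^ (b i)) ^ (p ^ c)) := h1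
      _ = z w * (z w')⁻¹ * (z w' * ∏ i, f i ^ (a w' i)) * (∏ i, f i ^ (b i)) ^ (p ^ c) := by
          simp only [mul_assoc, inv_mul_cancel_left]
      _ = ξ * w' * (∏ i, f i ^ (b i)) ^ (p ^ c) := by rw [← h2]
  refine ⟨(ξ ^ k) ^ p ^ (m - c) * ∏ i, f i ^ (b i), ?_⟩
  have hpc : p ^ c * p ^ (m - c) = p ^ m := by rw [← pow_add]; congr 1; omega
  have e1 : ((ξ ^ k) ^ p ^ (m - c)) ^ p ^ m = ξ ^ p ^ (m - c) := by
    calc ((ξ ^ k) ^ p ^ (m - c)) ^ p ^ m = ((ξ ^ p ^ m) ^ k) ^ p ^ (m - c) := by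
          rw [← pow_mul, ← pow_mul, ← pow_mul, ← pow_mul]
          congr 1
          ring
      _ = ξ ^ p ^ (m - c) := by rw [hk]
  conv_lhs => rw [hmain]
  clear_value ξ
  rw [mul_pow, mul_pow, mul_pow, e1, ← pow_mul, hpc]
  exact mul_right_comm _ _ _

end Pool.Agent.Work.MP_59f3ad_nt.Tw

end

section

/-!
# Few integers of bounded height approximate the zeros
-/

open NumberField IsDedekindDomain Polynomial

namespace Pool.Agent.Work.MP_59f3ad_nt.Tw

namespace ZerX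

/-- Splitting of a power of a prime over a product. -/
theorem split {p : ℤ} (hp : Prime p) (b : ℕ) : ∀ (m : ℕ) (x y : ℤ), p ^ (m + b) ∣ x * y →
    ¬ p ^ (b + 1) ∣ x → p ^ m ∣ y := by
  induction b with
  | zero =>
    intro m x y h hx
    rw [zero_add, pow_one] at hx
    exact hp.pow_dvd_of_dvd_mul_left m hx h
  | succ b ih =>
    intro m x y h hx
    by_cases h1 : p ∣ x
    · obtain ⟨x', rfl⟩ := h1
      have h2 : p * p ^ (m + b) ∣ p * (x' * y) := by
        have h3 : p * p ^ (m + b) = p ^ (m + (b + 1)) := by rw [← pow_succ']; rfl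
        rw [h3, ← mul_assoc]; exact h
      refine ih m x' y ((mul_dvd_mul_iff_left hp.ne_zero).1 h2) fun h3 => hx ?_
      rw [pow_succ']
      exact mul_dvd_mul_left p h3
    · have h2 := hp.pow_dvd_of_dvd_mul_left _ h1 h
      exact (pow_dvd_pow p (Nat.le_add_right m (b + 1))).trans h2

theorem cast_zero_iff (p : ℕ) (a : ℤ) : (Int.castRingHom (ZMod p)) a = 0 ↔ (p : ℤ) ∣ a := by
  rw [eq_intCast, ZMod.intCast_zmod_eq_zero_iff_dvd]

theorem finite_set (Y : ℕ) (P : ℤ → Prop) : {t : ℤ | |t| ≤ Y ∧ P t}.Finite := by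
  refine (Set.finite_Icc (-(Y : ℤ)) Y).subset fun t ht => ?_
  exact abs_le.1 ht.1

theorem count (p : ℕ) [Fact p.Prime] (b Y : ℕ) (hb : 2 * Y < p ^ (b + 1)) (δ : ℕ) :
    ∀ G : ℤ[X], G.map (Int.castRingHom (ZMod p)) ≠ 0 →
      (G.map (Int.castRingHom (ZMod p))).natDegree ≤ δ →
      {t : ℤ | |t| ≤ Y ∧ (p : ℤ) ^ (δ * b + 1) ∣ G.eval t}.ncard ≤ δ := by
  have hp : Prime (p : ℤ) := Nat.prime_iff_prime_int.1 (Fact.out : p.Prime)
  have hev : ∀ (G : ℤ[X]) (t : ℤ), (p : ℤ) ∣ G.eval t →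
      (G.map (Int.castRingHom (ZMod p))).eval ((Int.castRingHom (ZMod p)) t) = 0 := by
    intro G t h
    rw [Polynomial.eval_map, Polynomial.eval₂_hom]
    exact (cast_zero_iff p _).2 h
  induction δ with
  | zero =>
    intro G hG hd
    have hempty : {t : ℤ | |t| ≤ Y ∧ (p : ℤ) ^ (0 * b + 1) ∣ G.eval t} = ∅ := by
      rw [Set.eq_empty_iff_forall_notMem]
      rintro t ⟨-, ht⟩
      rw [zero_mul, zero_add, pow_one] at ht
      have h1 := hev G t ht
      rw [Polynomial.eq_C_of_natDegree_le_zero hd, Polynomial.eval_C] at h1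
      apply hG
      rw [Polynomial.eq_C_of_natDegree_le_zero hd, h1, Polynomial.C_0]
    rw [hempty, Set.ncard_empty]
  | succ δ ih =>
    intro G hG hd
    rcases Set.eq_empty_or_nonempty
      {t : ℤ | |t| ≤ Y ∧ (p : ℤ) ^ ((δ + 1) * b + 1) ∣ G.eval t} with h0 | ⟨t₀, ht₀, hdt₀⟩
    · rw [h0, Set.ncard_empty]; exact Nat.zero_le _
    · set G₁ := G /ₘ (X - C t₀) with hG₁
      have hGe : G = C (G.eval t₀) + (X - C t₀) * G₁ := by
        rw [← Polynomial.modByMonic_X_sub_C_eq_C_eval]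
        exact (Polynomial.modByMonic_add_div G (X - C t₀)).symm
      have hpd : (p : ℤ) ∣ G.eval t₀ :=
        (dvd_pow_self _ (Nat.succ_ne_zero _)).trans hdt₀
      have hmap : G.map (Int.castRingHom (ZMod p)) =
          (X - C ((Int.castRingHom (ZMod p)) t₀)) * G₁.map (Int.castRingHom (ZMod p)) := by
        conv_lhs => rw [hGe]
        rw [Polynomial.map_add, Polynomial.map_mul, Polynomial.map_C, (cast_zero_iff p _).2 hpd,
          Polynomial.C_0, zero_add, Polynomial.map_sub, Polynomial.map_X, Polynomial.map_C]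
      have hG₁0 : G₁.map (Int.castRingHom (ZMod p)) ≠ 0 := by
        intro h
        apply hG
        rw [hmap, h, mul_zero]
      have hdeg : (G₁.map (Int.castRingHom (ZMod p))).natDegree ≤ δ := by
        rw [hmap, (Polynomial.monic_X_sub_C _).natDegree_mul' hG₁0,
          Polynomial.natDegree_X_sub_C] at hd
        omega
      have hsub : {t : ℤ | |t| ≤ Y ∧ (p : ℤ) ^ ((δ + 1) * b + 1) ∣ G.eval t} ⊆
          insert t₀ {t : ℤ | |t| ≤ Y ∧ (p : ℤ) ^ (δ * b + 1) ∣ G₁.eval t} := by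
        rintro t ⟨ht, hdt⟩
        by_cases htt : t = t₀
        · exact Or.inl htt
        · refine Or.inr ⟨ht, ?_⟩
          have h1 : (t - t₀) * G₁.eval t = G.eval t - G.eval t₀ := by
            have h2 : G.eval t = G.eval t₀ + (t - t₀) * G₁.eval t := by
              conv_lhs => rw [hGe]
              simp
            rw [h2]; ring
          have h2 : (p : ℤ) ^ ((δ * b + 1) + b) ∣ (t - t₀) * G₁.eval t := by
            rw [h1]
            have h3 : (δ * b + 1) + b = (δ + 1) * b + 1 := by ring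
            rw [h3]
            exact dvd_sub hdt hdt₀
          refine split hp b _ _ _ h2 fun h3 => htt ?_
          have h4 : |t - t₀| < (p : ℤ) ^ (b + 1) := by
            have h5 : |t - t₀| ≤ |t| + |t₀| := abs_sub _ _
            have h6 : (2 * Y : ℤ) < (p : ℤ) ^ (b + 1) := by exact_mod_cast hb
            have h7 : |t₀| ≤ Y := ht₀
            linarith
          exact sub_eq_zero.1 (Int.eq_zero_of_abs_lt_dvd h3 h4)
      have hfin : (insert t₀ {t : ℤ | |t| ≤ Y ∧ (p : ℤ) ^ (δ * b + 1) ∣ G₁.eval t}).Finite :=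
        (finite_set Y _).insert _
      exact (Set.ncard_le_ncard hsub hfin).trans ((Set.ncard_insert_le _ _).trans
        (Nat.succ_le_succ (ih G₁ hG₁0 hdeg)))

end ZerX

open ZerX in
theorem pr_Zer : StZer := by
  intro p hpp D hD e B hne hB Y
  have : Fact p.Prime := ⟨hpp⟩
  have hp : Prime (p : ℤ) := Nat.prime_iff_prime_int.1 hpp
  set b := Nat.log p (2 * Y) with hb
  have hbY : 2 * Y < p ^ (b + 1) := Nat.lt_pow_succ_log_self hpp.one_lt _
  have htel : ∀ n k : ℕ, (p : ℤ) ^ (e + 1) ∣ (D (e + n) - D e).coeff k := by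
    intro n
    induction n with
    | zero => intro k; simp
    | succ n ih =>
      intro k
      have h1 : (D (e + (n + 1)) - D e) = (D (e + n + 1) - D (e + n)) + (D (e + n) - D e) := by
        rw [← add_assoc]; ring
      rw [h1, Polynomial.coeff_add]
      exact dvd_add ((pow_dvd_pow _ (by omega)).trans (hD (e + n) k)) (ih k)
  set Q := D (e + B * b) with hQ
  have hQe : ∀ k, (p : ℤ) ^ (e + 1) ∣ Q.coeff k ↔ (p : ℤ) ^ (e + 1) ∣ (D e).coeff k := by
    intro k
    have h1 := htel (B * b) k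
    rw [Polynomial.coeff_sub] at h1
    exact (dvd_iff_dvd_of_dvd_sub h1)
  have hex : ∃ m : ℕ, ¬ ∀ k, (p : ℤ) ^ m ∣ Q.coeff k := by
    obtain ⟨k, hk⟩ := hne
    exact ⟨e + 1, fun h => hk ((hQe k).1 (h k))⟩
  classical
  have hmin := Nat.find_spec hex
  have hle : Nat.find hex ≤ e + 1 := by
    apply Nat.find_min'
    obtain ⟨k, hk⟩ := hne
    exact fun h => hk ((hQe k).1 (h k))
  obtain ⟨e', he'⟩ : ∃ e', Nat.find hex = e' + 1 := by
    refine Nat.exists_eq_succ_of_ne_zero fun h => ?_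
    rw [h] at hmin
    exact hmin fun k => by simp
  have hlow : ∀ k, (p : ℤ) ^ e' ∣ Q.coeff k := by
    by_contra h
    exact Nat.find_min hex (by omega : e' < Nat.find hex) h
  rw [he'] at hmin hle
  have hlee : e' ≤ e := by omega
  obtain ⟨G, hG⟩ := (Polynomial.C_dvd_iff_dvd_coeff _ _).2 hlow
  have hp0 : (p : ℤ) ^ e' ≠ 0 := pow_ne_zero _ hp.ne_zero
  have hcoeff : ∀ k, Q.coeff k = (p : ℤ) ^ e' * G.coeff k := by
    intro k
    rw [hG, Polynomial.coeff_C_mul]
  have hG0 : G.map (Int.castRingHom (ZMod p)) ≠ 0 := by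
    intro h
    apply hmin
    intro k
    have h1 := congrArg (fun q => q.coeff k) h
    simp only [Polynomial.coeff_map, Polynomial.coeff_zero] at h1
    have h2 : (p : ℤ) ∣ G.coeff k := (cast_zero_iff p _).1 h1
    rw [hcoeff, pow_succ]
    exact mul_dvd_mul_left _ h2
  have hGd : (G.map (Int.castRingHom (ZMod p))).natDegree ≤ B := by
    rw [Polynomial.natDegree_le_iff_coeff_eq_zero]
    intro k hk
    rw [Polynomial.coeff_map, cast_zero_iff]
    have h1 := (hQe k).2 (hB k hk)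
    rw [hcoeff] at h1
    have h2 : (p : ℤ) ^ e' * p ∣ (p : ℤ) ^ e' * G.coeff k := by
      rw [← pow_succ]
      exact (pow_dvd_pow _ (by omega)).trans h1
    exact (mul_dvd_mul_iff_left hp0).1 h2
  refine ⟨{t : ℤ | |t| ≤ Y ∧ (p : ℤ) ^ (B * b + 1) ∣ G.eval t}, finite_set Y _,
    count p b Y hbY B G hG0 hGd, fun t ht htZ hdvd => htZ ⟨ht, ?_⟩⟩
  rw [hG, Polynomial.eval_mul, Polynomial.eval_C] at hdvd
  have h1 : (p : ℤ) ^ e' * (p : ℤ) ^ (B * b + 1) ∣ (p : ℤ) ^ e' * G.eval t := by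
    rw [← pow_add]
    exact (pow_dvd_pow _ (by omega)).trans hdvd
  exact (mul_dvd_mul_iff_left hp0).1 h1

end Pool.Agent.Work.MP_59f3ad_nt.Tw

end

section

/-!
Elementary facts on integral powers of units of `ℤ_p`.
-/

namespace Pool.Agent.Work.MP_59f3ad_nt.Tw

namespace ZpX

theorem dvd_zpow {R : Type*} [CommRing R] (u v : Rˣ) (r : ℤ) :
    (u : R) - (v : R) ∣ ((u ^ r : Rˣ) : R) - ((v ^ r : Rˣ) : R) := by
  have hn : ∀ n : ℕ, (u : R) - (v : R) ∣ ((u ^ n : Rˣ) : R) - ((v ^ n : Rˣ) : R) := by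
    intro n
    rw [Units.val_pow_eq_pow_val, Units.val_pow_eq_pow_val]
    exact sub_dvd_pow_sub_pow _ _ n
  obtain ⟨n, rfl | rfl⟩ := r.eq_nat_or_neg
  · rw [zpow_natCast, zpow_natCast]
    exact hn n
  · rw [zpow_neg, zpow_neg, zpow_natCast, zpow_natCast]
    have h : (((u ^ n)⁻¹ : Rˣ) : R) - (((v ^ n)⁻¹ : Rˣ) : R) =
        -((((u ^ n)⁻¹ : Rˣ) : R) * (((v ^ n)⁻¹ : Rˣ) : R)) *
          (((u ^ n : Rˣ) : R) - ((v ^ n : Rˣ) : R)) := by
      have h1 : (((u ^ n)⁻¹ : Rˣ) : R) * ((u ^ n : Rˣ) : R) = 1 := Units.inv_mul _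
      have h2 : (((v ^ n)⁻¹ : Rˣ) : R) * ((v ^ n : Rˣ) : R) = 1 := Units.inv_mul _
      linear_combination (((v ^ n)⁻¹ : Rˣ) : R) * h1 - (((u ^ n)⁻¹ : Rˣ) : R) * h2
    rw [h]
    exact Dvd.dvd.mul_left (hn n) _

theorem p_dvd (p : ℕ) [Fact p.Prime] (u : ℤ_[p]ˣ) :
    (p : ℤ_[p]) ∣ ((u ^ (p - 1) : ℤ_[p]ˣ) : ℤ_[p]) - 1 := by
  rw [← Ideal.mem_span_singleton, ← PadicInt.maximalIdeal_eq_span_p, ← PadicInt.ker_toZMod,
    RingHom.mem_ker, map_sub, map_one, sub_eq_zero, Units.val_pow_eq_pow_val, map_pow]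
  apply ZMod.pow_card_sub_one_eq_one
  exact (Units.map (PadicInt.toZMod (p := p)).toMonoidHom u).ne_zero

end ZpX

theorem pr_Zp : StZp := by
  intro p _ u v r
  refine ⟨?_, ?_, ?_⟩
  · have h := ZpX.dvd_zpow u 1 r
    simpa using h
  · intro M hM
    exact hM.trans (ZpX.dvd_zpow u v r)
  · rintro ⟨q, hq⟩
    have hp : 1 ≤ p := (Fact.out : p.Prime).one_lt.le
    have h1 : u ^ r = u * (u ^ (p - 1)) ^ q := by
      rw [← zpow_natCast u (p - 1), ← zpow_mul]
      have h2 : r = 1 + ((p - 1 : ℕ) : ℤ) * q := by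
        push_cast [Nat.cast_sub hp]
        linarith
      rw [h2, zpow_add, zpow_one]
    have h3 : ((u ^ r : ℤ_[p]ˣ) : ℤ_[p]) - (u : ℤ_[p]) =
        (u : ℤ_[p]) * ((((u ^ (p - 1)) ^ q : ℤ_[p]ˣ) : ℤ_[p]) - 1) := by
      rw [h1, Units.val_mul]
      ring
    rw [h3]
    apply Dvd.dvd.mul_left
    have h4 := ZpX.dvd_zpow (u ^ (p - 1)) 1 q
    rw [one_zpow, Units.val_one] at h4
    exact (ZpX.p_dvd p u).trans h4

end Pool.Agent.Work.MP_59f3ad_nt.Tw

end
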