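import Mathlib
import Pool.Agent.Work.MP_59f3ad_nt.Tw.Stmts
import Pool.Agent.Work.MP_59f3ad_nt.Bd.B02
import Pool.Agent.Work.MP_59f3ad_nt.Tw.Stmts2
import Pool.Agent.Work.MP_59f3ad_nt.Bd.B04
import Pool.Agent.Work.MP_59f3ad_nt.Multi
import Pool.Agent.Work.MP_59f3ad_nt.Bridge
import Pool.Agent.Work.MP_59f3ad_nt.Cod.Stmts2

/-! Bundle of small proof modules (one section per former module). -/

section

/-! Density of the exceptional set, for sets depending on the height. -/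

namespace Pool.Agent.Work.MP_59f3ad_nt.Tw

theorem pr_Den : StDen := by
  classical
  intro m C
  refine ⟨20 * C, fun Bad hBad X hX => ?_⟩
  have hcast : ((20 * C : ℕ) : ℝ) = 20 * C := by push_cast; ring
  rw [hcast]
  set S : Set (Fin (m + 1) → ℤ) := {t : Fin (m + 1) → ℤ | (∀ i, |t i| ≤ X) ∧
    ∃ p : ℕ, p.Prime ∧ p ^ 2 ≤ X ∧ t ∈ Bad X p} with hS
  have hbox : {t : Fin (m + 1) → ℤ | ∀ i, |t i| ≤ X}.Finite := by
    apply (Fintype.piFinset (fun _ : Fin (m + 1) => Finset.Icc (-(X : ℤ)) X)).finite_toSet.subset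
    intro t ht
    rw [Finset.mem_coe, Fintype.mem_piFinset]
    intro i
    rw [Finset.mem_Icc]
    exact abs_le.mp (ht i)
  have hX1 : (1 : ℝ) < (X : ℝ) := by exact_mod_cast hX
  have hlogX : 0 < Real.log X := Real.log_pos hX1
  set y := Nat.sqrt X with hy
  have hyX : y * y ≤ X := Nat.sqrt_le X
  by_cases hy2 : 2 ≤ y
  · -- main case
    set P := (Finset.range (y + 1)).filter Nat.Prime with hP
    have hPp : ∀ p ∈ P, p.Prime := fun p hp => (Finset.mem_filter.mp hp).2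
    have hPy : ∀ p ∈ P, p ≤ y := fun p hp => by
      have := (Finset.mem_range.mp (Finset.mem_filter.mp hp).1); omega
    have hsub : S ⊆ ⋃ p ∈ P, {t : Fin (m + 1) → ℤ | (∀ i, |t i| ≤ X) ∧ t ∈ Bad X p} := by
      rintro t ⟨hb, p, hp, hpX, ht⟩
      simp only [Set.mem_iUnion]
      refine ⟨p, ?_, hb, ht⟩
      rw [hP, Finset.mem_filter, Finset.mem_range]
      refine ⟨?_, hp⟩
      have : p ≤ y := by
        rw [hy]; exact Nat.le_sqrt'.mpr hpX
      omega
    have hfinU : (⋃ p ∈ P, {t : Fin (m + 1) → ℤ | (∀ i, |t i| ≤ X) ∧ t ∈ Bad X p}).Finite :=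
      P.finite_toSet.biUnion (fun p _ => hbox.subset fun t ht => ht.1)
    have hcard : S.ncard ≤ C * y * X ^ m * P.card := by
      calc S.ncard ≤ (⋃ p ∈ P, {t : Fin (m + 1) → ℤ | (∀ i, |t i| ≤ X) ∧ t ∈ Bad X p}).ncard :=
            Set.ncard_le_ncard hsub hfinU
        _ ≤ ∑ p ∈ P, {t : Fin (m + 1) → ℤ | (∀ i, |t i| ≤ X) ∧ t ∈ Bad X p}.ncard :=
            ncard_biUnion_le_sum _ _
        _ ≤ ∑ _p ∈ P, C * y * X ^ m := by
            apply Finset.sum_le_sum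
            intro p hp
            refine (hBad p (hPp p hp) X (by omega)).trans ?_
            gcongr
            exact hPy p hp
        _ = C * y * X ^ m * P.card := by
            rw [Finset.sum_const, smul_eq_mul, mul_comm]
    have hPcard : P.card = Nat.primeCounting y := by
      rw [hP, Nat.primeCounting, Nat.primeCounting', Nat.count_eq_card_filter_range]
    have hpi := MP59f3adDensity.pi_le_nat y hy2
    rw [← hPcard] at hpi
    have hy1 : (1 : ℝ) < (y : ℝ) := by exact_mod_cast hy2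
    have hlogy : 0 < Real.log y := Real.log_pos hy1
    have hlogle : Real.log X ≤ 4 * Real.log y := by
      have h1 : X < (y + 1) * (y + 1) := Nat.lt_succ_sqrt X
      have h2 : X ≤ y ^ 4 := by
        have : y + 1 ≤ y * y := by nlinarith
        have h3 : (y + 1) * (y + 1) ≤ (y * y) * (y * y) := Nat.mul_le_mul this this
        calc X ≤ (y + 1) * (y + 1) := h1.le
          _ ≤ (y * y) * (y * y) := h3
          _ = y ^ 4 := by ring
      have h3 : (X : ℝ) ≤ (y : ℝ) ^ 4 := by exact_mod_cast h2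
      calc Real.log X ≤ Real.log ((y : ℝ) ^ 4) := Real.log_le_log (by linarith) h3
        _ = 4 * Real.log y := by rw [Real.log_pow]; norm_num
    have hyXr : (y : ℝ) * y ≤ X := by exact_mod_cast hyX
    have hC : (0 : ℝ) ≤ C := Nat.cast_nonneg C
    have hmain : (S.ncard : ℝ) ≤ C * y * (X : ℝ) ^ m * P.card := by
      exact_mod_cast hcard
    rw [le_div_iff₀ hlogX]
    have hcardnn : (0 : ℝ) ≤ P.card := Nat.cast_nonneg _
    have hpi' : (P.card : ℝ) * Real.log y ≤ 5 * y := by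
      rwa [le_div_iff₀ hlogy] at hpi
    have hE : (0 : ℝ) ≤ (X : ℝ) ^ m := by positivity
    have hXp : (X : ℝ) ^ (m + 1) = X * (X : ℝ) ^ m := by
      rw [pow_succ, mul_comm]
    calc (S.ncard : ℝ) * Real.log X
        ≤ (C * y * (X : ℝ) ^ m * P.card) * Real.log X :=
          mul_le_mul_of_nonneg_right hmain hlogX.le
      _ ≤ (C * y * (X : ℝ) ^ m * P.card) * (4 * Real.log y) := by
          apply mul_le_mul_of_nonneg_left hlogle
          positivity
      _ = 4 * (C * y * (X : ℝ) ^ m) * (P.card * Real.log y) := by ring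
      _ ≤ 4 * (C * y * (X : ℝ) ^ m) * (5 * y) := by
          apply mul_le_mul_of_nonneg_left hpi'
          positivity
      _ = 20 * C * (X : ℝ) ^ m * (y * y) := by ring
      _ ≤ 20 * C * (X : ℝ) ^ m * X := by
          apply mul_le_mul_of_nonneg_left hyXr
          positivity
      _ = 20 * C * (X : ℝ) ^ (m + 1) := by rw [hXp]; ring
  · -- the set is empty
    have : S = ∅ := by
      ext t
      simp only [Set.mem_empty_iff_false, iff_false]
      rintro ⟨-, p, hp, hpX, -⟩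
      have h1 : p ≤ y := by rw [hy]; exact Nat.le_sqrt'.mpr hpX
      have := hp.two_le
      omega
    rw [this, Set.ncard_empty]
    have : (0 : ℝ) ≤ 20 * C * (X : ℝ) ^ (m + 1) / Real.log X := by positivity
    simpa using this

end Pool.Agent.Work.MP_59f3ad_nt.Tw

end

section

/-!
Counting the functions `F` modulo coboundaries.
-/

open NumberField IsDedekindDomain

namespace Pool.Agent.Work.MP_59f3ad_nt.Tw

universe u

namespace CntX

/-- The unit comparing two local powers is a local power. -/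
theorem locPow (K : Type u) [Field K] [NumberField K] (p m : ℕ) (S : Set (HeightOneSpectrum (𝓞 K)))
    (hSp : ∀ v : HeightOneSpectrum (𝓞 K), (p : 𝓞 K) ∈ v.asIdeal → v ∈ S)
    (α α' γ : K) (u : (𝓞 K)ˣ) (hα' : α' ≠ 0) (hγ : γ ≠ 0)
    (h : ∀ v ∈ S, ∃ η : v.adicCompletion K, η ^ p ^ m = algebraMap K (v.adicCompletion K) α)
    (h' : ∀ v ∈ S, ∃ η : v.adicCompletion K, η ^ p ^ m = algebraMap K (v.adicCompletion K) α')
    (hu : α = ((u : 𝓞 K) : K) * γ ^ p ^ m * α') : LocPow K p m ((u : 𝓞 K) : K) := by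
  intro v hv
  obtain ⟨η, hη⟩ := h v (hSp v hv)
  obtain ⟨η', hη'⟩ := h' v (hSp v hv)
  have hγ' : algebraMap K (v.adicCompletion K) γ ≠ 0 := by
    rw [Ne, map_eq_zero]; exact hγ
  have hα'' : algebraMap K (v.adicCompletion K) α' ≠ 0 := by
    rw [Ne, map_eq_zero]; exact hα'
  refine ⟨η / (algebraMap K (v.adicCompletion K) γ * η'), ?_⟩
  rw [div_pow, mul_pow, hη, hη', hu, map_mul, map_mul, map_pow]
  field_simp

/-- Two Kummer generators whose `q`-th powers differ by a `q`-th power of `K`. -/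
theorem diff (K : Type u) [Field K] [NumberField K] (p : ℕ) [Fact p.Prime] (m : ℕ)
    (ζ : AlgebraicClosure K) (hζ : IsPrimitiveRoot ζ (p ^ m)) (f f' : GK K → ℤ_[p])
    (β β' : AlgebraicClosure K) (α α' δ : K) (hβ0' : β' ≠ 0) (hδ0 : δ ≠ 0)
    (hβ : ∀ g : GK K, g β = zpw p m ζ (f g) * β) (hβ' : ∀ g : GK K, g β' = zpw p m ζ (f' g) * β')
    (hα : algebraMap K (AlgebraicClosure K) α = β ^ p ^ m)
    (hα' : algebraMap K (AlgebraicClosure K) α' = β' ^ p ^ m) (h : α = δ ^ p ^ m * α') :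
    ∃ t : ℤ_[p], ∀ g, (p : ℤ_[p]) ^ m ∣ f g - f' g - ((cyc K p g : ℤ_[p]) - 1) * t := by
  have hp : p.Prime := Fact.out
  have hζ1 : ζ ^ p ^ m = 1 := hζ.pow_eq_one
  set δ' : AlgebraicClosure K := algebraMap K (AlgebraicClosure K) δ with hδ'
  have hδ'0 : δ' ≠ 0 := by
    rw [hδ', Ne, map_eq_zero]
    exact hδ0
  have hξ : (β / (δ' * β')) ^ p ^ m = 1 := by
    rw [div_pow, mul_pow, ← hα, ← hα', h, map_mul, map_pow, ← hδ', div_self]
    refine mul_ne_zero (pow_ne_zero _ hδ'0) ?_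
    rw [hα']
    exact pow_ne_zero _ hβ0'
  have : NeZero (p ^ m) := ⟨pow_ne_zero _ hp.ne_zero⟩
  obtain ⟨i, hi, hξi⟩ := hζ.eq_pow_of_pow_eq_one hξ
  have hne : δ' * β' ≠ 0 := mul_ne_zero hδ'0 hβ0'
  refine ⟨(i : ℤ_[p]), fun g => ?_⟩
  have e3 : β = zpw p m ζ (i : ℤ_[p]) * (δ' * β') := by
    rw [zpw_natCast hζ1, hξi, div_mul_cancel₀ _ hne]
  have e2 : g β = zpw p m ζ ((cyc K p g : ℤ_[p]) * (i : ℤ_[p])) *
      (δ' * (zpw p m ζ (f' g) * β')) := by
    conv_lhs => rw [e3]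
    rw [map_mul, map_mul, zpw_galois K p m ζ hζ1, hδ', g.commutes, hβ' g]
  have e4 : zpw p m ζ (f g) * zpw p m ζ (i : ℤ_[p]) =
      zpw p m ζ ((cyc K p g : ℤ_[p]) * (i : ℤ_[p])) * zpw p m ζ (f' g) := by
    have h1 := (hβ g).symm.trans e2
    rw [e3] at h1
    apply mul_right_cancel₀ hne
    rw [mul_assoc, h1]
    ring
  rw [← zpw_eq_one_iff hζ]
  have h1 : f g - f' g - ((cyc K p g : ℤ_[p]) - 1) * (i : ℤ_[p]) =
      (f g + (i : ℤ_[p])) + -((cyc K p g : ℤ_[p]) * (i : ℤ_[p]) + f' g) := by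
    ring
  rw [h1, zpw_add hζ1, zpw_add hζ1, zpw_neg hζ1, zpw_add hζ1, e4, mul_inv_cancel₀]
  exact mul_ne_zero (zpw_ne_zero hζ1 _) (zpw_ne_zero hζ1 _)

end CntX

/-- Counting the functions `F` modulo coboundaries. -/
theorem pr_Cnt : StKum.{u} → StCl.{u} → StUn.{u} → StCnt.{u} := by
  intro hKum hCl hUn K _ _ p _ hζ1 S hSp c hc m hcm N F hKF hinj
  have hp : p.Prime := Fact.out
  obtain ⟨ζ, hζ⟩ := (hasRoots K p m).exists_primitiveRoot
  choose β α hβ0 hα0 hβ hαβ hloc hval using fun j => hKum K p m S (F j) ζ hζ (hKF j)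
  obtain ⟨cl, hcl⟩ := hCl K (p ^ m) (pow_ne_zero _ hp.ne_zero)
  obtain ⟨e, he⟩ := hUn K p hp hζ1 c m hcm
  rcases Nat.eq_zero_or_pos N with hN | hN
  · rw [hN]
    exact Nat.zero_le _
  have : Nonempty (Fin N) := ⟨⟨0, hN⟩⟩
  set f : Fin N → ClassGroup (𝓞 K) := fun j => cl (α j) with hf
  set r : ClassGroup (𝓞 K) → Fin N := Function.invFun f with hr
  have hfr : ∀ j, f (r (f j)) = f j := fun j => Function.invFun_eq ⟨j, rfl⟩
  have hex : ∀ j, ∃ (u : (𝓞 K)ˣ) (γ : K), γ ≠ 0 ∧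
      α j = ((u : 𝓞 K) : K) * γ ^ p ^ m * α (r (f j)) := fun j =>
    hcl (α j) (α (r (f j))) (hα0 _) (hα0 _) (hval _) (hval _) (hfr j).symm
  choose u γ hγ0 hu using hex
  have hLL : ∀ j, ∃ w : (𝓞 K)ˣ, u j = w ^ p ^ (m - c) := fun j =>
    hc m (u j) (CntX.locPow K p m S hSp (α j) (α (r (f j))) (γ j) (u j) (hα0 _) (hγ0 j)
      (hloc _) (hloc _) (hu j))
  choose w hw using hLL
  have hne : NeZero (p ^ c) := ⟨pow_ne_zero _ hp.ne_zero⟩
  have hInj : Function.Injective (fun j : Fin N => ((f j, e (w j)) :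
      ClassGroup (𝓞 K) × (Fin (Units.rank K) → ZMod (p ^ c)))) := by
    intro j j' hjj
    obtain ⟨h1, h2⟩ := Prod.mk.inj hjj
    obtain ⟨w1, hw1⟩ := he (w j) (w j') h2
    rw [← hw, ← hw] at hw1
    have hw1' : ((u j : 𝓞 K) : K) = ((w1 : 𝓞 K) : K) ^ p ^ m * ((u j' : 𝓞 K) : K) := by
      have := congrArg (fun z : (𝓞 K)ˣ => ((z : 𝓞 K) : K)) hw1
      simpa using this
    have hw10 : ((w1 : 𝓞 K) : K) ≠ 0 := by
      intro h0
      exact w1.ne_zero (RingOfIntegers.ext h0)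
    have hα1 : α j = (((w1 : 𝓞 K) : K) * γ j / γ j') ^ p ^ m * α j' := by
      have e1 := hu j
      have e2 := hu j'
      have h3 := hγ0 j'
      have h4 : γ j' ^ p ^ m ≠ 0 := pow_ne_zero _ h3
      rw [← h1] at e2
      rw [e1, e2, hw1', div_pow, mul_pow]
      field_simp
    obtain ⟨t, ht⟩ := CntX.diff K p m ζ hζ (F j) (F j') (β j) (β j') (α j) (α j')
      (((w1 : 𝓞 K) : K) * γ j / γ j') (hβ0 j') (div_ne_zero (mul_ne_zero hw10 (hγ0 j)) (hγ0 j'))
      (hβ j) (hβ j') (hαβ j) (hαβ j') hα1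
    exact hinj j j' t ht
  have hcard := Fintype.card_le_of_injective _ hInj
  rw [Fintype.card_fin, Fintype.card_prod, Fintype.card_fun, ZMod.card, Fintype.card_fin,
    ← pow_mul] at hcard
  exact hcard

end Pool.Agent.Work.MP_59f3ad_nt.Tw

end

section

/-!
Many functions `F` from independent cocycles in the twists `r ≡ 1 mod p - 1`.
-/

open NumberField IsDedekindDomain

namespace Pool.Agent.Work.MP_59f3ad_nt.Tw

universe u

namespace FunX

/-- The predicate `F_b ≡ 0 mod p^m`. -/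
def PZ {G : Type*} (p : ℕ) [Fact p.Prime] (m : ℕ) {k : ℕ} (c : Fin k → G → ℤ_[p])
    (b : Fin k → ℤ_[p]) : Prop := ∀ g, (p : ℤ_[p]) ^ m ∣ ∑ i, b i * c i g

theorem PZ.add {G : Type*} {p : ℕ} [Fact p.Prime] {m : ℕ} {k : ℕ} {c : Fin k → G → ℤ_[p]}
    {b b' : Fin k → ℤ_[p]} (h : PZ p m c b) (h' : PZ p m c b') :
    PZ p m c (fun i => b i + b' i) := by
  intro g
  have h1 : ∑ i, (b i + b' i) * c i g = ∑ i, b i * c i g + ∑ i, b' i * c i g := by
    rw [← Finset.sum_add_distrib]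
    exact Finset.sum_congr rfl fun i _ => by ring
  rw [h1]
  exact dvd_add (h g) (h' g)

theorem PZ.congr {G : Type*} {p : ℕ} [Fact p.Prime] {m : ℕ} {k : ℕ} {c : Fin k → G → ℤ_[p]}
    {b b' : Fin k → ℤ_[p]} (h : PZ p m c b) (h' : ∀ i, (p : ℤ_[p]) ^ m ∣ b' i - b i) :
    PZ p m c b' := by
  intro g
  have h1 : ∑ i, b' i * c i g = ∑ i, b i * c i g + ∑ i, (b' i - b i) * c i g := by
    rw [← Finset.sum_add_distrib]
    exact Finset.sum_congr rfl fun i _ => by ring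
  rw [h1]
  exact dvd_add (h g) (Finset.dvd_sum fun i _ => (h' i).mul_right _)

section alg

variable {G : Type*} [Group G] {p : ℕ} [Fact p.Prime] {m : ℕ} {k : ℕ} {c : Fin k → G → ℤ_[p]}
  {χ : G →* ℤ_[p]ˣ} {r : Fin k → ℤ}

theorem PZ.stab (hc : ∀ i g h, c i (g * h) = c i g + (((χ g) ^ (r i) : ℤ_[p]ˣ) : ℤ_[p]) * c i h)
    {b : Fin k → ℤ_[p]} (h : PZ p m c b) (g : G) :
    PZ p m c (fun i => (((χ g) ^ (r i - 1) : ℤ_[p]ˣ) : ℤ_[p]) * b i) := by
  intro g'
  have h1 : (χ g : ℤ_[p]) * ∑ i, (((χ g) ^ (r i - 1) : ℤ_[p]ˣ) : ℤ_[p]) * b i * c i g' =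
      ∑ i, b i * c i (g * g') - ∑ i, b i * c i g := by
    rw [Finset.mul_sum, ← Finset.sum_sub_distrib]
    refine Finset.sum_congr rfl fun i _ => ?_
    rw [hc i g g']
    have h2 : (((χ g) ^ (r i) : ℤ_[p]ˣ) : ℤ_[p]) =
        (χ g : ℤ_[p]) * (((χ g) ^ (r i - 1) : ℤ_[p]ˣ) : ℤ_[p]) := by
      rw [← Units.val_mul, ← zpow_one_add]
      congr 2
      ring
    rw [h2]
    ring
  have h3 : (p : ℤ_[p]) ^ m ∣ (χ g : ℤ_[p]) *
      ∑ i, (((χ g) ^ (r i - 1) : ℤ_[p]ˣ) : ℤ_[p]) * b i * c i g' := by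
    rw [h1]
    exact dvd_sub (h _) (h _)
  exact (Units.dvd_mul_left).mp h3

/-- From the generator `γ` to all elements. -/
theorem PZ.all (h1 : StPow) (h2 : StZp) (hp2 : p ≠ 2)
    (hc : ∀ i g h, c i (g * h) = c i g + (((χ g) ^ (r i) : ℤ_[p]ˣ) : ℤ_[p]) * c i h)
    (hr : ∀ i, ((p : ℤ) - 1) ∣ r i - 1) (ν : ℕ) (hν : 1 ≤ ν) (γ : G)
    (hγ : ¬ (p : ℤ_[p]) ^ (ν + 1) ∣ (χ γ : ℤ_[p]) ^ (p - 1) - 1)
    (hall : ∀ g : G, (p : ℤ_[p]) ^ ν ∣ (χ g : ℤ_[p]) ^ (p - 1) - 1)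
    {b : Fin k → ℤ_[p]}
    (hb : PZ p m c (fun i => ((((χ γ) ^ (r i - 1) : ℤ_[p]ˣ) : ℤ_[p]) - 1) * b i)) (g : G) :
    PZ p m c (fun i => ((((χ g) ^ (r i - 1) : ℤ_[p]ˣ) : ℤ_[p]) - 1) * b i) := by
  have hp : p.Prime := Fact.out
  obtain ⟨z, hz⟩ := h1 p hp2 ν hν ((χ g : ℤ_[p]) ^ (p - 1)) ((χ γ : ℤ_[p]) ^ (p - 1))
    (hall g) (hall γ) hγ m
  -- powers of `E(γ)`
  have hpow : ∀ z : ℕ, PZ p m c
      (fun i => (((((χ γ) ^ (r i - 1)) ^ z : ℤ_[p]ˣ) : ℤ_[p]) - 1) * b i) := by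
    intro z
    induction z with
    | zero =>
      intro g'
      simp
    | succ z ih =>
      have h3 := (PZ.stab (χ := χ) (r := r) hc ih γ).add hb
      intro g'
      have h4 := h3 g'
      convert h4 using 1
      refine Finset.sum_congr rfl fun i _ => ?_
      dsimp only
      rw [pow_succ, Units.val_mul]
      ring
  refine (hpow z).congr fun i => ?_
  obtain ⟨s, hs⟩ := hr i
  have hpc : ((p - 1 : ℕ) : ℤ) = (p : ℤ) - 1 := by
    rw [Nat.cast_sub hp.one_le, Nat.cast_one]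
  have e1 : (χ g) ^ (r i - 1) = ((χ g) ^ (p - 1)) ^ s := by
    rw [hs, zpow_mul, ← hpc, zpow_natCast]
  have e2 : ((χ γ) ^ (r i - 1)) ^ z = (((χ γ) ^ (p - 1)) ^ z) ^ s := by
    rw [hs, zpow_mul, ← hpc, zpow_natCast, ← zpow_natCast, ← zpow_mul, mul_comm, zpow_mul,
      zpow_natCast]
  have h3 := (h2 p ((χ g) ^ (p - 1)) (((χ γ) ^ (p - 1)) ^ z) s).2.1 m (by
    push_cast
    exact hz)
  rw [e1, e2, ← sub_mul]
  refine Dvd.dvd.mul_right ?_ _
  have h4 : ((((χ g) ^ (p - 1)) ^ s : ℤ_[p]ˣ) : ℤ_[p]) - 1 -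
      ((((((χ γ) ^ (p - 1)) ^ z) ^ s : ℤ_[p]ˣ) : ℤ_[p]) - 1) =
      ((((χ g) ^ (p - 1)) ^ s : ℤ_[p]ˣ) : ℤ_[p]) -
        (((((χ γ) ^ (p - 1)) ^ z) ^ s : ℤ_[p]ˣ) : ℤ_[p]) := by ring
  rw [h4]
  exact h3

/-- Infinite order. -/
theorem zpow_ne_one (h1 : StTf) (hp2 : p ≠ 2) (ν : ℕ) (hν : 1 ≤ ν) (u : ℤ_[p]ˣ)
    (hu1 : (p : ℤ_[p]) ^ ν ∣ (u : ℤ_[p]) ^ (p - 1) - 1)
    (hu2 : ¬ (p : ℤ_[p]) ^ (ν + 1) ∣ (u : ℤ_[p]) ^ (p - 1) - 1) (s : ℤ) (hs : s ≠ 0) :
    u ^ s ≠ 1 := by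
  intro h
  have h2 : u ^ s.natAbs = 1 := by
    rcases Int.natAbs_eq s with h3 | h3
    · rw [h3, zpow_natCast] at h
      exact h
    · rw [h3, zpow_neg, zpow_natCast, inv_eq_one] at h
      exact h
  refine h1 p hp2 ν hν ((u : ℤ_[p]) ^ (p - 1)) hu1 hu2 s.natAbs (Int.natAbs_ne_zero.mpr hs) ?_
  rw [← pow_mul, mul_comm, pow_mul]
  have h3 : (u : ℤ_[p]) ^ s.natAbs = 1 := by
    rw [← Units.val_pow_eq_pow_val, h2, Units.val_one]
  rw [h3, one_pow]

theorem exists_family (h1 : StPow) (h2 : StTf) (h3 : StEps) (h4 : StZp) (h5 : StLat)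
    (hp2 : p ≠ 2)
    (hc : ∀ i g h, c i (g * h) = c i g + (((χ g) ^ (r i) : ℤ_[p]ˣ) : ℤ_[p]) * c i h)
    (hr : ∀ i, ((p : ℤ) - 1) ∣ r i - 1) (hr1 : ∀ i, r i ≠ 1) (ν : ℕ) (hν : 1 ≤ ν) (γ : G)
    (hγ : ¬ (p : ℤ_[p]) ^ (ν + 1) ∣ (χ γ : ℤ_[p]) ^ (p - 1) - 1)
    (hall : ∀ g : G, (p : ℤ_[p]) ^ ν ∣ (χ g : ℤ_[p]) ^ (p - 1) - 1)
    (M0 : ℕ) (hM0 : ∀ (m : ℕ) (b : Fin k → ℤ_[p]), (∀ g, (p : ℤ_[p]) ^ m ∣ ∑ i, b i * c i g) →
      ∀ i, (p : ℤ_[p]) ^ (m - M0) ∣ b i) :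
    ∃ m0 : ℕ, ∀ m : ℕ, m0 ≤ m → ∃ (N : ℕ) (b : Fin N → Fin k → ℤ_[p]),
      (∀ j g, PZ p m c (fun i => ((((χ g) ^ (r i - 1) : ℤ_[p]ˣ) : ℤ_[p]) - 1) * b j i)) ∧
      (∀ j j', PZ p m c (fun i => b j i - b j' i) → j = j') ∧
      p ^ (∑ i, (1 + padicValInt p (r i - 1))) ≤ N := by
  have hp : p.Prime := Fact.out
  set ε : Fin k → ℤ_[p] := fun i => (((χ γ) ^ (r i - 1) : ℤ_[p]ˣ) : ℤ_[p]) - 1 with hε
  have hε0 : ∀ i, ε i ≠ 0 := by
    intro i h
    have h6 : (((χ γ) ^ (r i - 1) : ℤ_[p]ˣ) : ℤ_[p]) = 1 := by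
      rw [← sub_eq_zero]
      exact h
    exact zpow_ne_one h2 hp2 ν hν (χ γ) (hall γ) hγ (r i - 1)
      (sub_ne_zero.mpr (hr1 i)) (Units.ext h6)
  have hεf : ∀ i, ∃ f : ℕ, ε i ∣ (p : ℤ_[p]) ^ f := by
    intro i
    refine ⟨(ε i).valuation, ?_⟩
    have h6 := PadicInt.unitCoeff_spec (hε0 i)
    refine ⟨((PadicInt.unitCoeff (hε0 i))⁻¹ : ℤ_[p]ˣ), ?_⟩
    generalize PadicInt.unitCoeff (hε0 i) = w at h6
    calc (p : ℤ_[p]) ^ (ε i).valuation = (w : ℤ_[p]) * (p : ℤ_[p]) ^ (ε i).valuation *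
          ((w⁻¹ : ℤ_[p]ˣ) : ℤ_[p]) := by rw [mul_right_comm, Units.mul_inv, one_mul]
      _ = ε i * ((w⁻¹ : ℤ_[p]ˣ) : ℤ_[p]) := by rw [← h6]
  choose f hf using hεf
  set e : Fin k → ℕ := fun i => 1 + padicValInt p (r i - 1) with he
  refine ⟨M0 + ∑ i, f i + ∑ i, e i, fun m hm => ?_⟩
  set π := PadicInt.toZModPow (p := p) m with hπ
  have hker : ∀ x : ℤ_[p], π x = 0 ↔ (p : ℤ_[p]) ^ m ∣ x := by
    intro x
    rw [← Ideal.mem_span_singleton, ← PadicInt.ker_toZModPow, RingHom.mem_ker]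
  have hsurj : Function.Surjective π := ZMod.ringHom_surjective π
  -- the subgroup
  let B0 : AddSubgroup (Fin k → ZMod (p ^ m)) :=
    { carrier := {b | ∀ g, ∑ i, b i * π (c i g) = 0}
      zero_mem' := by
        intro g
        simp
      add_mem' := by
        intro a b ha hb g
        have h6 : ∑ i, (a + b) i * π (c i g) = ∑ i, a i * π (c i g) + ∑ i, b i * π (c i g) := by
          rw [← Finset.sum_add_distrib]
          exact Finset.sum_congr rfl fun i _ => by rw [Pi.add_apply]; ring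
        rw [h6, ha g, hb g, add_zero]
      neg_mem' := by
        intro a ha g
        have h6 : ∑ i, (-a) i * π (c i g) = -∑ i, a i * π (c i g) := by
          rw [← Finset.sum_neg_distrib]
          exact Finset.sum_congr rfl fun i _ => by rw [Pi.neg_apply]; ring
        rw [h6, ha g, neg_zero] }
  have hB0 : ∀ b : Fin k → ℤ_[p], (fun i => π (b i)) ∈ B0 ↔ PZ p m c b := by
    intro b
    have h6 : ∀ g, ∑ i, π (b i) * π (c i g) = π (∑ i, b i * c i g) := by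
      intro g
      rw [map_sum]
      exact Finset.sum_congr rfl fun i _ => (map_mul _ _ _).symm
    constructor
    · intro h g
      rw [← hker, ← h6]
      exact h g
    · intro h g
      show ∑ i, π (b i) * π (c i g) = 0
      rw [h6, hker]
      exact h g
  have hlift : ∀ b : Fin k → ZMod (p ^ m), ∃ b' : Fin k → ℤ_[p], (fun i => π (b' i)) = b := by
    intro b
    choose b' hb' using fun i => hsurj (b i)
    exact ⟨b', funext hb'⟩
  choose L hL using hlift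
  have hfs : ∀ i, f i ≤ ∑ i, f i := fun i =>
    Finset.single_le_sum (fun _ _ => Nat.zero_le _) (Finset.mem_univ i)
  have hes : ∀ i, e i ≤ ∑ i, e i := fun i =>
    Finset.single_le_sum (fun _ _ => Nat.zero_le _) (Finset.mem_univ i)
  obtain ⟨T, hT1, hT2, hT3⟩ := h5 p m k e (fun i => by have := hes i; omega)
    (fun i => π (ε i)) (fun i => by
      have h6 := map_dvd π (h3 p (χ γ) (r i - 1) (hr i) (sub_ne_zero.mpr (hr1 i)))
      rw [map_pow, map_natCast] at h6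
      exact h6) B0 (by
      intro b hb
      have h6 : PZ p m c (L b) := by
        rw [← hB0, hL]
        exact hb
      have h7 : PZ p m c (fun i => ε i * L b i) := by
        have h8 := (PZ.stab (χ := χ) (r := r) hc h6 γ)
        intro g
        have h9 := dvd_sub (h8 g) (h6 g)
        rw [← Finset.sum_sub_distrib] at h9
        convert h9 using 1
        refine Finset.sum_congr rfl fun i _ => ?_
        simp only [hε]
        ring
      have h8 := (hB0 _).mpr h7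
      have h9 : (fun i => π (ε i) * b i) = fun i => π (ε i * L b i) := by
        ext1 i
        rw [map_mul]
        congr 1
        exact (congrFun (hL b) i).symm
      rw [h9]
      exact h8) (by
      intro b hb
      have h6 : PZ p m c (L b) := by
        rw [← hB0, hL]
        exact hb
      have h7 : ∀ i, ∃ x, L b i = ε i * x := by
        intro i
        have h8 := hM0 m (L b) h6 i
        exact (hf i).trans ((pow_dvd_pow _ (by have := hfs i; omega)).trans h8)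
      choose x hx using h7
      refine ⟨fun i => π (x i), ?_⟩
      ext1 i
      rw [← map_mul, ← hx i]
      exact congrFun (hL b) i)
  refine ⟨T.card, fun j => L (T.equivFin.symm j), ?_, ?_, hT3⟩
  · intro j
    have h6 := hT1 _ (T.equivFin.symm j).2
    have h7 : PZ p m c (fun i => ε i * L (T.equivFin.symm j) i) := by
      rw [← hB0]
      convert h6 using 1
      ext1 i
      rw [map_mul]
      congr 1
      exact congrFun (hL _) i
    exact fun g => PZ.all h1 h4 hp2 hc hr ν hν γ hγ hall h7 g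
  · intro j j' h6
    have h7 := (hB0 _).mpr h6
    have h8 : (fun i => π (L (T.equivFin.symm j) i - L (T.equivFin.symm j') i)) =
        ((T.equivFin.symm j : T) : Fin k → ZMod (p ^ m)) - (T.equivFin.symm j' : T) := by
      ext1 i
      rw [map_sub, Pi.sub_apply]
      congr 1
      · exact congrFun (hL _) i
      · exact congrFun (hL _) i
    rw [h8] at h7
    have h9 := hT2 _ (T.equivFin.symm j).2 _ (T.equivFin.symm j').2 h7
    exact T.equivFin.symm.injective (Subtype.ext h9)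

end alg

section gal

variable (K : Type u) [Field K] [NumberField K] (p : ℕ) [Fact p.Prime]

/-- A nonzero cocycle vanishing on `Gal(Kbar/K_S)` has a twist unramified outside `S`. -/
theorem twist_eq_one (hN : StNrm.{u}) (S : Set (HeightOneSpectrum (𝓞 K))) (r : ℤ)
    (φ : GK K → ℤ_[p]) (hφ : φ ∈ Z1S K p r S) (hφ0 : φ ≠ 0) (g : GK K)
    (hg : g ∈ (maxUnram K S).fixingSubgroup) : twist K p r g = 1 := by
  obtain ⟨h, hh⟩ : ∃ h, φ h ≠ 0 := by
    by_contra hcon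
    push Not at hcon
    exact hφ0 (funext hcon)
  have h1 : φ (g * h) = twist K p r g * φ h := by
    rw [hφ.1.2 g h, hφ.2 g hg, zero_add]
  have h2 : φ (g * h) = φ h := by
    have h3 : g * h = h * (h⁻¹ * g * h) := by group
    rw [h3, hφ.1.2, hφ.2 _ (hN K S g hg h), mul_zero, add_zero]
  have h3 : (twist K p r g - 1) * φ h = 0 := by
    rw [sub_mul, one_mul, ← h1, h2, sub_self]
  rcases mul_eq_zero.mp h3 with h4 | h4
  · exact sub_eq_zero.mp h4
  · exact absurd h4 hh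

omit [NumberField K] in
theorem continuous_zpow_cyc (r : ℤ) : Continuous fun g : GK K => twist K p r g := by
  have h1 : Continuous fun g : GK K => cyc K p g := cyclotomicCharacter.continuous p K (AlgebraicClosure K)
  exact Units.continuous_val.comp (h1.zpow r)

end gal

end FunX

open FunX in
theorem pr_Fun (h1 : StPow) (h2 : StTf) (h3 : StEps) (h4 : StZp) (h5 : StCpt.{u}) (h6 : StLat)
    (h7 : StLoc.{u}) (h8 : StChi.{u}) (h9 : StSig.{u}) (h10 : StGam.{u}) (h11 : StNrm.{u}) :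
    StFun.{u} := by
  intro K _ _ p _ hζ S k r φ hφ hind
  classical
  have hp : p.Prime := Fact.out
  have hp2 : p ≠ 2 := by
    rintro rfl
    have h := hζ (-1) (by norm_num)
    have h' : (2 : K) = 0 := by linear_combination -h
    exact two_ne_zero h'
  obtain ⟨σ, hσ⟩ := h9 K p hζ
  obtain ⟨ν, γ, hν, hγ, hall⟩ := h10 K p
  set χ : GK K →* ℤ_[p]ˣ := cyc K p with hχ
  -- `χ(σ)^r - 1` is a unit
  have hσr : ∀ i, IsUnit (twist K p (r i) σ - 1) := by
    intro i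
    obtain ⟨x, hx⟩ := (h4 p (χ σ) (χ σ) (r i)).2.2 (hφ i).2.1
    have e1 : twist K p (r i) σ - 1 = ((cyc K p σ : ℤ_[p]) - 1) + (p : ℤ_[p]) * x := by
      have e2 : twist K p (r i) σ = (((χ σ) ^ (r i) : ℤ_[p]ˣ) : ℤ_[p]) := rfl
      rw [e2]
      linear_combination hx
    rw [e1, PadicInt.isUnit_iff] at *
    have e2 : ‖(p : ℤ_[p]) * x‖ < 1 := by
      rw [norm_mul]
      have : ‖(p : ℤ_[p])‖ < 1 := by
        rw [PadicInt.norm_p]
        exact inv_lt_one_of_one_lt₀ (by exact_mod_cast hp.one_lt)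
      have h' := PadicInt.norm_le_one x
      have h'' := norm_nonneg (p : ℤ_[p])
      nlinarith
    rw [PadicInt.norm_add_eq_max_of_ne, hσ, max_eq_left e2.le]
    rw [hσ]
    exact e2.ne'
  choose τ hτ using hσr
  -- normalisation
  set x : Fin k → ℤ_[p] := fun i => ((τ i)⁻¹ : ℤ_[p]ˣ) * φ i σ with hx
  set c : Fin k → GK K → ℤ_[p] := fun i g => φ i g - (twist K p (r i) g - 1) * x i with hc
  have hcσ : ∀ i, c i σ = 0 := by
    intro i
    simp only [hc, hx]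
    rw [← hτ i, ← mul_assoc, Units.mul_inv, one_mul, sub_self]
  have hcoc : ∀ i g h, c i (g * h) = c i g + (((χ g) ^ (r i) : ℤ_[p]ˣ) : ℤ_[p]) * c i h := by
    intro i g h
    have e2 : (((χ g) ^ (r i) : ℤ_[p]ˣ) : ℤ_[p]) = twist K p (r i) g := rfl
    simp only [hc]
    rw [(hφ i).2.2.1.1.2 g h, twist_mul, e2]
    ring
  have hφ0 : ∀ i, φ i ≠ 0 := by
    intro i h
    have e1 := hind (Pi.single i 1) (fun ρ => by
      have e2 : (fun g => ∑ j with r j = ρ, (Pi.single i (1 : ℤ_[p]) : Fin k → ℤ_[p]) j * φ j g) =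
          0 := by
        funext g
        refine Finset.sum_eq_zero fun j _ => ?_
        by_cases hj : j = i
        · subst hj
          rw [h, Pi.zero_apply, mul_zero]
        · rw [Pi.single_eq_of_ne hj, zero_mul]
      rw [e2]
      exact zero_mem _)
    have e3 := congrFun e1 i
    rw [Pi.single_eq_same, Pi.zero_apply] at e3
    exact one_ne_zero e3
  have htw : ∀ i, ∀ g ∈ (maxUnram K S).fixingSubgroup, twist K p (r i) g = 1 := fun i g hg =>
    twist_eq_one K p h11 S (r i) (φ i) (hφ i).2.2.1 (hφ0 i) g hg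
  have hcI : ∀ i, ∀ g ∈ (maxUnram K S).fixingSubgroup, c i g = 0 := by
    intro i g hg
    simp only [hc]
    rw [htw i g hg, sub_self, zero_mul, sub_zero]
    exact (hφ i).2.2.1.2 g hg
  have hcont : ∀ i, Continuous (c i) := by
    intro i
    exact (hφ i).2.2.1.1.1.sub
      (((continuous_zpow_cyc K p (r i)).sub continuous_const).mul continuous_const)
  -- independence
  have hdist : ∀ ρ ρ' : ℤ, (∀ g, (χ g) ^ ρ = (χ g) ^ ρ') → ρ = ρ' := by
    intro ρ ρ' h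
    by_contra hne
    refine zpow_ne_one h2 hp2 ν hν (χ γ) (hall γ) hγ (ρ - ρ') (sub_ne_zero.mpr hne) ?_
    rw [zpow_sub, h γ, mul_inv_cancel]
  have hindc : ∀ a : Fin k → ℤ_[p], (∀ g, ∑ i, a i * c i g = 0) → a = 0 := by
    intro a ha
    refine hind a fun ρ => ?_
    have e1 := h8 p (GK K) χ hdist k r c hcoc a ha ρ
    refine ⟨∑ i with r i = ρ, a i * x i, fun g => ?_⟩
    have e2 : ∑ i with r i = ρ, a i * φ i g = ∑ i with r i = ρ, a i * c i g +
        (twist K p ρ g - 1) * ∑ i with r i = ρ, a i * x i := by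
      rw [Finset.mul_sum, ← Finset.sum_add_distrib]
      refine Finset.sum_congr rfl fun i hi => ?_
      rw [Finset.mem_filter] at hi
      simp only [hc]
      rw [hi.2]
      ring
    show ∑ i with r i = ρ, a i * φ i g = _
    rw [e2, e1 g, zero_add]
  obtain ⟨M0, hM0⟩ := h5 p (GK K) k c hindc
  obtain ⟨m0, hm0⟩ := exists_family h1 h2 h3 h4 h6 hp2 hcoc (fun i => (hφ i).2.1)
    (fun i => (hφ i).1) ν hν γ hγ hall M0 hM0
  refine ⟨m0, fun m hm => ?_⟩
  obtain ⟨N, b, hb1, hb2, hN⟩ := hm0 m hm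
  have hFcoc : ∀ j g h, (p : ℤ_[p]) ^ m ∣ (∑ i, b j i * c i (g * h)) -
      ((∑ i, b j i * c i g) + (cyc K p g : ℤ_[p]) * ∑ i, b j i * c i h) := by
    intro j g h
    have e1 : (∑ i, b j i * c i (g * h)) -
        ((∑ i, b j i * c i g) + (cyc K p g : ℤ_[p]) * ∑ i, b j i * c i h) =
        (cyc K p g : ℤ_[p]) *
          ∑ i, ((((χ g) ^ (r i - 1) : ℤ_[p]ˣ) : ℤ_[p]) - 1) * b j i * c i h := by
      rw [Finset.mul_sum, Finset.mul_sum, ← Finset.sum_add_distrib, ← Finset.sum_sub_distrib]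
      refine Finset.sum_congr rfl fun i _ => ?_
      rw [hcoc i g h]
      have e2 : (((χ g) ^ (r i) : ℤ_[p]ˣ) : ℤ_[p]) =
          (χ g : ℤ_[p]) * (((χ g) ^ (r i - 1) : ℤ_[p]ˣ) : ℤ_[p]) := by
        rw [← Units.val_mul, ← zpow_one_add]
        congr 2
        ring
      rw [e2]
      ring
    rw [e1]
    exact (hb1 j g h).mul_left _
  refine ⟨N, fun j g => ∑ i, b j i * c i g, ?_, ?_, hN⟩
  · intro j
    refine ⟨?_, hFcoc j, ?_, ?_⟩
    · exact continuous_finsetSum _ fun i _ => continuous_const.mul (hcont i)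
    · intro g hg
      have e1 : ∑ i, b j i * c i g = 0 := Finset.sum_eq_zero fun i _ => by
        rw [hcI i g hg, mul_zero]
      show (p : ℤ_[p]) ^ m ∣ ∑ i, b j i * c i g
      rw [e1]
      exact dvd_zero _
    · intro v hv ι
      choose y hy using fun i => (hφ i).2.2.2.1 v hv ι
      let D : Submonoid (GK K) :=
        { carrier := {h | ∃ g : GK (v.adicCompletion K), ∀ x, ι (h x) = g (ι x)}
          one_mem' := ⟨1, fun x => rfl⟩
          mul_mem' := by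
            rintro h h' ⟨g, hg⟩ ⟨g', hg'⟩
            refine ⟨g * g', fun x => ?_⟩
            rw [AlgEquiv.mul_apply, AlgEquiv.mul_apply, hg, hg'] }
      obtain ⟨t, ht⟩ := h7 p hp2 D (χ.comp D.subtype) k m r (b j) (fun i => y i - x i)
        (fun h => ∑ i, b j i * c i h) (by
          rintro ⟨h, g, hg⟩
          refine Finset.sum_congr rfl fun i _ => ?_
          simp only [hc]
          rw [hy i g h hg]
          have e2 : ((((χ.comp D.subtype) ⟨h, g, hg⟩) ^ (r i) : ℤ_[p]ˣ) : ℤ_[p]) =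
              twist K p (r i) h := rfl
          rw [e2]
          ring) (by
          intro g h
          exact hFcoc j g h)
      exact ⟨t, fun g h hgh => ht ⟨h, g, hgh⟩⟩
  · intro j j' t ht
    refine hb2 j j' fun g => ?_
    have e1 := ht σ
    simp only [hcσ, mul_zero, Finset.sum_const_zero, sub_zero, zero_sub] at e1
    have e2 : (p : ℤ_[p]) ^ m ∣ t := by
      obtain ⟨w, hw⟩ := hσ
      rw [← hw, dvd_neg] at e1
      exact (Units.dvd_mul_left).mp e1
    have e3 := dvd_add (ht g) (e2.mul_left ((cyc K p g : ℤ_[p]) - 1))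
    rw [sub_add_cancel, ← Finset.sum_sub_distrib] at e3
    convert e3 using 1
    refine Finset.sum_congr rfl fun i _ => ?_
    ring

end Pool.Agent.Work.MP_59f3ad_nt.Tw

end

section

/-!
An element whose cyclotomic character has minimal level.
-/

open NumberField IsDedekindDomain Polynomial

namespace Pool.Agent.Work.MP_59f3ad_nt.Tw

universe u

namespace GamX

/-- `p` divides `u^(p-1) - 1` for every unit `u`. -/
theorem dvd_pow_sub (p : ℕ) [Fact p.Prime] (u : ℤ_[p]ˣ) :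
    (p : ℤ_[p]) ∣ (u : ℤ_[p]) ^ (p - 1) - 1 := by
  rw [← Ideal.mem_span_singleton, ← PadicInt.maximalIdeal_eq_span_p, ← PadicInt.ker_toZMod,
    RingHom.mem_ker, map_sub, map_pow, map_one, sub_eq_zero]
  apply ZMod.pow_card_sub_one_eq_one
  exact ((Units.map (PadicInt.toZMod (p := p)).toMonoidHom) u).ne_zero

variable (K : Type u) [Field K] [NumberField K] (p : ℕ) [Fact p.Prime]

/-- If `χ(g)^(p-1) = 1` for all `g`, the conjugates of a `p`-power root of unity are few. -/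
theorem natDegree_le (h : ∀ g : GK K, (cyc K p g : ℤ_[p]) ^ (p - 1) = 1) (n : ℕ)
    (ζ : AlgebraicClosure K) (hζ : ζ ^ p ^ n = 1) : (minpoly K ζ).natDegree ≤ p - 1 := by
  classical
  have hint : IsIntegral K ζ := Algebra.IsIntegral.isIntegral ζ
  have hsep : (minpoly K ζ).Separable := (minpoly.irreducible hint).separable
  rw [← Polynomial.card_rootSet_eq_natDegree (K := AlgebraicClosure K) hsep
    (IsAlgClosed.splits _)]
  have hsub : (minpoly K ζ).rootSet (AlgebraicClosure K) ⊆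
      (((nthRoots (p - 1) (1 : ℤ_[p])).toFinset.image (fun u => zpw p n ζ u) :
        Finset (AlgebraicClosure K)) : Set (AlgebraicClosure K)) := by
    intro y hy
    have hy1 : aeval y (minpoly K ζ) = 0 := (mem_rootSet.1 hy).2
    have hy2 : minpoly K ζ = minpoly K y :=
      minpoly.eq_of_irreducible_of_monic (minpoly.irreducible hint) hy1 (minpoly.monic hint)
    obtain ⟨g, hg⟩ := (Normal.minpoly_eq_iff_mem_orbit (F := K) (AlgebraicClosure K)).1 hy2.symm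
    have hg' : g ζ = y := hg
    rw [Finset.coe_image]
    refine ⟨(cyc K p g : ℤ_[p]), ?_, ?_⟩
    · rw [Finset.mem_coe, Multiset.mem_toFinset, mem_nthRoots (by
        have := (Fact.out : p.Prime).two_le; omega)]
      exact h g
    · have h1 := zpw_galois K p n ζ hζ g 1
      rw [zpw_one hζ, mul_one] at h1
      rw [← hg', h1]
  have h1 : Fintype.card ((minpoly K ζ).rootSet (AlgebraicClosure K)) ≤
      ((nthRoots (p - 1) (1 : ℤ_[p])).toFinset.image (fun u => zpw p n ζ u)).card := by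
    rw [← Nat.card_eq_fintype_card, Nat.card_coe_set_eq, ← Set.ncard_coe_finset]
    exact Set.ncard_le_ncard hsub (Finset.finite_toSet _)
  refine h1.trans (Finset.card_image_le.trans ?_)
  exact (Multiset.toFinset_card_le _).trans (card_nthRoots _ _)

/-- The `(p-1)`-st power of the cyclotomic character is nontrivial. -/
theorem exists_ne : ∃ g : GK K, (cyc K p g : ℤ_[p]) ^ (p - 1) ≠ 1 := by
  by_contra hcon
  push Not at hcon
  have hp : p.Prime := Fact.out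
  have hp1 : 0 < p - 1 := by have := hp.two_le; omega
  set d := Module.finrank ℚ K with hd
  obtain ⟨ζ, hζ⟩ := (hasRoots K p (d + 1)).exists_primitiveRoot
  have hζ1 : ζ ^ p ^ (d + 1) = 1 := hζ.pow_eq_one
  have h1 := natDegree_le K p hcon (d + 1) ζ hζ1
  have hint : IsIntegral K ζ := Algebra.IsIntegral.isIntegral ζ
  have : CharZero (AlgebraicClosure K) :=
    charZero_of_injective_algebraMap (algebraMap K (AlgebraicClosure K)).injective
  have : FiniteDimensional K (IntermediateField.adjoin K {ζ}) :=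
    IntermediateField.adjoin.finiteDimensional hint
  have : FiniteDimensional ℚ (IntermediateField.adjoin K {ζ}) :=
    FiniteDimensional.trans ℚ K _
  have h2 : Module.finrank ℚ (IntermediateField.adjoin K {ζ}) ≤ d * (p - 1) := by
    rw [← Module.finrank_mul_finrank ℚ K (IntermediateField.adjoin K {ζ}),
      IntermediateField.adjoin.finrank hint]
    exact Nat.mul_le_mul_left _ h1
  have h3 : (p ^ (d + 1)).totient ≤ Module.finrank ℚ (IntermediateField.adjoin K {ζ}) := by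
    have e1 : (minpoly ℚ ζ).natDegree = (p ^ (d + 1)).totient := by
      rw [← cyclotomic_eq_minpoly_rat hζ (pow_pos hp.pos _), natDegree_cyclotomic]
    have e2 : minpoly ℚ ζ = minpoly ℚ (IntermediateField.AdjoinSimple.gen K ζ) := by
      rw [← minpoly.algebraMap_eq (A := ℚ) (B := IntermediateField.adjoin K {ζ})
        (B' := AlgebraicClosure K) (RingHom.injective
          (algebraMap (IntermediateField.adjoin K {ζ}) (AlgebraicClosure K)))
        (IntermediateField.AdjoinSimple.gen K ζ), IntermediateField.AdjoinSimple.algebraMap_gen]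
    rw [← e1, e2]
    exact minpoly.natDegree_le _
  rw [Nat.totient_prime_pow_succ hp] at h3
  have h4 : p ^ d * (p - 1) ≤ d * (p - 1) := h3.trans h2
  have h5 : p ^ d ≤ d := Nat.le_of_mul_le_mul_right h4 hp1
  exact absurd h5 (not_le.2 (Nat.lt_pow_self hp.one_lt))

end GamX

open GamX in
theorem pr_Gam : StGam.{u} := by
  classical
  intro K _ _ p _
  have hp : p.Prime := Fact.out
  obtain ⟨g0, hg0⟩ := exists_ne K p
  have hex : ∃ n : ℕ, ∃ g : GK K, ¬ (p : ℤ_[p]) ^ (n + 1) ∣ (cyc K p g : ℤ_[p]) ^ (p - 1) - 1 := by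
    have h1 : (cyc K p g0 : ℤ_[p]) ^ (p - 1) - 1 ≠ 0 := sub_ne_zero.2 hg0
    by_contra hcon
    push Not at hcon
    have h2 : FiniteMultiplicity (p : ℤ_[p]) ((cyc K p g0 : ℤ_[p]) ^ (p - 1) - 1) :=
      FiniteMultiplicity.of_prime_left PadicInt.prime_p h1
    obtain ⟨n, hn⟩ := h2
    exact hn (hcon n g0)
  obtain ⟨γ, hγ⟩ := Nat.find_spec hex
  have hall : ∀ g : GK K, (p : ℤ_[p]) ^ (Nat.find hex) ∣ (cyc K p g : ℤ_[p]) ^ (p - 1) - 1 := by
    intro g
    rcases Nat.eq_zero_or_pos (Nat.find hex) with h0 | h0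
    · rw [h0, pow_zero]
      exact one_dvd _
    · have h1 := Nat.find_min hex (m := Nat.find hex - 1) (by omega)
      push Not at h1
      have h2 := h1 g
      rwa [Nat.sub_add_cancel h0] at h2
  refine ⟨Nat.find hex, γ, ?_, hγ, hall⟩
  by_contra h0
  have h0' : Nat.find hex = 0 := by omega
  rw [h0', zero_add, pow_one] at hγ
  exact hγ (dvd_pow_sub p _)

end Pool.Agent.Work.MP_59f3ad_nt.Tw

end

section

/-! Kummer theory modulo `p^m`. -/

open NumberField IsDedekindDomain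

namespace Pool.Agent.Work.MP_59f3ad_nt.Tw

universe u

namespace KumX

theorem zpw_congr {F : Type*} [Field F] {p : ℕ} [Fact p.Prime] {n : ℕ} {ζ : F}
    (hζ : IsPrimitiveRoot ζ (p ^ n)) {a b : ℤ_[p]} (h : (p : ℤ_[p]) ^ n ∣ a - b) :
    zpw p n ζ a = zpw p n ζ b := by
  have h1 : a = (a - b) + b := by ring
  rw [h1, zpw_add hζ.pow_eq_one, (zpw_eq_one_iff hζ _).2 h, one_mul]

variable (L : Type u) [Field L] [NumberField L] (p : ℕ) [Fact p.Prime]

theorem exists_field_dvd' (n : ℕ) (F : GK L → ℤ_[p]) (hcont : Continuous F)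
    (h1 : (p : ℤ_[p]) ^ n ∣ F 1) :
    ∃ E : IntermediateField L (AlgebraicClosure L), FiniteDimensional L E ∧
      ∀ g ∈ E.fixingSubgroup, (p : ℤ_[p]) ^ n ∣ F g := by
  have h2 : {a : ℤ_[p] | (p : ℤ_[p]) ^ n ∣ a} ∈ nhds (F 1) := by
    refine Metric.mem_nhds_iff.mpr ⟨(p : ℝ) ^ (-n : ℤ), ?_, ?_⟩
    · have : (0 : ℝ) < p := by exact_mod_cast (Fact.out : p.Prime).pos
      positivity
    · intro a ha
      rw [Metric.mem_ball, dist_eq_norm] at ha
      have h3 : (p : ℤ_[p]) ^ n ∣ a - F 1 :=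
        (PadicInt.norm_le_pow_iff_mem_span_pow _ n).mp ha.le |> Ideal.mem_span_singleton.mp
      have h4 := dvd_add h3 h1
      rwa [sub_add_cancel] at h4
  have h3 : F ⁻¹' {a : ℤ_[p] | (p : ℤ_[p]) ^ n ∣ a} ∈ nhds (1 : GK L) :=
    hcont.continuousAt.preimage_mem_nhds h2
  rw [krullTopology_mem_nhds_one_iff] at h3
  obtain ⟨E, hE, hsub⟩ := h3
  exact ⟨E, hE, fun g hg => hsub hg⟩

end KumX

theorem pr_Kum : StKum.{u} := by
  intro L _ _ p _ n S F ζ hζ hKF
  obtain ⟨hcont, hcoc, hvan, hloc⟩ := hKF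
  have hp : p.Prime := Fact.out
  have hζ1 : ζ ^ p ^ n = 1 := hζ.pow_eq_one
  have hF1 : (p : ℤ_[p]) ^ n ∣ F 1 := by
    have := hcoc 1 1
    rw [mul_one, map_one, Units.val_one, one_mul] at this
    have h2 : F 1 - (F 1 + F 1) = -F 1 := by ring
    rwa [h2, dvd_neg] at this
  obtain ⟨E, hE, hEφ⟩ := KumX.exists_field_dvd' L p n F hcont hF1
  obtain ⟨β, hβ0, hβ⟩ := hilbert90_cont L (fun g => zpw p n ζ (F g))
    (fun g => zpw_ne_zero hζ1 _) (fun g h => by
      rw [KumX.zpw_congr hζ (hcoc g h), zpw_add hζ1, zpw_galois L p n ζ hζ1]) E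
    (fun g hg => (zpw_eq_one_iff hζ _).mpr (hEφ g hg))
  have hGal : IsGalois L (AlgebraicClosure L) := ⟨⟩
  obtain ⟨α, hα⟩ : ∃ α : L, algebraMap L (AlgebraicClosure L) α = β ^ p ^ n := by
    refine (InfiniteGalois.mem_range_algebraMap_iff_fixed (β ^ p ^ n)).mpr fun g => ?_
    rw [map_pow, hβ g, mul_pow, zpw_pow hζ1, one_mul]
  have hpn : p ^ n ≠ 0 := pow_ne_zero _ hp.ne_zero
  have hα0 : α ≠ 0 := by
    rintro rfl
    rw [map_zero] at hα
    exact hβ0 (pow_eq_zero_iff hpn |>.mp hα.symm)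
  have hβS : β ∈ maxUnram L S := by
    rw [← InfiniteGalois.fixedField_fixingSubgroup (maxUnram L S)]
    rintro ⟨g, hg⟩
    change g β = β
    rw [hβ g, (zpw_eq_one_iff hζ _).2 (hvan g hg), one_mul]
  have hlocal : ∀ v ∈ S, ∃ η : v.adicCompletion L,
      η ^ p ^ n = algebraMap L (v.adicCompletion L) α := by
    intro v hv
    have hchar : CharZero (v.adicCompletion L) :=
      charZero_of_injective_algebraMap (algebraMap L (v.adicCompletion L)).injective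
    let ι : AlgebraicClosure L →ₐ[L] AlgebraicClosure (v.adicCompletion L) := IsAlgClosed.lift
    obtain ⟨c, hc⟩ := hloc v hv ι
    obtain ⟨η, hη⟩ := exists_local_root L (v.adicCompletion L) ι (β * zpw p n ζ (-c)) (by
      intro g h hgh
      rw [map_mul, hβ h, zpw_galois L p n ζ hζ1, KumX.zpw_congr hζ (hc g h hgh)]
      have h1 : zpw p n ζ (((cyc L p h : ℤ_[p]) - 1) * c) * zpw p n ζ ((cyc L p h : ℤ_[p]) * -c) =
          zpw p n ζ (-c) := by
        rw [← zpw_add hζ1]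
        congr 1
        ring
      calc zpw p n ζ (((cyc L p h : ℤ_[p]) - 1) * c) * β *
            zpw p n ζ ((cyc L p h : ℤ_[p]) * -c) =
          β * (zpw p n ζ (((cyc L p h : ℤ_[p]) - 1) * c) *
            zpw p n ζ ((cyc L p h : ℤ_[p]) * -c)) := by ring
        _ = β * zpw p n ζ (-c) := by rw [h1])
    refine ⟨η, ?_⟩
    apply (algebraMap (v.adicCompletion L) (AlgebraicClosure (v.adicCompletion L))).injective
    rw [map_pow, hη, ← map_pow, mul_pow, zpw_pow hζ1, mul_one, ← hα, ι.commutes]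
    exact IsScalarTower.algebraMap_apply L (v.adicCompletion L) _ α
  refine ⟨β, α, hβ0, hα0, hβ, hα, hlocal, fun w => ?_⟩
  by_cases hw : w ∈ S
  · obtain ⟨η, hη⟩ := hlocal w hw
    obtain ⟨y, hy⟩ := w.valuation_surjective L (Valued.v η)
    refine ⟨y, ?_⟩
    rw [hy, ← map_pow, hη]
    exact (w.valuedAdicCompletion_eq_valuation' α).symm
  · exact valuation_pow_of_mem_maxUnram L S w hw _ β hβS α hα0 hα

end Pool.Agent.Work.MP_59f3ad_nt.Tw

end

section

/-!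
The maximal extension unramified outside `S` is normal.
-/

open NumberField IsDedekindDomain

namespace Pool.Agent.Work.MP_59f3ad_nt.Tw

universe u

namespace NrmX

/-- Invariance of `IsUnramifiedIn` under isomorphisms. -/
theorem unramIn {R A B : Type*} [CommRing R] [CommRing A] [CommRing B] [Algebra R A] [Algebra R B]
    (e : A ≃ₐ[R] B) {w : Ideal R} (h : Algebra.IsUnramifiedIn A w) :
    Algebra.IsUnramifiedIn B w := by
  intro Q hQ hlie
  have hP : (Q.comap e).IsPrime := Ideal.comap_isPrime e Q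
  have hPl : (Q.comap e).LiesOver w := by
    constructor
    rw [hlie.over]
    ext x
    rw [Ideal.mem_comap, Ideal.mem_comap, Ideal.mem_comap]
    have : e (algebraMap R A x) = algebraMap R B x := e.commutes x
    rw [this]
  have h1 : Algebra.IsUnramifiedAt R (Q.comap e) := h _ hP hPl
  exact Algebra.FormallyUnramified.of_equiv
    (Localization.localAlgEquiv (R := R) (Q.comap e) Q e rfl)

variable (L : Type u) [Field L] [NumberField L] (S : Set (HeightOneSpectrum (𝓞 L)))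

theorem unram_map (h : GK L) (F : IntermediateField L (AlgebraicClosure L))
    (hF : UnramOutside L S F) : UnramOutside L S (F.map h.toAlgHom) := by
  intro w hw
  exact unramIn (RingOfIntegers.mapAlgEquiv (IntermediateField.intermediateFieldMap h F))
    (hF w hw)

theorem map_maxUnram (h : GK L) : (maxUnram L S).map h.toAlgHom ≤ maxUnram L S := by
  unfold maxUnram
  rw [IntermediateField.map_iSup]
  apply iSup_le
  rintro ⟨F, hF1, hF2⟩
  have h1 : FiniteDimensional L (F.map h.toAlgHom) :=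
    LinearEquiv.finiteDimensional (IntermediateField.intermediateFieldMap h F).toLinearEquiv
  exact le_iSup (fun F : {F : IntermediateField L (AlgebraicClosure L) //
    FiniteDimensional L F ∧ UnramOutside L S F} => F.1)
    ⟨F.map h.toAlgHom, h1, unram_map L S h F hF2⟩

end NrmX

open NrmX in
theorem pr_Nrm : StNrm.{u} := by
  intro L _ _ S g hg h
  rw [IntermediateField.mem_fixingSubgroup_iff] at hg ⊢
  intro x hx
  have h1 : h x ∈ maxUnram L S := map_maxUnram L S h ⟨x, hx, rfl⟩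
  have h2 := hg (h x) h1
  change h⁻¹ (g (h x)) = x
  rw [h2]
  exact h.symm_apply_apply x

end Pool.Agent.Work.MP_59f3ad_nt.Tw

end

section

/-!
The cyclotomic character is nontrivial modulo `p` when the base field contains no nontrivial
`p`-th roots of unity.
-/

open NumberField IsDedekindDomain

namespace Pool.Agent.Work.MP_59f3ad_nt.Tw

universe u

theorem pr_Sig : StSig.{u} := by
  intro K _ _ p _ hK
  have hp : p.Prime := Fact.out
  obtain ⟨ζ, hζ⟩ := (hasRoots K p 1).exists_primitiveRoot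
  have hζ1 : ζ ^ p ^ 1 = 1 := hζ.pow_eq_one
  have hnot : ζ ∉ Set.range (algebraMap K (AlgebraicClosure K)) := by
    rintro ⟨y, hy⟩
    have h1 : y ^ p = 1 := by
      apply (algebraMap K (AlgebraicClosure K)).injective
      rw [map_pow, hy, map_one, ← hζ1, pow_one]
    have h2 : y = 1 := hK y h1
    rw [h2, map_one] at hy
    rw [← hy] at hζ
    have h3 := hζ.eq_orderOf
    rw [orderOf_one, pow_one] at h3
    exact hp.one_lt.ne' h3
  rw [InfiniteGalois.mem_range_algebraMap_iff_fixed] at hnot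
  push Not at hnot
  obtain ⟨σ, hσ⟩ := hnot
  refine ⟨σ, ?_⟩
  have hnd : ¬ (p : ℤ_[p]) ^ 1 ∣ (cyc K p σ : ℤ_[p]) - 1 := by
    intro hd
    apply hσ
    have h1 := zpw_galois K p 1 ζ hζ1 σ 1
    rw [zpw_one hζ1, mul_one] at h1
    have h2 : (cyc K p σ : ℤ_[p]) = 1 + ((cyc K p σ : ℤ_[p]) - 1) := by ring
    rw [h1, h2, zpw_add hζ1, (zpw_eq_one_iff hζ _).2 hd, zpw_one hζ1, mul_one]
  rw [pow_one, ← PadicInt.norm_lt_one_iff_dvd] at hnd
  rw [PadicInt.isUnit_iff]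
  exact le_antisymm (PadicInt.norm_le_one _) (not_lt.1 hnd)

end Pool.Agent.Work.MP_59f3ad_nt.Tw

end

section

/-!
Statements (family part) for the bound on the exceptional twists `r ≡ 1 mod p - 1`
in Schneider's conjecture.
-/

open NumberField IsDedekindDomain Polynomial

namespace Pool.Agent.Work.MP_59f3ad_nt.Tw

universe u

/-- Full rank `p`-adically independent units give the Leopoldt property with an explicit
constant. -/
def StLL : Prop := ∀ (K : Type u) [Field K] [NumberField K] (p : ℕ), p.Prime →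
  (∀ ζ : K, ζ ^ p = 1 → ζ = 1) → ∀ (n : ℕ) (w : Fin n → (𝓞 K)ˣ) (c : ℕ), PInd K p w c →
  Units.rank K = n → ∀ T j : ℕ, T ≠ 0 → ¬ p ^ (j + 1) ∣ T →
  (∀ (m : ℕ) (u : (𝓞 K)ˣ), LocPow K p m ((u : 𝓞 K) : K) → (p : 𝓞 K) ^ (m + 1) ∣ (u : 𝓞 K) ^ T - 1) →
  LLeo K p (c + j)

/-- `pind_of_minor_gen` with an explicit constant. -/
def StPin : Prop := ∀ (n : ℕ) (p : ℕ), p.Prime → ∀ (F : ℤ[X][X]), F.Monic →
  ∀ (H G : Fin n → ℤ[X][X]), (∀ l, F ∣ H l * G l - 1) → ∀ (Q1 t : ℤ),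
  Irreducible (F.map (evalRingHom (Q1 + p * t))) → ∀ (M : ℕ) (V : Fin n → ℕ → ℤ[X][X]),
  (∀ l N, (V l N).degree < F.natDegree) →
  (∀ l N, F.map (subT p Q1) ∣ ((H l).map (subT p Q1)) ^ (M * p ^ N)
    - 1 - C (C ((p : ℤ) ^ (N + 2))) * V l N) →
  (∀ l N i, C ((p : ℤ) ^ (N + 1)) ∣ (V l (N + 1) - V l N).coeff i) →
  ∀ (φ : Fin n → Fin F.natDegree) (N0 : ℕ),
  ¬ (p : ℤ) ^ (N0 + 1) ∣ (minorG V φ N0).eval t →
  ∀ (K : Type u) [Field K] [NumberField K] (x : 𝓞 K), Module.finrank ℚ K = F.natDegree →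
  aeval x (F.map (evalRingHom (Q1 + p * t))) = 0 →
  ∃ w : Fin n → (𝓞 K)ˣ, ∀ c1 : ℕ, IdxC K x F.natDegree p c1 → PInd K p w (2 + c1 + N0)

/-- `exceptions_class_gen` with an explicit constant, for parameters of bounded height. -/
def StFamC : Prop := ∀ (n : ℕ) (R : Type) [CommRing R] [Countable R] (F : R[X][X]), F.Monic →
  1 ≤ F.natDegree → ∀ (H G : Fin n → R[X][X]), (∀ l, F ∣ H l * G l - 1) →
  (∀ ψ : R →+* ℂ, ∃ B : ℝ, ∀ τ : ℝ, B < τ →
    LogDetC (F.map (mapRingHom ψ)) (fun l => (H l).map (mapRingHom ψ)) τ) →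
  ∃ E : ℕ, ∀ p : ℕ, p.Prime → ∀ (y : R →+* ℤ) (Q1 : ℤ) (Y : ℕ), ∃ Z : Set ℤ, Z.Finite ∧
    Z.ncard ≤ 2 * E + 1 ∧
    ∀ t : ℤ, |t| ≤ Y → t ∉ Z →
    Irreducible ((F.map (mapRingHom y)).map (evalRingHom (Q1 + p * t))) →
    ∀ (K : Type u) [Field K] [NumberField K] (x : 𝓞 K), Module.finrank ℚ K = F.natDegree →
    aeval x ((F.map (mapRingHom y)).map (evalRingHom (Q1 + p * t))) = 0 →
    ∃ w : Fin n → (𝓞 K)ˣ, ∀ c1 : ℕ, IdxC K x F.natDegree p c1 →
      PInd K p w (2 + c1 + (E + (2 * E + 1) * Nat.log p (2 * Y)))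

/-- `exceptions_gen` with an explicit constant, for parameters of bounded height. -/
def StFam : Prop := ∀ (n : ℕ) (R : Type) [CommRing R] [Countable R] (F : R[X][X]), F.Monic →
  1 ≤ F.natDegree → ∀ (H G : Fin n → R[X][X]), (∀ l, F ∣ H l * G l - 1) →
  (∀ ψ : R →+* ℂ, ∃ B : ℝ, ∀ τ : ℝ, B < τ →
    LogDetC (F.map (mapRingHom ψ)) (fun l => (H l).map (mapRingHom ψ)) τ) →
  ∃ E : ℕ, ∀ p : ℕ, p.Prime → ∀ (y : R →+* ℤ) (Y : ℕ), ∃ Z : Set ℤ, Z.Finite ∧
    Z.ncard ≤ (2 * E + 1) * p ∧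
    ∀ t : ℤ, |t| ≤ Y → t ∉ Z →
    Irreducible ((F.map (mapRingHom y)).map (evalRingHom t)) →
    ∀ (K : Type u) [Field K] [NumberField K] (x : 𝓞 K), Module.finrank ℚ K = F.natDegree →
    aeval x ((F.map (mapRingHom y)).map (evalRingHom t)) = 0 →
    ∃ w : Fin n → (𝓞 K)ˣ, ∀ c1 : ℕ, IdxC K x F.natDegree p c1 →
      PInd K p w (2 + c1 + (E + (2 * E + 1) * Nat.log p (2 * Y)))

/-- `exceptions_box` with an explicit constant, for exceptional sets depending on the height. -/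
def StBox : Prop := ∀ (m : ℕ) (F : (MvPolynomial (Fin (m + 1)) ℤ)[X]), F.Monic → ∀ (n : ℕ)
  (u : Fin n → (AdjoinRoot F)ˣ),
  (∀ E : Fin n → ℤ, E ≠ 0 →
    Transcendental ℤ ((∏ i, u i ^ E i : (AdjoinRoot F)ˣ) : AdjoinRoot F)) →
  ∃ (Bad : ℕ → ℕ → Set (Fin (m + 1) → ℤ)) (C : ℕ),
    (∀ p : ℕ, p.Prime → ∀ H : ℕ, 1 ≤ H →
      {t : Fin (m + 1) → ℤ | (∀ i, |t i| ≤ H) ∧ t ∈ Bad H p}.ncard ≤ C * p * H ^ m) ∧
    ∀ p : ℕ, p.Prime → ∀ H : ℕ, 1 ≤ H → ∀ t : Fin (m + 1) → ℤ, (∀ i, |t i| ≤ H) → t ∉ Bad H p →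
      Irreducible (F.map (MvPolynomial.eval t)) →
      ∀ (K : Type u) [Field K] [NumberField K] (x : 𝓞 K), Module.finrank ℚ K = F.natDegree →
      aeval x (F.map (MvPolynomial.eval t)) = 0 →
      ∃ w : Fin n → (𝓞 K)ˣ, ∀ c1 : ℕ, IdxC K x F.natDegree p c1 →
        PInd K p w (c1 + C * (1 + Nat.log p H))

end Pool.Agent.Work.MP_59f3ad_nt.Tw

end

section

/-!
The exceptional set of a family with several parameters, with explicit constants.
-/

open Polynomial NumberField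

namespace Pool.Agent.Work.MP_59f3ad_nt.Tw

universe u

namespace BoxX

theorem pind_mono {K : Type u} [Field K] [NumberField K] (p : ℕ) {n : ℕ} (w : Fin n → (𝓞 K)ˣ)
    {c c' : ℕ} (h : c ≤ c') (hw : PInd K p w c) : PInd K p w c' := fun m E hE =>
  hw m E ((pow_dvd_pow _ (by omega)).trans hE)

theorem log_le {p H : ℕ} (hp : p.Prime) (hH : 1 ≤ H) :
    Nat.log p (2 * H) ≤ 1 + Nat.log p H := by
  calc Nat.log p (2 * H) ≤ Nat.log p (H * p) := by
        apply Nat.log_mono_right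
        have := Nat.mul_le_mul_left H hp.two_le
        omega
    _ = Nat.log p H + 1 := Nat.log_mul_base hp.one_lt (by omega)
    _ = 1 + Nat.log p H := Nat.add_comm _ _

theorem const_le (E C c1 : ℕ) (l l2 : ℕ) (h : l2 ≤ 1 + l) :
    2 + c1 + (E + (2 * E + 1) * l2) ≤ c1 + (C + 3 * E + 3) * (1 + l) := by
  have h1 : (2 * E + 1) * l2 ≤ (2 * E + 1) * (1 + l) := Nat.mul_le_mul_left _ h
  have h2 : (2 * E + 1) * (1 + l) + (C + E + 2) * (1 + l) = (C + 3 * E + 3) * (1 + l) := by ring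
  have h3 : (C + E + 2) * 1 ≤ (C + E + 2) * (1 + l) := Nat.mul_le_mul_left _ (by omega)
  omega

end BoxX

open BoxX in
theorem pr_Box : StFam.{u} → StBox.{u} := by
  intro hFam m F hF n u hu
  classical
  by_cases hex : ∃ t : Fin (m + 1) → ℤ, Irreducible (F.map (MvPolynomial.eval t))
  swap
  · refine ⟨fun _ _ => ∅, 0, fun p _ H _ => ?_, fun p _ H _ t _ _ h => absurd ⟨t, h⟩ hex⟩
    simp
  obtain ⟨t1, ht1⟩ := hex
  have hm1 : (F.map (MvPolynomial.eval t1)).Monic := hF.map _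
  have hd : 1 ≤ F.natDegree := by
    have h1 : (F.map (MvPolynomial.eval t1)).natDegree = F.natDegree := hF.natDegree_map _
    rw [← h1]
    by_contra hcon
    have h2 : (F.map (MvPolynomial.eval t1)).natDegree = 0 := by omega
    have h3 : F.map (MvPolynomial.eval t1) = 1 := hm1.natDegree_eq_zero.mp h2
    rw [h3] at ht1
    exact ht1.not_isUnit isUnit_one
  -- the separability polynomial
  have hsep1 : (F.map (((algebraMap ℚ ℂ).comp (Int.castRingHom ℚ)).comp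
      (MvPolynomial.eval t1))).Separable := by
    have h1 : Irreducible ((F.map (MvPolynomial.eval t1)).map (Int.castRingHom ℚ)) :=
      (IsPrimitive.Int.irreducible_iff_irreducible_map_cast hm1.isPrimitive).mp ht1
    have h2 : (((F.map (MvPolynomial.eval t1)).map (Int.castRingHom ℚ)).map
      (algebraMap ℚ ℂ)).Separable := h1.separable.map
    rwa [Polynomial.map_map, Polynomial.map_map] at h2
  obtain ⟨g, hg0, hg⟩ := exists_sepPoly F hF _ hsep1
  -- polynomial representatives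
  choose H hH using fun i => AdjoinRoot.mk_surjective (u i : AdjoinRoot F)
  choose G hG using fun i => AdjoinRoot.mk_surjective ((u i)⁻¹ : (AdjoinRoot F)ˣ).val
  have hHG : ∀ l, F ∣ H l * G l - 1 := by
    intro l
    rw [← AdjoinRoot.mk_eq_zero, map_sub, map_mul, hH, hG, map_one, Units.mul_inv, sub_self]
  -- the characteristic polynomials
  let χ : AdjoinRoot F → (MvPolynomial (Fin (m + 1)) ℤ)[X] := fun η =>
    (Algebra.leftMulMatrix (AdjoinRoot.powerBasisAux' hF) η).charpoly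
  have hχm : ∀ η, (χ η).Monic := fun η => Matrix.charpoly_monic _
  have hχd : ∀ η, (χ η).natDegree = F.natDegree := fun η => by
    simp only [χ]
    rw [Matrix.charpoly_natDegree_eq_dim, Fintype.card_fin]
  have hχr : ∀ η, aeval η (χ η) = 0 := by
    intro η
    apply Algebra.leftMulMatrix_injective (AdjoinRoot.powerBasisAux' hF)
    rw [← aeval_algHom_apply, map_zero]
    exact Matrix.aeval_self_charpoly _
  let D : ℕ := ∑ l : Fin n, ∑ k ∈ Finset.range (F.natDegree + 1),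
    ((χ (u l)).coeff k).totalDegree
  have hD : ∀ (l : Fin n) (k : ℕ), ((χ (u l)).coeff k).totalDegree ≤ D := by
    intro l k
    by_cases hk : k ∈ Finset.range (F.natDegree + 1)
    · have h1 : ((χ (u l)).coeff k).totalDegree ≤ ∑ k ∈ Finset.range (F.natDegree + 1),
          ((χ (u l)).coeff k).totalDegree :=
        Finset.single_le_sum (f := fun k => ((χ (u l)).coeff k).totalDegree)
          (fun _ _ => Nat.zero_le _) hk
      exact h1.trans (Finset.single_le_sum (f := fun l : Fin n =>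
        ∑ k ∈ Finset.range (F.natDegree + 1), ((χ (u l)).coeff k).totalDegree)
          (fun _ _ => Nat.zero_le _) (Finset.mem_univ l))
    · rw [coeff_eq_zero_of_natDegree_lt (by
        rw [hχd]
        rw [Finset.mem_range] at hk
        omega), MvPolynomial.totalDegree_zero]
      exact Nat.zero_le _
  obtain ⟨T, hT0, hT⟩ := exists_logDetC_fin n F.natDegree D
  let w : (Fin n → ℤ) → AdjoinRoot F := fun E => ((∏ i, u i ^ E i : (AdjoinRoot F)ˣ) : AdjoinRoot F)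
  have hk : ∀ E : Fin n → ℤ, ∃ k : ℕ, E ∈ T → 0 < ((χ (w E)).coeff k).totalDegree := by
    intro E
    by_cases hE : E ∈ T
    · obtain ⟨k, hk⟩ := exists_coeff_totalDegree_pos F hF (w E) (hu E (hT0 E hE))
      exact ⟨k, fun _ => hk⟩
    · exact ⟨0, fun h => absurd h hE⟩
  choose k hk using hk
  obtain ⟨v, hv0, hv⟩ := exists_direction (insert g (T.image fun E => (χ (w E)).coeff (k E)))
    (by
      intro c hc
      rw [Finset.mem_insert, Finset.mem_image] at hc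
      rcases hc with rfl | ⟨E, hE, rfl⟩
      · exact hg0
      · intro h
        have h1 := hk E hE
        rw [h, MvPolynomial.totalDegree_zero] at h1
        exact lt_irrefl _ h1) 0
  have hvg := hv g (Finset.mem_insert_self _ _)
  -- the separability on all lines
  have hsepy : ∀ y : Fin (m + 1) → ℂ, ∃ t0 : ℂ, ((F.map (lineHom v y)).map (evC t0)).Separable := by
    intro y
    have h1 : lineHom v y g ≠ 0 := by
      intro h
      have h2 := coeff_lineHom v y g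
      rw [h, coeff_zero] at h2
      exact hvg (by exact_mod_cast h2.symm)
    obtain ⟨t0, ht0⟩ : ∃ t0 : ℂ, (lineHom v y g).eval t0 ≠ 0 := by
      by_contra hcon
      push Not at hcon
      exact h1 (Polynomial.funext fun t => by rw [hcon t, eval_zero])
    refine ⟨t0, ?_⟩
    rw [Polynomial.map_map]
    exact hg _ ht0
  -- the analytic input on all lines
  have hC : ∀ ψ : MvPolynomial (Fin (m + 1)) ℤ →+* ℂ, ∃ B : ℝ, ∀ τ : ℝ, B < τ →
      LogDetC ((F.map (sliceHom v)).map (mapRingHom ψ))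
        (fun l => ((H l).map (sliceHom v)).map (mapRingHom ψ)) τ := by
    intro ψ
    set y : Fin (m + 1) → ℂ := fun i => ψ (MvPolynomial.X i) with hy
    simp only [Polynomial.map_map, slice_line, ← hy]
    obtain ⟨t0, ht0⟩ := hsepy y
    let h := adjMap (lineHom v y) F
    refine hT (F.map (lineHom v y)) (hF.map _) (hF.natDegree_map _) t0 ht0
      (fun l => Units.map (h : AdjoinRoot F →* AdjoinRoot (F.map (lineHom v y))) (u l)) ?_ _
      (fun l => (G l).map (lineHom v y)) ?_ ?_ (fun l => (χ (u l)).map (lineHom v y)) ?_ ?_ ?_ ?_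
    · intro E hE
      have h1 : ((∏ i, Units.map (h : AdjoinRoot F →* AdjoinRoot (F.map (lineHom v y)))
          (u i) ^ E i : (AdjoinRoot (F.map (lineHom v y)))ˣ) : AdjoinRoot (F.map (lineHom v y))) =
          h (w E) := by
        have h2 : (∏ i, Units.map (h : AdjoinRoot F →* AdjoinRoot (F.map (lineHom v y)))
          (u i) ^ E i) = Units.map (h : AdjoinRoot F →* AdjoinRoot (F.map (lineHom v y)))
            (∏ i, u i ^ E i) := by
          rw [map_prod]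
          simp only [map_zpow]
        rw [h2]
        rfl
      rw [h1]
      exact transcendental_line F hF (w E) (k E) _ rfl (hk E hE) v
        (hv _ (Finset.mem_insert_of_mem (Finset.mem_image_of_mem _ hE))) y t0 ht0 h
        (fun G => adjMap_mk _ F G)
    · intro l
      rw [← adjMap_mk, hH]
      rfl
    · intro l
      have h1 := Polynomial.map_dvd (lineHom v y) (hHG l)
      rwa [Polynomial.map_sub, Polynomial.map_mul, Polynomial.map_one] at h1
    · intro l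
      exact ((hχm _).map _).ne_zero
    · intro l
      exact natDegree_map_le.trans (hχd _).le
    · intro l k
      rw [coeff_map]
      exact (natDegree_lineHom_le v y _).trans (hD l k)
    · intro l t z hz
      rw [Polynomial.map_map, eval_map] at hz
      rw [Polynomial.map_map, Polynomial.map_map, eval_map, eval_map]
      have h1 := congrArg (AdjoinRoot.lift ((evC t).comp (lineHom v y)) z hz) (hχr (u l))
      rw [map_zero, aeval_def, Polynomial.hom_eval₂, ← hH, AdjoinRoot.lift_mk] at h1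
      have h2 : (AdjoinRoot.lift ((evC t).comp (lineHom v y)) z hz).comp
          (algebraMap (MvPolynomial (Fin (m + 1)) ℤ) (AdjoinRoot F)) = (evC t).comp (lineHom v y) := by
        refine RingHom.ext fun f => ?_
        rw [RingHom.comp_apply, AdjoinRoot.algebraMap_eq]
        exact AdjoinRoot.lift_of _
      rw [h2] at h1
      rw [← hH]
      exact h1
  have : Countable (MvPolynomial (Fin (m + 1)) ℤ) := countable_mv (Fin (m + 1))
  have hHG1 : ∀ l, F.map (sliceHom v) ∣ (H l).map (sliceHom v) * (G l).map (sliceHom v) - 1 := by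
    intro l
    have h1 := Polynomial.map_dvd (sliceHom v) (hHG l)
    rwa [Polynomial.map_sub, Polynomial.map_mul, Polynomial.map_one] at h1
  have hd1 : (F.map (sliceHom v)).natDegree = F.natDegree := hF.natDegree_map _
  obtain ⟨E, hE⟩ := hFam n (MvPolynomial (Fin (m + 1)) ℤ) (F.map (sliceHom v)) (hF.map _)
    (by rw [hd1]; exact hd)
    (fun l => (H l).map (sliceHom v)) (fun l => (G l).map (sliceHom v)) hHG1 hC
  have hB'' : ∀ (Y p : ℕ) (y : Fin (m + 1) → ℤ), ∃ Z : Set ℤ, p.Prime → Z.Finite ∧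
      Z.ncard ≤ (2 * E + 1) * p ∧
      ∀ t : ℤ, |t| ≤ Y → t ∉ Z → Irreducible (((F.map (sliceHom v)).map
        (mapRingHom (MvPolynomial.eval y))).map (evalRingHom t)) →
      ∀ (K : Type u) [Field K] [NumberField K] (x : 𝓞 K),
      Module.finrank ℚ K = (F.map (sliceHom v)).natDegree →
      aeval x (((F.map (sliceHom v)).map (mapRingHom (MvPolynomial.eval y))).map
        (evalRingHom t)) = 0 →
      ∃ w : Fin n → (𝓞 K)ˣ, ∀ c1 : ℕ, IdxC K x (F.map (sliceHom v)).natDegree p c1 →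
        PInd K p w (2 + c1 + (E + (2 * E + 1) * Nat.log p (2 * Y))) := by
    intro Y p y
    by_cases hp : p.Prime
    · obtain ⟨Z, hZ⟩ := hE p hp (MvPolynomial.eval y) Y
      exact ⟨Z, fun _ => hZ⟩
    · exact ⟨∅, fun h => absurd h hp⟩
  choose Z hZ using hB''
  obtain ⟨C, hCc⟩ := box_count v 0 hv0
  refine ⟨fun Y p => {t | t 0 / v 0 ∈ if p.Prime then Z Y p (fun i => t i - t 0 / v 0 * v i)
    else ∅}, C * (2 * E + 1) + 3 * E + 3, ?_, ?_⟩
  · intro p hp H' hH'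
    have h1 := hCc ((2 * E + 1) * p) (fun y => Z H' p y)
      (fun y => ⟨(hZ H' p y hp).1, (hZ H' p y hp).2.1⟩) H' hH'
    simp only [Set.mem_ofPred_eq, if_pos hp]
    rw [Fintype.card_fin, Nat.add_sub_cancel] at h1
    calc _ ≤ _ := h1
      _ = (C * (2 * E + 1)) * p * H' ^ m := by ring
      _ ≤ _ := Nat.mul_le_mul_right _ (Nat.mul_le_mul_right _ (by omega))
  · intro p hp H' hH' t htH ht hirr K _ _ x hfin hx
    simp only [Set.mem_ofPred_eq, if_pos hp] at ht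
    have hmap : ∀ P : (MvPolynomial (Fin (m + 1)) ℤ)[X], ((P.map (sliceHom v)).map
        (mapRingHom (MvPolynomial.eval (fun i => t i - t 0 / v 0 * v i)))).map
        (evalRingHom (t 0 / v 0)) = P.map (MvPolynomial.eval t) := by
      intro P
      rw [Polynomial.map_map, Polynomial.map_map, slice_eval]
      congr 2
      funext i
      ring
    have habs : |t 0 / v 0| ≤ (H' : ℤ) := (Int.abs_ediv_le_abs _ _).trans (htH 0)
    obtain ⟨w, hw⟩ := (hZ H' p _ hp).2.2 (t 0 / v 0) habs ht (by rw [hmap]; exact hirr) K x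
      (hfin.trans hd1.symm) (by rw [hmap]; exact hx)
    refine ⟨w, fun c1 hc1 => ?_⟩
    rw [hd1] at hw
    exact pind_mono p w (const_le E (C * (2 * E + 1)) c1 _ _ (log_le hp hH')) (hw c1 hc1)

end Pool.Agent.Work.MP_59f3ad_nt.Tw

end

section

/-!
# MP_59f3ad_nt, Tw, item Fam
-/

open Polynomial NumberField

namespace Pool.Agent.Work.MP_59f3ad_nt.Tw

universe u

theorem pr_Fam : StFamC.{u} → StFam.{u} := by
  classical
  intro h0 n R _ _ F hF hd H G hHG hC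
  obtain ⟨E, h⟩ := h0 n R F hF hd H G hHG hC
  refine ⟨E, fun p hp y Y => ?_⟩
  choose Z hZ hZc hZ' using fun Q1 : ℤ => h p hp y Q1 Y
  have hpos : (0 : ℤ) < p := by exact_mod_cast hp.pos
  have hfin : (⋃ r ∈ Finset.range p, (fun t => (r : ℤ) + p * t) '' Z r).Finite :=
    Set.Finite.biUnion (Finset.finite_toSet _) fun r _ => (hZ r).image _
  refine ⟨⋃ r ∈ Finset.range p, (fun t => (r : ℤ) + p * t) '' Z r, hfin, ?_, ?_⟩
  · have h1 : (⋃ r ∈ Finset.range p, (fun t => (r : ℤ) + p * t) '' Z r).ncard ≤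
        ∑ r ∈ Finset.range p, ((fun t => (r : ℤ) + p * t) '' Z r).ncard :=
      Finset.set_ncard_biUnion_le _ _
    refine h1.trans ?_
    calc ∑ r ∈ Finset.range p, ((fun t => (r : ℤ) + p * t) '' Z r).ncard
        ≤ ∑ _r ∈ Finset.range p, (2 * E + 1) := Finset.sum_le_sum fun r _ =>
          (Set.ncard_image_le (hZ r)).trans (hZc r)
      _ = (2 * E + 1) * p := by
          rw [Finset.sum_const, Finset.card_range, smul_eq_mul, mul_comm]
  · intro t htY ht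
    set r := t % p with hr
    have hr0 : 0 ≤ r := Int.emod_nonneg _ hpos.ne'
    have hrp : r < p := Int.emod_lt_of_pos _ hpos
    have h1 : t = r + p * (t / p) := (Int.emod_add_mul_ediv t p).symm
    have h2 : ((r.toNat : ℕ) : ℤ) = r := Int.toNat_of_nonneg hr0
    have h3 : t / p ∉ Z r := by
      intro h3
      apply ht
      rw [Set.mem_iUnion₂]
      refine ⟨r.toNat, ?_, ?_⟩
      · rw [Finset.mem_range]
        omega
      · rw [h2]
        exact ⟨_, h3, h1.symm⟩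
    have h5 : |t / (p : ℤ)| ≤ Y := by
      have h6 : (t / (p : ℤ)).natAbs ≤ t.natAbs := Int.natAbs_ediv_le_natAbs t p
      have h7 : t.natAbs ≤ Y := by
        have := htY
        rw [Int.abs_eq_natAbs] at this
        exact_mod_cast this
      rw [Int.abs_eq_natAbs]
      exact_mod_cast h6.trans h7
    have h4 := hZ' r _ h5 h3
    rw [← h1] at h4
    exact h4

end Pool.Agent.Work.MP_59f3ad_nt.Tw

end

section

/-!
The number of exceptions in a residue class, with explicit constants.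
-/

open NumberField IsDedekindDomain Polynomial

namespace Pool.Agent.Work.MP_59f3ad_nt.Tw

universe u

theorem pr_FamC : StZer → StPin.{u} → StFamC.{u} := by
  intro hZer hPin n R _ _ F hF hd H G hHG hC
  obtain ⟨E, hE⟩ := unif_minor_gen F hF H F.natDegree hC
  refine ⟨E, fun p hp y Q1 Y => ?_⟩
  set F' : ℤ[X][X] := F.map (mapRingHom y) with hF'
  have hF'm : F'.Monic := hF.map _
  have hdeg : F'.natDegree = F.natDegree := hF.natDegree_map _
  set H' : Fin n → ℤ[X][X] := fun l => (H l).map (mapRingHom y) with hH'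
  set G' : Fin n → ℤ[X][X] := fun l => (G l).map (mapRingHom y) with hG'
  have hHG' : ∀ l, F' ∣ H' l * G' l - 1 := by
    intro l
    have h1 := Polynomial.map_dvd (mapRingHom y) (hHG l)
    rwa [Polynomial.map_sub, Polynomial.map_mul, Polynomial.map_one] at h1
  obtain ⟨M, hM, V, hV1, hV2, hV3, hV4⟩ := exists_V_all p hp F' hF'm (by rw [hdeg]; exact hd)
    H' G' hHG' Q1
  rw [hdeg] at hM
  obtain ⟨φ, k, hk⟩ := hE p hp y Q1 M (E + 2) hM (by omega) (fun l => V l E)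
    (fun l => by rw [← hdeg]; exact hV1 l E)
    (fun l => by
      have h1 := hV2 l E
      simp only [hF', hH', Polynomial.map_map] at h1
      exact h1)
  have hW2 : ∀ l N, F'.map (subT p Q1) ∣ ((H' l).map (subT p Q1)) ^ (M * p ^ 2 * p ^ N)
        - 1 - C (C ((p : ℤ) ^ (N + 2))) * V l N := by
    intro l N
    have h1 := hV2 l N
    have h2 : M * p ^ 2 * p ^ N = M * p ^ (N + 2) := by ring
    rw [h2]
    exact h1
  obtain ⟨Z, hZf, hZc, hZ⟩ := hZer p hp (minorG V φ)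
    (fun N k => (C_dvd_iff_dvd_coeff _ _).mp (minorG_congr_add p V hV3 φ N 1) k) E (2 * E + 1)
    ⟨k, hk⟩
    (fun k hk => by
      have h1 : minorG V φ E ∈ Gam p := by
        refine det_mem_Gam p _ fun l j => ?_
        rw [Matrix.of_apply]
        exact mem_Gam.mpr (hV4 l E _)
      exact (pow_dvd_pow _ (by omega)).trans (mem_Gam.mp h1 k)) Y
  refine ⟨Z, hZf, hZc, fun t htY ht hirr K _ _ x hfin hx => ?_⟩
  have hN0 := hZ t htY ht
  have hφ : ∃ φ' : Fin n → Fin F'.natDegree,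
      minorG V φ' (E + (2 * E + 1) * Nat.log p (2 * Y)) =
        minorG V φ (E + (2 * E + 1) * Nat.log p (2 * Y)) :=
    ⟨fun i => Fin.cast hdeg.symm (φ i), rfl⟩
  obtain ⟨φ', hφ'⟩ := hφ
  rw [← hφ'] at hN0
  obtain ⟨w, hw⟩ := hPin n p hp F' hF'm H' G' hHG' Q1 t hirr (M * p ^ 2) V hV1
    hW2 hV3 φ' _ hN0 K x (hfin.trans hdeg.symm) hx
  refine ⟨w, fun c1 hc1 => hw c1 ?_⟩
  rw [hdeg]
  exact hc1

end Pool.Agent.Work.MP_59f3ad_nt.Tw

end

section

/-!
The bound on the exceptional twists `r ≡ 1 mod p - 1` in families.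
-/

open NumberField IsDedekindDomain Polynomial

namespace Pool.Agent.Work.MP_59f3ad_nt.Tw

universe u

/-- The main bound for a good parameter: `p` to the weighted number of exceptional twists. -/
def Good (K : Type u) [Field K] [NumberField K] (p : ℕ) [Fact p.Prime]
    (S : Set (HeightOneSpectrum (𝓞 K))) (B : ℕ) : Prop :=
  Sha1 K p 1 S = ⊥ ∧ ∀ (k : ℕ) (r : Fin k → ℤ) (φ : Fin k → GK K → ℤ_[p]),
    (∀ i, r i ≠ 1 ∧ ((p : ℤ) - 1) ∣ r i - 1 ∧ φ i ∈ ShaZ K p (r i) S) → Indep K p r φ →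
    p ^ (∑ i, (1 + padicValInt p (r i - 1))) ≤ B

/-- The family theorem. -/
def StThree : Prop := ∀ (m : ℕ) (F : (MvPolynomial (Fin (m + 1)) ℤ)[X]), F.Monic → ∀ (n : ℕ)
  (u : Fin n → (AdjoinRoot F)ˣ),
  (∀ E : Fin n → ℤ, E ≠ 0 →
    Transcendental ℤ ((∏ i, u i ^ E i : (AdjoinRoot F)ˣ) : AdjoinRoot F)) →
  ∃ (Bad : ℕ → ℕ → Set (Fin (m + 1) → ℤ)) (C : ℕ),
    (∀ p : ℕ, p.Prime → ∀ H : ℕ, 1 ≤ H →
      {t : Fin (m + 1) → ℤ | (∀ i, |t i| ≤ H) ∧ t ∈ Bad H p}.ncard ≤ C * p * H ^ m) ∧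
    (∀ H : ℕ, 2 ≤ H →
      ({t : Fin (m + 1) → ℤ | (∀ i, |t i| ≤ H) ∧ ∃ p : ℕ, p.Prime ∧ p ^ 2 ≤ H ∧
        t ∈ Bad H p}.ncard : ℝ) ≤ C * (H : ℝ) ^ (m + 1) / Real.log H) ∧
    ∀ (H p : ℕ) [Fact p.Prime], p ≤ H → ∀ t : Fin (m + 1) → ℤ, (∀ i, |t i| ≤ H) → t ∉ Bad H p →
      Irreducible (F.map (MvPolynomial.eval t)) →
      ∀ (K : Type u) [Field K] [NumberField K] (x : K),
      aeval x (F.map (MvPolynomial.eval t)) = 0 → Module.finrank ℚ K = F.natDegree →
      Units.rank K = n → (∀ ζ : K, ζ ^ p = 1 → ζ = 1) →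
      ∀ S : Set (HeightOneSpectrum (𝓞 K)),
      (∀ v : HeightOneSpectrum (𝓞 K), (p : 𝓞 K) ∈ v.asIdeal → v ∈ S) →
      Good K p S (C * H ^ C)

namespace FinalX

theorem bound_aux (H K0 K1 C X : ℕ) (hH : 1 ≤ H) (h0 : K0 ≤ C) (h1 : K1 ≤ C)
    (hX : X ≤ K0 * H ^ K1) : X ≤ C * H ^ C :=
  hX.trans (Nat.mul_le_mul h0 (Nat.pow_le_pow_right hH h1))

end FinalX

open FinalX in
theorem stThree (hTwo : StTwo.{u}) (hBox : StBox.{u}) (hLL : StLL.{u}) (hTex : StTex.{u})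
    (hIdx : StIdx.{u}) (hHcl : StHcl.{u}) (hRoot : StRoot) (hDen : StDen) : StThree.{u} := by
  intro m F hF n u hu
  obtain ⟨Bad, C0, hBad, hgood⟩ := hBox m F hF n u hu
  obtain ⟨C', hC'⟩ := hDen m C0
  obtain ⟨C1, hC1⟩ := hRoot m F hF
  obtain ⟨C2, hC2⟩ := hHcl F.natDegree
  set d := F.natDegree with hd
  -- constants
  set a0 : ℕ := d.factorial * (1 + C1) ^ (d * d) with ha0
  set a1 : ℕ := C1 * (d * d) with ha1
  set K0 : ℕ := C2 * (a0 ^ 2) ^ C2 * (a0 * d) ^ n with hK0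
  set K1 : ℕ := a1 * 2 * C2 + (a1 + (2 * C0 + 1)) * n with hK1
  set C : ℕ := K0 + K1 + C0 + C' with hC
  refine ⟨Bad, C, ?_, ?_, ?_⟩
  · intro p hp H hH
    refine (hBad p hp H hH).trans ?_
    gcongr
    omega
  · intro H hH
    refine (hC' Bad hBad H hH).trans ?_
    have h1 : (0 : ℝ) < Real.log H := Real.log_pos (by exact_mod_cast hH)
    gcongr
    exact_mod_cast (by omega : C' ≤ C)
  intro H p hpf hpH t ht htB hirr K _ _ x hx hfin hrank hζ S hS
  have hp : p.Prime := hpf.out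
  have hH : 1 ≤ H := hp.one_le.trans hpH
  have hm : (F.map (MvPolynomial.eval t)).Monic := hF.map _
  have hdt : (F.map (MvPolynomial.eval t)).natDegree = d := hF.natDegree_map _
  have hxint : IsIntegral ℤ x := ⟨F.map (MvPolynomial.eval t), hm, hx⟩
  obtain ⟨y, hy⟩ : ∃ y : 𝓞 K, algebraMap (𝓞 K) K y = x := ⟨⟨x, hxint⟩, rfl⟩
  have hy0 : aeval y (F.map (MvPolynomial.eval t)) = 0 := by
    apply FaithfulSMul.algebraMap_injective (𝓞 K) K
    rw [map_zero, ← hx, ← hy]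
    exact (aeval_algebraMap_apply K y (F.map (MvPolynomial.eval t))).symm
  -- the size of the generator
  set R : ℝ := 1 + C1 * (H : ℝ) ^ C1 with hR
  have hH' : (1 : ℝ) ≤ H := by exact_mod_cast hH
  have hR1 : 1 ≤ R := by
    rw [hR]
    have : (0 : ℝ) ≤ C1 * (H : ℝ) ^ C1 := by positivity
    linarith
  have hRle : R ≤ (1 + C1) * (H : ℝ) ^ C1 := by
    rw [hR]
    have : (1 : ℝ) ≤ (H : ℝ) ^ C1 := one_le_pow₀ hH'
    linarith
  have hσ : ∀ σ : K →+* ℂ, ‖σ (y : K)‖ ≤ R := by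
    intro σ
    have h1 := hC1 H hH t ht (σ (y : K)) (by
      have h2 : ((F.map (MvPolynomial.eval t)).map (Int.castRingHom ℂ)).eval (σ (y : K)) =
          σ (aeval (y : K) (F.map (MvPolynomial.eval t))) := by
        rw [aeval_def, Polynomial.hom_eval₂, eval_map]
        congr 1
        exact RingHom.ext_int _ _
      have h3 : ((y : 𝓞 K) : K) = x := hy
      rw [h2, h3, hx, map_zero])
    refine h1.trans ?_
    rw [hR]
    linarith
  have hlin := linearIndependent_of_irreducible _ hm hirr y hy0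
  rw [hdt] at hlin
  obtain ⟨hdisc, hidx⟩ := hIdx K d y hlin hfin.symm R hR1 hσ
  obtain ⟨c1, hc1, hpc1⟩ := hidx p hp
  have hA : (d.factorial : ℝ) * R ^ (d * d) ≤ ((a0 * H ^ a1 : ℕ) : ℝ) := by
    have h1 : R ^ (d * d) ≤ ((1 + C1) * (H : ℝ) ^ C1) ^ (d * d) :=
      pow_le_pow_left₀ (by linarith) hRle _
    have h2 : ((a0 * H ^ a1 : ℕ) : ℝ) =
        (d.factorial : ℝ) * ((1 + C1) * (H : ℝ) ^ C1) ^ (d * d) := by
      rw [ha0, ha1, mul_pow, ← pow_mul]
      push_cast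
      ring
    rw [h2]
    gcongr
  have hpc1' : p ^ c1 ≤ a0 * H ^ a1 := by
    have := hpc1.trans hA
    exact_mod_cast this
  have hdisc' : (discr K).natAbs ≤ (a0 * H ^ a1) ^ 2 := by
    have h1 : |((discr K : ℤ) : ℝ)| ≤ (((a0 * H ^ a1 : ℕ) : ℝ)) ^ 2 :=
      hdisc.trans (pow_le_pow_left₀ (by positivity) hA _)
    have h2 : (((discr K).natAbs : ℕ) : ℝ) = |((discr K : ℤ) : ℝ)| := by
      rw [← Int.cast_abs, Int.abs_eq_natAbs, Int.cast_natCast]
    rw [← h2] at h1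
    exact_mod_cast h1
  obtain ⟨w, hw⟩ := hgood p hp H hH t ht htB hirr K y hfin hy0
  have hw' := hw c1 hc1
  obtain ⟨T, j, hT0, hTj, hpj, hT⟩ := hTex K p hp
  have hleo := hLL K p hp hζ n w _ hw' hrank T j hT0 hTj hT
  refine ⟨?_, ?_⟩
  · obtain ⟨c', hc'⟩ := sleo_of_pind p hp w _ hw' hrank
    exact sha_eq_bot_of_sleo K p c' hc' S hS
  intro k r φ hφ hind
  have hmain := hTwo K p hζ S hS _ hleo k r φ hφ hind
  refine bound_aux H K0 K1 C _ hH (by omega) (by omega) (hmain.trans ?_)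
  have hcl : classNumber K ≤ C2 * ((a0 * H ^ a1) ^ 2) ^ C2 :=
    (hC2 K hfin).trans (Nat.mul_le_mul_left _ (Nat.pow_le_pow_left hdisc' _))
  have hlog : p ^ Nat.log p H ≤ H := Nat.pow_log_le_self p (by omega)
  have hexp : p ^ (c1 + C0 * (1 + Nat.log p H) + j) ≤
      (a0 * H ^ a1) * (H * H) ^ C0 * (H * d) := by
    rw [pow_add, pow_add]
    refine Nat.mul_le_mul (Nat.mul_le_mul hpc1' ?_) ?_
    · rw [mul_comm C0, pow_mul, pow_add, pow_one]
      exact Nat.pow_le_pow_left (Nat.mul_le_mul hpH hlog) _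
    · rw [← hfin]
      exact hpj.trans (Nat.mul_le_mul_right _ hpH)
  rw [hrank]
  calc classNumber K * p ^ ((c1 + C0 * (1 + Nat.log p H) + j) * n)
      ≤ (C2 * ((a0 * H ^ a1) ^ 2) ^ C2) * ((a0 * H ^ a1) * (H * H) ^ C0 * (H * d)) ^ n := by
        rw [pow_mul]
        exact Nat.mul_le_mul hcl (Nat.pow_le_pow_left hexp _)
    _ = K0 * H ^ K1 := by
        rw [hK0, hK1]
        have e1 : (a0 * H ^ a1) * (H * H) ^ C0 * (H * d) = (a0 * d) * H ^ (a1 + (2 * C0 + 1)) := by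
          ring
        rw [e1]
        rw [mul_pow (a0 * d), ← pow_mul H, mul_pow a0, ← pow_mul H, mul_pow (a0 ^ 2), ← pow_mul H,
          pow_add H]
        ring

end Pool.Agent.Work.MP_59f3ad_nt.Tw

end

section

/-!
Full rank `p`-adically independent units give the Leopoldt property with an explicit constant.
-/

open NumberField IsDedekindDomain

namespace Pool.Agent.Work.MP_59f3ad_nt.Tw

universe u

namespace LLX

/-- Cancellation of a factor with bounded `p`-valuation. -/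
theorem dvd_of_dvd_mul (p : ℕ) (hp : p.Prime) : ∀ (j T : ℕ), T ≠ 0 → ¬ p ^ (j + 1) ∣ T →
    ∀ (a : ℕ) (x : ℤ), (p : ℤ) ^ (a + j) ∣ x * T → (p : ℤ) ^ a ∣ x := by
  intro j T hT hj a x hx
  obtain ⟨v, T', hT', hTe⟩ := Nat.exists_eq_pow_mul_and_not_dvd hT p hp.ne_one
  have hv : v ≤ j := by
    by_contra hv
    apply hj
    rw [hTe]
    exact (pow_dvd_pow p (by omega)).mul_right _
  have h1 : (p : ℤ) ^ (a + v) ∣ x * T := (pow_dvd_pow _ (by omega)).trans hx
  rw [hTe, pow_add] at h1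
  push_cast at h1
  have h2 : (p : ℤ) ^ v * (p : ℤ) ^ a ∣ (p : ℤ) ^ v * (x * T') := by
    have e1 : (p : ℤ) ^ v * (x * T') = x * ((p : ℤ) ^ v * T') := by ring
    rw [e1, mul_comm ((p : ℤ) ^ v)]
    exact h1
  have hp0 : (p : ℤ) ^ v ≠ 0 := pow_ne_zero _ (by exact_mod_cast hp.ne_zero)
  have h3 := (mul_dvd_mul_iff_left hp0).1 h2
  have hcop : IsCoprime ((p : ℤ) ^ a) (T' : ℤ) := by
    apply IsCoprime.pow_left
    rw [Nat.isCoprime_iff_coprime]
    exact (Nat.Prime.coprime_iff_not_dvd hp).mpr hT'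
  exact hcop.dvd_of_dvd_mul_right h3

/-- The independence property with exponents in `Fin n`. -/
theorem exists_pow (K : Type u) [Field K] [NumberField K] (p : ℕ) (hp : p.Prime) (n : ℕ)
    (w : Fin n → (𝓞 K)ˣ) (c : ℕ) (hw : PInd K p w c) (hn : Units.rank K = n) :
    ∃ M : ℕ, M ≠ 0 ∧ ∀ a : (𝓞 K)ˣ, ∃ E : Fin n → ℤ, a ^ M = ∏ j, w j ^ E j := by
  classical
  let u' : Option (Fin n) → (𝓞 K)ˣ := fun o => o.elim 1 w
  let nn : Option (Fin n) → ℤ := fun o => o.elim 1 (fun _ => 0)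
  have hE0 : ∀ E : Option (Fin n) → ℤ, ∑ j, E j * nn j = 0 → E none = 0 := by
    intro E hE
    rw [Fintype.sum_option] at hE
    simpa [nn] using hE
  have hprod : ∀ E : Option (Fin n) → ℤ, ∏ o, u' o ^ E o = ∏ l, w l ^ E (some l) := by
    intro E
    rw [Fintype.prod_option]
    simp [u']
  have hindep : ∀ E : Option (Fin n) → ℤ, ∑ j, E j * nn j = 0 → ∏ j, u' j ^ E j = 1 →
      ∀ j, E j = 0 := by
    intro E hE h1 o
    rcases o with _ | j
    · exact hE0 E hE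
    · by_contra hne
      rw [hprod] at h1
      have h2 := hw (E (some j)).natAbs (fun l => E (some l)) (by rw [h1]; simp) j
      have h3 := Int.natAbs_dvd_natAbs.mpr h2
      rw [Int.natAbs_pow, Int.natAbs_natCast] at h3
      have h4 := Nat.le_of_dvd (Int.natAbs_pos.mpr hne) h3
      exact absurd h4 (not_le.mpr (Nat.lt_pow_self hp.one_lt))
  obtain ⟨M, hM0, hM⟩ := exists_pow_eq_prod u' nn ⟨none, by simp [nn]⟩
    (by rw [Fintype.card_option, Fintype.card_fin, Units.finrank_eq, hn]) hindep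
  refine ⟨M, hM0, fun a => ?_⟩
  obtain ⟨E, _, hEa⟩ := hM a
  exact ⟨fun l => E (some l), by rw [hEa, hprod]⟩

/-- No `p`-power torsion. -/
theorem eq_one_of_pow {U : Type*} [Monoid U] (p : ℕ) (h : ∀ x : U, x ^ p = 1 → x = 1) :
    ∀ (A : ℕ) (x : U), x ^ p ^ A = 1 → x = 1
  | 0, x, hx => by simpa using hx
  | A + 1, x, hx => by
    rw [pow_succ, pow_mul] at hx
    exact eq_one_of_pow p h A x (h _ hx)

/-- Extraction of a root by the Bezout identity. -/
theorem bezout {U : Type*} [CommGroup U] (p : ℕ) (hp : p.Prime) (M' : ℕ) (hM' : ¬ p ∣ M') (s : ℕ)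
    (u y : U) (h : u ^ M' = y ^ p ^ s) : ∃ w : U, u = w ^ p ^ s := by
  have hcop : IsCoprime (M' : ℤ) ((p ^ s : ℕ) : ℤ) := by
    rw [Nat.isCoprime_iff_coprime]
    exact (Nat.Coprime.pow_left _ ((Nat.Prime.coprime_iff_not_dvd hp).mpr hM')).symm
  obtain ⟨α, β, hαβ⟩ := hcop
  refine ⟨y ^ α * u ^ β, ?_⟩
  calc u = u ^ (α * (M' : ℤ) + β * ((p ^ s : ℕ) : ℤ)) := by rw [hαβ, zpow_one]
    _ = (y ^ α * u ^ β) ^ p ^ s := by
      rw [zpow_add, mul_comm α, mul_comm β, zpow_mul, zpow_mul, zpow_natCast, zpow_natCast, h,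
        mul_pow, ← zpow_natCast (y ^ α), ← zpow_natCast (u ^ β), ← zpow_mul, ← zpow_mul,
        ← zpow_natCast y, ← zpow_natCast u, ← zpow_mul, ← zpow_mul, mul_comm α, mul_comm β]

end LLX

open LLX in
theorem pr_LL : StLL.{u} := by
  intro K _ _ p hp htor n w c hw hn T j hT hj hloc m u hu
  rcases Nat.lt_or_ge (c + j) m with hm | hm
  swap
  · exact ⟨u, by rw [Nat.sub_eq_zero_of_le hm, pow_zero, pow_one]⟩
  obtain ⟨s, rfl⟩ : ∃ s, m = c + j + s := ⟨m - (c + j), by omega⟩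
  have hs : 1 ≤ s := by omega
  rw [Nat.add_sub_cancel_left]
  obtain ⟨M, hM0, hM⟩ := exists_pow K p hp n w c hw hn
  obtain ⟨A, M', hM', hMeq⟩ := Nat.exists_eq_pow_mul_and_not_dvd hM0 p hp.ne_one
  obtain ⟨E, hE⟩ := hM u
  have h1 : (p : 𝓞 K) ^ (c + j + s + 1) ∣ (u : 𝓞 K) ^ T - 1 := hloc _ u hu
  have h2 : (p : 𝓞 K) ^ (c + j + s + 1) ∣ (u : 𝓞 K) ^ (T * M') - 1 := by
    rw [pow_mul]
    exact h1.trans (sub_one_dvd_pow_sub_one _ _)
  have h3 : (p : 𝓞 K) ^ (c + j + s + 1 + A) ∣ ((u : 𝓞 K) ^ (T * M')) ^ p ^ A - 1 :=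
    dvd_pow_prime_pow_sub_one p _ (by omega) _ h2 A
  have h4 : ((∏ i, w i ^ (E i * T) : (𝓞 K)ˣ) : 𝓞 K) = ((u : 𝓞 K) ^ (T * M')) ^ p ^ A := by
    have e1 : (∏ i, w i ^ (E i * T) : (𝓞 K)ˣ) = (u ^ (T * M')) ^ p ^ A := by
      calc (∏ i, w i ^ (E i * T) : (𝓞 K)ˣ) = (∏ i, w i ^ E i) ^ T := by
            rw [← Finset.prod_pow]
            refine Finset.prod_congr rfl fun i _ => ?_
            rw [zpow_mul, zpow_natCast]
        _ = (u ^ (T * M')) ^ p ^ A := by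
            rw [← hE, hMeq, ← pow_mul, ← pow_mul]
            congr 1
            ring
    rw [e1, Units.val_pow_eq_pow_val, Units.val_pow_eq_pow_val]
  have h5 := hw (j + (s + 1 + A)) (fun i => E i * T) (by
    rw [h4]
    convert h3 using 2
    omega)
  have h6 : ∀ i, (p : ℤ) ^ (s + A) ∣ E i := by
    intro i
    have e1 : (p : ℤ) ^ ((s + 1 + A) + j) ∣ E i * T := by
      have := h5 i
      rwa [add_comm j] at this
    have e2 := dvd_of_dvd_mul p hp j T hT hj (s + 1 + A) (E i) e1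
    exact (pow_dvd_pow _ (by omega)).trans e2
  choose E' hE' using h6
  set y : (𝓞 K)ˣ := ∏ i, w i ^ E' i with hy
  have h7 : u ^ M = y ^ p ^ (s + A) := by
    rw [hE, hy, ← Finset.prod_pow]
    refine Finset.prod_congr rfl fun i _ => ?_
    rw [hE' i, ← zpow_natCast, ← zpow_mul]
    congr 1
    push_cast
    ring
  have hnt : ∀ x : (𝓞 K)ˣ, x ^ p = 1 → x = 1 := by
    intro x hx
    have e1 : (((x : 𝓞 K)) : K) ^ p = 1 := by
      have e2 := congrArg (fun z : (𝓞 K)ˣ => ((z : 𝓞 K) : K)) hx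
      simpa using e2
    have e3 := htor _ e1
    apply Units.ext
    apply RingOfIntegers.ext
    simpa using e3
  have h8 : u ^ M' = y ^ p ^ s := by
    have e1 : (u ^ M' * (y ^ p ^ s)⁻¹) ^ p ^ A = 1 := by
      rw [mul_pow, inv_pow, ← pow_mul, ← pow_mul, mul_inv_eq_one, mul_comm M', ← hMeq, h7,
        ← pow_add]
    have e2 := eq_one_of_pow p hnt A _ e1
    rwa [mul_inv_eq_one] at e2
  exact bezout p hp M' hM' s u y h8

end Pool.Agent.Work.MP_59f3ad_nt.Tw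

end

section

/-!
A nonvanishing `p`-adic minor gives `p`-adically independent units, with an explicit constant
depending only on an index constant of the generator.
-/

open NumberField IsDedekindDomain Polynomial

namespace Pool.Agent.Work.MP_59f3ad_nt.Tw

universe u

/-- `pind_of_minor_gen` with an explicit constant. -/
theorem pr_Pin : StPin.{u} := by
  intro n p hp F hF H G hHG Q1 t hirr M V hV1 hV2 hV3 φ N0 hN0 K _ _ x hfin hx
  classical
  have hpO : (p : 𝓞 K) ≠ 0 := by exact_mod_cast hp.ne_zero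
  have hd : 0 < F.natDegree := by rw [← hfin]; exact Module.finrank_pos
  -- the evaluation homomorphisms
  let ev : ℤ[X] →+* 𝓞 K := (algebraMap ℤ (𝓞 K)).comp (evalRingHom t)
  let Ψ : ℤ[X][X] →+* 𝓞 K := eval₂RingHom ev x
  have hΨ : ∀ P : ℤ[X][X], Ψ (P.map (subT p Q1)) = aeval x (P.map (evalRingHom (Q1 + p * t))) := by
    intro P
    have h1 : Ψ (P.map (subT p Q1)) =
        eval₂ (algebraMap ℤ (𝓞 K)) x ((P.map (subT p Q1)).map (evalRingHom t)) := by
      rw [eval₂_map]; rfl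
    rw [h1, Polynomial.map_map, eval_subT]
    rfl
  have hΨF : Ψ (F.map (subT p Q1)) = 0 := by rw [hΨ, hx]
  have hunit : ∀ l, IsUnit (Ψ ((H l).map (subT p Q1))) := by
    intro l
    refine IsUnit.of_mul_eq_one (Ψ ((G l).map (subT p Q1))) ?_
    have h1 := map_dvd Ψ (Polynomial.map_dvd (subT p Q1) (hHG l))
    rw [hΨF, zero_dvd_iff, Polynomial.map_sub, Polynomial.map_mul, Polynomial.map_one, map_sub,
      map_mul, map_one, sub_eq_zero] at h1
    exact h1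
  set u' : Fin n → (𝓞 K)ˣ := fun l => (hunit l).unit with hu'
  have hu : ∀ l, (u' l : 𝓞 K) = Ψ ((H l).map (subT p Q1)) := fun l => rfl
  refine ⟨u', fun c1 hc1 => ?_⟩
  intro m E hdvd
  set m' := m + (2 + c1 + N0) with hm'
  set N := N0 + m' with hN
  set μ : Fin n → 𝓞 K := fun l => Ψ (V l N) with hμ
  have hw : ∀ l, ((u' l ^ (M * p ^ N) : (𝓞 K)ˣ) : 𝓞 K) = 1 + (p : 𝓞 K) ^ (N + 2) * μ l := by
    intro l
    obtain ⟨g, hg⟩ := hV2 l N
    have h1 := congrArg Ψ hg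
    rw [map_mul, hΨF, zero_mul, map_sub, map_sub, map_mul, map_pow, map_one, ← hu] at h1
    have h2 : Ψ (C (C ((p : ℤ) ^ (N + 2)))) = (p : 𝓞 K) ^ (N + 2) := by
      show eval₂ ev x (C (C ((p : ℤ) ^ (N + 2)))) = _
      rw [eval₂_C]
      simp only [ev, RingHom.comp_apply, coe_evalRingHom, eval_C, map_pow]
      simp
    rw [h2] at h1
    rw [Units.val_pow_eq_pow_val]
    linear_combination h1
  have h1 := prod_zpow_congr ((p : 𝓞 K) ^ (N + 2)) _ μ hw (fun l => E l) Finset.univ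
  have h2 : ∏ j, (u' j ^ (M * p ^ N)) ^ E j = (∏ j, u' j ^ E j) ^ (M * p ^ N) := by
    rw [← Finset.prod_pow]
    refine Finset.prod_congr rfl fun j _ => ?_
    rw [← zpow_natCast, ← zpow_natCast, ← zpow_mul, ← zpow_mul, mul_comm]
  rw [h2] at h1
  have h3 : (p : 𝓞 K) ^ (m' + N) ∣
      (((∏ j, u' j ^ E j) ^ (M * p ^ N) : (𝓞 K)ˣ) : 𝓞 K) - 1 := by
    rw [mul_comm M, pow_mul, Units.val_pow_eq_pow_val, Units.val_pow_eq_pow_val]
    exact (dvd_pow_prime_pow_sub_one p m' (by omega) _ hdvd N).trans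
      (sub_one_dvd_pow_sub_one _ _)
  have h4 : (p : 𝓞 K) ^ (m' + N) ∣ (p : 𝓞 K) ^ (N + 2) * ∑ j, E j * μ j := by
    have h5 : (p : 𝓞 K) ^ (m' + N) ∣ ((p : 𝓞 K) ^ (N + 2)) ^ 2 := by
      rw [← pow_mul]
      exact pow_dvd_pow _ (by omega)
    have h6 := dvd_sub h3 (h5.trans h1)
    refine h6.trans (Dvd.intro 1 ?_)
    ring
  have h5 : (p : 𝓞 K) ^ (m' - 2) ∣ ∑ j, E j * μ j := by
    have h6 : (p : 𝓞 K) ^ (m' + N) = (p : 𝓞 K) ^ (N + 2) * (p : 𝓞 K) ^ (m' - 2) := by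
      rw [← pow_add]; congr 1; omega
    rw [h6] at h4
    exact (mul_dvd_mul_iff_left (pow_ne_zero _ hpO)).mp h4
  -- coefficients
  have hμ' : ∀ l, μ l = ∑ i ∈ Finset.range F.natDegree,
      ((((V l N).coeff i).eval t : ℤ) : 𝓞 K) * x ^ i := by
    intro l
    have h6 : (V l N).natDegree < F.natDegree := by
      by_cases h0 : V l N = 0
      · rw [h0, natDegree_zero]; exact hd
      · exact (natDegree_lt_iff_degree_lt h0).mpr (hV1 l N)
    show eval₂ ev x (V l N) = _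
    rw [eval₂_eq_sum_range' _ h6]
    rfl
  have h6 : ∑ j, E j * μ j = ∑ i ∈ Finset.range F.natDegree,
      ((∑ l, E l * ((V l N).coeff i).eval t : ℤ) : 𝓞 K) * x ^ i := by
    simp only [hμ', Finset.mul_sum]
    rw [Finset.sum_comm]
    refine Finset.sum_congr rfl fun i _ => ?_
    push_cast
    rw [Finset.sum_mul]
    refine Finset.sum_congr rfl fun l _ => ?_
    ring
  rw [h6] at h5
  have h7 := hc1 _ _ h5
  -- the matrix
  set W : Matrix (Fin n) (Fin n) ℤ := Matrix.of fun l j => ((V l N).coeff (φ j)).eval t with hW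
  have hdet : W.det = (minorG V φ N).eval t := by
    have h8 := RingHom.map_det (evalRingHom t)
      (Matrix.of fun l j : Fin n => (V l N).coeff (φ j))
    rw [coe_evalRingHom] at h8
    rw [minorG, h8]
    rfl
  have h8 : ∀ j, (p : ℤ) ^ (m + N0) ∣ (Matrix.vecMul (fun l => E l) W) j := by
    intro j
    have h9 := h7 (φ j) (φ j).2
    have h10 : m' - 2 - c1 = m + N0 := by omega
    rw [h10] at h9
    exact h9
  have h9 : ∀ j : Fin n, (p : ℤ) ^ (m + N0) ∣ E j * W.det := by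
    intro j
    have h10 : Matrix.vecMul (Matrix.vecMul (fun l : Fin n => E l) W)
        W.adjugate = fun l : Fin n => E l * W.det := by
      rw [Matrix.vecMul_vecMul, Matrix.mul_adjugate]
      ext l
      rw [Matrix.vecMul_smul, Matrix.vecMul_one]
      simp [mul_comm]
    have h11 : E j * W.det = ∑ i, (Matrix.vecMul
        (fun l : Fin n => E l) W) i * W.adjugate i j := by
      have := congrFun h10 j
      rw [← this]
      rfl
    rw [h11]
    exact Finset.dvd_sum fun i _ => (h8 i).mul_right _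
  have h10 : ¬ (p : ℤ) ^ (N0 + 1) ∣ W.det := by
    rw [hdet]
    intro h11
    apply hN0
    have h12 := minorG_congr_add p V hV3 φ N0 m'
    have h13 := map_dvd (evalRingHom t) h12
    rw [map_sub] at h13
    simp only [coe_evalRingHom, eval_C] at h13
    exact (dvd_sub_right h11).mp h13
  have hmain : ∀ j : Fin n, (p : ℤ) ^ m ∣ E j := by
    intro j
    have h11 := h9 j
    have hW0 : W.det ≠ 0 := fun h => h10 (h ▸ dvd_zero _)
    have hpp : Prime (p : ℤ) := Nat.prime_iff_prime_int.mp hp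
    obtain ⟨v, w, hw1, hw2⟩ := WfDvdMonoid.max_power_factor hW0 hpp.irreducible
    have hv : v ≤ N0 := by
      by_contra hcon
      apply h10
      rw [hw2]
      exact (pow_dvd_pow _ (by omega)).mul_right _
    have hcop : IsCoprime ((p : ℤ) ^ (m + N0 - v)) w :=
      IsCoprime.pow_left ((Prime.coprime_iff_not_dvd hpp).mpr hw1)
    have h12 : (p : ℤ) ^ (m + N0 - v) ∣ E j := by
      have h13 : (p : ℤ) ^ v * (p : ℤ) ^ (m + N0 - v) ∣ (p : ℤ) ^ v * (E j * w) := by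
        rw [← pow_add]
        have h14 : v + (m + N0 - v) = m + N0 := by omega
        rw [h14]
        refine h11.trans (Dvd.intro 1 ?_)
        rw [hw2]
        ring
      rw [mul_dvd_mul_iff_left (pow_ne_zero _ hpp.ne_zero)] at h13
      exact hcop.dvd_of_dvd_mul_right h13
    exact (pow_dvd_pow _ (by omega)).trans h12
  exact hmain

end Pool.Agent.Work.MP_59f3ad_nt.Tw

end

section

/-!
Statements for the second theorem: for the explicit family in every signature, for almost all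
primes there are no exceptional twists `r ≡ 1 mod p - 1` at all.
-/

open NumberField IsDedekindDomain Polynomial

namespace Pool.Agent.Work.MP_59f3ad_nt.Tw

open Pool.Agent.Work.MP_59f3ad_nt.Cod

universe u

/-- `StCl` with the class killed by `q`. -/
def StCl1 : Prop := ∀ (K : Type u) [Field K] [NumberField K] (q : ℕ), q ≠ 0 →
  ∃ cl : K → ClassGroup (𝓞 K),
    (∀ α : K, α ≠ 0 →
      (∀ w : HeightOneSpectrum (𝓞 K), ∃ y : K, w.valuation K α = w.valuation K y ^ q) →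
      cl α ^ q = 1) ∧
    ∀ α α' : K, α ≠ 0 → α' ≠ 0 →
      (∀ w : HeightOneSpectrum (𝓞 K), ∃ y : K, w.valuation K α = w.valuation K y ^ q) →
      (∀ w : HeightOneSpectrum (𝓞 K), ∃ y : K, w.valuation K α' = w.valuation K y ^ q) →
      cl α = cl α' →
      ∃ (u : (𝓞 K)ˣ) (γ : K), γ ≠ 0 ∧ α = ((u : 𝓞 K) : K) * γ ^ q * α'

/-- `StCnt` with the `p`-part of the class number. -/
def StCnt1 : Prop := ∀ (K : Type u) [Field K] [NumberField K] (p : ℕ) [Fact p.Prime],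
  (∀ ζ : K, ζ ^ p = 1 → ζ = 1) → ∀ (S : Set (HeightOneSpectrum (𝓞 K))),
  (∀ v : HeightOneSpectrum (𝓞 K), (p : 𝓞 K) ∈ v.asIdeal → v ∈ S) →
  ∀ c : ℕ, LLeo K p c → ∀ m : ℕ, c ≤ m → ∀ (N : ℕ) (F : Fin N → GK K → ℤ_[p]),
  (∀ j, KF K p m S (F j)) →
  (∀ (j j' : Fin N) (t : ℤ_[p]),
    (∀ g, (p : ℤ_[p]) ^ m ∣ F j g - F j' g - ((cyc K p g : ℤ_[p]) - 1) * t) → j = j') →
  N ≤ p ^ (padicValNat p (classNumber K) + c * Units.rank K)

/-- The refined form of `StTwo`: the weighted number of exceptional twists is at most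
`v_p(h) + c * rank`. -/
def StTwo1 : Prop := ∀ (K : Type u) [Field K] [NumberField K] (p : ℕ) [Fact p.Prime],
  (∀ ζ : K, ζ ^ p = 1 → ζ = 1) → ∀ (S : Set (HeightOneSpectrum (𝓞 K))),
  (∀ v : HeightOneSpectrum (𝓞 K), (p : 𝓞 K) ∈ v.asIdeal → v ∈ S) →
  ∀ c : ℕ, LLeo K p c → ∀ (k : ℕ) (r : Fin k → ℤ) (φ : Fin k → GK K → ℤ_[p]),
  (∀ i, r i ≠ 1 ∧ ((p : ℤ) - 1) ∣ r i - 1 ∧ φ i ∈ ShaZ K p (r i) S) → Indep K p r φ →
  ∑ i, (1 + padicValInt p (r i - 1)) ≤ padicValNat p (classNumber K) + c * Units.rank K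

theorem stTwo1 (h1 : StFun.{u}) (h2 : StCnt1.{u}) : StTwo1.{u} := by
  intro K _ _ p hp hζ S hS c hc k r φ hφ hind
  obtain ⟨m0, hm0⟩ := h1 K p hζ S k r φ hφ hind
  obtain ⟨N, F, hF1, hF2, hN⟩ := hm0 (max m0 c) (le_max_left _ _)
  exact (Nat.pow_le_pow_iff_right hp.out.one_lt).mp
    (hN.trans (h2 K p hζ S hS c hc (max m0 c) (le_max_right _ _) N F hF1 hF2))

/-- Sharp form of `StLL` when the first order test succeeds. -/
def StLL1 : Prop := ∀ (K : Type u) [Field K] [NumberField K] (p : ℕ), p.Prime →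
  (∀ ζ : K, ζ ^ p = 1 → ζ = 1) → ∀ (n : ℕ) (w : Fin n → (𝓞 K)ˣ), PInd K p w 1 →
  Units.rank K = n → ∀ T : ℕ, T ≠ 0 → ¬ p ∣ T →
  (∀ (m : ℕ) (u : (𝓞 K)ˣ), LocPow K p m ((u : 𝓞 K) : K) → (p : 𝓞 K) ^ (m + 1) ∣ (u : 𝓞 K) ^ T - 1) →
  LLeo K p 0

/-- Sharp form of `StTex` when `𝓞 K / p` is reduced. -/
def StTex1 : Prop := ∀ (K : Type u) [Field K] [NumberField K] (p : ℕ), p.Prime →
  (∀ a : 𝓞 K, (p : 𝓞 K) ∣ a ^ 2 → (p : 𝓞 K) ∣ a) →
  ∃ T : ℕ, T ≠ 0 ∧ ¬ p ∣ T ∧
    ∀ (n : ℕ) (u : (𝓞 K)ˣ), LocPow K p n ((u : 𝓞 K) : K) →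
      (p : 𝓞 K) ^ (n + 1) ∣ (u : 𝓞 K) ^ T - 1

/-- `𝓞 K / p` is reduced if a generator has a separable minimal polynomial modulo `p`. -/
def StRed : Prop := ∀ (p : ℕ) [Fact p.Prime] (f : ℤ[X]), f.Monic → Irreducible f →
  (f.map (red p)).Separable → ∀ (K : Type u) [Field K] [NumberField K] (x : 𝓞 K),
  Module.finrank ℚ K = f.natDegree → aeval x f = 0 →
  ∀ a : 𝓞 K, (p : 𝓞 K) ∣ a ^ 2 → (p : 𝓞 K) ∣ a

/-- `NB` with the constant `1` (first order independence). -/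
def NB1 (r1 r2 p : ℕ) (t : Ix r1 r2 → ℤ) : Prop :=
  ∀ (K : Type u) [Field K] [NumberField K] (x : 𝓞 K), Module.finrank ℚ K = r1 + 2 * r2 →
    aeval x (gg t - 1) = 0 → ∃ w : Fin (r1 + r2 - 1) → (𝓞 K)ˣ, PInd K p w 1

/-- `StCrit` with the constant `1`. -/
def StCrit1 : Prop := ∀ (p : ℕ) [Fact p.Prime], p ≠ 2 → ∀ f : ℤ[X], f.Monic → Irreducible f →
  (f.map (red p)).Separable → ∀ (n : ℕ) (H G q : Fin n → ℤ[X]) (M : ℕ), 0 < M →
  (∀ l, f ∣ H l * G l - 1) → (∀ l, f ∣ H l ^ M - 1 - C (p : ℤ) * q l) →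
  (∀ c : Fin n → ZMod p, f.map (red p) ∣ ∑ l, C (c l) * (q l).map (red p) → c = 0) →
  ∀ (K : Type u) [Field K] [NumberField K] (x : 𝓞 K), Module.finrank ℚ K = f.natDegree →
  aeval x f = 0 → ∃ w : Fin n → (𝓞 K)ˣ, PInd K p w 1

/-- `StDig` with `NB1`. -/
def StDig1 : Prop := ∀ (p : ℕ) [Fact p.Prime], p ≠ 2 → ∀ r1 r2 : ℕ, 1 ≤ r1 + 2 * r2 →
  ∀ t0 : Ix r1 r2 → ℤ, ((gg t0 - 1).map (red p)).Separable →
  ∃ (M : ℕ) (L : Fin r1 ⊕ Fin r2 → (ZMod p)[X]), ¬ p ∣ M ∧
  ∀ s : Ix r1 r2 → ℤ, Irreducible (gg (sh t0 s p) - 1) → ¬ NB1.{u} r1 r2 p (sh t0 s p) →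
  ∀ j0 : Fin r1 ⊕ Fin r2, ∃ c : Fin r1 ⊕ Fin r2 → ZMod p, c j0 = 0 ∧ c ≠ 0 ∧
    ∑ j, C (c j) * (L j + C (M : ZMod p) * NN (fun i => ((t0 i : ℤ) : ZMod p))
      (fun i => ((s i : ℤ) : ZMod p)) j) = 0

/-- `StClassFinM` with `NB1`. -/
def StClassFin1 : Prop := ∀ r1 r2 k : ℕ, 1 ≤ r1 + 2 * r2 → 1 ≤ k → k ≤ r2 + 1 →
  (Even k ∨ 1 ≤ r1) → ∃ N : ℕ, ∀ (p : ℕ) [Fact p.Prime], p ≠ 2 → ¬ p ∣ r1 + 2 * r2 →
  ∀ t0 : Ix r1 r2 → ℤ,
  (gg fun i => ((t0 i : ℤ) : AlgebraicClosure (ZMod p))).Separable →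
  (gg (fun i => ((t0 i : ℤ) : AlgebraicClosure (ZMod p))) - 1).Separable →
  (derivative (gg fun i => ((t0 i : ℤ) : AlgebraicClosure (ZMod p)))).Separable →
  (∀ z : Fin r2 → AlgebraicClosure (ZMod p), Function.Injective z →
    (∀ l, (derivative (gg fun i => ((t0 i : ℤ) : AlgebraicClosure (ZMod p)))).eval (z l) = 0) →
    Cod.DD (fun i => ((t0 i : ℤ) : AlgebraicClosure (ZMod p))) z ≠ 0) →
  ∀ s' : Ix r1 r2 → ℤ, {τ : Js r1 r2 k → ZMod p | ∃ s : Ix r1 r2 → ℤ,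
    (∀ i, i ∉ Js r1 r2 k → ((s i : ℤ) : ZMod p) = ((s' i : ℤ) : ZMod p)) ∧
    (∀ i : Js r1 r2 k, ((s i : ℤ) : ZMod p) = τ i) ∧
    Irreducible (gg (sh t0 s p) - 1) ∧ ¬ NB1.{u} r1 r2 p (sh t0 s p)}.ncard ≤ N

/-- Counting the points of a box in bad classes modulo `p`, or with few bad digits modulo `p^2`. -/
def StCount : Prop := ∀ (σ : Type) [Fintype σ] (J : Finset σ) (N C1 : ℕ), 1 ≤ J.card →
  ∃ C : ℕ, ∀ (p : ℕ) [Fact p.Prime] (H : ℕ), p ≤ H →
  ∀ (S : Set (σ → ℤ)) (E : Set (σ → ZMod p)), E.ncard ≤ C1 * p ^ (Fintype.card σ - 1) →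
  (∀ t0 : σ → ℤ, (fun i => ((t0 i : ℤ) : ZMod p)) ∉ E → ∀ s' : σ → ℤ,
    {τ : J → ZMod p | ∃ s : σ → ℤ,
      (∀ i, i ∉ J → ((s i : ℤ) : ZMod p) = ((s' i : ℤ) : ZMod p)) ∧
      (∀ i : J, ((s i : ℤ) : ZMod p) = τ i) ∧ (fun i => t0 i + p * s i) ∈ S}.ncard ≤ N) →
  p * {t : σ → ℤ | (∀ i, |t i| ≤ H) ∧
      (t ∈ S ∨ (fun i => ((t i : ℤ) : ZMod p)) ∈ E)}.ncard ≤
    C * (H ^ Fintype.card σ + p ^ (J.card + 1) * H ^ (Fintype.card σ - J.card))

/-- The bad parameters for a single prime. -/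
def StPrime1 : Prop := ∀ r1 r2 k : ℕ, 1 ≤ r1 + 2 * r2 → 1 ≤ k → k ≤ r2 + 1 →
  (Even k ∨ 1 ≤ r1) → ∃ C p0 : ℕ, ∀ (p : ℕ) [Fact p.Prime], p0 < p → ∀ H : ℕ, p ≤ H →
  p * {t : Ix r1 r2 → ℤ | (∀ i, |t i| ≤ H) ∧ Irreducible (gg t - 1) ∧
      (¬ ((gg t - 1).map (red p)).Separable ∨ ¬ NB1.{u} r1 r2 p t)}.ncard ≤
    C * (H ^ (r1 + 2 * r2) + p ^ (k + 1) * H ^ (r1 + 2 * r2 - k))

/-- Summation over the primes and Markov's inequality. -/
def StMk : Prop := ∀ (σ : Type) [Fintype σ] (k C0 p0 : ℕ), 1 ≤ k → k ≤ Fintype.card σ →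
  ∃ C : ℕ, ∀ Bad : ℕ → Set (σ → ℤ),
  (∀ p : ℕ, p.Prime → p0 < p → ∀ H : ℕ, p ≤ H →
    p * {t : σ → ℤ | (∀ i, |t i| ≤ H) ∧ t ∈ Bad p}.ncard ≤
      C0 * (H ^ Fintype.card σ + p ^ (k + 1) * H ^ (Fintype.card σ - k))) →
  ∀ H : ℕ, 2 ≤ H →
  ({t : σ → ℤ | (∀ i, |t i| ≤ H) ∧ (Real.log H) ^ 2 <
    ({p : ℕ | p.Prime ∧ p0 < p ∧ p ^ (k + 1) ≤ H ^ k ∧ t ∈ Bad p}.ncard : ℝ)}.ncard : ℝ) ≤
    C * (H : ℝ) ^ Fintype.card σ / Real.log H

end Pool.Agent.Work.MP_59f3ad_nt.Tw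

end

section

/-!
From the explicit `p`-adic independence of units to the bounds for the exceptional twists.
-/

open NumberField IsDedekindDomain Polynomial

namespace Pool.Agent.Work.MP_59f3ad_nt.Tw

open Pool.Agent.Work.MP_59f3ad_nt.Cod

universe u

/-- The bound for a good parameter: `Ш^1(ℤ_p(1)) = 0` and `p` to the power of the weighted number
of the other exceptional twists is at most `B`. -/
def GoodB (K : Type u) [Field K] [NumberField K] (p : ℕ) [Fact p.Prime]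
    (S : Set (HeightOneSpectrum (𝓞 K))) (B : ℕ) : Prop :=
  Sha1 K p 1 S = ⊥ ∧ ∀ (k : ℕ) (r : Fin k → ℤ) (φ : Fin k → GK K → ℤ_[p]),
    (∀ i, r i ≠ 1 ∧ ((p : ℤ) - 1) ∣ r i - 1 ∧ φ i ∈ ShaZ K p (r i) S) → Indep K p r φ →
    p ^ (∑ i, (1 + padicValInt p (r i - 1))) ≤ B

namespace CoreX

theorem bound_aux (H K0 K1 C X : ℕ) (hH : 1 ≤ H) (h0 : K0 ≤ C) (h1 : K1 ≤ C)
    (hX : X ≤ K0 * H ^ K1) : X ≤ C * H ^ C :=
  hX.trans (Nat.mul_le_mul h0 (Nat.pow_le_pow_right hH h1))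

/-- `p ^ v_p(h) ≤ h`. -/
theorem pow_padicValNat_le (p h : ℕ) (hh : h ≠ 0) : p ^ padicValNat p h ≤ h :=
  Nat.le_of_dvd (Nat.pos_of_ne_zero hh) pow_padicValNat_dvd

/-- No `p`-th roots of unity in small degree. -/
theorem no_torsion (K : Type u) [Field K] [NumberField K] (p : ℕ) (hp : p.Prime)
    (hd : Module.finrank ℚ K + 1 < p) (ζ : K) (hζ : ζ ^ p = 1) : ζ = 1 := by
  by_contra hne
  have h1 : IsPrimitiveRoot ζ p := by
    have := Fact.mk hp
    rw [← orderOf_eq_prime hζ hne]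
    exact IsPrimitiveRoot.orderOf ζ
  have h2 := Polynomial.cyclotomic_eq_minpoly_rat h1 hp.pos
  have h3 := minpoly.natDegree_le (A := ℚ) ζ
  rw [← h2, Polynomial.natDegree_cyclotomic, Nat.totient_prime hp] at h3
  omega

/-- Distinct nontrivial classes are independent. -/
theorem indep_of_injective (hSig : StSig.{u}) (hZp : StZp) (K : Type u) [Field K] [NumberField K]
    (p : ℕ) [Fact p.Prime] (hζ : ∀ ζ : K, ζ ^ p = 1 → ζ = 1) (k : ℕ) (r : Fin k → ℤ)
    (hr : Function.Injective r) (hr1 : ∀ i, ((p : ℤ) - 1) ∣ r i - 1) (φ : Fin k → GK K → ℤ_[p])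
    (hφ : ∀ i, φ i ∉ B1 K p (r i)) : Indep K p r φ := by
  intro a ha
  have hp : p.Prime := Fact.out
  obtain ⟨σ, hσ⟩ := hSig K p hζ
  funext i
  by_contra hai
  have hai' : a i ≠ 0 := hai
  apply hφ i
  have hσr : IsUnit (twist K p (r i) σ - 1) := by
    obtain ⟨x, hx⟩ := (hZp p (cyc K p σ) (cyc K p σ) (r i)).2.2 (hr1 i)
    have e1 : twist K p (r i) σ - 1 = ((cyc K p σ : ℤ_[p]) - 1) + (p : ℤ_[p]) * x := by
      have e2 : twist K p (r i) σ = (((cyc K p σ) ^ (r i) : ℤ_[p]ˣ) : ℤ_[p]) := rfl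
      rw [e2]
      linear_combination hx
    rw [e1, PadicInt.isUnit_iff] at *
    have e2 : ‖(p : ℤ_[p]) * x‖ < 1 := by
      rw [norm_mul]
      have : ‖(p : ℤ_[p])‖ < 1 := by
        rw [PadicInt.norm_p]
        exact inv_lt_one_of_one_lt₀ (by exact_mod_cast hp.one_lt)
      have h' := PadicInt.norm_le_one x
      have h'' := norm_nonneg (p : ℤ_[p])
      nlinarith
    rw [PadicInt.norm_add_eq_max_of_ne, hσ, max_eq_left e2.le]
    rw [hσ]
    exact e2.ne'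
  obtain ⟨τ, hτ⟩ := hσr
  obtain ⟨c, hc⟩ := ha (r i)
  have hsum : ∀ g, ∑ j with r j = r i, a j * φ j g = a i * φ i g := by
    intro g
    rw [Finset.sum_eq_single_of_mem i (by simp)]
    intro j hj hji
    rw [Finset.mem_filter] at hj
    exact absurd (hr hj.2) hji
  have hc' : ∀ g, a i * φ i g = (twist K p (r i) g - 1) * c := by
    intro g
    rw [← hsum]
    exact hc g
  refine ⟨((τ⁻¹ : ℤ_[p]ˣ) : ℤ_[p]) * φ i σ, fun g => ?_⟩
  have h1 : c = a i * (((τ⁻¹ : ℤ_[p]ˣ) : ℤ_[p]) * φ i σ) := by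
    have h2 := hc' σ
    rw [← hτ] at h2
    calc c = ((τ⁻¹ : ℤ_[p]ˣ) : ℤ_[p]) * ((τ : ℤ_[p]) * c) := by
          rw [← mul_assoc, Units.inv_mul, one_mul]
      _ = _ := by rw [← h2]; ring
  apply mul_left_cancel₀ hai'
  rw [hc' g, h1]
  ring

theorem exists_mem_of_ne_bot (K : Type u) [Field K] [NumberField K] (p : ℕ) [Fact p.Prime] (r : ℤ)
    (S : Set (HeightOneSpectrum (𝓞 K))) (h : Sha1 K p r S ≠ ⊥) :
    ∃ φ ∈ ShaZ K p r S, φ ∉ B1 K p r := by
  by_contra hcon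
  push Not at hcon
  exact h ((Sha1_eq_bot_iff K p r S).mpr hcon)

/-- No exceptional twists if the first order test succeeds and `p` does not divide the class
number. -/
theorem none_core (hTwo : StTwo1.{u}) (hLL : StLL1.{u}) (hTex : StTex1.{u}) (hRed : StRed.{u})
    (hSig : StSig.{u}) (hZp : StZp) (K : Type u) [Field K] [NumberField K] (p : ℕ)
    [hpf : Fact p.Prime] (hζ : ∀ ζ : K, ζ ^ p = 1 → ζ = 1) (f : ℤ[X]) (hf : f.Monic)
    (hirr : Irreducible f) (hsep : (f.map (red p)).Separable) (y : 𝓞 K)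
    (hfin : Module.finrank ℚ K = f.natDegree) (hy : aeval y f = 0) (n : ℕ)
    (hrank : Units.rank K = n) (w : Fin n → (𝓞 K)ˣ) (hw : PInd K p w 1)
    (hh : ¬ p ∣ classNumber K) (S : Set (HeightOneSpectrum (𝓞 K)))
    (hS : ∀ v : HeightOneSpectrum (𝓞 K), (p : 𝓞 K) ∈ v.asIdeal → v ∈ S) (r : ℤ)
    (hr : ((p : ℤ) - 1) ∣ r - 1) : Sha1 K p r S = ⊥ := by
  have hp : p.Prime := hpf.out
  by_cases hr1 : r = 1
  · subst hr1
    obtain ⟨c', hc'⟩ := sleo_of_pind p hp w _ hw hrank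
    exact sha_eq_bot_of_sleo K p c' hc' S hS
  by_contra hne
  obtain ⟨φ, hφ, hφB⟩ := exists_mem_of_ne_bot K p r S hne
  have hind : Indep K p (fun _ : Fin 1 => r) (fun _ => φ) :=
    indep_of_injective hSig hZp K p hζ 1 _ (fun _ _ _ => Subsingleton.elim _ _) (fun _ => hr) _
      (fun _ => hφB)
  obtain ⟨T, hT0, hTp, hT⟩ := hTex K p hp (hRed p f hf hirr hsep K y hfin hy)
  have hleo : LLeo K p 0 := hLL K p hp hζ n w hw hrank T hT0 hTp hT
  have h1 := hTwo K p hζ S hS 0 hleo 1 (fun _ => r) (fun _ => φ) (fun _ => ⟨hr1, hr, hφ⟩) hind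
  rw [padicValNat.eq_zero_of_not_dvd hh] at h1
  simp at h1

/-- The bound for a good parameter. -/
theorem good_core (hTwo : StTwo1.{u}) (hLL : StLL.{u}) (hTex : StTex.{u})
    (hIdx : StIdx.{u}) (hHcl : StHcl.{u}) (d n C0 C1 : ℕ) : ∃ C : ℕ,
    ∀ (H p : ℕ) [Fact p.Prime], p ≤ H → ∀ f : ℤ[X], f.Monic → f.natDegree = d → Irreducible f →
    (∀ z : ℂ, (f.map (Int.castRingHom ℂ)).eval z = 0 → ‖z‖ ≤ C1 * (H : ℝ) ^ C1) →
    ∀ (K : Type u) [Field K] [NumberField K] (y : 𝓞 K), Module.finrank ℚ K = d →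
    aeval y f = 0 → classNumber K ≤ C * H ^ C ∧ (Units.rank K = n →
    (∀ ζ : K, ζ ^ p = 1 → ζ = 1) →
    (∃ w : Fin n → (𝓞 K)ˣ, ∀ c1 : ℕ, IdxC K y d p c1 →
      PInd K p w (c1 + C0 * (1 + Nat.log p H))) →
    ∀ S : Set (HeightOneSpectrum (𝓞 K)),
    (∀ v : HeightOneSpectrum (𝓞 K), (p : 𝓞 K) ∈ v.asIdeal → v ∈ S) → GoodB K p S (C * H ^ C)) := by
  obtain ⟨C2, hC2⟩ := hHcl d
  -- constants
  set a0 : ℕ := d.factorial * (1 + C1) ^ (d * d) with ha0
  set a1 : ℕ := C1 * (d * d) with ha1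
  set K0 : ℕ := C2 * (a0 ^ 2) ^ C2 * (a0 * d) ^ n with hK0
  set K1 : ℕ := a1 * 2 * C2 + (a1 + (2 * C0 + 1)) * n with hK1
  set K2 : ℕ := C2 * (a0 ^ 2) ^ C2 with hK2
  set K3 : ℕ := a1 * 2 * C2 with hK3
  refine ⟨K0 + K1 + K2 + K3, ?_⟩
  intro H p hpf hpH f hm hdt hirr hroot K _ _ y hfin hy0
  have hp : p.Prime := hpf.out
  have hH : 1 ≤ H := hp.one_le.trans hpH
  -- the size of the generator
  set R : ℝ := 1 + C1 * (H : ℝ) ^ C1 with hR
  have hH' : (1 : ℝ) ≤ H := by exact_mod_cast hH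
  have hR1 : 1 ≤ R := by
    rw [hR]
    have : (0 : ℝ) ≤ C1 * (H : ℝ) ^ C1 := by positivity
    linarith
  have hRle : R ≤ (1 + C1) * (H : ℝ) ^ C1 := by
    rw [hR]
    have : (1 : ℝ) ≤ (H : ℝ) ^ C1 := one_le_pow₀ hH'
    linarith
  have hyK : aeval (y : K) f = 0 := by
    have h3 := congrArg (algebraMap (𝓞 K) K) hy0
    rw [map_zero] at h3
    rw [← h3]
    exact aeval_algebraMap_apply K y f
  have hσ : ∀ σ : K →+* ℂ, ‖σ (y : K)‖ ≤ R := by
    intro σ
    have h1 := hroot (σ (y : K)) (by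
      have h2 : (f.map (Int.castRingHom ℂ)).eval (σ (y : K)) = σ (aeval (y : K) f) := by
        rw [aeval_def, Polynomial.hom_eval₂, eval_map]
        congr 1
        exact RingHom.ext_int _ _
      rw [h2, hyK, map_zero])
    refine h1.trans ?_
    rw [hR]
    linarith
  have hlin := linearIndependent_of_irreducible _ hm hirr y hy0
  rw [hdt] at hlin
  obtain ⟨hdisc, hidx⟩ := hIdx K d y hlin hfin.symm R hR1 hσ
  obtain ⟨c1, hc1, hpc1⟩ := hidx p hp
  have hA : (d.factorial : ℝ) * R ^ (d * d) ≤ ((a0 * H ^ a1 : ℕ) : ℝ) := by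
    have h1 : R ^ (d * d) ≤ ((1 + C1) * (H : ℝ) ^ C1) ^ (d * d) :=
      pow_le_pow_left₀ (by linarith) hRle _
    have h2 : ((a0 * H ^ a1 : ℕ) : ℝ) =
        (d.factorial : ℝ) * ((1 + C1) * (H : ℝ) ^ C1) ^ (d * d) := by
      rw [ha0, ha1, mul_pow, ← pow_mul]
      push_cast
      ring
    rw [h2]
    gcongr
  have hpc1' : p ^ c1 ≤ a0 * H ^ a1 := by
    have := hpc1.trans hA
    exact_mod_cast this
  have hdisc' : (discr K).natAbs ≤ (a0 * H ^ a1) ^ 2 := by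
    have h1 : |((discr K : ℤ) : ℝ)| ≤ (((a0 * H ^ a1 : ℕ) : ℝ)) ^ 2 :=
      hdisc.trans (pow_le_pow_left₀ (by positivity) hA _)
    have h2 : (((discr K).natAbs : ℕ) : ℝ) = |((discr K : ℤ) : ℝ)| := by
      rw [← Int.cast_abs, Int.abs_eq_natAbs, Int.cast_natCast]
    rw [← h2] at h1
    exact_mod_cast h1
  have hcl : classNumber K ≤ C2 * ((a0 * H ^ a1) ^ 2) ^ C2 :=
    (hC2 K hfin).trans (Nat.mul_le_mul_left _ (Nat.pow_le_pow_left hdisc' _))
  refine ⟨bound_aux H K2 K3 _ _ hH (by omega) (by omega) (hcl.trans_eq ?_), ?_⟩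
  · rw [hK2, hK3, mul_pow a0, ← pow_mul H, mul_pow (a0 ^ 2), ← pow_mul H]
    ring
  rintro hrank hζ ⟨w, hw⟩ S hS
  have hw' := hw c1 hc1
  obtain ⟨T, j, hT0, hTj, hpj, hT⟩ := hTex K p hp
  have hleo := hLL K p hp hζ n w _ hw' hrank T j hT0 hTj hT
  refine ⟨?_, ?_⟩
  · obtain ⟨c', hc'⟩ := sleo_of_pind p hp w _ hw' hrank
    exact sha_eq_bot_of_sleo K p c' hc' S hS
  intro k r φ hφ hind
  have hmain := hTwo K p hζ S hS _ hleo k r φ hφ hind
  refine bound_aux H K0 K1 _ _ hH (by omega) (by omega)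
    ((Nat.pow_le_pow_right hp.pos hmain).trans ?_)
  have hlog : p ^ Nat.log p H ≤ H := Nat.pow_log_le_self p (by omega)
  have hexp : p ^ (c1 + C0 * (1 + Nat.log p H) + j) ≤
      (a0 * H ^ a1) * (H * H) ^ C0 * (H * d) := by
    rw [pow_add, pow_add]
    refine Nat.mul_le_mul (Nat.mul_le_mul hpc1' ?_) ?_
    · rw [mul_comm C0, pow_mul, pow_add, pow_one]
      exact Nat.pow_le_pow_left (Nat.mul_le_mul hpH hlog) _
    · rw [← hfin]
      exact hpj.trans (Nat.mul_le_mul_right _ hpH)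
  rw [hrank, pow_add]
  calc p ^ padicValNat p (classNumber K) * p ^ ((c1 + C0 * (1 + Nat.log p H) + j) * n)
      ≤ (C2 * ((a0 * H ^ a1) ^ 2) ^ C2) * ((a0 * H ^ a1) * (H * H) ^ C0 * (H * d)) ^ n := by
        rw [pow_mul]
        exact Nat.mul_le_mul ((pow_padicValNat_le p _ (classNumber_ne_zero K)).trans hcl)
          (Nat.pow_le_pow_left hexp _)
    _ = K0 * H ^ K1 := by
        rw [hK0, hK1]
        have e1 : (a0 * H ^ a1) * (H * H) ^ C0 * (H * d) = (a0 * d) * H ^ (a1 + (2 * C0 + 1)) := by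
          ring
        rw [e1]
        rw [mul_pow (a0 * d), ← pow_mul H, mul_pow a0, ← pow_mul H, mul_pow (a0 ^ 2), ← pow_mul H,
          pow_add H]
        ring

end CoreX

end Pool.Agent.Work.MP_59f3ad_nt.Tw

end

section

/-!
Statements for the range `p ^ (k+1) ≤ H ^ k` with explicit constants.
-/

open NumberField IsDedekindDomain Polynomial

namespace Pool.Agent.Work.MP_59f3ad_nt.Tw

open Pool.Agent.Work.MP_59f3ad_nt.Cod

universe u

/-- `StFam` with the bound for the exceptions in a residue class. -/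
def StFamP : Prop := ∀ (n : ℕ) (R : Type) [CommRing R] [Countable R] (F : R[X][X]), F.Monic →
  1 ≤ F.natDegree → ∀ (H G : Fin n → R[X][X]), (∀ l, F ∣ H l * G l - 1) →
  (∀ ψ : R →+* ℂ, ∃ B : ℝ, ∀ τ : ℝ, B < τ →
    LogDetC (F.map (mapRingHom ψ)) (fun l => (H l).map (mapRingHom ψ)) τ) →
  ∃ E : ℕ, ∀ p : ℕ, p.Prime → ∀ (y : R →+* ℤ) (Y : ℕ), ∃ Z : Set ℤ, Z.Finite ∧
    Z.ncard ≤ (2 * E + 1) * p ∧
    (∀ s0 : ℤ, {s ∈ Z | (p : ℤ) ∣ s - s0}.ncard ≤ 2 * E + 1) ∧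
    ∀ t : ℤ, |t| ≤ Y → t ∉ Z →
    Irreducible ((F.map (mapRingHom y)).map (evalRingHom t)) →
    ∀ (K : Type u) [Field K] [NumberField K] (x : 𝓞 K), Module.finrank ℚ K = F.natDegree →
    aeval x ((F.map (mapRingHom y)).map (evalRingHom t)) = 0 →
    ∃ w : Fin n → (𝓞 K)ˣ, ∀ c1 : ℕ, IdxC K x F.natDegree p c1 →
      PInd K p w (2 + c1 + (E + (2 * E + 1) * Nat.log p (2 * Y)))

/-- `exceptions_box_class_pow` with an explicit constant, for sets depending on the height. -/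
def StBoxP : Prop := ∀ (σ : Type) [Fintype σ] (F : (MvPolynomial σ ℤ)[X]), F.Monic →
  ∀ (_ : σ) (n : ℕ) (u : Fin n → (AdjoinRoot F)ˣ),
  (∀ E : Fin n → ℤ, E ≠ 0 →
    Transcendental ℤ ((∏ i, u i ^ E i : (AdjoinRoot F)ˣ) : AdjoinRoot F)) →
  ∃ (Bad : ℕ → ℕ → Set (σ → ℤ)) (C : ℕ),
    (∀ p : ℕ, p.Prime → ∀ H : ℕ, 1 ≤ H →
      {t : σ → ℤ | (∀ i, |t i| ≤ H) ∧ t ∈ Bad H p}.ncard ≤ C * p * H ^ (Fintype.card σ - 1)) ∧
    (∀ p : ℕ, p.Prime → ∀ m : ℕ, 1 ≤ m → ∀ (t0 : σ → ℤ) (H : ℕ),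
      {t : σ → ℤ | (∀ i, |t i| ≤ H) ∧ (∀ i, (p : ℤ) ^ m ∣ t i - t0 i) ∧ t ∈ Bad H p}.ncard ≤
        C * (H / p ^ m + 1) ^ (Fintype.card σ - 1)) ∧
    ∀ p : ℕ, p.Prime → ∀ H : ℕ, 1 ≤ H → ∀ t : σ → ℤ, (∀ i, |t i| ≤ H) → t ∉ Bad H p →
      Irreducible (F.map (MvPolynomial.eval t)) →
      ∀ (K : Type u) [Field K] [NumberField K] (x : 𝓞 K), Module.finrank ℚ K = F.natDegree →
      aeval x (F.map (MvPolynomial.eval t)) = 0 →
      ∃ w : Fin n → (𝓞 K)ˣ, ∀ c1 : ℕ, IdxC K x F.natDegree p c1 →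
        PInd K p w (c1 + C * (1 + Nat.log p H))

/-- The bound for a single prime: few parameters lie in a set `B` which is thin on lines and fail
the first order test. -/
def StAll : Prop := ∀ r1 r2 k : ℕ, 1 ≤ r1 + 2 * r2 → 1 ≤ k → k ≤ r2 + 1 →
  (Even k ∨ 1 ≤ r1) → ∀ C0 : ℕ, ∃ C : ℕ, ∀ p : ℕ, p.Prime → ∀ H : ℕ, 1 ≤ H →
  ∀ B : Set (Ix r1 r2 → ℤ),
  ({t : Ix r1 r2 → ℤ | (∀ i, |t i| ≤ H) ∧ t ∈ B}.ncard ≤ C0 * p * H ^ (r1 + 2 * r2 - 1)) →
  (∀ m : ℕ, 1 ≤ m → ∀ t0 : Ix r1 r2 → ℤ,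
    {t : Ix r1 r2 → ℤ | (∀ i, |t i| ≤ H) ∧ (∀ i, (p : ℤ) ^ m ∣ t i - t0 i) ∧ t ∈ B}.ncard ≤
      C0 * (H / p ^ m + 1) ^ (r1 + 2 * r2 - 1)) →
  {t : Ix r1 r2 → ℤ | (∀ i, |t i| ≤ H) ∧ t ∈ B ∧ Irreducible (gg t - 1) ∧
    ¬ NB1.{u} r1 r2 p t}.ncard ≤
    C * (p ^ k * H ^ (r1 + 2 * r2 - k) + H ^ (r1 + 2 * r2 - 1))

/-- Density in the range `p ^ (k+1) ≤ H ^ k`, for sets depending on the height. -/
def StDenK : Prop := ∀ (σ : Type) [Fintype σ] (k C : ℕ), 1 ≤ k → k ≤ Fintype.card σ →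
  ∃ C' : ℕ, ∀ Bad : ℕ → ℕ → Set (σ → ℤ),
  (∀ p : ℕ, p.Prime → ∀ H : ℕ, 1 ≤ H →
    {t : σ → ℤ | (∀ i, |t i| ≤ H) ∧ t ∈ Bad H p}.ncard ≤
      C * (p ^ k * H ^ (Fintype.card σ - k) + H ^ (Fintype.card σ - 1))) →
  ∀ H : ℕ, 2 ≤ H →
    ({t : σ → ℤ | (∀ i, |t i| ≤ H) ∧ ∃ p : ℕ, p.Prime ∧ p ^ (k + 1) ≤ H ^ k ∧
      t ∈ Bad H p}.ncard : ℝ) ≤ C' * (H : ℝ) ^ Fintype.card σ / Real.log H

/-- Roots of the specialisations of a family are bounded by a power of the height. -/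
def StRootG : Prop := ∀ (σ : Type) [Fintype σ] (F : (MvPolynomial σ ℤ)[X]), F.Monic →
  ∃ C : ℕ, ∀ (H : ℕ), 1 ≤ H → ∀ t : σ → ℤ, (∀ i, |t i| ≤ H) →
    ∀ z : ℂ, ((F.map (MvPolynomial.eval t)).map (Int.castRingHom ℂ)).eval z = 0 →
      ‖z‖ ≤ C * (H : ℝ) ^ C

end Pool.Agent.Work.MP_59f3ad_nt.Tw

end
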