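import Mathlib
import Pool.Agent.Work.MP_59f3ad_nt.Cod.Stmts
import Pool.Agent.Work.MP_59f3ad_nt.Irred
import Pool.Agent.Work.MP_59f3ad_nt.Sign
import Pool.Agent.Work.MP_59f3ad_nt.GenUnits

/-! Bundle of small proof modules (one section per former module). -/

section

/-!
MP_59f3ad_nt: counting statements for small primes and the sum over the primes.
-/

open Polynomial

namespace Pool.Agent.Work.MP_59f3ad_nt.Cod

/-- The bound in a box of size `H ≥ p ^ 2`: the classes modulo `p ^ 2`. -/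
def StSm : Prop := ∀ (σ : Type) [Fintype σ] (J : Finset σ) (N C0 C1 : ℕ), 1 ≤ J.card →
  ∃ C : ℕ, ∀ (p : ℕ) [Fact p.Prime] (H : ℕ), p ^ 2 ≤ H →
  ∀ (S : Set (σ → ℤ)) (E : Set (σ → ZMod p)), E.ncard ≤ C1 * p ^ (Fintype.card σ - 1) →
  (∀ (m : ℕ) (t0 : σ → ℤ), 1 ≤ m → {t : σ → ℤ | (∀ i, |t i| ≤ H) ∧
    (∀ i, (p : ℤ) ^ m ∣ t i - t0 i) ∧ t ∈ S}.ncard ≤
      C0 * (H / p ^ m + 1) ^ (Fintype.card σ - 1)) →
  (∀ t0 : σ → ℤ, (fun i => ((t0 i : ℤ) : ZMod p)) ∉ E → ∀ s' : σ → ℤ,
    {τ : J → ZMod p | ∃ s : σ → ℤ,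
      (∀ i, i ∉ J → ((s i : ℤ) : ZMod p) = ((s' i : ℤ) : ZMod p)) ∧
      (∀ i : J, ((s i : ℤ) : ZMod p) = τ i) ∧ (fun i => t0 i + p * s i) ∈ S}.ncard ≤ N) →
  {t : σ → ℤ | (∀ i, |t i| ≤ H) ∧ t ∈ S}.ncard ≤
    C * (p ^ J.card * H ^ (Fintype.card σ - J.card) + H ^ (Fintype.card σ - 1))

/-- The sum over the primes up to `P`. -/
def StSum : Prop := ∀ (σ : Type) [Fintype σ] (k C : ℕ) (Bad : ℕ → Set (σ → ℤ)),
  (∀ p : ℕ, p.Prime → ∀ H : ℕ, 1 ≤ H →
    {t : σ → ℤ | (∀ i, |t i| ≤ H) ∧ t ∈ Bad p}.ncard ≤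
      C * (p ^ k * H ^ (Fintype.card σ - k) + H ^ (Fintype.card σ - 1))) →
  ∃ C' : ℝ, ∀ H P : ℕ, 1 ≤ H → 2 ≤ P →
    ({t : σ → ℤ | (∀ i, |t i| ≤ H) ∧ ∃ p : ℕ, p.Prime ∧ p ≤ P ∧ t ∈ Bad p}.ncard : ℝ) ≤
      C' * ((P : ℝ) ^ (k + 1) * (H : ℝ) ^ (Fintype.card σ - k) +
        P * (H : ℝ) ^ (Fintype.card σ - 1)) / Real.log P

end Pool.Agent.Work.MP_59f3ad_nt.Cod

end

section

/-!
The multi-parameter family `∏ (X - a_i) ∏ ((X - b_k)^2 + 2 c_k^2) - 1`: irreducibility, signature,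
and the number of the tuples of a box which are not separated.
-/

open Polynomial Finset NumberField

namespace Pool.Agent.Work.MP_59f3ad_nt.Multi

theorem genG_map {A B : Type*} [CommRing A] [CommRing B] (f : A →+* B) {r1 r2 : ℕ}
    (a : Fin r1 → A) (b c : Fin r2 → A) :
    (genG a b c).map f = genG (f ∘ a) (f ∘ b) (f ∘ c) := by
  rw [genG, genG, Polynomial.map_mul, Polynomial.map_prod, Polynomial.map_prod]
  congr 1
  · refine Finset.prod_congr rfl fun i _ => ?_
    simp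
  · refine Finset.prod_congr rfl fun k _ => ?_
    simp [map_ofNat]

theorem genF_map {A B : Type*} [CommRing A] [CommRing B] (f : A →+* B) {r1 r2 : ℕ}
    (a : Fin r1 → A) (b c : Fin r2 → A) :
    (genF a b c).map f = genF (f ∘ a) (f ∘ b) (f ∘ c) := by
  rw [genF, genF, Polynomial.map_sub, genG_map, Polynomial.map_one]

theorem gquad_monic {A : Type*} [CommRing A] [Nontrivial A] (m c : A) :
    ((X - C m) ^ 2 + C c : A[X]).Monic := by
  monicity!

theorem gquad_natDegree {A : Type*} [CommRing A] [Nontrivial A] (m c : A) :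
    ((X - C m) ^ 2 + C c : A[X]).natDegree = 2 := by
  compute_degree!

theorem genG_monic {A : Type*} [CommRing A] [Nontrivial A] {r1 r2 : ℕ} (a : Fin r1 → A)
    (b c : Fin r2 → A) : (genG a b c).Monic :=
  (monic_prod_of_monic _ _ fun _ _ => monic_X_sub_C _).mul
    (monic_prod_of_monic _ _ fun _ _ => gquad_monic _ _)

theorem genG_natDegree {A : Type*} [CommRing A] [Nontrivial A] {r1 r2 : ℕ} (a : Fin r1 → A)
    (b c : Fin r2 → A) : (genG a b c).natDegree = r1 + 2 * r2 := by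
  rw [genG, (monic_prod_of_monic _ _ fun i _ => monic_X_sub_C _).natDegree_mul
    (monic_prod_of_monic _ _ fun k _ => gquad_monic _ _),
    natDegree_prod_of_monic _ _ fun i _ => monic_X_sub_C _,
    natDegree_prod_of_monic _ _ fun k _ => gquad_monic _ _]
  simp only [natDegree_X_sub_C, gquad_natDegree]
  simp
  ring

theorem genF_natDegree {A : Type*} [CommRing A] [Nontrivial A] {r1 r2 : ℕ} (a : Fin r1 → A)
    (b c : Fin r2 → A) (_hd : 1 ≤ r1 + 2 * r2) : (genF a b c).natDegree = r1 + 2 * r2 := by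
  rw [genF, ← C_1, natDegree_sub_C, genG_natDegree]

theorem genF_monic {A : Type*} [CommRing A] [Nontrivial A] {r1 r2 : ℕ} (a : Fin r1 → A)
    (b c : Fin r2 → A) (hd : 1 ≤ r1 + 2 * r2) : (genF a b c).Monic := by
  rw [genF]
  refine (genG_monic a b c).sub_of_left ?_
  rw [degree_eq_natDegree (genG_monic a b c).ne_zero, genG_natDegree, degree_one]
  exact_mod_cast hd

/-- The centers, as elements of `ℤ[√-2]`. -/
def gzcen {r1 r2 : ℕ} (a : Fin r1 → ℤ) (b c : Fin r2 → ℤ) :
    Fin r1 ⊕ (Fin r2 × Bool) → ℤ√(-2) :=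
  Sum.elim (fun i => ⟨a i, 0⟩) (fun ks => ⟨b ks.1, if ks.2 then c ks.1 else -c ks.1⟩)

/-- The centers in `ℂ`. -/
noncomputable def gcen {r1 r2 : ℕ} (a : Fin r1 → ℤ) (b c : Fin r2 → ℤ)
    (z : Fin r1 ⊕ (Fin r2 × Bool)) : ℂ := phi (gzcen a b c z)

section centers

variable {r1 r2 : ℕ}

theorem gzcen_injective (a : Fin r1 → ℤ) (b c : Fin r2 → ℤ) (hc : ∀ k, c k ≠ 0)
    (ha : Function.Injective a) (hb : Function.Injective b) :
    Function.Injective (gzcen a b c) := by
  rintro (i | ⟨k, s⟩) (j | ⟨l, t⟩) h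
  · have h1 : a i = a j := congrArg Zsqrtd.re h
    rw [ha h1]
  · have h1 : 0 = (if t then c l else -c l) := congrArg Zsqrtd.im h
    have := hc l
    split_ifs at h1 <;> omega
  · have h1 : (if s then c k else -c k) = 0 := congrArg Zsqrtd.im h
    have := hc k
    split_ifs at h1 <;> omega
  · have h1 : b k = b l := congrArg Zsqrtd.re h
    have h2 : (if s then c k else -c k) = (if t then c l else -c l) := congrArg Zsqrtd.im h
    have h3 := hb h1
    subst h3
    have h4 := hc k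
    cases s <;> cases t
    · rfl
    · exfalso
      have h3 : -c k = c k := by simpa using h2
      omega
    · exfalso
      have h3 : c k = -c k := by simpa using h2
      omega
    · rfl

theorem aeval_gzcen_genG (a : Fin r1 → ℤ) (b c : Fin r2 → ℤ)
    (z : Fin r1 ⊕ (Fin r2 × Bool)) : aeval (gzcen a b c z) (genG a b c) = 0 := by
  rw [genG, map_mul, map_prod, map_prod]
  rcases z with i | ⟨k, s⟩
  · refine mul_eq_zero_of_left (Finset.prod_eq_zero (Finset.mem_univ i) ?_) _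
    rw [map_sub, aeval_X, aeval_C]
    ext <;> simp [gzcen]
  · refine mul_eq_zero_of_right _ (Finset.prod_eq_zero (Finset.mem_univ k) ?_)
    rw [map_add, map_pow, map_sub, aeval_X, aeval_C, aeval_C]
    cases s
    · ext <;> simp [gzcen, pow_two]
      ring
    · ext <;> simp [gzcen, pow_two]
      ring

end centers

theorem genF_irreducible {r1 r2 : ℕ} (a : Fin r1 → ℤ) (b c : Fin r2 → ℤ)
    (ha : Function.Injective a) (hb : Function.Injective b) (hc : ∀ k, c k ≠ 0)
    (hd : 1 ≤ r1 + 2 * r2) : Irreducible (genF a b c) := by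
  have hdeg := genF_natDegree a b c hd
  rw [(genF_monic a b c hd).irreducible_iff_natDegree]
  refine ⟨fun h => ?_, fun g h hg hh hgh => ?_⟩
  · rw [h, natDegree_one] at hdeg
    omega
  · by_contra! hne
    have hsum : g.natDegree + h.natDegree = r1 + 2 * r2 := by
      rw [← hg.natDegree_mul hh, hgh, hdeg]
    have hroot : ∀ z, aeval (gzcen a b c z) (g + h) = 0 := by
      intro z
      rw [map_add]
      refine mul_eq_neg_one_zsqrtd _ _ ?_
      rw [← map_mul, hgh, genF, map_sub, aeval_gzcen_genG, map_one, zero_sub]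
    have hne0 : g + h ≠ 0 := by
      intro h0
      rcases lt_trichotomy g.natDegree h.natDegree with h1 | h1 | h1
      · have := congrArg (fun q => coeff q h.natDegree) h0
        simp only [coeff_add, coeff_zero] at this
        rw [coeff_eq_zero_of_natDegree_lt h1, coeff_natDegree, hh.leadingCoeff] at this
        norm_num at this
      · have := congrArg (fun q => coeff q g.natDegree) h0
        simp only [coeff_add, coeff_zero] at this
        rw [coeff_natDegree, hg.leadingCoeff, h1, coeff_natDegree, hh.leadingCoeff] at this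
        norm_num at this
      · have := congrArg (fun q => coeff q g.natDegree) h0
        simp only [coeff_add, coeff_zero] at this
        rw [coeff_eq_zero_of_natDegree_lt h1, coeff_natDegree, hg.leadingCoeff] at this
        norm_num at this
    have hinj : Function.Injective (gcen a b c) := fun z z' h =>
      gzcen_injective a b c hc ha hb (phi_injective h)
    have hmap : ((g + h).map (algebraMap ℤ ℂ)) ≠ 0 := by
      rwa [Ne, Polynomial.map_eq_zero_iff (algebraMap ℤ ℂ).injective_int]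
    have hsub : (Finset.univ.image (gcen a b c)) ⊆
        ((g + h).map (algebraMap ℤ ℂ)).roots.toFinset := by
      intro z hz
      obtain ⟨c, _, rfl⟩ := Finset.mem_image.mp hz
      rw [Multiset.mem_toFinset, mem_roots hmap, IsRoot.def, eval_map_algebraMap]
      have h1 := congrArg phi (hroot c)
      rw [map_zero] at h1
      rw [← h1]
      exact (aeval_algHom_apply phi.toIntAlgHom _ _)
    have hcard := Finset.card_le_card hsub
    rw [Finset.card_image_of_injective _ hinj, Finset.card_univ, Fintype.card_sum,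
      Fintype.card_prod, Fintype.card_fin, Fintype.card_fin, Fintype.card_bool] at hcard
    have h2 := (Multiset.toFinset_card_le ((g + h).map (algebraMap ℤ ℂ)).roots).trans
      (card_roots' _)
    have h3 : ((g + h).map (algebraMap ℤ ℂ)).natDegree ≤ (g + h).natDegree := natDegree_map_le
    have h4 : (g + h).natDegree ≤ max g.natDegree h.natDegree := natDegree_add_le _ _
    have h5 : max g.natDegree h.natDegree < r1 + 2 * r2 := by
      rw [max_lt_iff]
      omega
    omega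

section sign

variable {r1 r2 : ℕ}

theorem gcen_inl (a : Fin r1 → ℤ) (b c : Fin r2 → ℤ) (i : Fin r1) :
    gcen a b c (Sum.inl i) = ((a i : ℤ) : ℂ) := by
  simp [gcen, gzcen, phi_apply]

theorem gcen_inr_true (a : Fin r1 → ℤ) (b c : Fin r2 → ℤ) (k : Fin r2) :
    gcen a b c (Sum.inr (k, true)) =
      ((b k : ℤ) : ℂ) + (c k : ℂ) * (Complex.I * (Real.sqrt 2 : ℝ)) := by
  simp [gcen, gzcen, phi_apply]

theorem gcen_inr_false (a : Fin r1 → ℤ) (b c : Fin r2 → ℤ) (k : Fin r2) :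
    gcen a b c (Sum.inr (k, false)) =
      ((b k : ℤ) : ℂ) - (c k : ℂ) * (Complex.I * (Real.sqrt 2 : ℝ)) := by
  simp [gcen, gzcen, phi_apply]
  ring

theorem gcen_cconj (a : Fin r1 → ℤ) (b c : Fin r2 → ℤ) (z : Fin r1 ⊕ (Fin r2 × Bool)) :
    gcen a b c (cconj z) = (starRingEnd ℂ) (gcen a b c z) := by
  rcases z with i | ⟨k, s⟩
  · rw [cconj, Sum.map_inl, gcen_inl]
    simp [gcen_inl]
  · cases s
    · rw [cconj, Sum.map_inr, Bool.not_false, gcen_inr_true, gcen_inr_false]
      simp [Complex.conj_ofReal]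
    · rw [cconj, Sum.map_inr, Bool.not_true, gcen_inr_true, gcen_inr_false]
      simp [Complex.conj_ofReal]
      ring

theorem gcen_re (a : Fin r1 → ℤ) (b c : Fin r2 → ℤ) (z : Fin r1 ⊕ (Fin r2 × Bool)) :
    (gcen a b c z).re = ((gzcen a b c z).re : ℝ) := by
  rw [gcen, phi_apply]; simp

theorem gcen_im (a : Fin r1 → ℤ) (b c : Fin r2 → ℤ) (z : Fin r1 ⊕ (Fin r2 × Bool)) :
    (gcen a b c z).im = ((gzcen a b c z).im : ℝ) * Real.sqrt 2 := by
  rw [gcen, phi_apply]; simp

theorem gcen_dist (a : Fin r1 → ℤ) (b c : Fin r2 → ℤ)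
    (ha : ∀ i j, i ≠ j → 4 ≤ |a i - a j|)
    (hb : ∀ k l, k ≠ l → 4 ≤ |b k - b l|) (hc : ∀ k, 3 ≤ |c k|)
    (z z' : Fin r1 ⊕ (Fin r2 × Bool)) (h : z ≠ z') : 4 ≤ ‖gcen a b c z - gcen a b c z'‖ := by
  have hsqrt : (4 : ℝ) / 3 ≤ Real.sqrt 2 := by
    apply Real.le_sqrt_of_sq_le; norm_num
  have hre : ∀ m : ℤ, 4 ≤ |m| → (gcen a b c z - gcen a b c z').re = (m : ℝ) →
      4 ≤ ‖gcen a b c z - gcen a b c z'‖ := by
    intro m hm h1
    refine le_trans ?_ (Complex.abs_re_le_norm _)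
    rw [h1]
    exact_mod_cast hm
  have him : ∀ m : ℤ, 3 ≤ |m| → (gcen a b c z - gcen a b c z').im = (m : ℝ) * Real.sqrt 2 →
      4 ≤ ‖gcen a b c z - gcen a b c z'‖ := by
    intro m hm h1
    refine le_trans ?_ (Complex.abs_im_le_norm _)
    rw [h1, abs_mul, abs_of_nonneg (Real.sqrt_nonneg 2)]
    have h2 : (3 : ℝ) ≤ |(m : ℝ)| := by exact_mod_cast hm
    nlinarith
  rcases z with i | ⟨k, s⟩ <;> rcases z' with j | ⟨l, t⟩
  · refine hre (a i - a j) (ha i j fun hij => h (by rw [hij])) ?_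
    rw [Complex.sub_re, gcen_re, gcen_re]
    simp [gzcen]
  · refine him (0 - (if t then c l else -c l)) ?_ ?_
    · have := hc l
      split_ifs
      · rw [zero_sub, abs_neg]; exact this
      · rw [zero_sub, neg_neg]; exact this
    · rw [Complex.sub_im, gcen_im, gcen_im]
      simp [gzcen]
  · refine him (if s then c k else -c k) ?_ ?_
    · have := hc k
      split_ifs
      · exact this
      · rw [abs_neg]; exact this
    · rw [Complex.sub_im, gcen_im, gcen_im]
      simp [gzcen]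
  · by_cases hkl : k = l
    · subst hkl
      refine him ((if s then c k else -c k) - (if t then c k else -c k)) ?_ ?_
      · have h1 := hc k
        have hst : s ≠ t := fun hst => h (by rw [hst])
        rcases abs_cases (c k) with ⟨h2, h3⟩ | ⟨h2, h3⟩ <;>
        cases s <;> cases t <;> simp at hst <;>
        · simp only [if_true, Bool.false_eq_true, if_false]
          rw [le_abs]
          omega
      · rw [Complex.sub_im, gcen_im, gcen_im]
        simp [gzcen]
        split_ifs <;> ring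
    · refine hre (b k - b l) (hb k l hkl) ?_
      rw [Complex.sub_re, gcen_re, gcen_re]
      simp [gzcen]

theorem gquad_eq (a : Fin r1 → ℤ) (b c : Fin r2 → ℤ) (k : Fin r2) (z : ℂ) :
    (z - ((b k : ℤ) : ℂ)) ^ 2 + ((2 * c k ^ 2 : ℤ) : ℂ) =
      (z - gcen a b c (Sum.inr (k, true))) * (z - gcen a b c (Sum.inr (k, false))) := by
  have h : (Complex.I * (Real.sqrt 2 : ℝ)) * (Complex.I * (Real.sqrt 2 : ℝ)) = (-2 : ℂ) := by
    rw [sqrt_neg_two_sq]; norm_num
  rw [gcen_inr_true, gcen_inr_false]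
  push_cast
  linear_combination ((c k : ℂ) ^ 2) * h

theorem aeval_genG_eq (a : Fin r1 → ℤ) (b c : Fin r2 → ℤ) (z : ℂ) :
    aeval z (genG a b c) = ∏ w, (z - gcen a b c w) := by
  rw [genG, map_mul, map_prod, map_prod, Fintype.prod_sum_type, Fintype.prod_prod_type]
  congr 1
  · refine Finset.prod_congr rfl fun i _ => ?_
    rw [map_sub, aeval_X, aeval_C, gcen_inl]
    rfl
  · refine Finset.prod_congr rfl fun k _ => ?_
    rw [Fintype.prod_bool, ← gquad_eq, map_add, map_pow, map_sub, aeval_X, aeval_C, aeval_C]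
    rfl

theorem gexists_near (a : Fin r1 → ℤ) (b c : Fin r2 → ℤ) (hd : 1 ≤ r1 + 2 * r2) (z : ℂ)
    (hz : aeval z (genF a b c) = 0) : ∃ w, ‖z - gcen a b c w‖ ≤ 1 := by
  rw [genF, map_sub, map_one, aeval_genG_eq, sub_eq_zero] at hz
  by_contra! hcon
  have hne : Nonempty (Fin r1 ⊕ (Fin r2 × Bool)) := by
    rcases Nat.eq_zero_or_pos r1 with h | h
    · exact ⟨Sum.inr (⟨0, by omega⟩, true)⟩
    · exact ⟨Sum.inl ⟨0, h⟩⟩
  have h1 : (1 : ℝ) < ∏ w, ‖z - gcen a b c w‖ := by
    have := Finset.prod_lt_prod_of_nonempty (s := (Finset.univ : Finset (Fin r1 ⊕ (Fin r2 × Bool))))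
      (f := fun _ => (1 : ℝ)) (g := fun w => ‖z - gcen a b c w‖) (fun _ _ => one_pos)
      (fun w _ => hcon w) Finset.univ_nonempty
    simpa using this
  rw [← norm_prod, hz, norm_one] at h1
  exact lt_irrefl _ h1

variable {K : Type*} [Field K] [NumberField K]

variable (a : Fin r1 → ℤ) (b c : Fin r2 → ℤ) (x : 𝓞 K)

theorem gexists_bij (ha : ∀ i j, i ≠ j → 4 ≤ |a i - a j|)
    (hb : ∀ k l, k ≠ l → 4 ≤ |b k - b l|) (hc : ∀ k, 3 ≤ |c k|)
    (hd : 1 ≤ r1 + 2 * r2) (hfin : Module.finrank ℚ K = r1 + 2 * r2)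
    (hx : aeval x (genF a b c) = 0) :
    ∃ e : (K →+* ℂ) ≃ Fin r1 ⊕ (Fin r2 × Bool),
      (∀ σ, ‖σ (x : K) - gcen a b c (e σ)‖ ≤ 1) ∧
      (∀ σ, e (ComplexEmbedding.conjugate σ) = cconj (e σ)) := by
  have hroot : ∀ σ : K →+* ℂ, aeval (σ (x : K)) (genF a b c) = 0 := by
    intro σ
    have h1 : aeval (σ (x : K)) (genF a b c) =
        (σ.comp (algebraMap (𝓞 K) K)) (aeval x (genF a b c)) :=
      aeval_algHom_apply ((σ.comp (algebraMap (𝓞 K) K)).toIntAlgHom) x (genF a b c)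
    rw [h1, hx, map_zero]
  choose near hnear using fun σ : K →+* ℂ => gexists_near a b c hd _ (hroot σ)
  have huniq : ∀ (z : ℂ) w w', ‖z - gcen a b c w‖ ≤ 1 → ‖z - gcen a b c w'‖ ≤ 1 → w = w' := by
    intro z w w' h1 h2
    by_contra hne
    have h3 := gcen_dist a b c ha hb hc w w' hne
    have h4 : ‖gcen a b c w - gcen a b c w'‖ ≤ 1 + 1 := by
      have h5 : gcen a b c w - gcen a b c w' =
        (z - gcen a b c w') - (z - gcen a b c w) := by ring
      rw [h5]
      exact (norm_sub_le _ _).trans (add_le_add h2 h1)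
    linarith
  have hfar : ∀ (z : ℂ) w w', ‖z - gcen a b c w‖ ≤ 1 → w ≠ w' →
      3 ≤ ‖z - gcen a b c w'‖ := by
    intro z w w' h1 hne
    have h3 := gcen_dist a b c ha hb hc w w' hne
    have h4 : ‖gcen a b c w - gcen a b c w'‖ ≤
        ‖z - gcen a b c w'‖ + ‖z - gcen a b c w‖ := by
      have h5 : gcen a b c w - gcen a b c w' =
        (z - gcen a b c w') - (z - gcen a b c w) := by ring
      rw [h5]
      exact norm_sub_le _ _
    linarith
  have hconj : ∀ σ : K →+* ℂ, near (ComplexEmbedding.conjugate σ) = cconj (near σ) := by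
    intro σ
    refine huniq ((ComplexEmbedding.conjugate σ) (x : K)) _ _ (hnear _) ?_
    rw [gcen_cconj, ComplexEmbedding.conjugate_coe_eq, ← map_sub, RCLike.norm_conj]
    exact hnear σ
  -- the product formula for a divisor of one
  have hunitprod : ∀ y : 𝓞 K, IsUnit y → (∀ σ : K →+* ℂ, 1 < ‖σ (y : K)‖) → False := by
    intro y hy h
    obtain ⟨u, rfl⟩ := hy
    have h1 := prod_norm_embeddings_unit u
    have h2 : (1 : ℝ) < ∏ σ : K →+* ℂ, ‖σ ((u : 𝓞 K) : K)‖ := by
      have := Finset.prod_lt_prod_of_nonempty (s := (Finset.univ : Finset (K →+* ℂ)))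
        (f := fun _ => (1 : ℝ)) (g := fun σ => ‖σ ((u : 𝓞 K) : K)‖) (fun _ _ => one_pos)
        (fun c _ => h c) Finset.univ_nonempty
      rwa [Finset.prod_const_one] at this
    rw [h1] at h2
    exact lt_irrefl _ h2
  have hG : aeval x (genG a b c) = 1 := by
    rw [genF, map_sub, map_one, sub_eq_zero] at hx
    exact hx
  have hsurj : Function.Surjective near := by
    intro w
    rcases w with i | ⟨k, s⟩
    · by_contra hcon
      push Not at hcon
      refine hunitprod (x - ((a i : ℤ) : 𝓞 K)) ?_ ?_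
      · rw [isUnit_iff_dvd_one, ← hG, genG, map_mul, map_prod]
        refine Dvd.dvd.mul_right ?_ _
        have h1 := Finset.dvd_prod_of_mem (fun i => aeval x (X - C (a i))) (Finset.mem_univ i)
        refine Dvd.dvd.trans (Eq.dvd ?_) h1
        rw [map_sub, aeval_X, aeval_C]
        rfl
      · intro σ
        have h1 := hfar (σ (x : K)) _ (Sum.inl i) (hnear σ) (hcon σ)
        rw [gcen_inl] at h1
        have h2 : σ ((x - ((a i : ℤ) : 𝓞 K) : 𝓞 K) : K) = σ (x : K) - ((a i : ℤ) : ℂ) := by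
          have h4 : ∀ y : 𝓞 K, σ (y : K) = (σ.comp (algebraMap (𝓞 K) K)) y := fun _ => rfl
          rw [h4, map_sub, map_intCast]
          rfl
        rw [h2]
        linarith
    · have hex : ∃ σ, ∃ t, near σ = Sum.inr (k, t) := by
        by_contra hcon
        push Not at hcon
        refine hunitprod ((x - ((b k : ℤ) : 𝓞 K)) ^ 2 + ((2 * c k ^ 2 : ℤ) : 𝓞 K)) ?_ ?_
        · rw [isUnit_iff_dvd_one, ← hG, genG, map_mul, map_prod, map_prod]
          refine Dvd.dvd.mul_left ?_ _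
          have h1 := Finset.dvd_prod_of_mem (fun k => aeval x ((X - C (b k)) ^ 2 +
            C (2 * c k ^ 2))) (Finset.mem_univ k)
          refine Dvd.dvd.trans (Eq.dvd ?_) h1
          rw [map_add, map_pow, map_sub, aeval_X, aeval_C, aeval_C]
          rfl
        · intro σ
          have h1 := hfar (σ (x : K)) _ (Sum.inr (k, true)) (hnear σ) (hcon σ true)
          have h3 := hfar (σ (x : K)) _ (Sum.inr (k, false)) (hnear σ) (hcon σ false)
          have h2 : σ (((x - ((b k : ℤ) : 𝓞 K)) ^ 2 + ((2 * c k ^ 2 : ℤ) : 𝓞 K) : 𝓞 K) : K) =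
              (σ (x : K) - ((b k : ℤ) : ℂ)) ^ 2 + ((2 * c k ^ 2 : ℤ) : ℂ) := by
            have h4 : ∀ y : 𝓞 K, σ (y : K) = (σ.comp (algebraMap (𝓞 K) K)) y := fun _ => rfl
            rw [h4, map_add, map_pow, map_sub, map_intCast, map_intCast]
            rfl
          rw [h2, gquad_eq a b, norm_mul]
          nlinarith
      obtain ⟨σ, t, hσ⟩ := hex
      by_cases hts : t = s
      · exact ⟨σ, by rw [hσ, hts]⟩
      · refine ⟨ComplexEmbedding.conjugate σ, ?_⟩
        rw [hconj, hσ, cconj, Sum.map_inr]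
        have : (!t) = s := by
          cases t <;> cases s
          · exact absurd rfl hts
          · rfl
          · rfl
          · exact absurd rfl hts
        rw [this]
  have hcard : Fintype.card (K →+* ℂ) = Fintype.card (Fin r1 ⊕ (Fin r2 × Bool)) := by
    rw [NumberField.Embeddings.card, hfin, Fintype.card_sum, Fintype.card_prod, Fintype.card_fin,
      Fintype.card_fin, Fintype.card_bool, Nat.mul_comm]
  have hbij : Function.Bijective near :=
    (Fintype.bijective_iff_surjective_and_card _).mpr ⟨hsurj, hcard⟩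
  exact ⟨Equiv.ofBijective near hbij, hnear, hconj⟩

end sign

theorem gen_nrReal_eq {r1 r2 : ℕ} {K : Type*} [Field K] [NumberField K] (a : Fin r1 → ℤ)
    (b c : Fin r2 → ℤ) (x : 𝓞 K) (ha : ∀ i j, i ≠ j → 4 ≤ |a i - a j|)
    (hb : ∀ k l, k ≠ l → 4 ≤ |b k - b l|) (hc : ∀ k, 3 ≤ |c k|)
    (hd : 1 ≤ r1 + 2 * r2) (hfin : Module.finrank ℚ K = r1 + 2 * r2)
    (hx : aeval x (genF a b c) = 0) : InfinitePlace.nrRealPlaces K = r1 := by
  classical
  obtain ⟨e, -, hconj⟩ := gexists_bij a b c x ha hb hc hd hfin hx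
  rw [← InfinitePlace.card_real_embeddings]
  have h1 : ∀ σ : K →+* ℂ, ComplexEmbedding.IsReal σ ↔ ∃ i, e σ = Sum.inl i := by
    intro σ
    rw [ComplexEmbedding.isReal_iff, ← e.injective.eq_iff, hconj]
    rcases e σ with i | ⟨k, s⟩
    · simp [cconj]
    · simp [cconj]
  let f : {σ : K →+* ℂ // ComplexEmbedding.IsReal σ} → Fin r1 := fun σ => ((h1 σ.1).mp σ.2).choose
  have hf : ∀ σ, e σ.1 = Sum.inl (f σ) := fun σ => ((h1 σ.1).mp σ.2).choose_spec
  have hbij : Function.Bijective f := by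
    constructor
    · intro σ τ h
      have h2 : e σ.1 = e τ.1 := by rw [hf, hf, h]
      exact Subtype.ext (e.injective h2)
    · intro i
      have h2 : e (e.symm (Sum.inl i)) = Sum.inl i := e.apply_symm_apply _
      refine ⟨⟨e.symm (Sum.inl i), (h1 _).mpr ⟨i, h2⟩⟩, ?_⟩
      have h3 := hf ⟨e.symm (Sum.inl i), (h1 _).mpr ⟨i, h2⟩⟩
      exact (Sum.inl.inj (h2.symm.trans h3)).symm
  have h2 := Fintype.card_of_bijective hbij
  rw [Fintype.card_fin] at h2
  convert h2

theorem gen_nrComplex_eq {r1 r2 : ℕ} {K : Type*} [Field K] [NumberField K] (a : Fin r1 → ℤ)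
    (b c : Fin r2 → ℤ) (x : 𝓞 K) (ha : ∀ i j, i ≠ j → 4 ≤ |a i - a j|)
    (hb : ∀ k l, k ≠ l → 4 ≤ |b k - b l|) (hc : ∀ k, 3 ≤ |c k|)
    (hd : 1 ≤ r1 + 2 * r2) (hfin : Module.finrank ℚ K = r1 + 2 * r2)
    (hx : aeval x (genF a b c) = 0) : InfinitePlace.nrComplexPlaces K = r2 := by
  have h1 := gen_nrReal_eq a b c x ha hb hc hd hfin hx
  have h2 := InfinitePlace.card_add_two_mul_card_eq_rank K
  rw [h1, hfin] at h2
  omega

/-- Tuples of a box for which one coordinate is within `3` of a function of the others. -/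
theorem sep_count_aux {ι : Type*} [Fintype ι] [DecidableEq ι] (i : ι) (g : (ι → ℤ) → ℤ)
    (hg : ∀ t x, g (Function.update t i x) = g t) (H : ℕ) (hH : 1 ≤ H) :
    {t : ι → ℤ | (∀ j, |t j| ≤ H) ∧ |t i - g t| ≤ 3}.Finite ∧
    {t : ι → ℤ | (∀ j, |t j| ≤ H) ∧ |t i - g t| ≤ 3}.ncard ≤
      7 * 3 ^ (Fintype.card ι - 1) * H ^ (Fintype.card ι - 1) := by
  classical
  set S := {t : ι → ℤ | (∀ j, |t j| ≤ H) ∧ |t i - g t| ≤ 3} with hS
  let F : (ι → ℤ) → ℤ × ({j // j ≠ i} → ℤ) := fun t => (t i - g t, fun j => t j.1)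
  let T : Finset (ℤ × ({j // j ≠ i} → ℤ)) :=
    (Finset.Icc (-3 : ℤ) 3) ×ˢ
      (Fintype.piFinset fun _ : {j // j ≠ i} => Finset.Icc (-(H : ℤ)) H)
  have hmaps : ∀ t ∈ S, F t ∈ (T : Set (ℤ × ({j // j ≠ i} → ℤ))) := by
    intro t ht
    rw [Finset.mem_coe, Finset.mem_product]
    refine ⟨?_, ?_⟩
    · rw [Finset.mem_Icc]
      exact abs_le.mp ht.2
    · rw [Fintype.mem_piFinset]
      intro j
      rw [Finset.mem_Icc]
      exact abs_le.mp (ht.1 j.1)
  have hinj : Function.Injective F := by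
    intro t t' h
    have h1 : t i - g t = t' i - g t' := congrArg Prod.fst h
    have h2 : ∀ j, j ≠ i → t j = t' j := fun j hj => congrFun (congrArg Prod.snd h) ⟨j, hj⟩
    have h3 : t' = Function.update t i (t' i) := by
      funext j
      by_cases hj : j = i
      · subst hj; rw [Function.update_self]
      · rw [Function.update_of_ne hj, h2 j hj]
    have h4 : g t' = g t := by
      rw [h3, hg]
    funext j
    by_cases hj : j = i
    · subst hj
      rw [h4] at h1
      linarith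
    · exact h2 j hj
  refine ⟨Set.Finite.of_injOn hmaps hinj.injOn T.finite_toSet, ?_⟩
  have hcard := Set.ncard_le_ncard_of_injOn F hmaps hinj.injOn T.finite_toSet
  refine hcard.trans ?_
  rw [Set.ncard_coe_finset, Finset.card_product, Fintype.card_piFinset, Finset.prod_const,
    Int.card_Icc, Int.card_Icc, Finset.card_univ]
  have h1 : Fintype.card {j // j ≠ i} = Fintype.card ι - 1 := by
    rw [Fintype.card_subtype_compl, Fintype.card_subtype_eq]
  rw [h1, mul_assoc, ← mul_pow]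
  have h2 : ((3 : ℤ) + 1 - -3).toNat = 7 := rfl
  have h3 : ((H : ℤ) + 1 - -(H : ℤ)).toNat ≤ 3 * H := by omega
  rw [h2]
  exact Nat.mul_le_mul_left _ (Nat.pow_le_pow_left h3 _)

theorem sep_count (r1 r2 : ℕ) : ∃ C : ℕ, ∀ H : ℕ, 1 ≤ H →
      {t : Fin r1 ⊕ Fin r2 ⊕ Fin r2 → ℤ | (∀ i, |t i| ≤ H) ∧
        ¬ ((∀ i j : Fin r1, i ≠ j → 4 ≤ |t (Sum.inl i) - t (Sum.inl j)|) ∧
          (∀ k l : Fin r2, k ≠ l → 4 ≤ |t (Sum.inr (Sum.inl k)) - t (Sum.inr (Sum.inl l))|) ∧
          (∀ k : Fin r2, 3 ≤ |t (Sum.inr (Sum.inr k))|))}.ncard ≤ C * H ^ (r1 + 2 * r2 - 1) := by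
  classical
  let ι := Fin r1 ⊕ Fin r2 ⊕ Fin r2
  have hcard : Fintype.card ι = r1 + 2 * r2 := by
    simp only [ι, Fintype.card_sum, Fintype.card_fin]
    ring
  refine ⟨Fintype.card (ι × Option ι) * (7 * 3 ^ (r1 + 2 * r2 - 1)), fun H hH => ?_⟩
  let B : ι × Option ι → Set (ι → ℤ) := fun p =>
    match p with
    | (i, none) => {t | (∀ j, |t j| ≤ H) ∧ |t i - 0| ≤ 3}
    | (i, some j) => if i = j then ∅ else {t | (∀ j, |t j| ≤ H) ∧ |t i - t j| ≤ 3}
  have hB : ∀ p, (B p).Finite ∧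
      (B p).ncard ≤ 7 * 3 ^ (r1 + 2 * r2 - 1) * H ^ (r1 + 2 * r2 - 1) := by
    rintro ⟨i, _ | j⟩
    · have := sep_count_aux i (fun _ => 0) (fun _ _ => rfl) H hH
      rwa [hcard] at this
    · by_cases hij : i = j
      · have : B (i, some j) = ∅ := if_pos hij
        rw [this]
        simp
      · have h1 : B (i, some j) = {t : ι → ℤ | (∀ j, |t j| ≤ (H : ℤ)) ∧ |t i - t j| ≤ 3} :=
          if_neg hij
        rw [h1]
        have := sep_count_aux i (fun t => t j)
          (fun t x => Function.update_of_ne (fun h => hij h.symm) _ _) H hH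
        rwa [hcard] at this
  have hsub : {t : ι → ℤ | (∀ i, |t i| ≤ H) ∧
        ¬ ((∀ i j : Fin r1, i ≠ j → 4 ≤ |t (Sum.inl i) - t (Sum.inl j)|) ∧
          (∀ k l : Fin r2, k ≠ l → 4 ≤ |t (Sum.inr (Sum.inl k)) - t (Sum.inr (Sum.inl l))|) ∧
          (∀ k : Fin r2, 3 ≤ |t (Sum.inr (Sum.inr k))|))} ⊆
        ⋃ p ∈ (Finset.univ : Finset (ι × Option ι)), B p := by
    rintro t ⟨ht, hbad⟩
    rw [Set.mem_iUnion₂]
    by_cases h1 : ∀ i j : Fin r1, i ≠ j → 4 ≤ |t (Sum.inl i) - t (Sum.inl j)|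
    · by_cases h2 : ∀ k l : Fin r2, k ≠ l →
        4 ≤ |t (Sum.inr (Sum.inl k)) - t (Sum.inr (Sum.inl l))|
      · have h3 : ¬ ∀ k : Fin r2, 3 ≤ |t (Sum.inr (Sum.inr k))| := fun h3 => hbad ⟨h1, h2, h3⟩
        push Not at h3
        obtain ⟨k, hk⟩ := h3
        refine ⟨(Sum.inr (Sum.inr k), none), Finset.mem_univ _, ht, ?_⟩
        rw [sub_zero]
        exact le_of_lt hk
      · push Not at h2
        obtain ⟨k, l, hkl, hk⟩ := h2
        refine ⟨(Sum.inr (Sum.inl k), some (Sum.inr (Sum.inl l))), Finset.mem_univ _, ?_⟩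
        have hne : (Sum.inr (Sum.inl k) : ι) ≠ Sum.inr (Sum.inl l) := by simpa using hkl
        have : B (Sum.inr (Sum.inl k), some (Sum.inr (Sum.inl l))) = _ := if_neg hne
        rw [this]
        exact ⟨ht, by linarith⟩
    · push Not at h1
      obtain ⟨k, l, hkl, hk⟩ := h1
      refine ⟨(Sum.inl k, some (Sum.inl l)), Finset.mem_univ _, ?_⟩
      have hne : (Sum.inl k : ι) ≠ Sum.inl l := by simpa using hkl
      have : B (Sum.inl k, some (Sum.inl l)) = _ := if_neg hne
      rw [this]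
      exact ⟨ht, by linarith⟩
  have hfin : (⋃ p ∈ (Finset.univ : Finset (ι × Option ι)), B p).Finite :=
    Set.Finite.biUnion (Finset.finite_toSet _) fun p _ => (hB p).1
  refine (Set.ncard_le_ncard hsub hfin).trans ?_
  refine (Finset.set_ncard_biUnion_le _ _).trans ?_
  refine (Finset.sum_le_card_nsmul _ _ _ fun p _ => (hB p).2).trans ?_
  rw [Finset.card_univ, smul_eq_mul]
  exact le_of_eq (by ring)

end Pool.Agent.Work.MP_59f3ad_nt.Multi

end
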