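import Mathlib
import Pool.Agent.Work.MP_59f3ad_nt.Multi
import Pool.Agent.Work.MP_59f3ad_nt.Cod.ClassFinM
import Pool.Agent.Work.MP_59f3ad_nt.Bdx.B02

/-! Bundle of small proof modules (one section per former module). -/

section

/-!
The exceptional set of a family with several parameters: bounds in the residue classes.
-/

open Polynomial NumberField

namespace Pool.Agent.Work.MP_59f3ad_nt

universe u

/-- The number of exceptions in a family with auxiliary parameters, in every residue class. -/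
theorem exceptions_gen_class {n : ℕ} {R : Type} [CommRing R] [Countable R]
    (F : R[X][X]) (hF : F.Monic) (hd : 1 ≤ F.natDegree)
    (H G : Fin n → R[X][X]) (hHG : ∀ l, F ∣ H l * G l - 1)
    (hC : ∀ ψ : R →+* ℂ, ∃ B : ℝ, ∀ τ : ℝ, B < τ →
      LogDetC (F.map (mapRingHom ψ)) (fun l => (H l).map (mapRingHom ψ)) τ) :
    ∃ B' : ℕ, ∀ p : ℕ, p.Prime → ∀ y : R →+* ℤ, ∃ Z : Set ℤ, Z.Finite ∧ Z.ncard ≤ B' * p ∧
      (∀ s0 : ℤ, {s ∈ Z | (p : ℤ) ∣ s - s0}.ncard ≤ B') ∧
      ∀ t : ℤ, t ∉ Z → Irreducible ((F.map (mapRingHom y)).map (evalRingHom t)) →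
      ∀ (K : Type u) [Field K] [NumberField K] (x : 𝓞 K), Module.finrank ℚ K = F.natDegree →
      aeval x ((F.map (mapRingHom y)).map (evalRingHom t)) = 0 →
      ∃ (u : Fin n → (𝓞 K)ˣ) (c : ℕ), PInd K p u c := by
  classical
  obtain ⟨B', h⟩ := exceptions_class_gen.{u} F hF hd H G hHG hC
  refine ⟨B', fun p hp y => ?_⟩
  choose Z hZ hZc hZ' using h p hp y
  have hpos : (0 : ℤ) < p := by exact_mod_cast hp.pos
  have hfin : (⋃ r ∈ Finset.range p, (fun t => (r : ℤ) + p * t) '' Z r).Finite :=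
    Set.Finite.biUnion (Finset.finite_toSet _) fun r _ => (hZ r).image _
  refine ⟨⋃ r ∈ Finset.range p, (fun t => (r : ℤ) + p * t) '' Z r, hfin, ?_, ?_, ?_⟩
  · have h1 : (⋃ r ∈ Finset.range p, (fun t => (r : ℤ) + p * t) '' Z r).ncard ≤
        ∑ r ∈ Finset.range p, ((fun t => (r : ℤ) + p * t) '' Z r).ncard :=
      Finset.set_ncard_biUnion_le _ _
    refine h1.trans ?_
    calc ∑ r ∈ Finset.range p, ((fun t => (r : ℤ) + p * t) '' Z r).ncard
        ≤ ∑ _r ∈ Finset.range p, B' := Finset.sum_le_sum fun r _ =>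
          (Set.ncard_image_le (hZ r)).trans (hZc r)
      _ = B' * p := by rw [Finset.sum_const, Finset.card_range, smul_eq_mul, mul_comm]
  · intro s0
    set r := s0 % p with hr
    have hr0 : 0 ≤ r := Int.emod_nonneg _ hpos.ne'
    have hrp : r < p := Int.emod_lt_of_pos _ hpos
    have hsub : {s ∈ ⋃ r ∈ Finset.range p, (fun t => (r : ℤ) + p * t) '' Z r |
        (p : ℤ) ∣ s - s0} ⊆ (fun t => r + p * t) '' Z r := by
      rintro s ⟨hs, hs0⟩
      rw [Set.mem_iUnion₂] at hs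
      obtain ⟨r', hr', t, ht, rfl⟩ := hs
      rw [Finset.mem_range] at hr'
      have h1 : (r' : ℤ) = r := by
        have h2 : (p : ℤ) ∣ (r' : ℤ) - s0 := by
          have h3 : (r' : ℤ) - s0 = ((r' : ℤ) + p * t - s0) - p * t := by ring
          rw [h3]
          exact dvd_sub hs0 (dvd_mul_right _ _)
        have h3 : s0 % p = (r' : ℤ) % p := ((Int.emod_eq_emod_iff_emod_sub_eq_zero).2
            (Int.emod_eq_zero_of_dvd h2)).symm
        rw [hr, h3, Int.emod_eq_of_lt (Int.natCast_nonneg _) (by exact_mod_cast hr')]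
      rw [← h1]
      exact ⟨t, ht, rfl⟩
    exact (Set.ncard_le_ncard hsub ((hZ r).image _)).trans
      ((Set.ncard_image_le (hZ r)).trans (hZc r))
  · intro t ht
    set r := t % p with hr
    have hr0 : 0 ≤ r := Int.emod_nonneg _ hpos.ne'
    have hrp : r < p := Int.emod_lt_of_pos _ hpos
    have h1 : t = r + p * (t / p) := (Int.emod_add_mul_ediv t p).symm
    have h2 : ((r.toNat : ℕ) : ℤ) = r := Int.toNat_of_nonneg hr0
    have h3 : t / p ∉ Z r := by
      intro h3
      apply ht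
      rw [Set.mem_iUnion₂]
      refine ⟨r.toNat, ?_, ?_⟩
      · rw [Finset.mem_range]
        omega
      · rw [h2]
        exact ⟨_, h3, h1.symm⟩
    have h4 := hZ' r _ h3
    rw [← h1] at h4
    exact h4

/-- The number of the elements of a residue class in an interval. -/
theorem card_class_le (p : ℕ) (hp : 0 < p) (a : ℤ) (L : ℕ) :
    ((Finset.Icc (-(L : ℤ)) L).filter (fun x => (p : ℤ) ∣ x - a)).card ≤ 2 * L / p + 1 := by
  have hpos : (0 : ℤ) < p := by exact_mod_cast hp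
  set S := (Finset.Icc (-(L : ℤ)) L).filter (fun x => (p : ℤ) ∣ x - a) with hS
  have hmaps : ∀ x ∈ S, (x + L) / p ∈ Finset.Icc (0 : ℤ) ((2 * L / p : ℕ) : ℤ) := by
    intro x hx
    rw [hS, Finset.mem_filter, Finset.mem_Icc] at hx
    rw [Finset.mem_Icc]
    refine ⟨Int.ediv_nonneg (by linarith [hx.1.1]) hpos.le, ?_⟩
    push_cast
    exact Int.ediv_le_ediv hpos (by linarith [hx.1.2])
  have hinj : ∀ x ∈ S, ∀ y ∈ S, (x + L) / p = (y + L) / p → x = y := by
    intro x hx y hy hxy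
    rw [hS, Finset.mem_filter] at hx hy
    have h1 : (p : ℤ) ∣ (x + L) - (y + L) := by
      have : (x + L) - (y + L) = (x - a) - (y - a) := by ring
      rw [this]
      exact dvd_sub hx.2 hy.2
    have h2 : (x + L) % p = (y + L) % p :=
      (Int.emod_eq_emod_iff_emod_sub_eq_zero).2 (Int.emod_eq_zero_of_dvd h1)
    have h3 := Int.emod_add_mul_ediv (x + L) p
    have h4 := Int.emod_add_mul_ediv (y + L) p
    rw [h2, hxy] at h3
    linarith
  have hc := Finset.card_le_card_of_injOn (fun x => (x + L) / (p : ℤ)) hmaps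
    (fun x hx y hy h => hinj x hx y hy h)
  rw [Int.card_Icc] at hc
  generalize 2 * L / p = q at hc ⊢
  omega

theorem box_count_class {σ : Type*} [Fintype σ] (v : σ → ℤ) (i0 : σ) (hv : v i0 ≠ 0) :
    ∃ C : ℕ, ∀ (p : ℕ), p.Prime → ∀ (N : ℕ) (Z : (σ → ℤ) → Set ℤ),
      (∀ y, (Z y).Finite ∧ (Z y).ncard ≤ N * p ∧ ∀ s0, {s ∈ Z y | (p : ℤ) ∣ s - s0}.ncard ≤ N) →
      ∀ (t0 : σ → ℤ) (H : ℕ), 1 ≤ H →
      {t : σ → ℤ | (∀ i, |t i| ≤ H) ∧ (∀ i, (p : ℤ) ∣ t i - t0 i) ∧
        t i0 / v i0 ∈ Z (fun i => t i - t i0 / v i0 * v i)}.ncard ≤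
        C * N * (H / p + 1) ^ (Fintype.card σ - 1) := by
  classical
  obtain ⟨C0, hC0⟩ := box_count v i0 hv
  set V : ℤ := ∑ i, |v i| with hV
  have hVi : ∀ i, |v i| ≤ V := fun i =>
    Finset.single_le_sum (f := fun i => |v i|) (fun j _ => abs_nonneg _) (Finset.mem_univ i)
  have hV0 : 0 ≤ V := (abs_nonneg _).trans (hVi i0)
  set B : ℕ := 1 + V.toNat with hB
  have hBV : (B : ℤ) = 1 + V := by
    rw [hB]; push_cast; rw [Int.toNat_of_nonneg hV0]
  have hvB : |v i0| < B := by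
    rw [hBV]
    linarith [hVi i0]
  refine ⟨C0 * B * B ^ (Fintype.card σ - 1) + B * (3 * B) ^ (Fintype.card σ - 1),
    fun p hp N Z hZ t0 H hH => ?_⟩
  have hpos : (0 : ℤ) < p := by exact_mod_cast hp.pos
  have hHp : H ≤ p * (H / p + 1) := by
    have := Nat.lt_mul_div_succ H hp.pos
    exact this.le
  by_cases hpB : p ≤ B
  · -- small primes
    have h1 := hC0 (N * p) Z (fun y => ⟨(hZ y).1, (hZ y).2.1⟩) H hH
    have hfin : {t : σ → ℤ | (∀ i, |t i| ≤ H) ∧
        t i0 / v i0 ∈ Z (fun i => t i - t i0 / v i0 * v i)}.Finite := by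
      apply (Fintype.piFinset (fun _ : σ => Finset.Icc (-(H : ℤ)) H)).finite_toSet.subset
      rintro t ⟨ht, -⟩
      rw [Finset.mem_coe, Fintype.mem_piFinset]
      intro i
      rw [Finset.mem_Icc]
      exact abs_le.mp (ht i)
    have hsub0 : {t : σ → ℤ | (∀ i, |t i| ≤ H) ∧
        (∀ i, (p : ℤ) ∣ t i - t0 i) ∧ t i0 / v i0 ∈ Z (fun i => t i - t i0 / v i0 * v i)} ⊆
        {t : σ → ℤ | (∀ i, |t i| ≤ H) ∧
        t i0 / v i0 ∈ Z (fun i => t i - t i0 / v i0 * v i)} := fun t ht => ⟨ht.1, ht.2.2⟩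
    refine (Set.ncard_le_ncard hsub0 hfin).trans (h1.trans ?_)
    calc C0 * (N * p) * H ^ (Fintype.card σ - 1)
        ≤ C0 * (N * B) * (B * (H / p + 1)) ^ (Fintype.card σ - 1) := by
          gcongr
          exact hHp.trans (Nat.mul_le_mul_right _ hpB)
      _ = C0 * B * B ^ (Fintype.card σ - 1) * N * (H / p + 1) ^ (Fintype.card σ - 1) := by
          rw [mul_pow]; ring
      _ ≤ _ := by
          gcongr
          exact Nat.le_add_right _ _
  · -- large primes
    push Not at hpB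
    have hcop : IsCoprime (v i0) (p : ℤ) := by
      rw [isCoprime_comm, (Nat.prime_iff_prime_int.mp hp).coprime_iff_not_dvd]
      intro h
      have h1 := Int.le_of_dvd (abs_pos.mpr hv) ((dvd_abs _ _).mpr h)
      have h2 : (B : ℤ) < p := by exact_mod_cast hpB
      linarith
    obtain ⟨α, β, hαβ⟩ := hcop
    -- the residue class of the parameter on the line
    let s0 : ℤ → ℤ := fun ρ => α * (t0 i0 - ρ)
    set Y : ℤ → Finset (σ → ℤ) := fun ρ => Fintype.piFinset (fun i =>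
      if i = i0 then {ρ} else (Finset.Icc (-((B * H : ℕ) : ℤ)) ((B * H : ℕ) : ℤ)).filter
        (fun x => (p : ℤ) ∣ x - (t0 i - s0 ρ * v i))) with hY
    have hYcard : ∀ ρ, (Y ρ).card ≤ (3 * B * (H / p + 1)) ^ (Fintype.card σ - 1) := by
      intro ρ
      rw [hY]
      simp only
      rw [Fintype.card_piFinset, ← Finset.mul_prod_erase Finset.univ _ (Finset.mem_univ i0),
        if_pos rfl, Finset.card_singleton, one_mul]
      calc _ ≤ ∏ _i ∈ Finset.univ.erase i0, (3 * B * (H / p + 1)) := by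
            refine Finset.prod_le_prod' fun i hi => ?_
            rw [if_neg (Finset.ne_of_mem_erase hi)]
            refine (card_class_le p hp.pos _ (B * H)).trans ?_
            have h1 : 2 * (B * H) / p ≤ 2 * B * (H / p + 1) := by
              rw [Nat.div_le_iff_le_mul_add_pred hp.pos]
              have h2 : 2 * (B * H) ≤ 2 * (B * (p * (H / p + 1))) := by gcongr
              have h3 : 2 * (B * (p * (H / p + 1))) = p * (2 * B * (H / p + 1)) := by ring
              exact (h2.trans h3.le).trans (Nat.le_add_right _ _)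
            have h2 : 1 ≤ B * (H / p + 1) :=
              Nat.mul_pos (by rw [hB]; exact Nat.lt_of_lt_of_le Nat.one_pos (Nat.le_add_right _ _))
                (Nat.succ_pos _)
            nlinarith
        _ = _ := by rw [Finset.prod_const, Finset.card_erase_of_mem (Finset.mem_univ i0),
            Finset.card_univ]
    have hsub : {t : σ → ℤ | (∀ i, |t i| ≤ H) ∧ (∀ i, (p : ℤ) ∣ t i - t0 i) ∧
        t i0 / v i0 ∈ Z (fun i => t i - t i0 / v i0 * v i)} ⊆
        ⋃ ρ ∈ Finset.Ico 0 |v i0|, ⋃ y ∈ Y ρ, (fun s : ℤ => fun i => y i + s * v i) ''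
          {s ∈ Z y | (p : ℤ) ∣ s - s0 ρ} := by
      rintro t ⟨ht, htc, htZ⟩
      simp only [Set.mem_iUnion]
      have h1 : t i0 - t i0 / v i0 * v i0 = t i0 % v i0 := by
        have := Int.emod_add_mul_ediv (t i0) (v i0)
        linarith [mul_comm (v i0) (t i0 / v i0)]
      have hs : (p : ℤ) ∣ t i0 / v i0 - s0 (t i0 % v i0) := by
        obtain ⟨k, hk⟩ := htc i0
        refine ⟨β * (t i0 / v i0) + α * k, ?_⟩
        simp only [s0]
        rw [← h1]
        linear_combination (-(t i0 / v i0)) * hαβ + α * hk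
      refine ⟨t i0 % v i0, ?_, fun i => t i - t i0 / v i0 * v i, ?_, t i0 / v i0, ⟨htZ, hs⟩, ?_⟩
      · rw [Finset.mem_Ico]
        exact ⟨Int.emod_nonneg _ hv, Int.emod_lt_abs _ hv⟩
      · rw [hY]
        simp only
        rw [Fintype.mem_piFinset]
        intro i
        by_cases hi : i = i0
        · rw [if_pos hi, hi, Finset.mem_singleton]
          exact h1
        · rw [if_neg hi, Finset.mem_filter, Finset.mem_Icc, ← abs_le]
          have h2 : |t i0 / v i0| ≤ H := by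
            refine le_trans ?_ (ht i0)
            rw [Int.abs_eq_natAbs, Int.abs_eq_natAbs]
            exact_mod_cast Int.natAbs_ediv_le_natAbs _ _
          refine ⟨?_, ?_⟩
          · calc |t i - t i0 / v i0 * v i| ≤ |t i| + |t i0 / v i0 * v i| := abs_sub _ _
              _ ≤ H + H * V := by
                  rw [abs_mul]
                  exact add_le_add (ht i) (mul_le_mul h2 (hVi i) (abs_nonneg _) (by positivity))
              _ = ((B * H : ℕ) : ℤ) := by push_cast; rw [hBV]; ring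
          · obtain ⟨k, hk⟩ := htc i
            obtain ⟨m, hm⟩ := hs
            refine ⟨k - m * v i, ?_⟩
            linear_combination hk - v i * hm
      · funext i
        ring
    have hfinY : ∀ ρ, (⋃ y ∈ Y ρ, (fun s : ℤ => fun i => y i + s * v i) ''
          {s ∈ Z y | (p : ℤ) ∣ s - s0 ρ}).Finite := fun ρ =>
      (Y ρ).finite_toSet.biUnion fun y _ => (((hZ y).1).subset fun s hs => hs.1).image _
    have hfinU : (⋃ ρ ∈ Finset.Ico 0 |v i0|, ⋃ y ∈ Y ρ, (fun s : ℤ => fun i => y i + s * v i) ''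
          {s ∈ Z y | (p : ℤ) ∣ s - s0 ρ}).Finite :=
      (Finset.Ico 0 |v i0|).finite_toSet.biUnion fun ρ _ => hfinY ρ
    calc _ ≤ (⋃ ρ ∈ Finset.Ico 0 |v i0|, ⋃ y ∈ Y ρ, (fun s : ℤ => fun i => y i + s * v i) ''
          {s ∈ Z y | (p : ℤ) ∣ s - s0 ρ}).ncard := Set.ncard_le_ncard hsub hfinU
      _ ≤ ∑ ρ ∈ Finset.Ico 0 |v i0|, (⋃ y ∈ Y ρ, (fun s : ℤ => fun i => y i + s * v i) ''
          {s ∈ Z y | (p : ℤ) ∣ s - s0 ρ}).ncard := ncard_biUnion_le_sum _ _
      _ ≤ ∑ _ρ ∈ Finset.Ico 0 |v i0|, (3 * B * (H / p + 1)) ^ (Fintype.card σ - 1) * N := by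
          refine Finset.sum_le_sum fun ρ _ => ?_
          calc _ ≤ ∑ y ∈ Y ρ, ((fun s : ℤ => fun i => y i + s * v i) ''
                {s ∈ Z y | (p : ℤ) ∣ s - s0 ρ}).ncard := ncard_biUnion_le_sum _ _
            _ ≤ ∑ _y ∈ Y ρ, N := Finset.sum_le_sum fun y _ =>
                (Set.ncard_image_le (((hZ y).1).subset fun s hs => hs.1)).trans ((hZ y).2.2 _)
            _ = (Y ρ).card * N := by rw [Finset.sum_const, smul_eq_mul]
            _ ≤ _ := Nat.mul_le_mul_right _ (hYcard ρ)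
      _ = (|v i0|).toNat * ((3 * B * (H / p + 1)) ^ (Fintype.card σ - 1) * N) := by
          rw [Finset.sum_const, smul_eq_mul, Int.card_Ico, sub_zero]
      _ ≤ B * ((3 * B * (H / p + 1)) ^ (Fintype.card σ - 1) * N) := by
          gcongr
          omega
      _ = B * (3 * B) ^ (Fintype.card σ - 1) * N * (H / p + 1) ^ (Fintype.card σ - 1) := by
          rw [mul_pow]; ring
      _ ≤ _ := by
          gcongr
          exact Nat.le_add_left _ _

section multi

variable {σ : Type} [Fintype σ]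

theorem exceptions_box_class (F : (MvPolynomial σ ℤ)[X]) (hF : F.Monic) (i0 : σ) (n : ℕ)
    (u : Fin n → (AdjoinRoot F)ˣ)
    (hu : ∀ E : Fin n → ℤ, E ≠ 0 →
      Transcendental ℤ ((∏ i, u i ^ E i : (AdjoinRoot F)ˣ) : AdjoinRoot F)) :
    ∃ (Bad : ℕ → Set (σ → ℤ)) (C : ℕ),
      (∀ p : ℕ, p.Prime → ∀ H : ℕ, 1 ≤ H →
        {t : σ → ℤ | (∀ i, |t i| ≤ H) ∧ t ∈ Bad p}.ncard ≤ C * p * H ^ (Fintype.card σ - 1)) ∧
      (∀ p : ℕ, p.Prime → ∀ (t0 : σ → ℤ) (H : ℕ), 1 ≤ H →
        {t : σ → ℤ | (∀ i, |t i| ≤ H) ∧ (∀ i, (p : ℤ) ∣ t i - t0 i) ∧ t ∈ Bad p}.ncard ≤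
          C * (H / p + 1) ^ (Fintype.card σ - 1)) ∧
      ∀ p : ℕ, p.Prime → ∀ t : σ → ℤ, t ∉ Bad p → Irreducible (F.map (MvPolynomial.eval t)) →
        ∀ (K : Type u) [Field K] [NumberField K] (x : 𝓞 K), Module.finrank ℚ K = F.natDegree →
        aeval x (F.map (MvPolynomial.eval t)) = 0 →
        ∃ (w : Fin n → (𝓞 K)ˣ) (c : ℕ), PInd K p w c := by
  classical
  by_cases hex : ∃ t : σ → ℤ, Irreducible (F.map (MvPolynomial.eval t))
  swap
  · refine ⟨fun _ => ∅, 0, fun p _ H _ => ?_, fun p _ t0 H _ => ?_,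
      fun p _ t _ h => absurd ⟨t, h⟩ hex⟩
    · simp
    · simp
  obtain ⟨t1, ht1⟩ := hex
  have hm1 : (F.map (MvPolynomial.eval t1)).Monic := hF.map _
  have hd : 1 ≤ F.natDegree := by
    have h1 : (F.map (MvPolynomial.eval t1)).natDegree = F.natDegree := hF.natDegree_map _
    rw [← h1]
    by_contra hcon
    have h2 : (F.map (MvPolynomial.eval t1)).natDegree = 0 := by omega
    have h3 : F.map (MvPolynomial.eval t1) = 1 := hm1.natDegree_eq_zero.mp h2
    rw [h3] at ht1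
    exact ht1.not_isUnit isUnit_one
  -- the separability polynomial
  have hsep1 : (F.map (((algebraMap ℚ ℂ).comp (Int.castRingHom ℚ)).comp
      (MvPolynomial.eval t1))).Separable := by
    have h1 : Irreducible ((F.map (MvPolynomial.eval t1)).map (Int.castRingHom ℚ)) :=
      (IsPrimitive.Int.irreducible_iff_irreducible_map_cast hm1.isPrimitive).mp ht1
    have h2 : (((F.map (MvPolynomial.eval t1)).map (Int.castRingHom ℚ)).map
      (algebraMap ℚ ℂ)).Separable := h1.separable.map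
    rwa [Polynomial.map_map, Polynomial.map_map] at h2
  obtain ⟨g, hg0, hg⟩ := exists_sepPoly F hF _ hsep1
  -- polynomial representatives
  choose H hH using fun i => AdjoinRoot.mk_surjective (u i : AdjoinRoot F)
  choose G hG using fun i => AdjoinRoot.mk_surjective ((u i)⁻¹ : (AdjoinRoot F)ˣ).val
  have hHG : ∀ l, F ∣ H l * G l - 1 := by
    intro l
    rw [← AdjoinRoot.mk_eq_zero, map_sub, map_mul, hH, hG, map_one, Units.mul_inv, sub_self]
  -- the characteristic polynomials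
  let χ : AdjoinRoot F → (MvPolynomial σ ℤ)[X] := fun η =>
    (Algebra.leftMulMatrix (AdjoinRoot.powerBasisAux' hF) η).charpoly
  have hχm : ∀ η, (χ η).Monic := fun η => Matrix.charpoly_monic _
  have hχd : ∀ η, (χ η).natDegree = F.natDegree := fun η => by
    simp only [χ]
    rw [Matrix.charpoly_natDegree_eq_dim, Fintype.card_fin]
  have hχr : ∀ η, aeval η (χ η) = 0 := by
    intro η
    apply Algebra.leftMulMatrix_injective (AdjoinRoot.powerBasisAux' hF)
    rw [← aeval_algHom_apply, map_zero]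
    exact Matrix.aeval_self_charpoly _
  let D : ℕ := ∑ l : Fin n, ∑ k ∈ Finset.range (F.natDegree + 1),
    ((χ (u l)).coeff k).totalDegree
  have hD : ∀ (l : Fin n) (k : ℕ), ((χ (u l)).coeff k).totalDegree ≤ D := by
    intro l k
    by_cases hk : k ∈ Finset.range (F.natDegree + 1)
    · have h1 : ((χ (u l)).coeff k).totalDegree ≤ ∑ k ∈ Finset.range (F.natDegree + 1),
          ((χ (u l)).coeff k).totalDegree :=
        Finset.single_le_sum (f := fun k => ((χ (u l)).coeff k).totalDegree)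
          (fun _ _ => Nat.zero_le _) hk
      exact h1.trans (Finset.single_le_sum (f := fun l : Fin n =>
        ∑ k ∈ Finset.range (F.natDegree + 1), ((χ (u l)).coeff k).totalDegree)
          (fun _ _ => Nat.zero_le _) (Finset.mem_univ l))
    · rw [coeff_eq_zero_of_natDegree_lt (by
        rw [hχd]
        rw [Finset.mem_range] at hk
        omega), MvPolynomial.totalDegree_zero]
      exact Nat.zero_le _
  obtain ⟨T, hT0, hT⟩ := exists_logDetC_fin n F.natDegree D
  let w : (Fin n → ℤ) → AdjoinRoot F := fun E => ((∏ i, u i ^ E i : (AdjoinRoot F)ˣ) : AdjoinRoot F)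
  have hk : ∀ E : Fin n → ℤ, ∃ k : ℕ, E ∈ T → 0 < ((χ (w E)).coeff k).totalDegree := by
    intro E
    by_cases hE : E ∈ T
    · obtain ⟨k, hk⟩ := exists_coeff_totalDegree_pos F hF (w E) (hu E (hT0 E hE))
      exact ⟨k, fun _ => hk⟩
    · exact ⟨0, fun h => absurd h hE⟩
  choose k hk using hk
  obtain ⟨v, hv0, hv⟩ := exists_direction (insert g (T.image fun E => (χ (w E)).coeff (k E)))
    (by
      intro c hc
      rw [Finset.mem_insert, Finset.mem_image] at hc
      rcases hc with rfl | ⟨E, hE, rfl⟩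
      · exact hg0
      · intro h
        have h1 := hk E hE
        rw [h, MvPolynomial.totalDegree_zero] at h1
        exact lt_irrefl _ h1) i0
  have hvg := hv g (Finset.mem_insert_self _ _)
  -- the separability on all lines
  have hsepy : ∀ y : σ → ℂ, ∃ t0 : ℂ, ((F.map (lineHom v y)).map (evC t0)).Separable := by
    intro y
    have h1 : lineHom v y g ≠ 0 := by
      intro h
      have h2 := coeff_lineHom v y g
      rw [h, coeff_zero] at h2
      exact hvg (by exact_mod_cast h2.symm)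
    obtain ⟨t0, ht0⟩ : ∃ t0 : ℂ, (lineHom v y g).eval t0 ≠ 0 := by
      by_contra hcon
      push Not at hcon
      exact h1 (Polynomial.funext fun t => by rw [hcon t, eval_zero])
    refine ⟨t0, ?_⟩
    rw [Polynomial.map_map]
    exact hg _ ht0
  -- the analytic input on all lines
  have hC : ∀ ψ : MvPolynomial σ ℤ →+* ℂ, ∃ B : ℝ, ∀ τ : ℝ, B < τ →
      LogDetC ((F.map (sliceHom v)).map (mapRingHom ψ))
        (fun l => ((H l).map (sliceHom v)).map (mapRingHom ψ)) τ := by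
    intro ψ
    set y : σ → ℂ := fun i => ψ (MvPolynomial.X i) with hy
    simp only [Polynomial.map_map, slice_line, ← hy]
    obtain ⟨t0, ht0⟩ := hsepy y
    let h := adjMap (lineHom v y) F
    refine hT (F.map (lineHom v y)) (hF.map _) (hF.natDegree_map _) t0 ht0
      (fun l => Units.map (h : AdjoinRoot F →* AdjoinRoot (F.map (lineHom v y))) (u l)) ?_ _
      (fun l => (G l).map (lineHom v y)) ?_ ?_ (fun l => (χ (u l)).map (lineHom v y)) ?_ ?_ ?_ ?_
    · intro E hE
      have h1 : ((∏ i, Units.map (h : AdjoinRoot F →* AdjoinRoot (F.map (lineHom v y)))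
          (u i) ^ E i : (AdjoinRoot (F.map (lineHom v y)))ˣ) : AdjoinRoot (F.map (lineHom v y))) =
          h (w E) := by
        have h2 : (∏ i, Units.map (h : AdjoinRoot F →* AdjoinRoot (F.map (lineHom v y)))
          (u i) ^ E i) = Units.map (h : AdjoinRoot F →* AdjoinRoot (F.map (lineHom v y)))
            (∏ i, u i ^ E i) := by
          rw [map_prod]
          simp only [map_zpow]
        rw [h2]
        rfl
      rw [h1]
      exact transcendental_line F hF (w E) (k E) _ rfl (hk E hE) v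
        (hv _ (Finset.mem_insert_of_mem (Finset.mem_image_of_mem _ hE))) y t0 ht0 h
        (fun G => adjMap_mk _ F G)
    · intro l
      rw [← adjMap_mk, hH]
      rfl
    · intro l
      have h1 := Polynomial.map_dvd (lineHom v y) (hHG l)
      rwa [Polynomial.map_sub, Polynomial.map_mul, Polynomial.map_one] at h1
    · intro l
      exact ((hχm _).map _).ne_zero
    · intro l
      exact natDegree_map_le.trans (hχd _).le
    · intro l k
      rw [coeff_map]
      exact (natDegree_lineHom_le v y _).trans (hD l k)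
    · intro l t z hz
      rw [Polynomial.map_map, eval_map] at hz
      rw [Polynomial.map_map, Polynomial.map_map, eval_map, eval_map]
      have h1 := congrArg (AdjoinRoot.lift ((evC t).comp (lineHom v y)) z hz) (hχr (u l))
      rw [map_zero, aeval_def, Polynomial.hom_eval₂, ← hH, AdjoinRoot.lift_mk] at h1
      have h2 : (AdjoinRoot.lift ((evC t).comp (lineHom v y)) z hz).comp
          (algebraMap (MvPolynomial σ ℤ) (AdjoinRoot F)) = (evC t).comp (lineHom v y) := by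
        refine RingHom.ext fun f => ?_
        rw [RingHom.comp_apply, AdjoinRoot.algebraMap_eq]
        exact AdjoinRoot.lift_of _
      rw [h2] at h1
      rw [← hH]
      exact h1
  have : Countable (MvPolynomial σ ℤ) := countable_mv σ
  have hHG1 : ∀ l, F.map (sliceHom v) ∣ (H l).map (sliceHom v) * (G l).map (sliceHom v) - 1 := by
    intro l
    have h1 := Polynomial.map_dvd (sliceHom v) (hHG l)
    rwa [Polynomial.map_sub, Polynomial.map_mul, Polynomial.map_one] at h1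
  have hd1 : (F.map (sliceHom v)).natDegree = F.natDegree := hF.natDegree_map _
  obtain ⟨B', hB'⟩ := exceptions_gen_class.{u} (F.map (sliceHom v)) (hF.map _)
    (by rw [hd1]; exact hd)
    (fun l => (H l).map (sliceHom v)) (fun l => (G l).map (sliceHom v)) hHG1 hC
  have hB'' : ∀ (p : ℕ) (y : σ → ℤ), ∃ Z : Set ℤ, p.Prime → Z.Finite ∧ Z.ncard ≤ B' * p ∧
      (∀ s0 : ℤ, {s ∈ Z | (p : ℤ) ∣ s - s0}.ncard ≤ B') ∧
      ∀ t : ℤ, t ∉ Z → Irreducible (((F.map (sliceHom v)).map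
        (mapRingHom (MvPolynomial.eval y))).map (evalRingHom t)) →
      ∀ (K : Type u) [Field K] [NumberField K] (x : 𝓞 K),
      Module.finrank ℚ K = (F.map (sliceHom v)).natDegree →
      aeval x (((F.map (sliceHom v)).map (mapRingHom (MvPolynomial.eval y))).map
        (evalRingHom t)) = 0 →
      ∃ (u : Fin n → (𝓞 K)ˣ) (c : ℕ), PInd K p u c := by
    intro p y
    by_cases hp : p.Prime
    · obtain ⟨Z, hZ⟩ := hB' p hp (MvPolynomial.eval y)
      exact ⟨Z, fun _ => hZ⟩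
    · exact ⟨∅, fun h => absurd h hp⟩
  choose Z hZ using hB''
  obtain ⟨C, hCc⟩ := box_count v i0 hv0
  obtain ⟨C1, hCc1⟩ := box_count_class v i0 hv0
  refine ⟨fun p => {t | t i0 / v i0 ∈ if p.Prime then Z p (fun i => t i - t i0 / v i0 * v i)
    else ∅}, (C + C1) * B', ?_, ?_, ?_⟩
  · intro p hp H' hH'
    have h1 := hCc (B' * p) (fun y => Z p y) (fun y => ⟨(hZ p y hp).1, (hZ p y hp).2.1⟩) H' hH'
    simp only [Set.mem_ofPred_eq, if_pos hp]
    calc _ ≤ _ := h1
      _ = C * B' * p * H' ^ (Fintype.card σ - 1) := by ring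
      _ ≤ (C + C1) * B' * p * H' ^ (Fintype.card σ - 1) := by
        gcongr
        exact Nat.le_add_right _ _
  · intro p hp t0 H' hH'
    have h1 := hCc1 p hp B' (fun y => Z p y)
      (fun y => ⟨(hZ p y hp).1, (hZ p y hp).2.1, (hZ p y hp).2.2.1⟩) t0 H' hH'
    simp only [Set.mem_ofPred_eq, if_pos hp]
    calc _ ≤ _ := h1
      _ ≤ (C + C1) * B' * (H' / p + 1) ^ (Fintype.card σ - 1) := by
        gcongr
        exact Nat.le_add_left _ _
  · intro p hp t ht hirr K _ _ x hfin hx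
    simp only [Set.mem_ofPred_eq, if_pos hp] at ht
    have hmap : ∀ P : (MvPolynomial σ ℤ)[X], ((P.map (sliceHom v)).map
        (mapRingHom (MvPolynomial.eval (fun i => t i - t i0 / v i0 * v i)))).map
        (evalRingHom (t i0 / v i0)) = P.map (MvPolynomial.eval t) := by
      intro P
      rw [Polynomial.map_map, Polynomial.map_map, slice_eval]
      congr 2
      funext i
      ring
    refine (hZ p _ hp).2.2.2 _ ht ?_ K x (hfin.trans hd1.symm) ?_
    · rw [hmap]
      exact hirr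
    · rw [hmap]
      exact hx

end multi

end Pool.Agent.Work.MP_59f3ad_nt

end

section

/-!
The exceptional set of a family with several parameters: bounds in the residue classes modulo
prime powers.
-/

open Polynomial NumberField

namespace Pool.Agent.Work.MP_59f3ad_nt

universe u

/-- The number of solutions of a linear congruence in one variable. -/
theorem card_lin_le (q : ℕ) (hq : 0 < q) (v c : ℤ) (hv : v ≠ 0) :
    ((Finset.Ico (0 : ℤ) q).filter (fun s => (q : ℤ) ∣ s * v - c)).card ≤ (|v|).toNat := by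
  have hpos : (0 : ℤ) < q := by exact_mod_cast hq
  set S := (Finset.Ico (0 : ℤ) q).filter (fun s => (q : ℤ) ∣ s * v - c) with hS
  have hmaps : ∀ s ∈ S, ((s * v - c) / q) % v ∈ Finset.Ico (0 : ℤ) |v| := by
    intro s _
    rw [Finset.mem_Ico]
    exact ⟨Int.emod_nonneg _ hv, Int.emod_lt_abs _ hv⟩
  have hinj : ∀ x ∈ S, ∀ y ∈ S, ((x * v - c) / q) % v = ((y * v - c) / q) % v → x = y := by
    intro x hx y hy hxy
    rw [hS, Finset.mem_filter, Finset.mem_Ico] at hx hy
    obtain ⟨k, hk⟩ := hx.2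
    obtain ⟨l, hl⟩ := hy.2
    rw [hk, hl, Int.mul_ediv_cancel_left _ hpos.ne', Int.mul_ediv_cancel_left _ hpos.ne'] at hxy
    obtain ⟨j, hj⟩ := Int.dvd_of_emod_eq_zero ((Int.emod_eq_emod_iff_emod_sub_eq_zero).1 hxy)
    have h1 : x - y = q * j := by
      apply mul_right_cancel₀ hv
      linear_combination hk - hl + (q : ℤ) * hj
    have h2 : j = 0 := by
      by_contra hj0
      rcases lt_or_gt_of_ne hj0 with h | h
      · have : (q : ℤ) * j ≤ -q := by nlinarith
        linarith [hx.1.1, hy.1.2]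
      · have : (q : ℤ) ≤ q * j := by nlinarith
        linarith [hx.1.2, hy.1.1]
    rw [h2, mul_zero] at h1
    linarith
  have hc := Finset.card_le_card_of_injOn (fun x => ((x * v - c) / (q : ℤ)) % v) hmaps
    (fun x hx y hy h => hinj x hx y hy h)
  rwa [Int.card_Ico, sub_zero] at hc

theorem box_count_class_pow {σ : Type*} [Fintype σ] (v : σ → ℤ) (i0 : σ) (hv : v i0 ≠ 0) :
    ∃ C : ℕ, ∀ (p : ℕ), p.Prime → ∀ (m : ℕ), 1 ≤ m → ∀ (N : ℕ) (Z : (σ → ℤ) → Set ℤ),
      (∀ y, (Z y).Finite ∧ ∀ s0, {s ∈ Z y | (p : ℤ) ∣ s - s0}.ncard ≤ N) →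
      ∀ (t0 : σ → ℤ) (H : ℕ),
      {t : σ → ℤ | (∀ i, |t i| ≤ H) ∧ (∀ i, (p : ℤ) ^ m ∣ t i - t0 i) ∧
        t i0 / v i0 ∈ Z (fun i => t i - t i0 / v i0 * v i)}.ncard ≤
        C * N * (H / p ^ m + 1) ^ (Fintype.card σ - 1) := by
  classical
  set V : ℤ := ∑ i, |v i| with hV
  have hVi : ∀ i, |v i| ≤ V := fun i =>
    Finset.single_le_sum (f := fun i => |v i|) (fun j _ => abs_nonneg _) (Finset.mem_univ i)
  have hV0 : 0 ≤ V := (abs_nonneg _).trans (hVi i0)
  set B : ℕ := 1 + V.toNat with hB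
  have hBV : (B : ℤ) = 1 + V := by
    rw [hB]; push_cast; rw [Int.toNat_of_nonneg hV0]
  have hvB : (|v i0|).toNat ≤ B := by
    have h1 : |v i0| ≤ V := hVi i0
    omega
  refine ⟨B * (B * (3 * B) ^ (Fintype.card σ - 1)), fun p hp m hm N Z hZ t0 H => ?_⟩
  set q : ℕ := p ^ m with hq
  have hq0 : 0 < q := pow_pos hp.pos m
  have hqc : (p : ℤ) ^ m = (q : ℤ) := by rw [hq]; push_cast; rfl
  have hpq : (p : ℤ) ∣ (q : ℤ) := by
    rw [← hqc]
    exact dvd_pow_self _ (by omega)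
  have hpos : (0 : ℤ) < q := by exact_mod_cast hq0
  rw [hqc]
  have hHp : H ≤ q * (H / q + 1) := (Nat.lt_mul_div_succ H hq0).le
  -- the residue classes of the parameter on the line
  let S : ℤ → Finset ℤ := fun ρ =>
    (Finset.Ico (0 : ℤ) q).filter (fun s => (q : ℤ) ∣ s * v i0 - (t0 i0 - ρ))
  have hS : ∀ ρ, (S ρ).card ≤ B := fun ρ => (card_lin_le q hq0 (v i0) _ hv).trans hvB
  set Y : ℤ → ℤ → Finset (σ → ℤ) := fun ρ s0 => Fintype.piFinset (fun i =>
    if i = i0 then {ρ} else (Finset.Icc (-((B * H : ℕ) : ℤ)) ((B * H : ℕ) : ℤ)).filter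
      (fun x => (q : ℤ) ∣ x - (t0 i - s0 * v i))) with hY
  have hYcard : ∀ ρ s0, (Y ρ s0).card ≤ (3 * B * (H / q + 1)) ^ (Fintype.card σ - 1) := by
    intro ρ s0
    rw [hY]
    simp only
    rw [Fintype.card_piFinset, ← Finset.mul_prod_erase Finset.univ _ (Finset.mem_univ i0),
      if_pos rfl, Finset.card_singleton, one_mul]
    calc _ ≤ ∏ _i ∈ Finset.univ.erase i0, (3 * B * (H / q + 1)) := by
          refine Finset.prod_le_prod' fun i hi => ?_
          rw [if_neg (Finset.ne_of_mem_erase hi)]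
          refine (card_class_le q hq0 _ (B * H)).trans ?_
          have h1 : 2 * (B * H) / q ≤ 2 * B * (H / q + 1) := by
            rw [Nat.div_le_iff_le_mul_add_pred hq0]
            have h2 : 2 * (B * H) ≤ 2 * (B * (q * (H / q + 1))) := by gcongr
            have h3 : 2 * (B * (q * (H / q + 1))) = q * (2 * B * (H / q + 1)) := by ring
            exact (h2.trans h3.le).trans (Nat.le_add_right _ _)
          have h2 : 1 ≤ B * (H / q + 1) :=
            Nat.mul_pos (by rw [hB]; exact Nat.lt_of_lt_of_le Nat.one_pos (Nat.le_add_right _ _))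
              (Nat.succ_pos _)
          nlinarith
      _ = _ := by rw [Finset.prod_const, Finset.card_erase_of_mem (Finset.mem_univ i0),
          Finset.card_univ]
  have hsub : {t : σ → ℤ | (∀ i, |t i| ≤ H) ∧ (∀ i, (q : ℤ) ∣ t i - t0 i) ∧
      t i0 / v i0 ∈ Z (fun i => t i - t i0 / v i0 * v i)} ⊆
      ⋃ ρ ∈ Finset.Ico 0 |v i0|, ⋃ s0 ∈ S ρ, ⋃ y ∈ Y ρ s0,
        (fun s : ℤ => fun i => y i + s * v i) '' {s ∈ Z y | (p : ℤ) ∣ s - s0} := by
    rintro t ⟨ht, htc, htZ⟩
    simp only [Set.mem_iUnion]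
    have h1 : t i0 - t i0 / v i0 * v i0 = t i0 % v i0 := by
      have := Int.emod_add_mul_ediv (t i0) (v i0)
      linarith [mul_comm (v i0) (t i0 / v i0)]
    have hs0 : (q : ℤ) ∣ t i0 / v i0 - (t i0 / v i0) % q := by
      refine ⟨(t i0 / v i0) / q, ?_⟩
      have := Int.emod_add_mul_ediv (t i0 / v i0) (q : ℤ)
      linarith
    refine ⟨t i0 % v i0, ?_, (t i0 / v i0) % q, ?_, fun i => t i - t i0 / v i0 * v i, ?_,
      t i0 / v i0, ⟨htZ, hpq.trans hs0⟩, ?_⟩
    · rw [Finset.mem_Ico]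
      exact ⟨Int.emod_nonneg _ hv, Int.emod_lt_abs _ hv⟩
    · simp only [S]
      rw [Finset.mem_filter, Finset.mem_Ico]
      refine ⟨⟨Int.emod_nonneg _ hpos.ne', Int.emod_lt_of_pos _ hpos⟩, ?_⟩
      obtain ⟨k, hk⟩ := htc i0
      obtain ⟨l, hl⟩ := hs0
      rw [← h1]
      refine ⟨k - l * v i0, ?_⟩
      linear_combination hk - v i0 * hl
    · rw [hY]
      simp only
      rw [Fintype.mem_piFinset]
      intro i
      by_cases hi : i = i0
      · rw [if_pos hi, hi, Finset.mem_singleton]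
        exact h1
      · rw [if_neg hi, Finset.mem_filter, Finset.mem_Icc, ← abs_le]
        have h2 : |t i0 / v i0| ≤ H := by
          refine le_trans ?_ (ht i0)
          rw [Int.abs_eq_natAbs, Int.abs_eq_natAbs]
          exact_mod_cast Int.natAbs_ediv_le_natAbs _ _
        refine ⟨?_, ?_⟩
        · calc |t i - t i0 / v i0 * v i| ≤ |t i| + |t i0 / v i0 * v i| := abs_sub _ _
            _ ≤ H + H * V := by
                rw [abs_mul]
                exact add_le_add (ht i) (mul_le_mul h2 (hVi i) (abs_nonneg _) (by positivity))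
            _ = ((B * H : ℕ) : ℤ) := by push_cast; rw [hBV]; ring
        · obtain ⟨k, hk⟩ := htc i
          obtain ⟨l, hl⟩ := hs0
          refine ⟨k - l * v i, ?_⟩
          linear_combination hk - v i * hl
    · funext i
      ring
  have hfin1 : ∀ ρ s0, (⋃ y ∈ Y ρ s0, (fun s : ℤ => fun i => y i + s * v i) ''
        {s ∈ Z y | (p : ℤ) ∣ s - s0}).Finite := fun ρ s0 =>
    (Y ρ s0).finite_toSet.biUnion fun y _ => (((hZ y).1).subset fun s hs => hs.1).image _
  have hfin2 : ∀ ρ, (⋃ s0 ∈ S ρ, ⋃ y ∈ Y ρ s0, (fun s : ℤ => fun i => y i + s * v i) ''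
        {s ∈ Z y | (p : ℤ) ∣ s - s0}).Finite := fun ρ =>
    (S ρ).finite_toSet.biUnion fun s0 _ => hfin1 ρ s0
  have hfin3 : (⋃ ρ ∈ Finset.Ico 0 |v i0|, ⋃ s0 ∈ S ρ, ⋃ y ∈ Y ρ s0,
      (fun s : ℤ => fun i => y i + s * v i) '' {s ∈ Z y | (p : ℤ) ∣ s - s0}).Finite :=
    (Finset.Ico 0 |v i0|).finite_toSet.biUnion fun ρ _ => hfin2 ρ
  calc _ ≤ (⋃ ρ ∈ Finset.Ico 0 |v i0|, ⋃ s0 ∈ S ρ, ⋃ y ∈ Y ρ s0,
      (fun s : ℤ => fun i => y i + s * v i) '' {s ∈ Z y | (p : ℤ) ∣ s - s0}).ncard :=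
        Set.ncard_le_ncard hsub hfin3
    _ ≤ ∑ ρ ∈ Finset.Ico 0 |v i0|, (⋃ s0 ∈ S ρ, ⋃ y ∈ Y ρ s0,
      (fun s : ℤ => fun i => y i + s * v i) '' {s ∈ Z y | (p : ℤ) ∣ s - s0}).ncard :=
        ncard_biUnion_le_sum _ _
    _ ≤ ∑ _ρ ∈ Finset.Ico 0 |v i0|, (B * ((3 * B * (H / q + 1)) ^ (Fintype.card σ - 1) * N)) := by
        refine Finset.sum_le_sum fun ρ _ => ?_
        calc _ ≤ ∑ s0 ∈ S ρ, (⋃ y ∈ Y ρ s0, (fun s : ℤ => fun i => y i + s * v i) ''
              {s ∈ Z y | (p : ℤ) ∣ s - s0}).ncard := ncard_biUnion_le_sum _ _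
          _ ≤ ∑ _s0 ∈ S ρ, ((3 * B * (H / q + 1)) ^ (Fintype.card σ - 1) * N) := by
              refine Finset.sum_le_sum fun s0 _ => ?_
              calc _ ≤ ∑ y ∈ Y ρ s0, ((fun s : ℤ => fun i => y i + s * v i) ''
                    {s ∈ Z y | (p : ℤ) ∣ s - s0}).ncard := ncard_biUnion_le_sum _ _
                _ ≤ ∑ _y ∈ Y ρ s0, N := Finset.sum_le_sum fun y _ =>
                    (Set.ncard_image_le (((hZ y).1).subset fun s hs => hs.1)).trans
                      ((hZ y).2 _)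
                _ = (Y ρ s0).card * N := by rw [Finset.sum_const, smul_eq_mul]
                _ ≤ _ := Nat.mul_le_mul_right _ (hYcard ρ s0)
          _ = (S ρ).card * ((3 * B * (H / q + 1)) ^ (Fintype.card σ - 1) * N) := by
              rw [Finset.sum_const, smul_eq_mul]
          _ ≤ _ := Nat.mul_le_mul_right _ (hS ρ)
    _ = (|v i0|).toNat * (B * ((3 * B * (H / q + 1)) ^ (Fintype.card σ - 1) * N)) := by
        rw [Finset.sum_const, smul_eq_mul, Int.card_Ico, sub_zero]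
    _ ≤ B * (B * ((3 * B * (H / q + 1)) ^ (Fintype.card σ - 1) * N)) :=
        Nat.mul_le_mul_right _ hvB
    _ = _ := by rw [mul_pow]; ring

section multi

variable {σ : Type} [Fintype σ]

/-- The exceptional set: bounds in a box and in the residue classes modulo the powers of `p`. -/
theorem exceptions_box_class_pow (F : (MvPolynomial σ ℤ)[X]) (hF : F.Monic) (i0 : σ) (n : ℕ)
    (u : Fin n → (AdjoinRoot F)ˣ)
    (hu : ∀ E : Fin n → ℤ, E ≠ 0 →
      Transcendental ℤ ((∏ i, u i ^ E i : (AdjoinRoot F)ˣ) : AdjoinRoot F)) :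
    ∃ (Bad : ℕ → Set (σ → ℤ)) (C : ℕ),
      (∀ p : ℕ, p.Prime → ∀ H : ℕ, 1 ≤ H →
        {t : σ → ℤ | (∀ i, |t i| ≤ H) ∧ t ∈ Bad p}.ncard ≤ C * p * H ^ (Fintype.card σ - 1)) ∧
      (∀ p : ℕ, p.Prime → ∀ m : ℕ, 1 ≤ m → ∀ (t0 : σ → ℤ) (H : ℕ),
        {t : σ → ℤ | (∀ i, |t i| ≤ H) ∧ (∀ i, (p : ℤ) ^ m ∣ t i - t0 i) ∧ t ∈ Bad p}.ncard ≤
          C * (H / p ^ m + 1) ^ (Fintype.card σ - 1)) ∧
      ∀ p : ℕ, p.Prime → ∀ t : σ → ℤ, t ∉ Bad p → Irreducible (F.map (MvPolynomial.eval t)) →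
        ∀ (K : Type u) [Field K] [NumberField K] (x : 𝓞 K), Module.finrank ℚ K = F.natDegree →
        aeval x (F.map (MvPolynomial.eval t)) = 0 →
        ∃ (w : Fin n → (𝓞 K)ˣ) (c : ℕ), PInd K p w c := by
  classical
  by_cases hex : ∃ t : σ → ℤ, Irreducible (F.map (MvPolynomial.eval t))
  swap
  · refine ⟨fun _ => ∅, 0, fun p _ H _ => ?_, fun p _ m _ t0 H => ?_,
      fun p _ t _ h => absurd ⟨t, h⟩ hex⟩
    · simp
    · simp
  obtain ⟨t1, ht1⟩ := hex
  have hm1 : (F.map (MvPolynomial.eval t1)).Monic := hF.map _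
  have hd : 1 ≤ F.natDegree := by
    have h1 : (F.map (MvPolynomial.eval t1)).natDegree = F.natDegree := hF.natDegree_map _
    rw [← h1]
    by_contra hcon
    have h2 : (F.map (MvPolynomial.eval t1)).natDegree = 0 := by omega
    have h3 : F.map (MvPolynomial.eval t1) = 1 := hm1.natDegree_eq_zero.mp h2
    rw [h3] at ht1
    exact ht1.not_isUnit isUnit_one
  -- the separability polynomial
  have hsep1 : (F.map (((algebraMap ℚ ℂ).comp (Int.castRingHom ℚ)).comp
      (MvPolynomial.eval t1))).Separable := by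
    have h1 : Irreducible ((F.map (MvPolynomial.eval t1)).map (Int.castRingHom ℚ)) :=
      (IsPrimitive.Int.irreducible_iff_irreducible_map_cast hm1.isPrimitive).mp ht1
    have h2 : (((F.map (MvPolynomial.eval t1)).map (Int.castRingHom ℚ)).map
      (algebraMap ℚ ℂ)).Separable := h1.separable.map
    rwa [Polynomial.map_map, Polynomial.map_map] at h2
  obtain ⟨g, hg0, hg⟩ := exists_sepPoly F hF _ hsep1
  -- polynomial representatives
  choose H hH using fun i => AdjoinRoot.mk_surjective (u i : AdjoinRoot F)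
  choose G hG using fun i => AdjoinRoot.mk_surjective ((u i)⁻¹ : (AdjoinRoot F)ˣ).val
  have hHG : ∀ l, F ∣ H l * G l - 1 := by
    intro l
    rw [← AdjoinRoot.mk_eq_zero, map_sub, map_mul, hH, hG, map_one, Units.mul_inv, sub_self]
  -- the characteristic polynomials
  let χ : AdjoinRoot F → (MvPolynomial σ ℤ)[X] := fun η =>
    (Algebra.leftMulMatrix (AdjoinRoot.powerBasisAux' hF) η).charpoly
  have hχm : ∀ η, (χ η).Monic := fun η => Matrix.charpoly_monic _
  have hχd : ∀ η, (χ η).natDegree = F.natDegree := fun η => by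
    simp only [χ]
    rw [Matrix.charpoly_natDegree_eq_dim, Fintype.card_fin]
  have hχr : ∀ η, aeval η (χ η) = 0 := by
    intro η
    apply Algebra.leftMulMatrix_injective (AdjoinRoot.powerBasisAux' hF)
    rw [← aeval_algHom_apply, map_zero]
    exact Matrix.aeval_self_charpoly _
  let D : ℕ := ∑ l : Fin n, ∑ k ∈ Finset.range (F.natDegree + 1),
    ((χ (u l)).coeff k).totalDegree
  have hD : ∀ (l : Fin n) (k : ℕ), ((χ (u l)).coeff k).totalDegree ≤ D := by
    intro l k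
    by_cases hk : k ∈ Finset.range (F.natDegree + 1)
    · have h1 : ((χ (u l)).coeff k).totalDegree ≤ ∑ k ∈ Finset.range (F.natDegree + 1),
          ((χ (u l)).coeff k).totalDegree :=
        Finset.single_le_sum (f := fun k => ((χ (u l)).coeff k).totalDegree)
          (fun _ _ => Nat.zero_le _) hk
      exact h1.trans (Finset.single_le_sum (f := fun l : Fin n =>
        ∑ k ∈ Finset.range (F.natDegree + 1), ((χ (u l)).coeff k).totalDegree)
          (fun _ _ => Nat.zero_le _) (Finset.mem_univ l))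
    · rw [coeff_eq_zero_of_natDegree_lt (by
        rw [hχd]
        rw [Finset.mem_range] at hk
        omega), MvPolynomial.totalDegree_zero]
      exact Nat.zero_le _
  obtain ⟨T, hT0, hT⟩ := exists_logDetC_fin n F.natDegree D
  let w : (Fin n → ℤ) → AdjoinRoot F := fun E => ((∏ i, u i ^ E i : (AdjoinRoot F)ˣ) : AdjoinRoot F)
  have hk : ∀ E : Fin n → ℤ, ∃ k : ℕ, E ∈ T → 0 < ((χ (w E)).coeff k).totalDegree := by
    intro E
    by_cases hE : E ∈ T
    · obtain ⟨k, hk⟩ := exists_coeff_totalDegree_pos F hF (w E) (hu E (hT0 E hE))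
      exact ⟨k, fun _ => hk⟩
    · exact ⟨0, fun h => absurd h hE⟩
  choose k hk using hk
  obtain ⟨v, hv0, hv⟩ := exists_direction (insert g (T.image fun E => (χ (w E)).coeff (k E)))
    (by
      intro c hc
      rw [Finset.mem_insert, Finset.mem_image] at hc
      rcases hc with rfl | ⟨E, hE, rfl⟩
      · exact hg0
      · intro h
        have h1 := hk E hE
        rw [h, MvPolynomial.totalDegree_zero] at h1
        exact lt_irrefl _ h1) i0
  have hvg := hv g (Finset.mem_insert_self _ _)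
  -- the separability on all lines
  have hsepy : ∀ y : σ → ℂ, ∃ t0 : ℂ, ((F.map (lineHom v y)).map (evC t0)).Separable := by
    intro y
    have h1 : lineHom v y g ≠ 0 := by
      intro h
      have h2 := coeff_lineHom v y g
      rw [h, coeff_zero] at h2
      exact hvg (by exact_mod_cast h2.symm)
    obtain ⟨t0, ht0⟩ : ∃ t0 : ℂ, (lineHom v y g).eval t0 ≠ 0 := by
      by_contra hcon
      push Not at hcon
      exact h1 (Polynomial.funext fun t => by rw [hcon t, eval_zero])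
    refine ⟨t0, ?_⟩
    rw [Polynomial.map_map]
    exact hg _ ht0
  -- the analytic input on all lines
  have hC : ∀ ψ : MvPolynomial σ ℤ →+* ℂ, ∃ B : ℝ, ∀ τ : ℝ, B < τ →
      LogDetC ((F.map (sliceHom v)).map (mapRingHom ψ))
        (fun l => ((H l).map (sliceHom v)).map (mapRingHom ψ)) τ := by
    intro ψ
    set y : σ → ℂ := fun i => ψ (MvPolynomial.X i) with hy
    simp only [Polynomial.map_map, slice_line, ← hy]
    obtain ⟨t0, ht0⟩ := hsepy y
    let h := adjMap (lineHom v y) F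
    refine hT (F.map (lineHom v y)) (hF.map _) (hF.natDegree_map _) t0 ht0
      (fun l => Units.map (h : AdjoinRoot F →* AdjoinRoot (F.map (lineHom v y))) (u l)) ?_ _
      (fun l => (G l).map (lineHom v y)) ?_ ?_ (fun l => (χ (u l)).map (lineHom v y)) ?_ ?_ ?_ ?_
    · intro E hE
      have h1 : ((∏ i, Units.map (h : AdjoinRoot F →* AdjoinRoot (F.map (lineHom v y)))
          (u i) ^ E i : (AdjoinRoot (F.map (lineHom v y)))ˣ) : AdjoinRoot (F.map (lineHom v y))) =
          h (w E) := by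
        have h2 : (∏ i, Units.map (h : AdjoinRoot F →* AdjoinRoot (F.map (lineHom v y)))
          (u i) ^ E i) = Units.map (h : AdjoinRoot F →* AdjoinRoot (F.map (lineHom v y)))
            (∏ i, u i ^ E i) := by
          rw [map_prod]
          simp only [map_zpow]
        rw [h2]
        rfl
      rw [h1]
      exact transcendental_line F hF (w E) (k E) _ rfl (hk E hE) v
        (hv _ (Finset.mem_insert_of_mem (Finset.mem_image_of_mem _ hE))) y t0 ht0 h
        (fun G => adjMap_mk _ F G)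
    · intro l
      rw [← adjMap_mk, hH]
      rfl
    · intro l
      have h1 := Polynomial.map_dvd (lineHom v y) (hHG l)
      rwa [Polynomial.map_sub, Polynomial.map_mul, Polynomial.map_one] at h1
    · intro l
      exact ((hχm _).map _).ne_zero
    · intro l
      exact natDegree_map_le.trans (hχd _).le
    · intro l k
      rw [coeff_map]
      exact (natDegree_lineHom_le v y _).trans (hD l k)
    · intro l t z hz
      rw [Polynomial.map_map, eval_map] at hz
      rw [Polynomial.map_map, Polynomial.map_map, eval_map, eval_map]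
      have h1 := congrArg (AdjoinRoot.lift ((evC t).comp (lineHom v y)) z hz) (hχr (u l))
      rw [map_zero, aeval_def, Polynomial.hom_eval₂, ← hH, AdjoinRoot.lift_mk] at h1
      have h2 : (AdjoinRoot.lift ((evC t).comp (lineHom v y)) z hz).comp
          (algebraMap (MvPolynomial σ ℤ) (AdjoinRoot F)) = (evC t).comp (lineHom v y) := by
        refine RingHom.ext fun f => ?_
        rw [RingHom.comp_apply, AdjoinRoot.algebraMap_eq]
        exact AdjoinRoot.lift_of _
      rw [h2] at h1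
      rw [← hH]
      exact h1
  have : Countable (MvPolynomial σ ℤ) := countable_mv σ
  have hHG1 : ∀ l, F.map (sliceHom v) ∣ (H l).map (sliceHom v) * (G l).map (sliceHom v) - 1 := by
    intro l
    have h1 := Polynomial.map_dvd (sliceHom v) (hHG l)
    rwa [Polynomial.map_sub, Polynomial.map_mul, Polynomial.map_one] at h1
  have hd1 : (F.map (sliceHom v)).natDegree = F.natDegree := hF.natDegree_map _
  obtain ⟨B', hB'⟩ := exceptions_gen_class.{u} (F.map (sliceHom v)) (hF.map _)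
    (by rw [hd1]; exact hd)
    (fun l => (H l).map (sliceHom v)) (fun l => (G l).map (sliceHom v)) hHG1 hC
  have hB'' : ∀ (p : ℕ) (y : σ → ℤ), ∃ Z : Set ℤ, p.Prime → Z.Finite ∧ Z.ncard ≤ B' * p ∧
      (∀ s0 : ℤ, {s ∈ Z | (p : ℤ) ∣ s - s0}.ncard ≤ B') ∧
      ∀ t : ℤ, t ∉ Z → Irreducible (((F.map (sliceHom v)).map
        (mapRingHom (MvPolynomial.eval y))).map (evalRingHom t)) →
      ∀ (K : Type u) [Field K] [NumberField K] (x : 𝓞 K),
      Module.finrank ℚ K = (F.map (sliceHom v)).natDegree →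
      aeval x (((F.map (sliceHom v)).map (mapRingHom (MvPolynomial.eval y))).map
        (evalRingHom t)) = 0 →
      ∃ (u : Fin n → (𝓞 K)ˣ) (c : ℕ), PInd K p u c := by
    intro p y
    by_cases hp : p.Prime
    · obtain ⟨Z, hZ⟩ := hB' p hp (MvPolynomial.eval y)
      exact ⟨Z, fun _ => hZ⟩
    · exact ⟨∅, fun h => absurd h hp⟩
  choose Z hZ using hB''
  obtain ⟨C, hCc⟩ := box_count v i0 hv0
  obtain ⟨C1, hCc1⟩ := box_count_class_pow v i0 hv0
  refine ⟨fun p => {t | t i0 / v i0 ∈ if p.Prime then Z p (fun i => t i - t i0 / v i0 * v i)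
    else ∅}, (C + C1) * B', ?_, ?_, ?_⟩
  · intro p hp H' hH'
    have h1 := hCc (B' * p) (fun y => Z p y) (fun y => ⟨(hZ p y hp).1, (hZ p y hp).2.1⟩) H' hH'
    simp only [Set.mem_ofPred_eq, if_pos hp]
    calc _ ≤ _ := h1
      _ = C * B' * p * H' ^ (Fintype.card σ - 1) := by ring
      _ ≤ (C + C1) * B' * p * H' ^ (Fintype.card σ - 1) := by
        gcongr
        exact Nat.le_add_right _ _
  · intro p hp m hm t0 H'
    have h1 := hCc1 p hp m hm B' (fun y => Z p y)
      (fun y => ⟨(hZ p y hp).1, (hZ p y hp).2.2.1⟩) t0 H'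
    simp only [Set.mem_ofPred_eq, if_pos hp]
    calc _ ≤ _ := h1
      _ ≤ (C + C1) * B' * (H' / p ^ m + 1) ^ (Fintype.card σ - 1) := by
        gcongr
        exact Nat.le_add_left _ _
  · intro p hp t ht hirr K _ _ x hfin hx
    simp only [Set.mem_ofPred_eq, if_pos hp] at ht
    have hmap : ∀ P : (MvPolynomial σ ℤ)[X], ((P.map (sliceHom v)).map
        (mapRingHom (MvPolynomial.eval (fun i => t i - t i0 / v i0 * v i)))).map
        (evalRingHom (t i0 / v i0)) = P.map (MvPolynomial.eval t) := by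
      intro P
      rw [Polynomial.map_map, Polynomial.map_map, slice_eval]
      congr 2
      funext i
      ring
    refine (hZ p _ hp).2.2.2 _ ht ?_ K x (hfin.trans hd1.symm) ?_
    · rw [hmap]
      exact hirr
    · rw [hmap]
      exact hx

end multi

end Pool.Agent.Work.MP_59f3ad_nt

end

section

/-!
MP_59f3ad_nt: the bound `C (p ^ k H ^ (d-k) + H ^ (d-1))` for a single prime.
-/

open Polynomial NumberField

namespace Pool.Agent.Work.MP_59f3ad_nt.Cod

universe u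

namespace BoundX

variable {r1 r2 : ℕ}

theorem natDegree_derivative_gg {F : Type*} [Field F] (t : Ix r1 r2 → F)
    (hd : ((r1 + 2 * r2 : ℕ) : F) ≠ 0) :
    (derivative (gg t)).natDegree = r1 + 2 * r2 - 1 ∧
    (derivative (gg t)).leadingCoeff = ((r1 + 2 * r2 : ℕ) : F) := by
  have h0 : r1 + 2 * r2 ≠ 0 := by
    intro h
    rw [h] at hd
    exact hd (by simp)
  have h1 : (gg t).natDegree = r1 + 2 * r2 := gg_natDegree t
  have h2 : (derivative (gg t)).coeff (r1 + 2 * r2 - 1) = ((r1 + 2 * r2 : ℕ) : F) := by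
    rw [coeff_derivative]
    have h3 : r1 + 2 * r2 - 1 + 1 = r1 + 2 * r2 := by omega
    rw [h3]
    have h4 : (gg t).coeff (r1 + 2 * r2) = 1 := by
      have := (gg_monic t).coeff_natDegree
      rwa [h1] at this
    rw [h4, one_mul]
    have h5 : ((r1 + 2 * r2 - 1 : ℕ) : F) + 1 = ((r1 + 2 * r2 - 1 + 1 : ℕ) : F) := by push_cast; ring
    rw [h5, h3]
  have h3 : (derivative (gg t)).natDegree ≤ r1 + 2 * r2 - 1 := by
    have := natDegree_derivative_le (gg t)
    rwa [h1] at this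
  have h4 : (derivative (gg t)).natDegree = r1 + 2 * r2 - 1 :=
    le_antisymm h3 (le_natDegree_of_ne_zero (by rw [h2]; exact hd))
  exact ⟨h4, by rw [leadingCoeff, h4, h2]⟩

theorem exists_crit {F : Type*} [Field F] [IsAlgClosed F] (t : Ix r1 r2 → F)
    (hd : ((r1 + 2 * r2 : ℕ) : F) ≠ 0) :
    ∃ ζ : Fin (r1 + 2 * r2 - 1) → F,
      derivative (gg t) = C ((r1 + 2 * r2 : ℕ) : F) * ∏ i, (X - C (ζ i)) := by
  obtain ⟨h1, h2⟩ := natDegree_derivative_gg t hd
  have hs : (derivative (gg t)).Splits := IsAlgClosed.splits _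
  have h3 := hs.eq_prod_roots
  have h4 : (derivative (gg t)).roots.card = r1 + 2 * r2 - 1 := by
    rw [← h1]
    exact hs.natDegree_eq_card_roots.symm
  obtain ⟨l, hl⟩ := Quot.exists_rep (derivative (gg t)).roots
  have hl' : ((l : List F) : Multiset F) = (derivative (gg t)).roots := hl
  have h5 : l.length = r1 + 2 * r2 - 1 := by
    rw [← h4, ← hl', Multiset.coe_card]
  refine ⟨fun i => l.get (Fin.cast h5.symm i), ?_⟩
  have h6 : ∏ i : Fin (r1 + 2 * r2 - 1), (X - C (l.get (Fin.cast h5.symm i))) =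
      ((derivative (gg t)).roots.map fun a => X - C a).prod := by
    rw [← hl', Multiset.map_coe, Multiset.prod_coe]
    have h7 : ∏ i : Fin (r1 + 2 * r2 - 1), (X - C (l.get (Fin.cast h5.symm i))) =
        ∏ i : Fin l.length, (X - C (l.get i)) :=
      Fintype.prod_equiv (finCongr h5.symm) _ _ (fun i => rfl)
    rw [h7, ← List.prod_ofFn]
    congr 1
    apply List.ext_getElem
    · simp
    · intro n h1 h2
      simp
  rw [h6, ← h2]
  exact h3

theorem good_class (p : ℕ) [Fact p.Prime] (F : Type) [Field F] [IsAlgClosed F]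
    [Algebra (ZMod p) F] (hd : 1 ≤ r1 + 2 * r2) (hpd : r1 + 2 * r2 < p)
    (Γ1 Γ2 : MvPolynomial (Ix r1 r2) ℤ) (e : ℕ)
    (hΓ1 : ∀ (t : Ix r1 r2 → F) (ζ : Fin (r1 + 2 * r2 - 1) → F),
      derivative (gg t) = C ((r1 + 2 * r2 : ℕ) : F) * ∏ i, (X - C (ζ i)) →
      MvPolynomial.aeval t Γ1 = ((r1 + 2 * r2 : ℕ) : F) ^ e *
        ∏ φ : Fin r2 ↪ Fin (r1 + 2 * r2 - 1), DD t (fun l => ζ (φ l)))
    (hΓ2 : ∀ t : Ix r1 r2 → F, (((r1 + 2 * r2).factorial : ℕ) : F) ≠ 0 →
      MvPolynomial.aeval t Γ2 ≠ 0 →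
      (gg t).Separable ∧ (gg t - 1).Separable ∧ (derivative (gg t)).Separable)
    (t0 : Ix r1 r2 → ℤ)
    (h0 : MvPolynomial.aeval (fun i => ((t0 i : ℤ) : ZMod p)) (Γ1 * Γ2) ≠ 0) :
    (gg fun i => ((t0 i : ℤ) : F)).Separable ∧ (gg (fun i => ((t0 i : ℤ) : F)) - 1).Separable ∧
    (derivative (gg fun i => ((t0 i : ℤ) : F))).Separable ∧
    (∀ z : Fin r2 → F, Function.Injective z →
      (∀ l, (derivative (gg fun i => ((t0 i : ℤ) : F))).eval (z l) = 0) →
      DD (fun i => ((t0 i : ℤ) : F)) z ≠ 0) := by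
  classical
  have hp : p.Prime := Fact.out
  have hchar : CharP F p := charP_of_injective_algebraMap (algebraMap (ZMod p) F).injective p
  have hdF : ((r1 + 2 * r2 : ℕ) : F) ≠ 0 := by
    rw [Ne, CharP.cast_eq_zero_iff F p]
    intro h
    exact absurd (Nat.le_of_dvd (by omega) h) (by omega)
  set tb : Ix r1 r2 → F := fun i => ((t0 i : ℤ) : F) with htb
  have hev : ∀ Γ : MvPolynomial (Ix r1 r2) ℤ, MvPolynomial.aeval tb Γ =
      algebraMap (ZMod p) F (MvPolynomial.aeval (fun i => ((t0 i : ℤ) : ZMod p)) Γ) := by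
    intro Γ
    have h1 : ((MvPolynomial.aeval tb : MvPolynomial (Ix r1 r2) ℤ →ₐ[ℤ] F) :
        MvPolynomial (Ix r1 r2) ℤ →+* F) = (algebraMap (ZMod p) F).comp
        ((MvPolynomial.aeval (fun i => ((t0 i : ℤ) : ZMod p)) :
          MvPolynomial (Ix r1 r2) ℤ →ₐ[ℤ] ZMod p) : MvPolynomial (Ix r1 r2) ℤ →+* ZMod p) := by
      apply MvPolynomial.ringHom_ext
      · intro r; simp
      · intro i; simp [htb]
    exact congrArg (fun g : MvPolynomial (Ix r1 r2) ℤ →+* F => g Γ) h1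
  have hne : MvPolynomial.aeval tb (Γ1 * Γ2) ≠ 0 := by
    rw [hev]
    intro h
    exact h0 ((algebraMap (ZMod p) F).injective (by rw [h, map_zero]))
  rw [map_mul] at hne
  have hne1 := left_ne_zero_of_mul hne
  have hne2 := right_ne_zero_of_mul hne
  have hfac : (((r1 + 2 * r2).factorial : ℕ) : F) ≠ 0 := by
    rw [Ne, CharP.cast_eq_zero_iff F p, hp.dvd_factorial]
    omega
  obtain ⟨hs1, hs2, hs3⟩ := hΓ2 tb hfac hne2
  refine ⟨hs1, hs2, hs3, ?_⟩
  intro z hz hroot
  obtain ⟨ζ, hζ⟩ := exists_crit tb hdF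
  have h1 := hΓ1 tb ζ hζ
  rw [h1] at hne1
  have h2 := right_ne_zero_of_mul hne1
  rw [Finset.prod_ne_zero_iff] at h2
  have h3 : ∀ l, ∃ i, ζ i = z l := by
    intro l
    have h4 := hroot l
    rw [hζ, eval_mul, eval_C, eval_prod, mul_eq_zero] at h4
    rcases h4 with h4 | h4
    · exact absurd h4 hdF
    · obtain ⟨i, -, hi⟩ := Finset.prod_eq_zero_iff.mp h4
      refine ⟨i, ?_⟩
      rw [eval_sub, eval_X, eval_C, sub_eq_zero] at hi
      exact hi.symm
  choose φ hφ using h3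
  have hinj : Function.Injective φ := by
    intro a b hab
    apply hz
    rw [← hφ a, ← hφ b, hab]
  have h4 := h2 ⟨φ, hinj⟩ (Finset.mem_univ _)
  have h5 : (fun l => ζ ((⟨φ, hinj⟩ : Fin r2 ↪ Fin (r1 + 2 * r2 - 1)) l)) = z := by
    funext l
    exact hφ l
  rw [h5] at h4
  exact h4

end BoundX

namespace BoundX

theorem box_finite (σ : Type) [Fintype σ] (H : ℕ) : {t : σ → ℤ | ∀ i, |t i| ≤ H}.Finite := by
  have h1 : {t : σ → ℤ | ∀ i, |t i| ≤ H} = Set.pi Set.univ fun _ => Set.Icc (-(H : ℤ)) H := by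
    ext t
    simp only [Set.mem_ofPred_eq, Set.mem_pi, Set.mem_univ, forall_true_left, Set.mem_Icc,
      abs_le]
  rw [h1]
  exact Set.Finite.pi fun _ => Set.finite_Icc _ _

theorem box_ncard (σ : Type) [Fintype σ] (H : ℕ) (hH : 1 ≤ H) :
    {t : σ → ℤ | ∀ i, |t i| ≤ H}.ncard ≤ 3 ^ Fintype.card σ * H ^ Fintype.card σ := by
  classical
  have h1 : {t : σ → ℤ | ∀ i, |t i| ≤ H} =
      ((Fintype.piFinset fun _ : σ => Finset.Icc (-(H : ℤ)) H : Finset (σ → ℤ)) :
        Set (σ → ℤ)) := by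
    ext t
    simp only [Set.mem_ofPred_eq, Finset.mem_coe, Fintype.mem_piFinset, Finset.mem_Icc, abs_le]
  rw [h1, Set.ncard_coe_finset, Fintype.card_piFinset, Finset.prod_const, Int.card_Icc,
    Finset.card_univ, ← mul_pow]
  exact Nat.pow_le_pow_left (by omega) _

end BoundX

theorem all_bound (hCF : StClassFinM.{u}) (hJs : StJs) (hNorm : StNorm) (hS1 : StSpec1)
    (hS0 : StSpec0) (hSep : StSep) (hSZ : StSZ) (hGC : StGC) (hTot : StTot) (hSm : StSm)
    (r1 r2 k : ℕ) (hd : 1 ≤ r1 + 2 * r2) (hk1 : 1 ≤ k) (hk2 : k ≤ r2 + 1)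
    (hk3 : Even k ∨ 1 ≤ r1) (Bad0 : ℕ → Set (Ix r1 r2 → ℤ)) (C0 : ℕ)
    (hB1 : ∀ p : ℕ, p.Prime → ∀ H : ℕ, 1 ≤ H →
      {t : Ix r1 r2 → ℤ | (∀ i, |t i| ≤ H) ∧ t ∈ Bad0 p}.ncard ≤
        C0 * p * H ^ (Fintype.card (Ix r1 r2) - 1))
    (hB : ∀ p : ℕ, p.Prime → ∀ (m : ℕ) (t0 : Ix r1 r2 → ℤ) (H : ℕ), 1 ≤ m → 1 ≤ H →
      {t : Ix r1 r2 → ℤ | (∀ i, |t i| ≤ H) ∧ (∀ i, (p : ℤ) ^ m ∣ t i - t0 i) ∧
        t ∈ Bad0 p}.ncard ≤ C0 * (H / p ^ m + 1) ^ (Fintype.card (Ix r1 r2) - 1)) :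
    ∃ C : ℕ, ∀ p : ℕ, p.Prime → ∀ H : ℕ, 1 ≤ H →
      {t : Ix r1 r2 → ℤ | (∀ i, |t i| ≤ H) ∧
        t ∈ {t | t ∈ Bad0 p ∧ Irreducible (gg t - 1) ∧ ¬ NB.{u} r1 r2 p t}}.ncard ≤
      C * (p ^ k * H ^ (Fintype.card (Ix r1 r2) - k) + H ^ (Fintype.card (Ix r1 r2) - 1)) := by
  classical
  have hcard : Fintype.card (Ix r1 r2) = r1 + 2 * r2 := Ix_card r1 r2
  have hJc : (Js r1 r2 k).card = k := hJs r1 r2 k hd hk2 hk3
  have hspec : Spec r1 r2 := by
    rcases Nat.eq_zero_or_pos r1 with h | h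
    · subst h
      exact hS0 r2 (by omega)
    · exact hS1 r1 r2 h
  obtain ⟨Γ1, e, hΓ1⟩ := hNorm r1 r2 hd
  obtain ⟨Γ2, hΓ20, hΓ2⟩ := hSep r1 r2 hd
  have hΓ10 : Γ1 ≠ 0 := by
    obtain ⟨ts, ζ, -, -, h1, h2⟩ := hspec
    intro h
    have h3 := hΓ1 ℂ ts ζ h1
    rw [h, map_zero] at h3
    have h4 : (((r1 + 2 * r2 : ℕ) : ℂ)) ^ e * ∏ φ : Fin r2 ↪ Fin (r1 + 2 * r2 - 1),
        DD ts (fun l => ζ (φ l)) ≠ 0 := by
      refine mul_ne_zero (pow_ne_zero _ ?_) (Finset.prod_ne_zero_iff.mpr fun φ _ => h2 φ)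
      have : r1 + 2 * r2 ≠ 0 := by omega
      exact_mod_cast this
    exact h4 h3.symm
  have hΓ0 : Γ1 * Γ2 ≠ 0 := mul_ne_zero hΓ10 hΓ20
  obtain ⟨C1, p1, hE⟩ := hSZ (Ix r1 r2) (Γ1 * Γ2) hΓ0
  obtain ⟨N, hN⟩ := hCF r1 r2 k hd hk1 hk2 hk3
  obtain ⟨C3, hG⟩ := hGC (Ix r1 r2) (Js r1 r2 k) N
  obtain ⟨C4, hT⟩ := hTot (Ix r1 r2) k C1 C0 C3 (by rw [hcard]; exact hd)
    (by rw [hcard]; omega)
  obtain ⟨C5, hM⟩ := hSm (Ix r1 r2) (Js r1 r2 k) N C0 C1 (by rw [hJc]; exact hk1)
  rw [hJc] at hM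
  set p0 : ℕ := max p1 (max 2 (r1 + 2 * r2)) with hp0
  have hbox := fun H => BoundX.box_finite (Ix r1 r2) H
  obtain ⟨K1, hK1⟩ : ∃ K1 : ℕ, K1 = 3 ^ (r1 + 2 * r2) := ⟨_, rfl⟩
  obtain ⟨K2, hK2⟩ : ∃ K2 : ℕ, K2 = C0 * p0 := ⟨_, rfl⟩
  refine ⟨C4 + C5 + K1 + K2, fun p hp H hH => ?_⟩
  have : Fact p.Prime := ⟨hp⟩
  set S : Set (Ix r1 r2 → ℤ) :=
    {t | t ∈ Bad0 p ∧ Irreducible (gg t - 1) ∧ ¬ NB.{u} r1 r2 p t} with hS
  set Q : ℕ := p ^ k * H ^ (Fintype.card (Ix r1 r2) - k) + H ^ (Fintype.card (Ix r1 r2) - 1)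
    with hQ
  have hgoal : ∀ D : ℕ, D ≤ C4 + C5 + K1 + K2 →
      {t : Ix r1 r2 → ℤ | (∀ i, |t i| ≤ H) ∧ t ∈ S}.ncard ≤ D * Q →
      {t : Ix r1 r2 → ℤ | (∀ i, |t i| ≤ H) ∧ t ∈ S}.ncard ≤ (C4 + C5 + K1 + K2) * Q :=
    fun D hD h => h.trans (Nat.mul_le_mul_right _ hD)
  by_cases hpH : H < p
  · -- the trivial bound
    refine hgoal K1 (by omega) ?_
    have h2 := BoundX.box_ncard (Ix r1 r2) H hH
    rw [hcard] at h2
    refine (Set.ncard_le_ncard (fun t ht => ht.1) (hbox H)).trans (h2.trans ?_)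
    rw [← hK1]
    refine Nat.mul_le_mul_left _ ?_
    have h3 : H ^ (r1 + 2 * r2) = H ^ k * H ^ (r1 + 2 * r2 - k) := by
      rw [← pow_add]
      congr 1
      omega
    rw [hQ, hcard, h3]
    exact (Nat.mul_le_mul_right _ (Nat.pow_le_pow_left hpH.le k)).trans (Nat.le_add_right _ _)
  push Not at hpH
  -- the class bound for S
  have hBS : ∀ (m : ℕ) (t0 : Ix r1 r2 → ℤ), 1 ≤ m →
      {t : Ix r1 r2 → ℤ | (∀ i, |t i| ≤ H) ∧ (∀ i, (p : ℤ) ^ m ∣ t i - t0 i) ∧ t ∈ S}.ncard ≤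
        C0 * (H / p ^ m + 1) ^ (Fintype.card (Ix r1 r2) - 1) := by
    intro m t0 hm
    refine le_trans (Set.ncard_le_ncard ?_ ((hbox H).subset fun t ht => ht.1))
      (hB p hp m t0 H hm hH)
    rintro t ⟨h1, h2, h3, -, -⟩
    exact ⟨h1, h2, h3⟩
  by_cases hpp : p ≤ p0
  · -- small primes
    refine hgoal K2 (by omega) ?_
    have h1 := hB1 p hp H hH
    rw [hcard] at h1
    have h2 : {t : Ix r1 r2 → ℤ | (∀ i, |t i| ≤ H) ∧ t ∈ S}.ncard ≤
        C0 * p * H ^ (r1 + 2 * r2 - 1) := by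
      refine le_trans (Set.ncard_le_ncard ?_ ((hbox H).subset fun t ht => ht.1)) h1
      rintro t ⟨h1, h2, -⟩
      exact ⟨h1, h2⟩
    calc _ ≤ C0 * p * H ^ (r1 + 2 * r2 - 1) := h2
      _ ≤ K2 * Q := by
        rw [hK2, hQ, hcard]
        exact Nat.mul_le_mul (Nat.mul_le_mul_left _ hpp) (Nat.le_add_left _ _)
  push Not at hpp
  have hpp1 : p1 < p := lt_of_le_of_lt (le_max_left _ _) hpp
  have hpp2 : 2 < p := lt_of_le_of_lt ((le_max_left _ _).trans (le_max_right _ _)) hpp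
  have hppd : r1 + 2 * r2 < p := lt_of_le_of_lt ((le_max_right _ _).trans (le_max_right _ _)) hpp
  have hdig : ∀ t0 : Ix r1 r2 → ℤ,
      (fun i => ((t0 i : ℤ) : ZMod p)) ∉ {t | MvPolynomial.aeval t (Γ1 * Γ2) = 0} →
      ∀ s' : Ix r1 r2 → ℤ, {τ : Js r1 r2 k → ZMod p | ∃ s : Ix r1 r2 → ℤ,
      (∀ i, i ∉ Js r1 r2 k → ((s i : ℤ) : ZMod p) = ((s' i : ℤ) : ZMod p)) ∧
      (∀ i : Js r1 r2 k, ((s i : ℤ) : ZMod p) = τ i) ∧ (fun i => t0 i + p * s i) ∈ S}.ncard ≤
      N := by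
    intro t0 htE s'
    obtain ⟨hs1, hs2, hs3, hDD⟩ := BoundX.good_class p (AlgebraicClosure (ZMod p)) hd hppd Γ1 Γ2 e
      (hΓ1 _) (hΓ2 _) t0 htE
    refine le_trans (Set.ncard_le_ncard ?_ (Set.toFinite _))
      (hN p (by omega) (fun h => absurd (Nat.le_of_dvd (by omega) h) (by omega)) t0 hs1 hs2 hs3
        hDD s')
    rintro τ ⟨s, h1, h2, -, h3, h4⟩
    exact ⟨s, h1, h2, h3, h4⟩
  by_cases hHp : H ≤ p ^ 2
  · refine hgoal C4 (by omega) ?_
    refine hT p H hpH S {t | MvPolynomial.aeval t (Γ1 * Γ2) = 0} (hE p hpp1) ?_ ?_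
    · intro t0
      have h1 := hBS 1 t0 le_rfl
      rw [pow_one] at h1
      simpa only [pow_one] using h1
    · intro t0 ht0 htE
      have hJc' : Fintype.card (Ix r1 r2) - k = Fintype.card (Ix r1 r2) - (Js r1 r2 k).card := by
        rw [hJc]
      rw [hJc']
      refine hG p H hpH hHp S t0 ht0 fun s' => ?_
      refine le_trans (Set.ncard_le_ncard ?_ (Set.toFinite _)) (hdig t0 htE s')
      rintro τ ⟨s, h1, h2, h3⟩
      exact ⟨s, fun i hi => by rw [h1 i hi], h2, h3⟩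
  · push Not at hHp
    refine hgoal C5 (by omega) ?_
    exact hM p H hHp.le S {t | MvPolynomial.aeval t (Γ1 * Γ2) = 0} (hE p hpp1) hBS hdig

end Pool.Agent.Work.MP_59f3ad_nt.Cod

end
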