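import Mathlib
import Pool.Agent.Work.MP_59f3ad_nt.Bdx.B04
import Pool.Agent.Work.MP_59f3ad_nt.Bdx.B01
import Pool.Agent.Work.MP_59f3ad_nt.Tw.Tex
import Pool.Agent.Work.MP_59f3ad_nt.Cod.Crit
import Pool.Agent.Work.MP_59f3ad_nt.Bdx.B02
import Pool.Agent.Work.MP_59f3ad_nt.Cod.Main

/-! Bundle of small proof modules (one section per former module). -/

section

/-!
Assembly of the bound on the exceptional twists in arbitrary families.
-/

namespace Pool.Agent.Work.MP_59f3ad_nt.Tw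

universe u

theorem allFun : StFun.{u} := pr_Fun pr_Pow pr_Tf pr_Eps pr_Zp pr_Cpt pr_Lat
  (pr_Loc pr_Pow pr_Zp) pr_Chi pr_Sig pr_Gam pr_Nrm

theorem allTwo : StTwo.{u} := stTwo allFun (pr_Cnt pr_Kum pr_Cl pr_Un)

theorem allThree : StThree.{u} := stThree allTwo (pr_Box (pr_Fam (pr_FamC pr_Zer pr_Pin)))
  pr_LL pr_Tex pr_Idx pr_Hcl pr_Root pr_Den

end Pool.Agent.Work.MP_59f3ad_nt.Tw

end

section

open NumberField IsDedekindDomain

namespace Pool.Agent.Work.MP_59f3ad_nt.Tw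

universe u

namespace Cl1X

variable (L : Type u) [Field L] [NumberField L]

theorem exists_ideal_pow (a : 𝓞 L) (ha : a ≠ 0) (n : ℕ)
    (h : ∀ w : HeightOneSpectrum (𝓞 L),
      n ∣ (Associates.mk w.asIdeal).count (Associates.mk (Ideal.span {a})).factors) :
    ∃ I : Ideal (𝓞 L), I ^ n = Ideal.span {a} := by
  have hI : Ideal.span {a} ≠ (0 : Ideal (𝓞 L)) := by
    rw [Ne, Ideal.zero_eq_bot, Ideal.span_singleton_eq_bot]
    exact ha
  choose k hk using h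
  refine ⟨∏ᶠ w : HeightOneSpectrum (𝓞 L), w.asIdeal ^ k w, ?_⟩
  rcases Nat.eq_zero_or_pos n with hn | hn
  · subst hn
    rw [pow_zero, ← Ideal.finprod_heightOneSpectrum_factorization hI]
    symm
    rw [← finprod_one]
    refine finprod_congr fun w => ?_
    rw [HeightOneSpectrum.maxPowDividing, hk w, zero_mul, pow_zero]
  · rw [finprod_pow]
    · rw [← Ideal.finprod_heightOneSpectrum_factorization hI]
      refine finprod_congr fun w => ?_
      rw [HeightOneSpectrum.maxPowDividing, hk w, ← pow_mul, mul_comm n]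
    · refine (Ideal.hasFiniteMulSupport hI).subset ?_
      intro w hw
      rw [Function.mem_mulSupport] at hw ⊢
      intro h1
      apply hw
      rw [HeightOneSpectrum.maxPowDividing, hk w, mul_comm, pow_mul] at h1
      exact (pow_eq_one_iff.mp h1).resolve_right hn.ne'

/-- The data of an element all of whose valuations are `n`-th powers. -/
structure Dat (n : ℕ) (α : L) (I : nonZeroDivisors (Ideal (𝓞 L))) (s a : 𝓞 L) : Prop where
  s0 : s ≠ 0
  a0 : a ≠ 0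
  eq : (a : L) = α * (s : L) ^ n
  pw : (I : Ideal (𝓞 L)) ^ n = Ideal.span {a}

theorem exists_dat (n : ℕ) (hn : n ≠ 0) (α : L) (hα0 : α ≠ 0)
    (h : ∀ w : HeightOneSpectrum (𝓞 L), ∃ y : L, w.valuation L α = w.valuation L y ^ n) :
    ∃ (I : nonZeroDivisors (Ideal (𝓞 L))) (s a : 𝓞 L), Dat L n α I s a := by
  obtain ⟨c, m, hm, hcm⟩ := IsFractionRing.div_surjective (A := 𝓞 L) α
  have hm0 : m ≠ 0 := nonZeroDivisors.ne_zero hm
  have hmL : (m : L) ≠ 0 := by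
    intro h0
    exact hm0 (RingOfIntegers.ext h0)
  set a : 𝓞 L := c * m ^ (n - 1) with ha
  have haα : (a : L) = α * (m : L) ^ n := by
    have h1 : (m : L) ^ n = (m : L) ^ (n - 1) * m := by
      rw [← pow_succ]; congr 1; omega
    rw [ha, ← hcm, h1]
    push_cast
    field_simp
  have ha0 : a ≠ 0 := by
    intro h0
    have h1 : (a : L) = 0 := by rw [h0]; rfl
    rw [haα] at h1
    exact (mul_ne_zero hα0 (pow_ne_zero _ hmL)) h1
  obtain ⟨I, hI⟩ := exists_ideal_pow L a ha0 n fun w => by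
    obtain ⟨y, hy⟩ := h w
    have h1 : w.valuation L (a : L) = w.valuation L (y * m) ^ n := by
      rw [haα, map_mul, hy, map_mul, map_pow, mul_pow]
    have h2 := w.valuation_of_algebraMap (K := L) a
    rw [w.intValuation_if_neg ha0] at h2
    have h3 : w.valuation L (y * m) ≠ 0 := by
      intro h0
      have h4 : w.valuation L (a : L) = 0 := by rw [h1, h0, zero_pow hn]
      have h5 : w.valuation L (a : L) ≠ 0 := by
        rw [Ne, Valuation.zero_iff]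
        exact fun h6 => ha0 (RingOfIntegers.ext h6)
      exact h5 h4
    obtain ⟨k, hk⟩ : ∃ k : ℤ, w.valuation L (y * m) = WithZero.exp k :=
      ⟨WithZero.log (w.valuation L (y * m)), (WithZero.exp_log h3).symm⟩
    rw [h1, hk, ← WithZero.exp_nsmul, WithZero.exp_inj] at h2
    have h4 : (n : ℤ) ∣ ((Associates.mk w.asIdeal).count
        (Associates.mk (Ideal.span {a})).factors : ℤ) := by
      refine ⟨-k, ?_⟩
      rw [nsmul_eq_mul] at h2
      linarith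
    exact_mod_cast h4
  have hIbot : I ≠ ⊥ := by
    rintro rfl
    rw [← Ideal.zero_eq_bot, zero_pow hn, Ideal.zero_eq_bot] at hI
    exact ha0 (Ideal.span_singleton_eq_bot.mp hI.symm)
  exact ⟨⟨I, mem_nonZeroDivisors_of_ne_zero hIbot⟩, m, a, hm0, ha0, haα, hI⟩

end Cl1X

open Cl1X in
/-- Item Cl1. -/
theorem pr_Cl1 : StCl1.{u} := by
  classical
  intro K _ _ q hq
  refine ⟨fun α => if h : ∃ I : nonZeroDivisors (Ideal (𝓞 K)), ∃ s a : 𝓞 K, Dat K q α I s a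
    then ClassGroup.mk0 h.choose else 1, ?_, ?_⟩
  · intro α h0 hv
    have hd := exists_dat K q hq α h0 hv
    simp only [dif_pos hd]
    obtain ⟨s, a, hD⟩ := hd.choose_spec
    generalize hd.choose = I at hD ⊢
    rw [← map_pow, ClassGroup.mk0_eq_one_iff]
    have h1 : ((I ^ q : nonZeroDivisors (Ideal (𝓞 K))) : Ideal (𝓞 K)) = Ideal.span {a} := by
      rw [SubmonoidClass.coe_pow, hD.pw]
    rw [h1]
    exact ⟨⟨a, rfl⟩⟩
  intro α α' h0 h0' hv hv' hcl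
  have hd := exists_dat K q hq α h0 hv
  have hd' := exists_dat K q hq α' h0' hv'
  simp only [dif_pos hd, dif_pos hd'] at hcl
  obtain ⟨s, a, hD⟩ := hd.choose_spec
  obtain ⟨s', a', hD'⟩ := hd'.choose_spec
  generalize hd.choose = I at hcl hD
  generalize hd'.choose = I' at hcl hD'
  rw [ClassGroup.mk0_eq_mk0_iff] at hcl
  obtain ⟨x, y, hx, hy, hxy⟩ := hcl
  have h1 : Ideal.span {x ^ q * a} = Ideal.span {y ^ q * a'} := by
    rw [← Ideal.span_singleton_mul_span_singleton, ← Ideal.span_singleton_mul_span_singleton,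
      ← Ideal.span_singleton_pow, ← Ideal.span_singleton_pow, ← hD.pw, ← hD'.pw, ← mul_pow,
      ← mul_pow, hxy]
  rw [Ideal.span_singleton_eq_span_singleton] at h1
  obtain ⟨u, hu⟩ := h1.symm
  have hsK : (s : K) ≠ 0 := fun h => hD.s0 (RingOfIntegers.ext h)
  have hsK' : (s' : K) ≠ 0 := fun h => hD'.s0 (RingOfIntegers.ext h)
  have hxK : (x : K) ≠ 0 := fun h => hx (RingOfIntegers.ext h)
  have hyK : (y : K) ≠ 0 := fun h => hy (RingOfIntegers.ext h)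
  refine ⟨u, ((y : K) * s') / ((x : K) * s), div_ne_zero (mul_ne_zero hyK hsK')
    (mul_ne_zero hxK hsK), ?_⟩
  have h2 : (y : K) ^ q * (α' * (s' : K) ^ q) * ((u : 𝓞 K) : K) =
      (x : K) ^ q * (α * (s : K) ^ q) := by
    rw [← hD.eq, ← hD'.eq]
    have := congrArg (fun z : 𝓞 K => (z : K)) hu
    push_cast at this
    exact this
  have h3 : ((x : K) * s) ^ q ≠ 0 := pow_ne_zero _ (mul_ne_zero hxK hsK)
  rw [div_pow, eq_comm, mul_div_assoc', div_mul_eq_mul_div, div_eq_iff h3, mul_pow, mul_pow]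
  linear_combination h2

end Pool.Agent.Work.MP_59f3ad_nt.Tw

end

section

/-!
Counting the functions `F` modulo coboundaries, with the `p`-part of the class number.
-/

open NumberField IsDedekindDomain

namespace Pool.Agent.Work.MP_59f3ad_nt.Tw

universe u

namespace Cnt1X

/-- The unit comparing two local powers is a local power. -/
theorem locPow (K : Type u) [Field K] [NumberField K] (p m : ℕ) (S : Set (HeightOneSpectrum (𝓞 K)))
    (hSp : ∀ v : HeightOneSpectrum (𝓞 K), (p : 𝓞 K) ∈ v.asIdeal → v ∈ S)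
    (α α' γ : K) (u : (𝓞 K)ˣ) (hα' : α' ≠ 0) (hγ : γ ≠ 0)
    (h : ∀ v ∈ S, ∃ η : v.adicCompletion K, η ^ p ^ m = algebraMap K (v.adicCompletion K) α)
    (h' : ∀ v ∈ S, ∃ η : v.adicCompletion K, η ^ p ^ m = algebraMap K (v.adicCompletion K) α')
    (hu : α = ((u : 𝓞 K) : K) * γ ^ p ^ m * α') : LocPow K p m ((u : 𝓞 K) : K) := by
  intro v hv
  obtain ⟨η, hη⟩ := h v (hSp v hv)
  obtain ⟨η', hη'⟩ := h' v (hSp v hv)
  have hγ' : algebraMap K (v.adicCompletion K) γ ≠ 0 := by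
    rw [Ne, map_eq_zero]; exact hγ
  have hα'' : algebraMap K (v.adicCompletion K) α' ≠ 0 := by
    rw [Ne, map_eq_zero]; exact hα'
  refine ⟨η / (algebraMap K (v.adicCompletion K) γ * η'), ?_⟩
  rw [div_pow, mul_pow, hη, hη', hu, map_mul, map_mul, map_pow]
  field_simp

/-- Two Kummer generators whose `q`-th powers differ by a `q`-th power of `K`. -/
theorem diff (K : Type u) [Field K] [NumberField K] (p : ℕ) [Fact p.Prime] (m : ℕ)
    (ζ : AlgebraicClosure K) (hζ : IsPrimitiveRoot ζ (p ^ m)) (f f' : GK K → ℤ_[p])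
    (β β' : AlgebraicClosure K) (α α' δ : K) (hβ0' : β' ≠ 0) (hδ0 : δ ≠ 0)
    (hβ : ∀ g : GK K, g β = zpw p m ζ (f g) * β) (hβ' : ∀ g : GK K, g β' = zpw p m ζ (f' g) * β')
    (hα : algebraMap K (AlgebraicClosure K) α = β ^ p ^ m)
    (hα' : algebraMap K (AlgebraicClosure K) α' = β' ^ p ^ m) (h : α = δ ^ p ^ m * α') :
    ∃ t : ℤ_[p], ∀ g, (p : ℤ_[p]) ^ m ∣ f g - f' g - ((cyc K p g : ℤ_[p]) - 1) * t := by
  have hp : p.Prime := Fact.out
  have hζ1 : ζ ^ p ^ m = 1 := hζ.pow_eq_one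
  set δ' : AlgebraicClosure K := algebraMap K (AlgebraicClosure K) δ with hδ'
  have hδ'0 : δ' ≠ 0 := by
    rw [hδ', Ne, map_eq_zero]
    exact hδ0
  have hξ : (β / (δ' * β')) ^ p ^ m = 1 := by
    rw [div_pow, mul_pow, ← hα, ← hα', h, map_mul, map_pow, ← hδ', div_self]
    refine mul_ne_zero (pow_ne_zero _ hδ'0) ?_
    rw [hα']
    exact pow_ne_zero _ hβ0'
  have : NeZero (p ^ m) := ⟨pow_ne_zero _ hp.ne_zero⟩
  obtain ⟨i, hi, hξi⟩ := hζ.eq_pow_of_pow_eq_one hξ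
  have hne : δ' * β' ≠ 0 := mul_ne_zero hδ'0 hβ0'
  refine ⟨(i : ℤ_[p]), fun g => ?_⟩
  have e3 : β = zpw p m ζ (i : ℤ_[p]) * (δ' * β') := by
    rw [zpw_natCast hζ1, hξi, div_mul_cancel₀ _ hne]
  have e2 : g β = zpw p m ζ ((cyc K p g : ℤ_[p]) * (i : ℤ_[p])) *
      (δ' * (zpw p m ζ (f' g) * β')) := by
    conv_lhs => rw [e3]
    rw [map_mul, map_mul, zpw_galois K p m ζ hζ1, hδ', g.commutes, hβ' g]
  have e4 : zpw p m ζ (f g) * zpw p m ζ (i : ℤ_[p]) =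
      zpw p m ζ ((cyc K p g : ℤ_[p]) * (i : ℤ_[p])) * zpw p m ζ (f' g) := by
    have h1 := (hβ g).symm.trans e2
    rw [e3] at h1
    apply mul_right_cancel₀ hne
    rw [mul_assoc, h1]
    ring
  rw [← zpw_eq_one_iff hζ]
  have h1 : f g - f' g - ((cyc K p g : ℤ_[p]) - 1) * (i : ℤ_[p]) =
      (f g + (i : ℤ_[p])) + -((cyc K p g : ℤ_[p]) * (i : ℤ_[p]) + f' g) := by
    ring
  rw [h1, zpw_add hζ1, zpw_add hζ1, zpw_neg hζ1, zpw_add hζ1, e4, mul_inv_cancel₀]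
  exact mul_ne_zero (zpw_ne_zero hζ1 _) (zpw_ne_zero hζ1 _)

/-- The `p ^ m`-torsion of a finite commutative group has order at most the `p`-part. -/
theorem cardTors (G : Type*) [CommGroup G] [Finite G] (p m : ℕ) [Fact p.Prime] :
    Nat.card (powMonoidHom (p ^ m) : G →* G).ker ≤ p ^ padicValNat p (Nat.card G) := by
  have hp : p.Prime := Fact.out
  have hpg : IsPGroup p (powMonoidHom (p ^ m) : G →* G).ker := by
    intro x
    refine ⟨m, ?_⟩
    have hx := x.2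
    rw [MonoidHom.mem_ker, powMonoidHom_apply] at hx
    exact Subtype.ext hx
  obtain ⟨n, hn⟩ := IsPGroup.iff_card.mp hpg
  have hdvd := Subgroup.card_subgroup_dvd_card (powMonoidHom (p ^ m) : G →* G).ker
  rw [hn] at hdvd ⊢
  exact Nat.pow_le_pow_right hp.pos ((padicValNat_dvd_iff_le (Nat.card_pos.ne')).mp hdvd)

end Cnt1X

/-- Counting the functions `F` modulo coboundaries, with the `p`-part of the class number. -/
theorem pr_Cnt1 : StKum.{u} → StCl1.{u} → StUn.{u} → StCnt1.{u} := by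
  intro hKum hCl hUn K _ _ p _ hζ1 S hSp c hc m hcm N F hKF hinj
  have hp : p.Prime := Fact.out
  obtain ⟨ζ, hζ⟩ := (hasRoots K p m).exists_primitiveRoot
  choose β α hβ0 hα0 hβ hαβ hloc hval using fun j => hKum K p m S (F j) ζ hζ (hKF j)
  obtain ⟨cl, hcl1, hcl⟩ := hCl K (p ^ m) (pow_ne_zero _ hp.ne_zero)
  obtain ⟨e, he⟩ := hUn K p hp hζ1 c m hcm
  rcases Nat.eq_zero_or_pos N with hN | hN
  · rw [hN]
    exact Nat.zero_le _
  have : Nonempty (Fin N) := ⟨⟨0, hN⟩⟩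
  set f : Fin N → ClassGroup (𝓞 K) := fun j => cl (α j) with hf
  set r : ClassGroup (𝓞 K) → Fin N := Function.invFun f with hr
  have hfr : ∀ j, f (r (f j)) = f j := fun j => Function.invFun_eq ⟨j, rfl⟩
  have hex : ∀ j, ∃ (u : (𝓞 K)ˣ) (γ : K), γ ≠ 0 ∧
      α j = ((u : 𝓞 K) : K) * γ ^ p ^ m * α (r (f j)) := fun j =>
    hcl (α j) (α (r (f j))) (hα0 _) (hα0 _) (hval _) (hval _) (hfr j).symm
  choose u γ hγ0 hu using hex
  have hLL : ∀ j, ∃ w : (𝓞 K)ˣ, u j = w ^ p ^ (m - c) := fun j =>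
    hc m (u j) (Cnt1X.locPow K p m S hSp (α j) (α (r (f j))) (γ j) (u j) (hα0 _) (hγ0 j)
      (hloc _) (hloc _) (hu j))
  choose w hw using hLL
  have hne : NeZero (p ^ c) := ⟨pow_ne_zero _ hp.ne_zero⟩
  have hInj : Function.Injective (fun j : Fin N => ((f j, e (w j)) :
      ClassGroup (𝓞 K) × (Fin (Units.rank K) → ZMod (p ^ c)))) := by
    intro j j' hjj
    obtain ⟨h1, h2⟩ := Prod.mk.inj hjj
    obtain ⟨w1, hw1⟩ := he (w j) (w j') h2
    rw [← hw, ← hw] at hw1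
    have hw1' : ((u j : 𝓞 K) : K) = ((w1 : 𝓞 K) : K) ^ p ^ m * ((u j' : 𝓞 K) : K) := by
      have := congrArg (fun z : (𝓞 K)ˣ => ((z : 𝓞 K) : K)) hw1
      simpa using this
    have hw10 : ((w1 : 𝓞 K) : K) ≠ 0 := by
      intro h0
      exact w1.ne_zero (RingOfIntegers.ext h0)
    have hα1 : α j = (((w1 : 𝓞 K) : K) * γ j / γ j') ^ p ^ m * α j' := by
      have e1 := hu j
      have e2 := hu j'
      have h3 := hγ0 j'
      have h4 : γ j' ^ p ^ m ≠ 0 := pow_ne_zero _ h3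
      rw [← h1] at e2
      rw [e1, e2, hw1', div_pow, mul_pow]
      field_simp
    obtain ⟨t, ht⟩ := Cnt1X.diff K p m ζ hζ (F j) (F j') (β j) (β j') (α j) (α j')
      (((w1 : 𝓞 K) : K) * γ j / γ j') (hβ0 j') (div_ne_zero (mul_ne_zero hw10 (hγ0 j)) (hγ0 j'))
      (hβ j) (hβ j') (hαβ j) (hαβ j') hα1
    exact hinj j j' t ht
  have hA : ∀ j, f j ∈ (powMonoidHom (p ^ m) : ClassGroup (𝓞 K) →* ClassGroup (𝓞 K)).ker := by
    intro j
    rw [MonoidHom.mem_ker, powMonoidHom_apply]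
    exact hcl1 (α j) (hα0 j) (hval j)
  have hInj2 : Function.Injective (fun j : Fin N => ((⟨f j, hA j⟩, e (w j)) :
      (powMonoidHom (p ^ m) : ClassGroup (𝓞 K) →* ClassGroup (𝓞 K)).ker ×
        (Fin (Units.rank K) → ZMod (p ^ c)))) := by
    intro j j' hjj
    obtain ⟨h1, h2⟩ := Prod.mk.inj hjj
    exact hInj (Prod.ext (congrArg Subtype.val h1) h2)
  have hcard := Nat.card_le_card_of_injective _ hInj2
  rw [Nat.card_prod, Nat.card_fun, Nat.card_zmod, Nat.card_fin, Nat.card_fin, ← pow_mul] at hcard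
  rw [pow_add]
  refine hcard.trans (Nat.mul_le_mul_right _ ?_)
  have := Cnt1X.cardTors (ClassGroup (𝓞 K)) p m
  rwa [Nat.card_eq_fintype_card (α := ClassGroup (𝓞 K))] at this

end Pool.Agent.Work.MP_59f3ad_nt.Tw

end

section

/-!
MP_59f3ad_nt, Tw: the criterion of first order with the constant `1`.
-/

open Polynomial NumberField

namespace Pool.Agent.Work.MP_59f3ad_nt.Tw

open Pool.Agent.Work.MP_59f3ad_nt.Cod

universe u

theorem pr_Crit1 : StCrit1.{u} := by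
  intro p hpF hp2 f hf hirr hsep n H G q M hM hHG hHq hind K _ _ x hfin hx
  have hp : p.Prime := hpF.out
  have hpO : (p : 𝓞 K) ≠ 0 := by exact_mod_cast hp.ne_zero
  have hev : ∀ A : ℤ[X], f ∣ A → aeval x A = 0 := by
    rintro A ⟨B, rfl⟩
    rw [map_mul, hx, zero_mul]
  have hHG' : ∀ l, aeval x (H l) * aeval x (G l) = 1 := by
    intro l
    have h1 := hev _ (hHG l)
    rw [map_sub, map_mul, map_one, sub_eq_zero] at h1
    exact h1
  set u' : Fin n → (𝓞 K)ˣ := fun l => ⟨aeval x (H l), aeval x (G l), hHG' l,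
    by rw [mul_comm]; exact hHG' l⟩ with hu'
  have hu : ∀ l, (u' l : 𝓞 K) = aeval x (H l) := fun l => rfl
  set μ : Fin n → 𝓞 K := fun l => aeval x (q l) with hμ
  have hw : ∀ l, ((u' l ^ M : (𝓞 K)ˣ) : 𝓞 K) = 1 + (p : 𝓞 K) * μ l := by
    intro l
    have h1 := hev _ (hHq l)
    rw [map_sub, map_sub, map_mul, map_pow, map_one, ← hu, aeval_C] at h1
    rw [Units.val_pow_eq_pow_val]
    have h2 : (algebraMap ℤ (𝓞 K)) (p : ℤ) = (p : 𝓞 K) := by simp
    rw [h2] at h1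
    linear_combination h1
  have hpow : ∀ E : Fin n → ℤ, ((∏ l, (u' l ^ M) ^ E l : (𝓞 K)ˣ) : 𝓞 K) - 1 ∈
      Ideal.span {(p : 𝓞 K)} ∧ (p : 𝓞 K) ^ 2 ∣ ((∏ l, (u' l ^ M) ^ E l : (𝓞 K)ˣ) : 𝓞 K) -
        (1 + (p : 𝓞 K) * ∑ l, (E l : 𝓞 K) * μ l) := by
    intro E
    have h1 := prod_zpow_congr (p : 𝓞 K) _ μ hw E Finset.univ
    refine ⟨?_, h1⟩
    rw [Ideal.mem_span_singleton]
    have h2 : (p : 𝓞 K) ∣ (p : 𝓞 K) ^ 2 := dvd_pow_self _ two_ne_zero
    have h3 := dvd_add (h2.trans h1) (dvd_mul_right (p : 𝓞 K) (∑ l, (E l : 𝓞 K) * μ l))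
    refine h3.trans (Dvd.intro 1 ?_)
    ring
  have key : ∀ m : ℕ, ∀ E : Fin n → ℤ,
      (p : 𝓞 K) ^ (m + 1) ∣ ((∏ l, (u' l ^ M) ^ E l : (𝓞 K)ˣ) : 𝓞 K) - 1 →
      ∀ l, (p : ℤ) ^ m ∣ E l := by
    intro m
    induction m with
    | zero => intro E _ l; rw [pow_zero]; exact one_dvd _
    | succ m ih =>
      intro E hE
      have h1 : (p : 𝓞 K) ^ 2 ∣ (p : 𝓞 K) * ∑ l, (E l : 𝓞 K) * μ l := by
        have h2 : (p : 𝓞 K) ^ 2 ∣ ((∏ l, (u' l ^ M) ^ E l : (𝓞 K)ˣ) : 𝓞 K) - 1 :=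
          (pow_dvd_pow _ (by omega)).trans hE
        refine (dvd_sub h2 (hpow E).2).trans (Dvd.intro 1 ?_)
        ring
      rw [pow_two, mul_dvd_mul_iff_left hpO] at h1
      have h2 : ∑ l, (E l : 𝓞 K) * μ l = aeval x (∑ l, C (E l) * q l) := by
        rw [map_sum]
        refine Finset.sum_congr rfl fun l _ => ?_
        rw [map_mul, aeval_C]
        simp [hμ]
      rw [h2] at h1
      have h3 := Pool.Agent.Work.MP_59f3ad_nt.Cod.CritX.index p hp f hf hirr hsep x hfin hx _ h1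
      rw [Polynomial.map_sum] at h3
      simp only [Polynomial.map_mul, map_C] at h3
      have h4 := hind (fun l => red p (E l)) h3
      have h5 : ∀ l, (p : ℤ) ∣ E l := fun l =>
        (ZMod.intCast_zmod_eq_zero_iff_dvd _ _).1 (congrFun h4 l)
      choose E' hE' using h5
      have h6 : ∏ l, (u' l ^ M) ^ E l = (∏ l, (u' l ^ M) ^ E' l) ^ p := by
        rw [← Finset.prod_pow]
        refine Finset.prod_congr rfl fun l _ => ?_
        rw [hE' l, mul_comm, zpow_mul, zpow_natCast]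
      rw [h6, Units.val_pow_eq_pow_val] at hE
      have h7 : (p : 𝓞 K) ^ 1 ∣ ((∏ l, (u' l ^ M) ^ E' l : (𝓞 K)ˣ) : 𝓞 K) - 1 := by
        rw [pow_one]
        exact Ideal.mem_span_singleton.1 (hpow E').1
      have h8 := dvd_of_pow_prime_dvd p hp 1 le_rfl (fun h => absurd h hp2) _ h7 (m + 1) hE
      intro l
      rw [hE' l, pow_succ']
      exact mul_dvd_mul_left _ (ih E' h8 l)
  refine ⟨u', ?_⟩
  intro m E hdvd
  refine key m E ?_
  have h1 : ∏ l, (u' l ^ M) ^ E l = (∏ l, u' l ^ E l) ^ M := by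
    rw [← Finset.prod_pow]
    refine Finset.prod_congr rfl fun l _ => ?_
    rw [← zpow_natCast, ← zpow_natCast, ← zpow_mul, ← zpow_mul, mul_comm]
  rw [h1, Units.val_pow_eq_pow_val]
  exact hdvd.trans (sub_one_dvd_pow_sub_one _ _)

end Pool.Agent.Work.MP_59f3ad_nt.Tw

end

section

/-!
First order independence gives the Leopoldt property with the constant `0`.
-/

open NumberField IsDedekindDomain

namespace Pool.Agent.Work.MP_59f3ad_nt.Tw

universe u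

open LLX in
theorem pr_LL1 : StLL1.{u} := by
  intro K _ _ p hp htor n w hw hn T hT hj hloc m u hu
  rw [Nat.sub_zero]
  obtain ⟨M, hM0, hM⟩ := exists_pow K p hp n w 1 hw hn
  obtain ⟨A, M', hM', hMeq⟩ := Nat.exists_eq_pow_mul_and_not_dvd hM0 p hp.ne_one
  obtain ⟨E, hE⟩ := hM u
  have h1 : (p : 𝓞 K) ^ (m + 1) ∣ (u : 𝓞 K) ^ T - 1 := hloc _ u hu
  have h2 : (p : 𝓞 K) ^ (m + 1) ∣ (u : 𝓞 K) ^ (T * M') - 1 := by
    rw [pow_mul]
    exact h1.trans (sub_one_dvd_pow_sub_one _ _)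
  have h3 : (p : 𝓞 K) ^ (m + 1 + A) ∣ ((u : 𝓞 K) ^ (T * M')) ^ p ^ A - 1 :=
    dvd_pow_prime_pow_sub_one p _ (by omega) _ h2 A
  have h4 : ((∏ i, w i ^ (E i * T) : (𝓞 K)ˣ) : 𝓞 K) = ((u : 𝓞 K) ^ (T * M')) ^ p ^ A := by
    have e1 : (∏ i, w i ^ (E i * T) : (𝓞 K)ˣ) = (u ^ (T * M')) ^ p ^ A := by
      calc (∏ i, w i ^ (E i * T) : (𝓞 K)ˣ) = (∏ i, w i ^ E i) ^ T := by
            rw [← Finset.prod_pow]
            refine Finset.prod_congr rfl fun i _ => ?_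
            rw [zpow_mul, zpow_natCast]
        _ = (u ^ (T * M')) ^ p ^ A := by
            rw [← hE, hMeq, ← pow_mul, ← pow_mul]
            congr 1
            ring
    rw [e1, Units.val_pow_eq_pow_val, Units.val_pow_eq_pow_val]
  have h5 := hw (m + A) (fun i => E i * T) (by
    rw [h4]
    convert h3 using 2
    omega)
  have h6 : ∀ i, (p : ℤ) ^ (m + A) ∣ E i := by
    intro i
    have e1 : (p : ℤ) ^ ((m + A) + 0) ∣ E i * T := by
      rw [Nat.add_zero]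
      exact h5 i
    exact dvd_of_dvd_mul p hp 0 T hT (by simpa using hj) (m + A) (E i) e1
  choose E' hE' using h6
  set y : (𝓞 K)ˣ := ∏ i, w i ^ E' i with hy
  have h7 : u ^ M = y ^ p ^ (m + A) := by
    rw [hE, hy, ← Finset.prod_pow]
    refine Finset.prod_congr rfl fun i _ => ?_
    rw [hE' i, ← zpow_natCast, ← zpow_mul]
    congr 1
    push_cast
    ring
  have hnt : ∀ x : (𝓞 K)ˣ, x ^ p = 1 → x = 1 := by
    intro x hx
    have e1 : (((x : 𝓞 K)) : K) ^ p = 1 := by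
      have e2 := congrArg (fun z : (𝓞 K)ˣ => ((z : 𝓞 K) : K)) hx
      simpa using e2
    have e3 := htor _ e1
    apply Units.ext
    apply RingOfIntegers.ext
    simpa using e3
  have h8 : u ^ M' = y ^ p ^ m := by
    have e1 : (u ^ M' * (y ^ p ^ m)⁻¹) ^ p ^ A = 1 := by
      rw [mul_pow, inv_pow, ← pow_mul, ← pow_mul, mul_inv_eq_one, mul_comm M', ← hMeq, h7,
        ← pow_add]
    have e2 := eq_one_of_pow p hnt A _ e1
    rwa [mul_inv_eq_one] at e2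
  exact bezout p hp M' hM' m u y h8

end Pool.Agent.Work.MP_59f3ad_nt.Tw

end

section

open NumberField Polynomial

namespace Pool.Agent.Work.MP_59f3ad_nt.Tw

open Pool.Agent.Work.MP_59f3ad_nt.Cod

universe u

namespace RedX

variable {K : Type u} [Field K] [NumberField K]

/-- A divisibility modulo `p` lifts. -/
theorem lift (p : ℕ) {f h : ℤ[X]} (hf : f.Monic) (hd : f.map (red p) ∣ h.map (red p)) :
    ∃ q : ℤ[X], f ∣ h - C (p : ℤ) * q := by
  have h1 : (h %ₘ f).map (red p) = 0 := by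
    rw [map_modByMonic _ hf, modByMonic_eq_zero_iff_dvd (hf.map _)]
    exact hd
  have h2 : C (p : ℤ) ∣ h %ₘ f := by
    rw [C_dvd_iff_dvd_coeff]
    intro i
    have h3 := congrArg (fun g => coeff g i) h1
    simp only [coeff_map, coeff_zero] at h3
    exact (CharP.intCast_eq_zero_iff (ZMod p) p _).1 h3
  obtain ⟨q, hq⟩ := h2
  refine ⟨q, h /ₘ f, ?_⟩
  rw [← hq]
  have h4 := modByMonic_add_div h f
  linear_combination -h4

omit [NumberField K] in
theorem of_dvd (p : ℕ) (f : ℤ[X]) (hf : f.Monic) (x : 𝓞 K) (hx : aeval x f = 0) (A : ℤ[X])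
    (hA : f.map (red p) ∣ A.map (red p)) :
    ∃ B : ℤ[X], aeval x A = (p : 𝓞 K) * aeval x B := by
  obtain ⟨q, Q, hq⟩ := lift p hf hA
  refine ⟨q, ?_⟩
  have h1 := congrArg (aeval x) hq
  rw [map_sub, map_mul, map_mul, hx, zero_mul, aeval_C] at h1
  have h2 : (algebraMap ℤ (𝓞 K)) (p : ℤ) = (p : 𝓞 K) := by simp
  rw [h2] at h1
  linear_combination h1

theorem poly (p : ℕ) (hp : p.Prime) (f : ℤ[X]) (hf : f.Monic) (hirr : Irreducible f)
    (hsep : (f.map (red p)).Separable) (x : 𝓞 K) (hfin : Module.finrank ℚ K = f.natDegree)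
    (hx : aeval x f = 0) (s : ℕ) : ∀ (z : 𝓞 K) (A : ℤ[X]), (p : 𝓞 K) ^ s * z = aeval x A →
    ∃ B : ℤ[X], z = aeval x B := by
  have hpO : (p : 𝓞 K) ≠ 0 := by exact_mod_cast hp.ne_zero
  induction s with
  | zero =>
    intro z A h
    exact ⟨A, by rw [← h, pow_zero, one_mul]⟩
  | succ s ih =>
    intro z A h
    have h1 : (p : 𝓞 K) ∣ aeval x A := by
      rw [← h, pow_succ', mul_assoc]
      exact dvd_mul_right _ _
    obtain ⟨B, hB⟩ := of_dvd p f hf x hx A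
      (CritX.index p hp f hf hirr hsep x hfin hx A h1)
    refine ih z B (mul_left_cancel₀ hpO ?_)
    rw [← hB, ← h, pow_succ', mul_assoc]

end RedX

open RedX

theorem pr_Red : StRed.{u} := by
  intro p hpF f hf hirr hsep K _ _ x hfin hx a ha
  have hp : p.Prime := hpF.out
  have hlin := linearIndependent_of_irreducible f hf hirr x hx
  obtain ⟨ν, hν0, hν⟩ := exists_mul_mem_span f.natDegree _ hlin hfin.symm
  obtain ⟨s, ν', hν', hνe⟩ := Nat.exists_eq_pow_mul_and_not_dvd hν0 p hp.ne_one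
  obtain ⟨c, hc⟩ := (Submodule.mem_span_range_iff_exists_fun ℤ).1 (hν a)
  have h1 : (p : 𝓞 K) ^ s * ((ν' : 𝓞 K) * a) =
      aeval x (∑ i : Fin f.natDegree, C (c i) * X ^ (i : ℕ)) := by
    rw [map_sum]
    have h2 : ∀ i : Fin f.natDegree, aeval x (C (c i) * X ^ (i : ℕ)) = c i • x ^ (i : ℕ) := by
      intro i
      rw [map_mul, aeval_C, map_pow, aeval_X, zsmul_eq_mul]
      simp
    rw [Finset.sum_congr rfl fun i _ => h2 i, hc, hνe, zsmul_eq_mul]
    push_cast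
    ring
  obtain ⟨B, hB⟩ := poly p hp f hf hirr hsep x hfin hx s _ _ h1
  have h3 : (p : 𝓞 K) ∣ aeval x (B ^ 2) := by
    rw [map_pow, ← hB, mul_pow]
    exact ha.mul_left _
  have h4 := CritX.index p hp f hf hirr hsep x hfin hx _ h3
  rw [Polynomial.map_pow] at h4
  have h5 := (hsep.squarefree.dvd_pow_iff_dvd two_ne_zero).1 h4
  obtain ⟨B', hB'⟩ := of_dvd p f hf x hx B h5
  rw [← hB] at hB'
  have hcop : IsCoprime (p : ℤ) (ν' : ℤ) := by
    rw [Nat.isCoprime_iff_coprime]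
    exact (Nat.Prime.coprime_iff_not_dvd hp).2 hν'
  obtain ⟨m, k, hmk⟩ := hcop
  have h6 : (m : 𝓞 K) * (p : 𝓞 K) + (k : 𝓞 K) * (ν' : 𝓞 K) = 1 := by
    exact_mod_cast congrArg (fun n : ℤ => (n : 𝓞 K)) hmk
  refine ⟨(m : 𝓞 K) * a + (k : 𝓞 K) * aeval x B', ?_⟩
  linear_combination (-a) * h6 + (k : 𝓞 K) * hB'

end Pool.Agent.Work.MP_59f3ad_nt.Tw

end

section

/-!
Exponent of the local units modulo `p` when `𝓞 K / p` is reduced.
-/

open NumberField IsDedekindDomain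

namespace Pool.Agent.Work.MP_59f3ad_nt.Tw

universe u

namespace Tex1X

theorem exists_sq {R : Type u} [CommRing R] [IsDedekindDomain R] (v J : Ideal R) (hv : v ≠ ⊥)
    (hJ : J ≠ ⊥) (hvt : v ≠ ⊤) : ∃ a : R, a ∉ v ^ 2 * J ∧ a ^ 2 ∈ v ^ 2 * J := by
  have h2 : ¬ v * J ≤ v ^ 2 * J := by
    intro h
    rw [← Ideal.dvd_iff_le] at h
    obtain ⟨L, hL⟩ := h
    have h3 : v * J * 1 = v * J * (v * L) := by
      rw [mul_one, ← mul_assoc, mul_assoc v J v, mul_comm J v, ← mul_assoc v v J, ← sq]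
      exact hL
    have h4 := mul_left_cancel₀ (mul_ne_zero hv hJ) h3
    have h5 : v ∣ 1 := ⟨L, h4⟩
    exact hvt (Ideal.isUnit_iff.mp (isUnit_of_dvd_one h5))
  rw [SetLike.not_le_iff_exists] at h2
  obtain ⟨a, ha, ha'⟩ := h2
  refine ⟨a, ha', ?_⟩
  have h3 : a ^ 2 ∈ (v * J) * (v * J) := by
    rw [sq]
    exact Ideal.mul_mem_mul ha ha
  have h4 : (v * J) * (v * J) = v ^ 2 * J * J := by
    rw [mul_assoc v J, mul_comm J (v * J), ← mul_assoc, ← mul_assoc, ← sq]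
  rw [h4] at h3
  exact Ideal.mul_le_left h3

variable (K : Type u) [Field K] [NumberField K]

/-- If `𝓞 K / p` is reduced then `p` is not in the square of a prime ideal. -/
theorem not_mem_sq {p : ℕ} (hp : p.Prime) (hred : ∀ a : 𝓞 K, (p : 𝓞 K) ∣ a ^ 2 → (p : 𝓞 K) ∣ a)
    (v : HeightOneSpectrum (𝓞 K)) : (p : 𝓞 K) ∉ v.asIdeal ^ 2 := by
  intro hmem
  have hp0 : (p : 𝓞 K) ≠ 0 := TexX.p_ne_zero K hp
  have h1 : v.asIdeal ^ 2 ∣ Ideal.span {(p : 𝓞 K)} := by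
    rw [Ideal.dvd_span_singleton]
    exact hmem
  obtain ⟨J, hJ⟩ := h1
  have hJ0 : J ≠ ⊥ := by
    intro h
    rw [h, Ideal.mul_bot] at hJ
    exact hp0 (Ideal.span_singleton_eq_bot.mp hJ)
  obtain ⟨a, ha, ha2⟩ := exists_sq v.asIdeal J v.ne_bot hJ0 v.isPrime.ne_top
  rw [← hJ, Ideal.mem_span_singleton] at ha ha2
  exact ha (hred a ha2)

theorem ram_le_one {p : ℕ} (hp : p.Prime)
    (hred : ∀ a : 𝓞 K, (p : 𝓞 K) ∣ a ^ 2 → (p : 𝓞 K) ∣ a)
    (v : HeightOneSpectrum (𝓞 K)) : TexX.ram K p v ≤ p ^ 0 := by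
  rw [pow_zero]
  by_contra h
  have h1 : 2 ≤ TexX.ram K p v := by omega
  exact not_mem_sq K hp hred v (Ideal.pow_le_pow_right h1 (TexX.mem_pow_ram K hp v))

end Tex1X

open TexX in
/-- Explicit exponent prime to `p`. -/
theorem pr_Tex1 : StTex1.{u} := by
  intro K _ _ p hp hred
  classical
  have hp0 : (p : 𝓞 K) ≠ 0 := p_ne_zero K hp
  have hfin : {v : HeightOneSpectrum (𝓞 K) | v.asIdeal ∣ Ideal.span {(p : 𝓞 K)}}.Finite := by
    apply Ideal.finite_factors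
    intro h
    exact hp0 (Ideal.span_singleton_eq_bot.mp h)
  have hmem : ∀ v : HeightOneSpectrum (𝓞 K), v ∈ hfin.toFinset ↔ (p : 𝓞 K) ∈ v.asIdeal := by
    intro v
    rw [Set.Finite.mem_toFinset]
    show v.asIdeal ∣ Ideal.span {(p : 𝓞 K)} ↔ _
    rw [Ideal.dvd_span_singleton]
  have hq : ∀ v ∈ hfin.toFinset, 1 < Ideal.absNorm v.asIdeal := by
    intro v hv
    have h1 := p_dvd_norm K hp v ((hmem v).mp hv)
    have h2 : Ideal.absNorm v.asIdeal ≠ 0 := by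
      rw [Ne, Ideal.absNorm_eq_zero_iff]
      exact v.ne_bot
    exact hp.one_lt.trans_le (Nat.le_of_dvd (Nat.pos_of_ne_zero h2) h1)
  refine ⟨∏ v ∈ hfin.toFinset, (Ideal.absNorm v.asIdeal - 1), ?_, ?_, ?_⟩
  · refine Finset.prod_ne_zero_iff.mpr fun v hv => ?_
    have := hq v hv
    omega
  · intro h
    rw [Prime.dvd_finsetProd_iff hp.prime] at h
    obtain ⟨v, hv, h1⟩ := h
    have h2 := p_dvd_norm K hp v ((hmem v).mp hv)
    have h3 := hq v hv
    have h4 : p ∣ 1 := by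
      have h5 := Nat.dvd_sub h2 h1
      have h6 : Ideal.absNorm v.asIdeal - (Ideal.absNorm v.asIdeal - 1) = 1 := by omega
      rwa [h6] at h5
    exact hp.one_lt.ne' (Nat.dvd_one.mp h4)
  · intro n u hu
    refine glue K hp _ ?_ n u hu
    intro v hv η hη
    have h1 := exists_exponent_local' K hp v 0 (Tex1X.ram_le_one K hp hred v) η hη
    rw [pow_zero, mul_one] at h1
    have h2 : (Ideal.absNorm v.asIdeal - 1) ∣
        ∏ v ∈ hfin.toFinset, (Ideal.absNorm v.asIdeal - 1) :=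
      Finset.dvd_prod_of_mem (fun v : HeightOneSpectrum (𝓞 K) => Ideal.absNorm v.asIdeal - 1)
        ((hmem v).mpr hv)
    obtain ⟨m, hm⟩ := h2
    rw [hm, pow_mul]
    refine h1.trans ?_
    have := sub_dvd_pow_sub_pow (η ^ (Ideal.absNorm v.asIdeal - 1)) 1 m
    rwa [one_pow] at this

end Pool.Agent.Work.MP_59f3ad_nt.Tw

end

section

/-!
# Roots of the specialisations of a family are bounded by a power of the height
-/

open NumberField IsDedekindDomain Polynomial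

namespace Pool.Agent.Work.MP_59f3ad_nt.Tw

open RootX in
theorem pr_RootG : StRootG := by
  intro σ _ F hF
  choose A hA using fun k : ℕ => eval_bound (F.coeff k)
  obtain ⟨B, hB⟩ : ∃ B : ℕ, ∀ k < F.natDegree, A k ≤ B :=
    ⟨∑ k ∈ Finset.range F.natDegree, A k, fun k hk =>
      Finset.single_le_sum (f := A) (fun i _ => Nat.zero_le _) (Finset.mem_range.2 hk)⟩
  refine ⟨B + 1, fun H hH t ht z hz => ?_⟩
  set G := (F.map (MvPolynomial.eval t)).map (Int.castRingHom ℂ) with hG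
  have hGm : G.Monic := (hF.map _).map _
  have hdeg : G.natDegree ≤ F.natDegree := by
    rw [hG]
    exact natDegree_map_le.trans natDegree_map_le
  have hco : ∀ k < F.natDegree, ‖G.coeff k‖₊ ≤ ((B * H ^ B : ℕ) : NNReal) := by
    intro k hk
    rw [hG, coeff_map, coeff_map]
    have h1 := (hA k H hH t ht).trans (mono_bound (hB k hk) hH)
    rw [← NNReal.coe_le_coe, coe_nnnorm, NNReal.coe_natCast]
    show ‖((MvPolynomial.eval t (F.coeff k) : ℤ) : ℂ)‖ ≤ _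
    rw [Complex.norm_intCast, ← Int.cast_abs, Int.abs_eq_natAbs, Int.cast_natCast]
    exact_mod_cast h1
  have h2 := IsRoot.norm_lt_cauchyBound hGm.ne_zero (a := z) hz
  have h3 : cauchyBound G ≤ ((B * H ^ B : ℕ) : NNReal) + 1 := by
    unfold cauchyBound
    rw [hGm.leadingCoeff, nnnorm_one, div_one]
    gcongr
    refine Finset.sup_le fun k hk => hco k (lt_of_lt_of_le (Finset.mem_range.1 hk) hdeg)
  have h4 : ‖z‖ ≤ ((B * H ^ B + 1 : ℕ) : ℝ) := by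
    have h5 := h2.le.trans h3
    rw [← NNReal.coe_le_coe] at h5
    simpa using h5
  refine h4.trans ?_
  have h6 : B * H ^ B + 1 ≤ (B + 1) * H ^ (B + 1) := by
    calc B * H ^ B + 1 ≤ B * H ^ (B + 1) + H ^ (B + 1) := by
          refine Nat.add_le_add ?_ (Nat.pow_pos hH)
          gcongr <;> omega
      _ = _ := by ring
  exact_mod_cast h6

end Pool.Agent.Work.MP_59f3ad_nt.Tw

end

section

/-!
The exceptional twists `r ≡ 1 mod p - 1` for the explicit family in every signature.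
-/

open NumberField IsDedekindDomain Polynomial

namespace Pool.Agent.Work.MP_59f3ad_nt.Tw

open Pool.Agent.Work.MP_59f3ad_nt Pool.Agent.Work.MP_59f3ad_nt.Multi
open Pool.Agent.Work.MP_59f3ad_nt.Cod

universe u

namespace SixX

theorem genP_map (r1 r2 : ℕ) (t : Ix r1 r2 → ℤ) :
    (genP r1 r2).map (MvPolynomial.eval t) = gg t - 1 := by
  rw [MainX.gg_eq, genP, Multi.genF_map, Multi.genF, genG]
  simp

theorem setupP (hBoxP : StBoxP.{u}) (r1 r2 : ℕ) (hd : 1 ≤ r1 + 2 * r2) :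
    ∃ (Bad : ℕ → ℕ → Set (Ix r1 r2 → ℤ)) (C : ℕ),
      (∀ p : ℕ, p.Prime → ∀ H : ℕ, 1 ≤ H →
        {t : Ix r1 r2 → ℤ | (∀ i, |t i| ≤ H) ∧ t ∈ Bad H p}.ncard ≤
          C * p * H ^ (r1 + 2 * r2 - 1)) ∧
      (∀ p : ℕ, p.Prime → ∀ (m : ℕ) (t0 : Ix r1 r2 → ℤ) (H : ℕ), 1 ≤ m →
        {t : Ix r1 r2 → ℤ | (∀ i, |t i| ≤ H) ∧ (∀ i, (p : ℤ) ^ m ∣ t i - t0 i) ∧
          t ∈ Bad H p}.ncard ≤ C * (H / p ^ m + 1) ^ (r1 + 2 * r2 - 1)) ∧
      ∀ p : ℕ, p.Prime → ∀ H : ℕ, 1 ≤ H → ∀ t : Ix r1 r2 → ℤ, (∀ i, |t i| ≤ H) →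
        t ∉ Bad H p → Irreducible (gg t - 1) →
        ∀ (K : Type u) [Field K] [NumberField K] (x : 𝓞 K), Module.finrank ℚ K = r1 + 2 * r2 →
          aeval x (gg t - 1) = 0 → ∃ w : Fin (r1 + r2 - 1) → (𝓞 K)ˣ, ∀ c1 : ℕ,
          IdxC K x (r1 + 2 * r2) p c1 → PInd K p w (c1 + C * (1 + Nat.log p H)) := by
  classical
  have hcard : Fintype.card (Ix r1 r2) = r1 + 2 * r2 := Ix_card r1 r2
  have : Nonempty (Fin r1 ⊕ Fin r2) := by
    rcases Nat.eq_zero_or_pos r1 with h | h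
    · exact ⟨Sum.inr ⟨0, by omega⟩⟩
    · exact ⟨Sum.inl ⟨0, h⟩⟩
  obtain ⟨j0⟩ := this
  have : Nonempty (Ix r1 r2) := by
    rcases Nat.eq_zero_or_pos r1 with h | h
    · exact ⟨Sum.inr (Sum.inl ⟨0, by omega⟩)⟩
    · exact ⟨Sum.inl ⟨0, h⟩⟩
  obtain ⟨i0⟩ := this
  obtain ⟨hPm, hPd⟩ := GenUnits.genP_monic_natDegree r1 r2 hd
  have hprod : (∏ j, AdjoinRoot.mk (genP r1 r2) (Multi.genH r1 r2 j)) = 1 := by
    rw [← map_prod]
    have h1 : (∏ j, Multi.genH r1 r2 j) = genP r1 r2 + 1 := by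
      rw [GenUnits.genP_eq]
      ring
    rw [h1, map_add, AdjoinRoot.mk_self, zero_add, map_one]
  have hunit : ∀ j, IsUnit (AdjoinRoot.mk (genP r1 r2) (Multi.genH r1 r2 j)) := by
    intro j
    rw [isUnit_iff_dvd_one, ← hprod]
    exact Finset.dvd_prod_of_mem _ (Finset.mem_univ j)
  let u0 : Fin r1 ⊕ Fin r2 → (AdjoinRoot (genP r1 r2))ˣ := fun j => (hunit j).unit
  have hu0 : ∀ j, (u0 j : AdjoinRoot (genP r1 r2)) = AdjoinRoot.mk _ (Multi.genH r1 r2 j) :=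
    fun j => rfl
  have hn' : Fintype.card {j : Fin r1 ⊕ Fin r2 // j ≠ j0} = r1 + r2 - 1 := by
    rw [Fintype.card_subtype_compl, Fintype.card_sum, Fintype.card_fin, Fintype.card_fin]
    simp
  let e : Fin (r1 + r2 - 1) ≃ {j : Fin r1 ⊕ Fin r2 // j ≠ j0} :=
    (finCongr hn'.symm).trans (Fintype.equivFin _).symm
  have hu : ∀ E : Fin (r1 + r2 - 1) → ℤ, E ≠ 0 → Transcendental ℤ
      ((∏ i, u0 (e i).1 ^ E i : (AdjoinRoot (genP r1 r2))ˣ) : AdjoinRoot (genP r1 r2)) := by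
    intro E hE
    let E' : Fin r1 ⊕ Fin r2 → ℤ := fun j => if h : j ≠ j0 then E (e.symm ⟨j, h⟩) else 0
    have hE'0 : E' j0 = 0 := by simp [E']
    have hE'e : ∀ i, E' (e i).1 = E i := by
      intro i
      have h1 : (e i).1 ≠ j0 := (e i).2
      simp only [E']
      rw [dif_pos h1]
      simp
    have hE' : E' ≠ 0 := by
      intro h
      apply hE
      funext i
      rw [← hE'e, h]
      rfl
    have h1 : ∏ j, u0 j ^ E' j = ∏ i, u0 (e i).1 ^ E i := by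
      have h2 : ∏ j, u0 j ^ E' j = ∏ j : {j : Fin r1 ⊕ Fin r2 // j ≠ j0}, u0 j.1 ^ E' j.1 := by
        rw [← Finset.mul_prod_erase Finset.univ _ (Finset.mem_univ j0), hE'0, zpow_zero, one_mul]
        exact Finset.prod_subtype _ (fun j => by simp) _
      rw [h2, ← e.prod_comp]
      exact Finset.prod_congr rfl fun i _ => by rw [hE'e]
    rw [← h1]
    exact gen_transcendental r1 r2 hd u0 hu0 j0 E' hE'0 hE'
  obtain ⟨Bad, C, hC1, hC2, hBad⟩ := hBoxP (Ix r1 r2) (genP r1 r2) hPm i0 (r1 + r2 - 1)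
    (fun i => u0 (e i).1) hu
  rw [hcard] at hC1 hC2
  rw [hPd] at hBad
  refine ⟨Bad, C, hC1, fun p hp m t0 H hm => hC2 p hp m hm t0 H,
    fun p hp H hH t ht htB hirr K _ _ x hK hx => ?_⟩
  exact hBad p hp H hH t ht htB (by rw [genP_map]; exact hirr) K x hK (by rw [genP_map]; exact hx)

theorem card_primeFactors_le (h : ℕ) (hh : h ≠ 0) : h.primeFactors.card ≤ Nat.log 2 h := by
  refine Nat.le_log_of_pow_le (by norm_num) ?_
  calc 2 ^ h.primeFactors.card = ∏ _p ∈ h.primeFactors, 2 := by rw [Finset.prod_const]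
    _ ≤ ∏ p ∈ h.primeFactors, p :=
        Finset.prod_le_prod' fun p hp => (Nat.prime_of_mem_primeFactors hp).two_le
    _ ≤ h := Nat.le_of_dvd (Nat.pos_of_ne_zero hh) (Nat.prod_primeFactors_dvd h)

theorem pind_mono {K : Type*} [Field K] [NumberField K] {p n : ℕ} {w : Fin n → (𝓞 K)ˣ} {c c' : ℕ}
    (h : PInd K p w c) (hc : c ≤ c') : PInd K p w c' := fun m E hE =>
  h m E ((pow_dvd_pow _ (by omega)).trans hE)

end SixX

/-- The theorem on the explicit family. -/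
def StSix : Prop := ∀ r1 r2 k : ℕ, 1 ≤ r1 + 2 * r2 → 1 ≤ k → k ≤ r2 + 1 →
  (Even k ∨ 1 ≤ r1) → ∃ A : ℕ, ∀ H : ℕ, 2 ≤ H → ∃ Bad : Set (Fin r1 ⊕ Fin r2 ⊕ Fin r2 → ℤ),
    ({t : Fin r1 ⊕ Fin r2 ⊕ Fin r2 → ℤ | (∀ i, |t i| ≤ H) ∧ t ∈ Bad}.ncard : ℝ) ≤
      A * (H : ℝ) ^ (r1 + 2 * r2) / Real.log H ∧
    ∀ t : Fin r1 ⊕ Fin r2 ⊕ Fin r2 → ℤ, (∀ i, |t i| ≤ H) → t ∉ Bad →
      ∀ f : ℤ[X], f = (∏ i : Fin r1, (X - C (t (Sum.inl i)))) *
        ∏ j : Fin r2, ((X - C (t (Sum.inr (Sum.inl j)))) ^ 2 +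
          C (2 * t (Sum.inr (Sum.inr j)) ^ 2)) - 1 →
      Irreducible (f.map (Int.castRingHom ℚ)) ∧
      ∀ (K : Type u) [Field K] [NumberField K] (x : K), aeval x f = 0 →
        Module.finrank ℚ K = r1 + 2 * r2 →
        InfinitePlace.nrRealPlaces K = r1 ∧ InfinitePlace.nrComplexPlaces K = r2 ∧
        (∀ (p : ℕ) [Fact p.Prime], p ^ (k + 1) ≤ H ^ k → (∀ ζ : K, ζ ^ p = 1 → ζ = 1) →
          ∀ S : Set (HeightOneSpectrum (𝓞 K)),
          (∀ v : HeightOneSpectrum (𝓞 K), (p : 𝓞 K) ∈ v.asIdeal → v ∈ S) →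
          GoodB K p S (A * H ^ A)) ∧
        ∃ P : Finset ℕ, (P.card : ℝ) ≤ A * (Real.log H) ^ 2 ∧
          ∀ (p : ℕ) [Fact p.Prime], p ^ (k + 1) ≤ H ^ k → p ∉ P →
          ∀ S : Set (HeightOneSpectrum (𝓞 K)),
          (∀ v : HeightOneSpectrum (𝓞 K), (p : 𝓞 K) ∈ v.asIdeal → v ∈ S) →
          ∀ r : ℤ, ((p : ℤ) - 1) ∣ r - 1 → Sha1 K p r S = ⊥

open SixX CoreX in
theorem stSix (hBoxP : StBoxP.{u}) (hAll : StAll.{u}) (hDenK : StDenK) (hPrime1 : StPrime1.{u})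
    (hMk : StMk) (hRootG : StRootG) (hTwo1 : StTwo1.{u}) (hLL : StLL.{u}) (hLL1 : StLL1.{u})
    (hTex : StTex.{u}) (hTex1 : StTex1.{u}) (hRed : StRed.{u}) (hIdx : StIdx.{u})
    (hHcl : StHcl.{u}) (hSig : StSig.{u}) (hZp : StZp) : StSix.{u} := by
  classical
  intro r1 r2 k hd hk1 hk2 hk3
  have hcard : Fintype.card (Ix r1 r2) = r1 + 2 * r2 := Ix_card r1 r2
  obtain ⟨hPm, hPd⟩ := GenUnits.genP_monic_natDegree r1 r2 hd
  obtain ⟨Bad0, C0, hC1, hC2, hBad⟩ := setupP.{u} hBoxP r1 r2 hd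
  obtain ⟨Ca, hCa⟩ := hAll r1 r2 k hd hk1 hk2 hk3 C0
  let Bad1 : ℕ → ℕ → Set (Ix r1 r2 → ℤ) := fun H p =>
    {t | t ∈ Bad0 H p ∧ Irreducible (gg t - 1) ∧ ¬ NB1.{u} r1 r2 p t}
  have hB1 : ∀ p : ℕ, p.Prime → ∀ H : ℕ, 1 ≤ H →
      {t : Ix r1 r2 → ℤ | (∀ i, |t i| ≤ H) ∧ t ∈ Bad1 H p}.ncard ≤
        Ca * (p ^ k * H ^ (r1 + 2 * r2 - k) + H ^ (r1 + 2 * r2 - 1)) := by
    intro p hp H hH
    exact hCa p hp H hH (Bad0 H p) (hC1 p hp H hH) (fun m hm t0 => hC2 p hp m t0 H hm)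
  obtain ⟨D1, hD1⟩ := hDenK (Ix r1 r2) k Ca hk1 (by rw [hcard]; omega)
  have hD1' := hD1 Bad1 (by rw [hcard]; exact hB1)
  rw [hcard] at hD1'
  obtain ⟨C5, p0, hP1⟩ := hPrime1 r1 r2 k hd hk1 hk2 hk3
  let Bad2 : ℕ → Set (Ix r1 r2 → ℤ) := fun p =>
    {t | Irreducible (gg t - 1) ∧ (¬ ((gg t - 1).map (red p)).Separable ∨ ¬ NB1.{u} r1 r2 p t)}
  obtain ⟨C6, hC6⟩ := hMk (Ix r1 r2) k C5 p0 hk1 (by rw [hcard]; omega)
  have hMk' := hC6 Bad2 (fun p hp hpp H hH => by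
    rw [hcard]
    haveI := Fact.mk hp
    exact hP1 p hpp H hH)
  rw [hcard] at hMk'
  obtain ⟨C2', hS⟩ := sep_count r1 r2
  obtain ⟨Cr, hCr⟩ := hRootG (Ix r1 r2) (genP r1 r2) hPm
  obtain ⟨Cg, hCg⟩ := good_core.{u} hTwo1 hLL hTex hIdx hHcl (r1 + 2 * r2) (r1 + r2 - 1) (C0 + 1) Cr
  have hbox := fun H => BoundX.box_finite (Ix r1 r2) H
  let Sep : (Ix r1 r2 → ℤ) → Prop := fun t =>
    (∀ i j : Fin r1, i ≠ j → 4 ≤ |t (Sum.inl i) - t (Sum.inl j)|) ∧
    (∀ k l : Fin r2, k ≠ l → 4 ≤ |t (Sum.inr (Sum.inl k)) - t (Sum.inr (Sum.inl l))|) ∧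
    (∀ k : Fin r2, 3 ≤ |t (Sum.inr (Sum.inr k))|)
  let Bad3 : ℕ → Set (Ix r1 r2 → ℤ) := fun H => {t | ∃ p : ℕ, p.Prime ∧ p ^ (k + 1) ≤ H ^ k ∧
      t ∈ Bad1 H p}
  let Bad4 : ℕ → Set (Ix r1 r2 → ℤ) := fun H => {t | (Real.log H) ^ 2 <
    ({p : ℕ | p.Prime ∧ p0 < p ∧ p ^ (k + 1) ≤ H ^ k ∧ t ∈ Bad2 p}.ncard : ℝ)}
  refine ⟨D1 + C6 + C2' + (3 * (p0 + (r1 + 2 * r2) + 3) + 5 * Cg + 1), fun H hH =>
    ⟨{t | ¬ Sep t} ∪ (Bad3 H ∪ Bad4 H), ?_, ?_⟩⟩
  · have hH1 : (1 : ℝ) ≤ H := by exact_mod_cast (by omega : 1 ≤ H)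
    have hL : (0 : ℝ) < Real.log H := Real.log_pos (by exact_mod_cast hH)
    have h1 : {t : Ix r1 r2 → ℤ | (∀ i, |t i| ≤ H) ∧ t ∈ {t | ¬ Sep t} ∪ (Bad3 H ∪ Bad4 H)} ⊆
        {t : Ix r1 r2 → ℤ | (∀ i, |t i| ≤ H) ∧ ¬ Sep t} ∪
        ({t : Ix r1 r2 → ℤ | (∀ i, |t i| ≤ H) ∧ ∃ p : ℕ, p.Prime ∧ p ^ (k + 1) ≤ H ^ k ∧
          t ∈ Bad1 H p} ∪ {t : Ix r1 r2 → ℤ | (∀ i, |t i| ≤ H) ∧ (Real.log H) ^ 2 <
          ({p : ℕ | p.Prime ∧ p0 < p ∧ p ^ (k + 1) ≤ H ^ k ∧ t ∈ Bad2 p}.ncard : ℝ)}) := by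
      rintro t ⟨ht, ht' | ht' | ht'⟩
      · exact Or.inl ⟨ht, ht'⟩
      · exact Or.inr (Or.inl ⟨ht, ht'⟩)
      · exact Or.inr (Or.inr ⟨ht, ht'⟩)
    have h2 := ((Set.ncard_le_ncard h1 (((hbox H).subset fun t ht => ht.1).union
      (((hbox H).subset fun t ht => ht.1).union ((hbox H).subset fun t ht => ht.1)))).trans
      (Set.ncard_union_le _ _)).trans (Nat.add_le_add_left (Set.ncard_union_le _ _) _)
    have h3 : (({t : Ix r1 r2 → ℤ | (∀ i, |t i| ≤ H) ∧ t ∈ {t | ¬ Sep t} ∪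
        (Bad3 H ∪ Bad4 H)}.ncard : ℕ) : ℝ) ≤
        ({t : Ix r1 r2 → ℤ | (∀ i, |t i| ≤ H) ∧ ¬ Sep t}.ncard : ℝ) +
        (({t : Ix r1 r2 → ℤ | (∀ i, |t i| ≤ H) ∧ ∃ p : ℕ, p.Prime ∧ p ^ (k + 1) ≤ H ^ k ∧
          t ∈ Bad1 H p}.ncard : ℝ) + ({t : Ix r1 r2 → ℤ | (∀ i, |t i| ≤ H) ∧ (Real.log H) ^ 2 <
          ({p : ℕ | p.Prime ∧ p0 < p ∧ p ^ (k + 1) ≤ H ^ k ∧ t ∈ Bad2 p}.ncard : ℝ)}.ncard : ℝ)) := by
      exact_mod_cast h2
    have h4 : ({t : Ix r1 r2 → ℤ | (∀ i, |t i| ≤ H) ∧ ¬ Sep t}.ncard : ℝ) ≤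
        C2' * (H : ℝ) ^ (r1 + 2 * r2) / Real.log H := by
      have h5 : ({t : Ix r1 r2 → ℤ | (∀ i, |t i| ≤ H) ∧ ¬ Sep t}.ncard : ℝ) ≤
          C2' * (H : ℝ) ^ (r1 + 2 * r2 - 1) := by
        exact_mod_cast hS H (by omega)
      refine h5.trans ?_
      rw [le_div_iff₀ hL, mul_assoc]
      refine mul_le_mul_of_nonneg_left ?_ (Nat.cast_nonneg _)
      have h6 : Real.log H ≤ H := Real.log_le_self (by positivity)
      calc (H : ℝ) ^ (r1 + 2 * r2 - 1) * Real.log H ≤ (H : ℝ) ^ (r1 + 2 * r2 - 1) * H := by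
            gcongr
        _ = (H : ℝ) ^ (r1 + 2 * r2) := by
            rw [← pow_succ]
            congr 1
            omega
    have h7 : (0 : ℝ) ≤ (3 * (p0 + (r1 + 2 * r2) + 3) + 5 * Cg + 1) * (H : ℝ) ^ (r1 + 2 * r2) /
        Real.log H := by positivity
    calc _ ≤ _ := h3
      _ ≤ C2' * (H : ℝ) ^ (r1 + 2 * r2) / Real.log H + (D1 * (H : ℝ) ^ (r1 + 2 * r2) / Real.log H +
          C6 * (H : ℝ) ^ (r1 + 2 * r2) / Real.log H) :=
          add_le_add h4 (add_le_add (hD1' H hH) (hMk' H hH))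
      _ ≤ C2' * (H : ℝ) ^ (r1 + 2 * r2) / Real.log H + (D1 * (H : ℝ) ^ (r1 + 2 * r2) / Real.log H +
          C6 * (H : ℝ) ^ (r1 + 2 * r2) / Real.log H) +
          (3 * (p0 + (r1 + 2 * r2) + 3) + 5 * Cg + 1) * (H : ℝ) ^ (r1 + 2 * r2) /
        Real.log H := le_add_of_nonneg_right h7
      _ = _ := by push_cast; ring
  intro t htH ht f hf
  rw [Set.mem_union, Set.mem_union, not_or, not_or, Set.mem_setOf_eq, not_not] at ht
  obtain ⟨⟨hta, htb, htc⟩, ht3, ht4⟩ := ht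
  have hfam : f = Multi.genF (fun i => t (Sum.inl i)) (fun k => t (Sum.inr (Sum.inl k)))
    (fun k => t (Sum.inr (Sum.inr k))) := by rw [hf, Multi.genF, genG]
  have hgg : f = gg t - 1 := by rw [hf, MainX.gg_eq]
  have hinj : ∀ {m : ℕ} (a : Fin m → ℤ), (∀ i j, i ≠ j → 4 ≤ |a i - a j|) →
      Function.Injective a := by
    intro m a h i j hij
    by_contra hne
    have h1 := h i j hne
    rw [hij, sub_self, abs_zero] at h1
    norm_num at h1
  have hfm : f.Monic := by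
    rw [hgg]
    exact ff_monic t hd
  have hfd : f.natDegree = r1 + 2 * r2 := by
    rw [hgg, ← genP_map, hPm.natDegree_map, hPd]
  have hirr : Irreducible f := by
    rw [hfam]
    exact Multi.genF_irreducible _ _ _ (hinj _ hta) (hinj _ htb)
      (fun k h => by have := htc k; rw [h] at this; norm_num at this) hd
  refine ⟨(IsPrimitive.Int.irreducible_iff_irreducible_map_cast hfm.isPrimitive).mp hirr,
    fun K _ _ x hx hK => ?_⟩
  have hxint : IsIntegral ℤ x := ⟨f, hfm, hx⟩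
  obtain ⟨y, hy⟩ : ∃ y : 𝓞 K, algebraMap (𝓞 K) K y = x := ⟨⟨x, hxint⟩, rfl⟩
  have hy0 : aeval y f = 0 := by
    apply FaithfulSMul.algebraMap_injective (𝓞 K) K
    rw [map_zero, ← hx, ← hy]
    exact (aeval_algebraMap_apply K y f).symm
  have hr := gen_nrReal_eq _ _ _ y hta htb htc hd hK (by rw [← hfam]; exact hy0)
  have hc := gen_nrComplex_eq _ _ _ y hta htb htc hd hK (by rw [← hfam]; exact hy0)
  have hrank : Units.rank K = r1 + r2 - 1 := by
    rw [Units.rank, InfinitePlace.card_eq_nrRealPlaces_add_nrComplexPlaces, hr, hc]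
  have hroot : ∀ z : ℂ, (f.map (Int.castRingHom ℂ)).eval z = 0 → ‖z‖ ≤ Cr * (H : ℝ) ^ Cr := by
    intro z hz
    exact hCr H (by omega) t htH z (by rw [genP_map, ← hgg]; exact hz)
  have hpH : ∀ p : ℕ, p ^ (k + 1) ≤ H ^ k → p ≤ H := by
    intro p hp
    by_contra hcon
    have h1 : H + 1 ≤ p := by omega
    have h2 : (H + 1) ^ (k + 1) ≤ p ^ (k + 1) := Nat.pow_le_pow_left h1 _
    have h3 : H ^ k ≤ (H + 1) ^ k := Nat.pow_le_pow_left (by omega) _
    have h4 : (H + 1) ^ k < (H + 1) ^ (k + 1) := Nat.pow_lt_pow_right (by omega) (by omega)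
    omega
  have hcl : classNumber K ≤ Cg * H ^ Cg :=
    (hCg H 2 (by omega) f hfm hfd hirr hroot K y hK hy0).1
  refine ⟨hr, hc, ?_, ?_⟩
  · intro p hpf hp hζ S hSp
    have hw : ∃ w : Fin (r1 + r2 - 1) → (𝓞 K)ˣ, ∀ c1 : ℕ, IdxC K y (r1 + 2 * r2) p c1 →
        PInd K p w (c1 + (C0 + 1) * (1 + Nat.log p H)) := by
      by_cases h : t ∈ Bad0 H p
      · have hNB : NB1.{u} r1 r2 p t := by
          by_contra hcon
          exact ht3 ⟨p, hpf.out, hp, h, by rw [← hgg]; exact hirr, hcon⟩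
        obtain ⟨w, hw⟩ := hNB K y hK (by rw [← hgg]; exact hy0)
        exact ⟨w, fun c1 _ => pind_mono hw (by nlinarith [Nat.zero_le c1])⟩
      · obtain ⟨w, hw⟩ := hBad p hpf.out H (by omega) t htH h (by rw [← hgg]; exact hirr) K y hK
          (by rw [← hgg]; exact hy0)
        exact ⟨w, fun c1 hc1 => pind_mono (hw c1 hc1)
          (Nat.add_le_add_left (Nat.mul_le_mul_right _ (by omega)) _)⟩
    obtain ⟨hG1, hG2⟩ := (hCg H p (hpH p hp) f hfm hfd hirr hroot K y hK hy0).2 hrank hζ hw S hSp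
    refine ⟨hG1, fun n r φ hφ hind => (hG2 n r φ hφ hind).trans ?_⟩
    exact Nat.mul_le_mul (by omega) (Nat.pow_le_pow_right (by omega) (by omega))
  · have hfinP : {p : ℕ | p.Prime ∧ p0 < p ∧ p ^ (k + 1) ≤ H ^ k ∧ t ∈ Bad2 p}.Finite :=
      (Set.finite_Iic H).subset fun p hp => hpH p hp.2.2.1
    refine ⟨Finset.range (p0 + (r1 + 2 * r2) + 3) ∪ (classNumber K).primeFactors ∪
      hfinP.toFinset, ?_, ?_⟩
    · have hL2 := Real.log_two_gt_d9
      have hLH : Real.log 2 ≤ Real.log H := Real.log_le_log (by norm_num) (by exact_mod_cast hH)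
      set L := Real.log H with hLdef
      have hL : (0.69 : ℝ) ≤ L := by linarith
      have h1 : (Finset.range (p0 + (r1 + 2 * r2) + 3) ∪ (classNumber K).primeFactors ∪
          hfinP.toFinset).card ≤ (p0 + (r1 + 2 * r2) + 3) + Nat.log 2 (classNumber K) +
          {p : ℕ | p.Prime ∧ p0 < p ∧ p ^ (k + 1) ≤ H ^ k ∧ t ∈ Bad2 p}.ncard := by
        refine (Finset.card_union_le _ _).trans (Nat.add_le_add ?_ ?_)
        · refine (Finset.card_union_le _ _).trans (Nat.add_le_add ?_ ?_)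
          · rw [Finset.card_range]
          · exact card_primeFactors_le _ (classNumber_ne_zero K)
        · rw [Set.ncard_eq_toFinset_card _ hfinP]
      have h2 : ({p : ℕ | p.Prime ∧ p0 < p ∧ p ^ (k + 1) ≤ H ^ k ∧ t ∈ Bad2 p}.ncard : ℝ) ≤
          L ^ 2 := not_lt.mp ht4
      have h3 : (Nat.log 2 (classNumber K) : ℝ) * Real.log 2 ≤ 2 * Cg * L := by
        have h5 : ((2 : ℝ)) ^ Nat.log 2 (classNumber K) ≤ (H : ℝ) ^ (2 * Cg) := by
          have h6 : 2 ^ Nat.log 2 (classNumber K) ≤ H ^ (2 * Cg) := by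
            refine (Nat.pow_log_le_self 2 (classNumber_ne_zero K)).trans (hcl.trans ?_)
            calc Cg * H ^ Cg ≤ H ^ Cg * H ^ Cg := by
                  refine Nat.mul_le_mul_right _ ?_
                  exact (Nat.lt_two_pow_self).le.trans (Nat.pow_le_pow_left hH _)
              _ = H ^ (2 * Cg) := by rw [two_mul, pow_add]
          exact_mod_cast h6
        have h7 := Real.log_le_log (by positivity) h5
        rw [Real.log_pow, Real.log_pow] at h7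
        push_cast at h7
        linarith
      have h8 : (Nat.log 2 (classNumber K) : ℝ) ≤ 5 * Cg * L ^ 2 := by
        have h9 : (Nat.log 2 (classNumber K) : ℝ) * 0.69 ≤ 2 * Cg * L := by
          refine le_trans ?_ h3
          gcongr
          linarith
        have h10 : 2 * (Cg : ℝ) * L * 0.69 ≤ 2 * Cg * L * L := by
          gcongr
        have h11 : (0 : ℝ) ≤ (Cg : ℝ) * L ^ 2 := by positivity
        nlinarith
      have h12 : (1 : ℝ) ≤ 3 * L ^ 2 := by nlinarith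
      have h13 : ((p0 + (r1 + 2 * r2) + 3 : ℕ) : ℝ) ≤ 3 * ((p0 + (r1 + 2 * r2) + 3 : ℕ) : ℝ) * L ^ 2 := by
        have : (0 : ℝ) ≤ ((p0 + (r1 + 2 * r2) + 3 : ℕ) : ℝ) := Nat.cast_nonneg _
        nlinarith
      have h14 : ((Finset.range (p0 + (r1 + 2 * r2) + 3) ∪ (classNumber K).primeFactors ∪
          hfinP.toFinset).card : ℝ) ≤ ((p0 + (r1 + 2 * r2) + 3 : ℕ) : ℝ) +
          (Nat.log 2 (classNumber K) : ℝ) +
          ({p : ℕ | p.Prime ∧ p0 < p ∧ p ^ (k + 1) ≤ H ^ k ∧ t ∈ Bad2 p}.ncard : ℝ) := by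
        exact_mod_cast h1
      refine h14.trans ?_
      have h15 : (0 : ℝ) ≤ (D1 + C6 + C2' : ℝ) * L ^ 2 := by positivity
      push_cast at h13 ⊢
      nlinarith
    · intro p hpf hp hpP S hSp r hrr
      rw [Finset.mem_union, Finset.mem_union, not_or, not_or, Finset.mem_range,
        Nat.mem_primeFactors, Set.Finite.mem_toFinset] at hpP
      obtain ⟨⟨hp1, hp2⟩, hp3⟩ := hpP
      have hpb : p ∉ {p | t ∈ Bad2 p} := fun h => hp3 ⟨hpf.out, by omega, hp, h⟩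
      have hirr' : Irreducible (gg t - 1) := by rw [← hgg]; exact hirr
      have hpb' : ¬ (Irreducible (gg t - 1) ∧ (¬ ((gg t - 1).map (red p)).Separable ∨
        ¬ NB1.{u} r1 r2 p t)) := hpb
      push Not at hpb'
      obtain ⟨hsep, hNB⟩ := hpb' hirr'
      obtain ⟨w, hw⟩ := hNB K y hK (by rw [← hgg]; exact hy0)
      exact none_core hTwo1 hLL1 hTex1 hRed hSig hZp K p
        (no_torsion K p hpf.out (by rw [hK]; omega)) f hfm hirr (by rw [hgg]; exact hsep) y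
        (by rw [hK, hfd]) hy0 _ hrank w hw
        (fun h => hp2 ⟨hpf.out, h, classNumber_ne_zero K⟩) S hSp r hrr

end Pool.Agent.Work.MP_59f3ad_nt.Tw

end
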