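import Mathlib
import Pool.Agent.Work.MP_59f3ad_nt.Tw.Stmts7
import Pool.Agent.Work.MP_59f3ad_nt.Cod.Dig
import Pool.Agent.Work.MP_59f3ad_nt.Cod.QCH
import Pool.Agent.Work.MP_59f3ad_nt.Bdx.B06
import Pool.Agent.Work.MP_59f3ad_nt.Bdx.B04

/-! Bundle of small proof modules (one section per former module). -/

section

/-!
MP_59f3ad_nt, item BadE: the bad residue classes.
-/

open Polynomial

namespace Pool.Agent.Work.MP_59f3ad_nt.Tw

open Pool.Agent.Work.MP_59f3ad_nt Pool.Agent.Work.MP_59f3ad_nt.Cod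

namespace BadEX

/-- evaluation at an integer point, seen over `ℂ` -/
theorem aeval_cast {σ : Type} (t1 : σ → ℤ) :
    (MvPolynomial.aeval (fun i => (t1 i : ℂ)) : MvPolynomial σ ℤ →ₐ[ℤ] ℂ).toRingHom =
      ((algebraMap ℚ ℂ).comp (Int.castRingHom ℚ)).comp (MvPolynomial.eval t1) := by
  apply MvPolynomial.ringHom_ext
  · intro a
    simp
  · intro i
    simp

theorem sep {σ : Type} {F : (MvPolynomial σ ℤ)[X]} (hF : F.Monic) {t1 : σ → ℤ}
    (ht1 : Irreducible (F.map (MvPolynomial.eval t1))) :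
    (F.map (MvPolynomial.aeval (fun i => (t1 i : ℂ)) :
      MvPolynomial σ ℤ →ₐ[ℤ] ℂ).toRingHom).Separable := by
  rw [aeval_cast]
  have h1 : Irreducible ((F.map (MvPolynomial.eval t1)).map (Int.castRingHom ℚ)) :=
    (IsPrimitive.Int.irreducible_iff_irreducible_map_cast (hF.map _).isPrimitive).mp ht1
  have h2 : (((F.map (MvPolynomial.eval t1)).map (Int.castRingHom ℚ)).map
    (algebraMap ℚ ℂ)).Separable := h1.separable.map
  rwa [Polynomial.map_map, Polynomial.map_map] at h2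

end BadEX

theorem pr_BadE : StRes → StSZ → StBadE := by
  intro hRes hSZ σ _ F hF ⟨t1, ht1⟩ Δ hΔ
  obtain ⟨Γ, hΓ0, hΓ⟩ := hRes σ F (fun i => (t1 i : ℂ)) (hF.natDegree_map _) (BadEX.sep hF ht1)
  obtain ⟨C1, p0, hC⟩ := hSZ σ (Γ * Δ) (mul_ne_zero hΓ0 hΔ)
  refine ⟨C1, max p0 F.natDegree, fun p _ hp => ?_⟩
  refine le_trans (Set.ncard_le_ncard ?_ (Set.toFinite _))
    (hC p (lt_of_le_of_lt (le_max_left _ _) hp))
  have hfact : ((F.natDegree.factorial : ℕ) : ZMod p) ≠ 0 := by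
    intro h0
    rw [ZMod.natCast_eq_zero_iff, (Fact.out : p.Prime).dvd_factorial] at h0
    exact absurd (lt_of_le_of_lt (le_max_right _ _) hp) (not_lt.mpr h0)
  intro y hy
  show MvPolynomial.aeval y (Γ * Δ) = 0
  rw [map_mul]
  rcases hy with h | h
  · by_cases hne : MvPolynomial.aeval y Γ = 0
    · rw [hne, zero_mul]
    · exact absurd (hΓ (ZMod p) y hfact hne) h
  · rw [h, mul_zero]

end Pool.Agent.Work.MP_59f3ad_nt.Tw

end

section

/-! MP_59f3ad_nt, Tw: counting the points of a box in bad classes modulo `p`, or with few bad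
digits in one direction modulo `p ^ 2`. -/

set_option autoImplicit false

namespace Pool.Agent.Work.MP_59f3ad_nt.Tw

namespace CntVX

theorem fib {X Y : Type} (A : Set X) (hA : A.Finite) (f : X → Y) (F : Set Y) (hF : F.Finite)
    (hmap : ∀ a ∈ A, f a ∈ F) (M : ℕ) (hM : ∀ y ∈ F, {a | a ∈ A ∧ f a = y}.ncard ≤ M) :
    A.ncard ≤ M * F.ncard := by
  classical
  rw [Set.ncard_eq_toFinset_card A hA, Set.ncard_eq_toFinset_card F hF]
  refine Finset.card_le_mul_card_image_of_maps_to (f := f) ?_ M ?_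
  · intro a ha
    rw [Set.Finite.mem_toFinset] at ha ⊢
    exact hmap a ha
  · intro y hy
    rw [Set.Finite.mem_toFinset] at hy
    refine le_trans (le_of_eq ?_) (hM y hy)
    rw [← Set.ncard_coe_finset]
    congr 1
    ext a
    simp only [Finset.coe_filter, Set.Finite.mem_toFinset]

variable {σ : Type} [Fintype σ]

theorem box_finite (H : ℕ) : {t : σ → ℤ | ∀ i, |t i| ≤ H}.Finite := by
  have h : {t : σ → ℤ | ∀ i, |t i| ≤ H} ⊆ Set.pi Set.univ fun _ => Set.Icc (-(H : ℤ)) H := by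
    intro t ht i _
    exact abs_le.1 (ht i)
  exact (Set.Finite.pi fun _ => Set.finite_Icc _ _).subset h

/-- the points of a box in a class modulo `m` -/
theorem cls {m H : ℕ} (hm : 0 < m) (hmH : m ≤ H) (t0 : σ → ℤ) :
    {t : σ → ℤ | (∀ i, |t i| ≤ H) ∧ ∀ i, (m : ℤ) ∣ t i - t0 i}.ncard ≤
      (4 * (H / m)) ^ Fintype.card σ := by
  classical
  have hm' : (0 : ℤ) < m := by exact_mod_cast hm
  have hq : 1 ≤ H / m := (Nat.one_le_div_iff hm).2 hmH
  set Y : Finset (σ → ℤ) :=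
    Fintype.piFinset fun _ => Finset.Icc (-((H / m : ℕ) : ℤ) - 1) ((H / m : ℕ) : ℤ) with hY
  have hYc : Y.card ≤ (4 * (H / m)) ^ Fintype.card σ := by
    rw [hY, Fintype.card_piFinset]
    simp only [Int.card_Icc, Finset.prod_const, Finset.card_univ]
    refine Nat.pow_le_pow_left ?_ _
    omega
  refine le_trans ?_ hYc
  rw [← Set.ncard_coe_finset Y]
  refine Set.ncard_le_ncard_of_injOn (fun t i => t i / (m : ℤ)) ?_ ?_ (Finset.finite_toSet Y)
  · rintro t ⟨ht, -⟩
    rw [Finset.mem_coe, hY, Fintype.mem_piFinset]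
    intro i
    obtain ⟨h1, h2⟩ := abs_le.1 (ht i)
    have h3 : (H : ℤ) < m * ((H / m : ℕ) + 1) := by
      exact_mod_cast Nat.lt_mul_div_succ H hm
    rw [Finset.mem_Icc]
    constructor
    · rw [Int.le_ediv_iff_mul_le hm']
      nlinarith
    · have h4 : t i / m ≤ (H : ℤ) / m := Int.ediv_le_ediv hm' h2
      exact_mod_cast h4
  · rintro t ⟨-, ht⟩ t' ⟨-, ht'⟩ h
    funext i
    have h1 : t i / (m : ℤ) = t' i / (m : ℤ) := congrFun h i
    have h2 : (m : ℤ) ∣ t i - t' i := by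
      have := dvd_sub (ht i) (ht' i)
      rwa [sub_sub_sub_cancel_right] at this
    have h3 : t i % (m : ℤ) = t' i % (m : ℤ) :=
      Int.emod_eq_emod_iff_emod_sub_eq_zero.2 (Int.emod_eq_zero_of_dvd h2)
    rw [← Int.mul_ediv_add_emod (t i) m, ← Int.mul_ediv_add_emod (t' i) m, h1, h3]

/-- the digits of `t`. -/
def dig (p : ℕ) (t : σ → ℤ) : (σ → ZMod p) × (σ → ZMod p) :=
  (fun i => ((t i : ℤ) : ZMod p), fun i => ((t i / p : ℤ) : ZMod p))

omit [Fintype σ] in
theorem dig_inj {p : ℕ} {t t' : σ → ℤ} (h : dig p t = dig p t') (i : σ) :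
    ((p : ℤ)) ^ 2 ∣ t i - t' i := by
  have h1 : ((t i : ℤ) : ZMod p) = ((t' i : ℤ) : ZMod p) :=
    congrFun (congrArg (fun x => x.1) h) i
  have h2 : ((t i / p : ℤ) : ZMod p) = ((t' i / p : ℤ) : ZMod p) :=
    congrFun (congrArg (fun x => x.2) h) i
  have h3 : t i % p = t' i % p := (ZMod.intCast_eq_intCast_iff _ _ p).1 h1
  obtain ⟨q, hq⟩ := (ZMod.intCast_eq_intCast_iff_dvd_sub _ _ _).1 h2.symm
  refine ⟨q, ?_⟩
  have e1 := Int.emod_add_mul_ediv (t i) p
  have e2 := Int.emod_add_mul_ediv (t' i) p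
  rw [← e1, ← e2, h3]
  linear_combination (p : ℤ) * hq

/-- few digits in the direction `v`, hence few digits. -/
theorem digits_card {p N : ℕ} [Fact p.Prime] (v : σ → ZMod p) (T : Set (σ → ℤ))
    (E : Set (σ → ZMod p)) (S : Set (σ → ℤ)) (hTS : ∀ t ∈ T, t ∈ S)
    (hTE : ∀ t ∈ T, (fun i => ((t i : ℤ) : ZMod p)) ∉ E)
    (h : ∀ t0 : σ → ℤ, (fun i => ((t0 i : ℤ) : ZMod p)) ∉ E → ∀ s' : σ → ℤ,
      {τ : ZMod p | ∃ s : σ → ℤ,
        (∀ i, ((s i : ℤ) : ZMod p) = ((s' i : ℤ) : ZMod p) + τ * v i) ∧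
        (fun i => t0 i + p * s i) ∈ S}.ncard ≤ N) :
    p * (dig p '' T).ncard ≤ N * (p ^ 2) ^ Fintype.card σ := by
  classical
  have hcard : (Set.univ : Set ((σ → ZMod p) × (σ → ZMod p))).ncard =
      (p ^ 2) ^ Fintype.card σ := by
    rw [Set.ncard_univ, Nat.card_prod, Nat.card_fun, Nat.card_eq_fintype_card,
      Nat.card_eq_fintype_card, ZMod.card, ← pow_add, ← pow_mul]
    congr 1
    omega
  have hu : (Set.univ : Set (ZMod p)).ncard = p := by
    rw [Set.ncard_univ, Nat.card_eq_fintype_card, ZMod.card]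
  -- the pairs
  set P : Set (((σ → ZMod p) × (σ → ZMod p)) × ZMod p) :=
    {a | (a.1.1, fun i => a.1.2 i + a.2 * v i) ∈ dig p '' T} with hP
  have h1 : p * (dig p '' T).ncard ≤ P.ncard := by
    have h2 : ((dig p '' T) ×ˢ (Set.univ : Set (ZMod p))).ncard = p * (dig p '' T).ncard := by
      rw [Set.ncard_prod, hu, mul_comm]
    rw [← h2]
    refine Set.ncard_le_ncard_of_injOn
      (fun a => ((a.1.1, fun i => a.1.2 i - a.2 * v i), a.2)) ?_ ?_ (Set.toFinite _)
    · rintro ⟨⟨a, b⟩, τ⟩ ⟨ha, -⟩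
      show (a, fun i => (b i - τ * v i) + τ * v i) ∈ dig p '' T
      have h3 : (fun i => (b i - τ * v i) + τ * v i) = b := by
        funext i
        ring
      rw [h3]
      exact ha
    · rintro ⟨⟨a, b⟩, τ⟩ - ⟨⟨a', b'⟩, τ'⟩ - hab
      simp only [Prod.mk.injEq] at hab
      obtain ⟨⟨h4, h5⟩, h6⟩ := hab
      subst h4 h6
      have h7 : b = b' := by
        funext i
        have := congrFun h5 i
        simpa using this
      rw [h7]
  refine h1.trans ?_
  rw [← hcard]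
  refine fib _ (Set.toFinite _) (fun x => x.1) Set.univ (Set.toFinite _) (fun _ _ => Set.mem_univ _)
    N ?_
  rintro ⟨u, w⟩ -
  rcases Set.eq_empty_or_nonempty {a | a ∈ P ∧ a.1 = (u, w)} with h2 | ⟨x, ⟨t1, ht1, hx1⟩, hx⟩
  · rw [h2, Set.ncard_empty]
    exact Nat.zero_le _
  · have h5 : (fun i => ((t1 i : ℤ) : ZMod p)) = u := by
      have h6 := congrArg Prod.fst hx1
      rw [hx] at h6
      exact h6
    have hu' : (fun i => ((t1 i % p : ℤ) : ZMod p)) ∉ E := by
      have h3 := hTE t1 ht1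
      have h4 : (fun i => ((t1 i % p : ℤ) : ZMod p)) = fun i => ((t1 i : ℤ) : ZMod p) := by
        funext i
        exact ZMod.intCast_mod _ _
      rwa [h4]
    refine le_trans ?_ (h (fun i => t1 i % p) hu' (fun i => ((w i).val : ℤ)))
    refine Set.ncard_le_ncard_of_injOn (fun x => x.2) ?_ ?_ (Set.toFinite _)
    · rintro y ⟨⟨t, ht, hy1⟩, hy⟩
      rw [hy] at hy1
      have h7 : (fun i => ((t i : ℤ) : ZMod p)) = u := congrArg Prod.fst hy1
      have h8 : (fun i => ((t i / p : ℤ) : ZMod p)) = fun i => w i + y.2 * v i :=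
        congrArg Prod.snd hy1
      refine ⟨fun i => t i / p, fun i => ?_, ?_⟩
      · rw [Int.cast_natCast, ZMod.natCast_zmod_val]
        exact congrFun h8 i
      · have h9 : (fun i => t1 i % p + p * (t i / p)) = t := by
          funext i
          have h10 : ((t i : ℤ) : ZMod p) = ((t1 i : ℤ) : ZMod p) :=
            congrFun (h7.trans h5.symm) i
          have h11 : t i % p = t1 i % p := (ZMod.intCast_eq_intCast_iff _ _ p).1 h10
          rw [← h11]
          exact Int.emod_add_mul_ediv (t i) p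
        show (fun i => t1 i % p + p * (t i / p)) ∈ S
        rw [h9]
        exact hTS t ht
    · rintro x ⟨_, hx1⟩ y ⟨_, hy1⟩ hxy
      exact Prod.ext (hx1.trans hy1.symm) hxy

end CntVX

open CntVX in
theorem pr_CntV : StCntV := by
  intro σ _ N C1 hd1
  classical
  refine ⟨4 ^ Fintype.card σ * (C1 + N), ?_⟩
  intro p _ H hpH v S E hE hdig
  have hp : 0 < p := (Fact.out : p.Prime).pos
  have hpH1 : p ≤ H := by
    refine le_trans ?_ hpH
    nlinarith
  set d := Fintype.card σ with hd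
  set A : Set (σ → ℤ) := {t | (∀ i, |t i| ≤ H) ∧ (fun i => ((t i : ℤ) : ZMod p)) ∈ E} with hA
  set B : Set (σ → ℤ) :=
    {t | ((∀ i, |t i| ≤ H) ∧ t ∈ S) ∧ (fun i => ((t i : ℤ) : ZMod p)) ∉ E} with hB
  have hAfin : A.Finite := (box_finite H).subset fun t ht => ht.1
  have hBfin : B.Finite := (box_finite H).subset fun t ht => ht.1.1
  have hsplit : {t : σ → ℤ | (∀ i, |t i| ≤ H) ∧
      (t ∈ S ∨ (fun i => ((t i : ℤ) : ZMod p)) ∈ E)} ⊆ A ∪ B := by
    rintro t ⟨h1, h2⟩
    by_cases h : (fun i => ((t i : ℤ) : ZMod p)) ∈ E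
    · exact Or.inl ⟨h1, h⟩
    · exact Or.inr ⟨⟨h1, h2.resolve_right h⟩, h⟩
  have h0 := (Set.ncard_le_ncard hsplit (hAfin.union hBfin)).trans (Set.ncard_union_le A B)
  -- the classes in E
  have h1 : A.ncard ≤ (4 * (H / p)) ^ d * (C1 * p ^ (d - 1)) := by
    refine (fib A hAfin (fun t => fun i => ((t i : ℤ) : ZMod p)) E (Set.toFinite E)
      (fun t ht => ht.2) ((4 * (H / p)) ^ d) fun e _ => ?_).trans (Nat.mul_le_mul_left _ hE)
    rcases Set.eq_empty_or_nonempty {a : σ → ℤ | a ∈ A ∧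
      (fun i => ((a i : ℤ) : ZMod p)) = e} with h2 | ⟨t0, ht0⟩
    · rw [h2, Set.ncard_empty]
      exact Nat.zero_le _
    · refine (Set.ncard_le_ncard ?_ ((box_finite H).subset fun t ht => ht.1)).trans
        (cls hp hpH1 t0)
      rintro t ⟨⟨h3, _⟩, h5⟩
      refine ⟨h3, fun i => ?_⟩
      have h6 : ((t i : ℤ) : ZMod p) = ((t0 i : ℤ) : ZMod p) := by
        rw [← ht0.2] at h5
        exact congrFun h5 i
      exact (ZMod.intCast_eq_intCast_iff_dvd_sub _ _ _).1 h6.symm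
  have h1' : p * A.ncard ≤ 4 ^ d * C1 * H ^ d := by
    have e1 : p * p ^ (d - 1) = p ^ d := by
      rw [← pow_succ']
      congr 1
      omega
    calc p * A.ncard ≤ p * ((4 * (H / p)) ^ d * (C1 * p ^ (d - 1))) := Nat.mul_le_mul_left _ h1
      _ = 4 ^ d * C1 * ((H / p) ^ d * (p * p ^ (d - 1))) := by rw [mul_pow]; ring
      _ = 4 ^ d * C1 * (H / p * p) ^ d := by rw [e1, mul_pow]
      _ ≤ 4 ^ d * C1 * H ^ d :=
          Nat.mul_le_mul_left _ (Nat.pow_le_pow_left (Nat.div_mul_le_self H p) _)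
  -- the other classes
  have h2' : p * B.ncard ≤ 4 ^ d * N * H ^ d := by
    have h2 : B.ncard ≤ (4 * (H / p ^ 2)) ^ d * (dig p '' B).ncard := by
      refine fib B hBfin (dig p) (dig p '' B) (hBfin.image _)
        (fun t ht => Set.mem_image_of_mem _ ht) ((4 * (H / p ^ 2)) ^ d) ?_
      rintro _ ⟨t0, ht0, rfl⟩
      refine (Set.ncard_le_ncard ?_ ((box_finite H).subset fun t ht => ht.1)).trans
        (cls (pow_pos hp 2) hpH t0)
      rintro t ⟨⟨⟨h3, _⟩, _⟩, h5⟩
      refine ⟨h3, fun i => ?_⟩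
      have := dig_inj h5 i
      exact_mod_cast this
    have h3 := digits_card v B E S (fun t ht => ht.1.2) (fun t ht => ht.2) hdig
    calc p * B.ncard ≤ p * ((4 * (H / p ^ 2)) ^ d * (dig p '' B).ncard) :=
          Nat.mul_le_mul_left _ h2
      _ = (4 * (H / p ^ 2)) ^ d * (p * (dig p '' B).ncard) := by ring
      _ ≤ (4 * (H / p ^ 2)) ^ d * (N * (p ^ 2) ^ d) := Nat.mul_le_mul_left _ h3
      _ = 4 ^ d * N * (H / p ^ 2 * p ^ 2) ^ d := by rw [mul_pow, mul_pow]; ring
      _ ≤ 4 ^ d * N * H ^ d :=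
          Nat.mul_le_mul_left _ (Nat.pow_le_pow_left (Nat.div_mul_le_self H _) _)
  calc p * {t : σ → ℤ | (∀ i, |t i| ≤ H) ∧
      (t ∈ S ∨ (fun i => ((t i : ℤ) : ZMod p)) ∈ E)}.ncard
      ≤ p * (A.ncard + B.ncard) := Nat.mul_le_mul_left _ h0
    _ = p * A.ncard + p * B.ncard := by ring
    _ ≤ 4 ^ d * C1 * H ^ d + 4 ^ d * N * H ^ d := Nat.add_le_add h1' h2'
    _ = 4 ^ d * (C1 + N) * H ^ d := by ring

end Pool.Agent.Work.MP_59f3ad_nt.Tw

end

section

/-!
MP_59f3ad_nt, `Tw.DigG`: the digits for which the criterion of first order fails, for a general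
family.
-/

open Polynomial NumberField

namespace Pool.Agent.Work.MP_59f3ad_nt.Tw

open Pool.Agent.Work.MP_59f3ad_nt Pool.Agent.Work.MP_59f3ad_nt.Cod

universe u

namespace DigGX

theorem algebra_step {R : Type*} [CommRing R] (f D Hb Gb Hd qd Mb θ φ δ u v w : R)
    (E1 : Hb * qd - Mb * (θ + Hd * δ) = f * u) (E2 : D * δ + φ = f * v)
    (E3 : Hb * Gb - 1 = f * w) :
    f ∣ D * qd - Mb * (Gb * (D * θ - φ * Hd)) := by
  refine ⟨D * Gb * u - D * qd * w + Mb * Gb * Hd * v, ?_⟩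
  linear_combination (D * Gb) * E1 - (D * qd) * E3 + (Mb * Gb * Hd) * E2

/-- Taylor expansion of the coefficients. -/
theorem tay {σ : Type} [Fintype σ] (hT : StMvT) (P : (MvPolynomial σ ℤ)[X]) (t0 s : σ → ℤ)
    (p : ℕ) : ∃ e : ℤ[X], P.map (MvPolynomial.eval fun i => t0 i + p * s i) =
      P.map (MvPolynomial.eval t0) +
        C (p : ℤ) * ((mc (dv s) P).map (MvPolynomial.eval t0) + C (p : ℤ) * e) := by
  have h1 : C ((p : ℤ) ^ 2) ∣ P.map (MvPolynomial.eval fun i => t0 i + p * s i) -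
      P.map (MvPolynomial.eval t0) - C (p : ℤ) * (mc (dv s) P).map (MvPolynomial.eval t0) := by
    rw [C_dvd_iff_dvd_coeff]
    intro k
    rw [coeff_sub, coeff_sub, coeff_C_mul, coeff_map, coeff_map, coeff_map, coeff_mc]
    exact hT σ (P.coeff k) t0 s p
  obtain ⟨e, he⟩ := h1
  refine ⟨e, ?_⟩
  have h2 : (C ((p : ℤ) ^ 2) : ℤ[X]) = C (p : ℤ) * C (p : ℤ) := by
    rw [sq, C_mul]
  rw [h2] at he
  linear_combination he

theorem map_eq {σ : Type} (p : ℕ) (t0 s : σ → ℤ) (P : (MvPolynomial σ ℤ)[X]) :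
    (P.map (MvPolynomial.eval fun i => t0 i + p * s i)).map (red p) =
      (P.map (MvPolynomial.eval t0)).map (red p) := by
  rw [Polynomial.map_map, Polynomial.map_map]
  congr 1
  apply MvPolynomial.ringHom_ext
  · intro r
    simp
  · intro i
    simp

theorem inv_map {σ : Type} {F H G : (MvPolynomial σ ℤ)[X]} (h : F ∣ H * G - 1) (t : σ → ℤ) :
    F.map (MvPolynomial.eval t) ∣
      H.map (MvPolynomial.eval t) * G.map (MvPolynomial.eval t) - 1 := by
  have := Polynomial.map_dvd (MvPolynomial.eval t) h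
  rwa [Polynomial.map_sub, Polynomial.map_mul, Polynomial.map_one] at this

theorem exq (p : ℕ) {f H G : ℤ[X]} (hf : f.Monic) (hHG : f ∣ H * G - 1) (M : ℕ)
    (hM : ∀ h : (ZMod p)[X], IsCoprime (f.map (red p)) h → f.map (red p) ∣ h ^ M - 1) :
    ∃ q : ℤ[X], f ∣ H ^ M - 1 - C (p : ℤ) * q := by
  apply DigX.lift p hf
  have h1 := Polynomial.map_dvd (red p) hHG
  rw [Polynomial.map_sub, Polynomial.map_mul, Polynomial.map_one] at h1
  obtain ⟨w, hw⟩ := h1
  have h2 := hM (H.map (red p)) ⟨-w, G.map (red p), by linear_combination hw⟩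
  simpa only [Polynomial.map_sub, Polynomial.map_pow, Polynomial.map_one] using h2

theorem key {σ : Type} [Fintype σ] (hT : StMvT) (p : ℕ) [Fact p.Prime]
    (F : (MvPolynomial σ ℤ)[X]) (hF : F.Monic) (H G : (MvPolynomial σ ℤ)[X])
    (hHG : F ∣ H * G - 1) (t0 s : σ → ℤ)
    (hsep : ((F.map (MvPolynomial.eval t0)).map (red p)).Separable) (M : ℕ) (q0 q1 : ℤ[X])
    (h0 : F.map (MvPolynomial.eval t0) ∣ (H.map (MvPolynomial.eval t0)) ^ M - 1 -
      C (p : ℤ) * q0)
    (h1 : F.map (MvPolynomial.eval fun i => t0 i + p * s i) ∣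
      (H.map (MvPolynomial.eval fun i => t0 i + p * s i)) ^ M - 1 - C (p : ℤ) * q1) :
    (F.map (MvPolynomial.eval t0)).map (red p) ∣
      (derivative (F.map (MvPolynomial.eval t0))).map (red p) *
        (q1.map (red p) - q0.map (red p)) - C (M : ZMod p) *
        ((WF (dv s) F H G).map (MvPolynomial.eval t0)).map (red p) := by
  obtain ⟨e, he⟩ := tay hT F t0 s p
  obtain ⟨e', he'⟩ := tay hT H t0 s p
  obtain ⟨a, b, hab⟩ := hsep
  have hpp : (red p) (p : ℤ) = 0 := by simp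
  have hφm : ((mc (dv s) F).map (MvPolynomial.eval t0) + C (p : ℤ) * e).map (red p) =
      ((mc (dv s) F).map (MvPolynomial.eval t0)).map (red p) := by
    rw [Polynomial.map_add, Polynomial.map_mul, map_C, hpp, C_0, zero_mul, add_zero]
  have hθm : ((mc (dv s) H).map (MvPolynomial.eval t0) + C (p : ℤ) * e').map (red p) =
      ((mc (dv s) H).map (MvPolynomial.eval t0)).map (red p) := by
    rw [Polynomial.map_add, Polynomial.map_mul, map_C, hpp, C_0, zero_mul, add_zero]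
  obtain ⟨δ, hδ⟩ := Polynomial.map_surjective (red p) (ZMod.intCast_surjective)
    (-(b * ((mc (dv s) F).map (MvPolynomial.eval t0)).map (red p)))
  have hE2 : (derivative (F.map (MvPolynomial.eval t0)) * δ +
      ((mc (dv s) F).map (MvPolynomial.eval t0) + C (p : ℤ) * e)).map (red p) =
      (F.map (MvPolynomial.eval t0)).map (red p) *
        (a * ((mc (dv s) F).map (MvPolynomial.eval t0)).map (red p)) := by
    rw [Polynomial.map_add, Polynomial.map_mul, hφm, hδ, ← Polynomial.derivative_map]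
    linear_combination (-((mc (dv s) F).map (MvPolynomial.eval t0)).map (red p)) * hab
  have hQ := pr_QCH p M (F.map (MvPolynomial.eval t0))
    (F.map (MvPolynomial.eval fun i => t0 i + p * s i)) (H.map (MvPolynomial.eval t0))
    (H.map (MvPolynomial.eval fun i => t0 i + p * s i)) _ _ q0 q1 δ (hF.map _) (hF.map _) he he'
    h0 h1 ⟨_, hE2⟩
  obtain ⟨u, hu⟩ := hQ
  obtain ⟨w, hw⟩ := Polynomial.map_dvd (red p) (inv_map hHG t0)
  have hu' : (H.map (MvPolynomial.eval t0)).map (red p) * (q1.map (red p) - q0.map (red p)) -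
      C (M : ZMod p) * (((mc (dv s) H).map (MvPolynomial.eval t0)).map (red p) +
        (derivative (H.map (MvPolynomial.eval t0))).map (red p) * δ.map (red p)) =
      (F.map (MvPolynomial.eval t0)).map (red p) * u := by
    rw [← hu, ← hθm]
    simp only [Polynomial.map_sub, Polynomial.map_mul, Polynomial.map_add, map_C]
    simp
  have hw' : (H.map (MvPolynomial.eval t0)).map (red p) *
      (G.map (MvPolynomial.eval t0)).map (red p) - 1 =
      (F.map (MvPolynomial.eval t0)).map (red p) * w := by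
    rw [← hw, Polynomial.map_sub, Polynomial.map_mul, Polynomial.map_one]
  have hE2' : (derivative (F.map (MvPolynomial.eval t0))).map (red p) * δ.map (red p) +
      ((mc (dv s) F).map (MvPolynomial.eval t0)).map (red p) =
      (F.map (MvPolynomial.eval t0)).map (red p) *
        (a * ((mc (dv s) F).map (MvPolynomial.eval t0)).map (red p)) := by
    rw [← hE2, Polynomial.map_add, Polynomial.map_mul, hφm]
  have hWF : ((WF (dv s) F H G).map (MvPolynomial.eval t0)).map (red p) =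
      (G.map (MvPolynomial.eval t0)).map (red p) *
        ((derivative (F.map (MvPolynomial.eval t0))).map (red p) *
          ((mc (dv s) H).map (MvPolynomial.eval t0)).map (red p) -
          ((mc (dv s) F).map (MvPolynomial.eval t0)).map (red p) *
          (derivative (H.map (MvPolynomial.eval t0))).map (red p)) := by
    rw [WF]
    simp only [Polynomial.map_mul, Polynomial.map_sub, Polynomial.derivative_map]
  rw [hWF]
  exact algebra_step _ _ _ _ _ _ _ _ _ _ u _ w hu' hE2' hw'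

end DigGX

open DigGX

theorem pr_DigG : StMvT → StOrd → StCrit1.{u} → StDigG.{u} := by
  intro hT hOrd hCrit p _ hp2 σ _ F hF n H G hHG t0 hsep
  have hmon : (F.map (MvPolynomial.eval t0)).Monic := hF.map _
  obtain ⟨M, hM0, hpM, hM⟩ := hOrd p _ (hmon.map (red p)) hsep
  have h0 := fun l => exq p hmon (inv_map (hHG l) t0) M hM
  choose q0 hq0 using h0
  refine ⟨M, fun l => (derivative (F.map (MvPolynomial.eval t0)) * q0 l).map (red p), hpM, ?_⟩
  intro s hirr hNB
  have hfb1 := map_eq p t0 s F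
  have hmon1 : (F.map (MvPolynomial.eval fun i => t0 i + p * s i)).Monic := hF.map _
  have h2 := fun l => exq p hmon1 (inv_map (hHG l) (fun i => t0 i + p * s i)) M
    (by rw [hfb1]; exact hM)
  choose q1 hq1 using h2
  unfold NBG at hNB
  push Not at hNB
  obtain ⟨K, _, _, x, hK, hx, hno⟩ := hNB
  have h3 : ∃ c : Fin n → ZMod p, (F.map (MvPolynomial.eval t0)).map (red p) ∣
      ∑ l, C (c l) * (q1 l).map (red p) ∧ c ≠ 0 := by
    by_contra hcon
    push Not at hcon
    obtain ⟨w, hwc⟩ := hCrit p hp2 _ hmon1 hirr (by rw [hfb1]; exact hsep) n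
      (fun l => (H l).map (MvPolynomial.eval fun i => t0 i + p * s i))
      (fun l => (G l).map (MvPolynomial.eval fun i => t0 i + p * s i)) q1 M hM0
      (fun l => inv_map (hHG l) _) hq1 (fun c hc => hcon c (by rw [← hfb1]; exact hc)) K x
      (by rw [hK, hF.natDegree_map]) hx
    exact hno w hwc
  obtain ⟨c, hc, hc0⟩ := h3
  refine ⟨c, hc0, ?_⟩
  have h10 : (F.map (MvPolynomial.eval t0)).map (red p) ∣
      (derivative (F.map (MvPolynomial.eval t0))).map (red p) *
        ∑ l, C (c l) * (q1 l).map (red p) := Dvd.dvd.mul_left hc _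
  have h11 : (F.map (MvPolynomial.eval t0)).map (red p) ∣
      ∑ l, C (c l) * ((derivative (F.map (MvPolynomial.eval t0))).map (red p) *
        ((q1 l).map (red p) - (q0 l).map (red p)) - C (M : ZMod p) *
        ((WF (dv s) F (H l) (G l)).map (MvPolynomial.eval t0)).map (red p)) :=
    Finset.dvd_sum fun l _ =>
      (key hT p F hF (H l) (G l) (hHG l) t0 s hsep M (q0 l) (q1 l) (hq0 l) (hq1 l)).mul_left _
  have h13 := h10.sub h11
  convert h13 using 1
  rw [Finset.mul_sum, ← Finset.sum_sub_distrib]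
  refine Finset.sum_congr rfl fun l _ => ?_
  dsimp only
  rw [Polynomial.map_mul]
  ring

end Pool.Agent.Work.MP_59f3ad_nt.Tw

end

section

/-!
A relation with polynomial coefficients between derivatives of functions of logarithmic growth.
-/

open Filter Topology Polynomial

namespace Pool.Agent.Work.MP_59f3ad_nt.Tw

namespace LimX

theorem hasDerivAt_b {t : ℝ} (ht : 1 ≤ t) :
    HasDerivAt (fun t => (Real.log t + 2) / t) (-((1 + Real.log t) / t ^ 2)) t := by
  have h0 : t ≠ 0 := by positivity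
  have h1 := ((Real.hasDerivAt_log h0).add_const (2 : ℝ)).div (hasDerivAt_id t) h0
  refine h1.congr_deriv ?_
  simp only [id]
  field_simp
  ring

theorem bdd {Φ Φ' : ℝ → ℝ} {t1 C : ℝ} (h1 : 1 ≤ t1) (hC : 0 ≤ C)
    (hd : ∀ t, t1 ≤ t → HasDerivAt Φ (Φ' t) t)
    (hb : ∀ t, t1 ≤ t → |Φ' t| ≤ C * ((1 + Real.log t) / t ^ 2)) :
    ∃ D, ∀ t, t1 ≤ t → |Φ t| ≤ D := by
  have hdU : ∀ t, t1 ≤ t → HasDerivAt (fun t => Φ t + C * ((Real.log t + 2) / t))
      (Φ' t + C * (-((1 + Real.log t) / t ^ 2))) t := fun t ht =>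
    (hd t ht).add ((hasDerivAt_b (h1.trans ht)).const_mul C)
  have hdW : ∀ t, t1 ≤ t → HasDerivAt (fun t => Φ t - C * ((Real.log t + 2) / t))
      (Φ' t - C * (-((1 + Real.log t) / t ^ 2))) t := fun t ht =>
    (hd t ht).sub ((hasDerivAt_b (h1.trans ht)).const_mul C)
  have hU : AntitoneOn (fun t => Φ t + C * ((Real.log t + 2) / t)) (Set.Ici t1) := by
    refine antitoneOn_of_hasDerivWithinAt_nonpos (convex_Ici t1)
      (fun t ht => (hdU t ht).continuousAt.continuousWithinAt)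
      (f' := fun t => Φ' t + C * (-((1 + Real.log t) / t ^ 2)))
      (fun t ht => (hdU t (interior_subset ht)).hasDerivWithinAt) (fun t ht => ?_)
    have := (abs_le.1 (hb t (interior_subset ht))).2
    linarith
  have hW : MonotoneOn (fun t => Φ t - C * ((Real.log t + 2) / t)) (Set.Ici t1) := by
    refine monotoneOn_of_hasDerivWithinAt_nonneg (convex_Ici t1)
      (fun t ht => (hdW t ht).continuousAt.continuousWithinAt)
      (f' := fun t => Φ' t - C * (-((1 + Real.log t) / t ^ 2)))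
      (fun t ht => (hdW t (interior_subset ht)).hasDerivWithinAt) (fun t ht => ?_)
    have := (abs_le.1 (hb t (interior_subset ht))).1
    linarith
  refine ⟨|Φ t1| + C * ((Real.log t1 + 2) / t1), fun t ht => ?_⟩
  have h2 := hU (Set.self_mem_Ici) ht ht
  have h3 := hW (Set.self_mem_Ici) ht ht
  simp only at h2 h3
  have h4 : 0 ≤ C * ((Real.log t + 2) / t) := by
    have h5 : 0 ≤ Real.log t := Real.log_nonneg (h1.trans ht)
    have h6 : 0 ≤ t := zero_le_one.trans (h1.trans ht)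
    positivity
  rw [abs_le]
  constructor
  · linarith [neg_abs_le (Φ t1)]
  · linarith [le_abs_self (Φ t1)]

theorem tend_div_log {f : ℝ → ℝ} {v K : ℝ} (h : ∀ᶠ t in atTop, |f t - v * Real.log t| ≤ K) :
    Tendsto (fun t => f t / Real.log t) atTop (𝓝 v) := by
  rw [tendsto_iff_norm_sub_tendsto_zero]
  have h1 : Tendsto (fun t : ℝ => K / Real.log t) atTop (𝓝 0) :=
    tendsto_const_nhds.div_atTop Real.tendsto_log_atTop
  refine squeeze_zero' (Eventually.of_forall fun t => norm_nonneg _) ?_ h1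
  filter_upwards [h, eventually_gt_atTop (1 : ℝ)] with t ht ht1
  have h2 : 0 < Real.log t := Real.log_pos ht1
  have h3 : f t / Real.log t - v = (f t - v * Real.log t) / Real.log t := by
    field_simp
  rw [h3, Real.norm_eq_abs, abs_div, abs_of_pos h2]
  exact div_le_div_of_nonneg_right ht h2.le

/-- the reversed polynomial -/
noncomputable def rv (N : ℕ) (g : ℤ[X]) : ℝ[X] :=
  ∑ j ∈ Finset.range (N + 1), C ((g.coeff (N - j) : ℤ) : ℝ) * X ^ j

theorem rv_zero (N : ℕ) (g : ℤ[X]) : (rv N g).eval 0 = g.coeff N := by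
  unfold rv
  rw [eval_finsetSum, Finset.sum_eq_single 0]
  · simp
  · intro j _ hj
    simp [hj]
  · intro h
    exact absurd (Finset.mem_range.2 (Nat.succ_pos N)) h

theorem rv_eval (N : ℕ) (g : ℤ[X]) (hg : g.natDegree ≤ N) {t : ℝ} (ht : t ≠ 0) :
    (g.map (Int.castRingHom ℝ)).eval t = t ^ N * (rv N g).eval t⁻¹ := by
  rw [eval_map, eval₂_eq_sum_range' _ (Nat.lt_succ_of_le hg), rv, eval_finsetSum, Finset.mul_sum,
    ← Finset.sum_range_reflect]
  refine Finset.sum_congr rfl fun j hj => ?_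
  have hj' : j ≤ N := Nat.lt_succ_iff.1 (Finset.mem_range.1 hj)
  rw [eval_mul, eval_C, eval_pow, eval_X]
  have e1 : N + 1 - 1 - j = N - j := by omega
  have e2 : t ^ N = t ^ (N - j) * t ^ j := by rw [← pow_add, Nat.sub_add_cancel hj']
  rw [e1, e2, inv_pow]
  simp only [Int.coe_castRingHom]
  field_simp

theorem bound (P : ℝ[X]) : ∃ M : ℝ, 0 ≤ M ∧ ∀ t : ℝ, 1 ≤ t → |P.eval t⁻¹| ≤ M := by
  obtain ⟨M, hM⟩ := (isCompact_Icc (a := (0 : ℝ)) (b := 1)).exists_bound_of_continuousOn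
    (f := fun s => P.eval s) P.continuous.continuousOn
  refine ⟨|M|, abs_nonneg _, fun t ht => ?_⟩
  exact (hM t⁻¹ ⟨by positivity, inv_le_one_of_one_le₀ ht⟩).trans (le_abs_self M)

end LimX

theorem pr_Lim : StLim := by
  intro n N B L L' v g hL hlog hdeg hrel
  choose K hK using hlog
  set P : Fin n → ℝ[X] := fun l => LimX.rv N (g l) with hP
  choose M hM0 hM using fun l => LimX.bound (derivative (P l))
  have hKe : ∀ᶠ t in atTop, ∀ l, |L l t - v l * Real.log t| ≤ K l :=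
    eventually_all.2 hK
  obtain ⟨t0, ht0⟩ := eventually_atTop.1 hKe
  set t1 : ℝ := max (max 1 t0) (B + 1) with ht1
  have h1 : 1 ≤ t1 := (le_max_left _ _).trans (le_max_left _ _)
  have h2 : t0 ≤ t1 := (le_max_right _ _).trans (le_max_left _ _)
  have h3 : B < t1 := lt_of_lt_of_le (lt_add_one B) (le_max_right _ _)
  set C : ℝ := ∑ l, M l * (|v l| + |K l|) with hC
  have hC0 : 0 ≤ C := Finset.sum_nonneg fun l _ =>
    mul_nonneg (hM0 l) (add_nonneg (abs_nonneg _) (abs_nonneg _))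
  -- the derivative
  have hd : ∀ t, t1 ≤ t → HasDerivAt (fun t => ∑ l, (P l).eval t⁻¹ * L l t)
      (∑ l, (derivative (P l)).eval t⁻¹ * (-(t ^ 2)⁻¹) * L l t) t := by
    intro t ht
    have ht0 : t ≠ 0 := by
      have : 0 < t := by linarith
      exact this.ne'
    have h4 : HasDerivAt (fun t => ∑ l, (P l).eval t⁻¹ * L l t)
        (∑ l, ((derivative (P l)).eval t⁻¹ * (-(t ^ 2)⁻¹) * L l t +
          (P l).eval t⁻¹ * L' l t)) t := by
      refine HasDerivAt.fun_sum fun l _ => ?_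
      exact (((P l).hasDerivAt t⁻¹).comp t (hasDerivAt_inv ht0)).mul
        (hL l t (h3.trans_le ht))
    refine h4.congr_deriv ?_
    rw [Finset.sum_add_distrib]
    have h5 : ∑ l, (P l).eval t⁻¹ * L' l t = 0 := by
      have h6 := hrel t (h3.trans_le ht)
      have h7 : t ^ N * ∑ l, (P l).eval t⁻¹ * L' l t = 0 := by
        rw [← h6, Finset.mul_sum]
        refine Finset.sum_congr rfl fun l _ => ?_
        rw [LimX.rv_eval N (g l) (hdeg l) ht0, mul_assoc]
      exact (mul_eq_zero.1 h7).resolve_left (pow_ne_zero _ ht0)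
    rw [h5, add_zero]
  have hbd : ∀ t, t1 ≤ t → |∑ l, (derivative (P l)).eval t⁻¹ * (-(t ^ 2)⁻¹) * L l t| ≤
      C * ((1 + Real.log t) / t ^ 2) := by
    intro t ht
    have ht1' : 1 ≤ t := h1.trans ht
    have hlt : 0 ≤ Real.log t := Real.log_nonneg ht1'
    have htp : 0 < t ^ 2 := by positivity
    refine (Finset.abs_sum_le_sum_abs _ _).trans ?_
    rw [hC, Finset.sum_mul]
    refine Finset.sum_le_sum fun l _ => ?_
    have h4 := ht0 t (h2.trans ht) l
    have h5 : |L l t| ≤ (|v l| + |K l|) * (1 + Real.log t) := by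
      have h6 : |L l t| ≤ |L l t - v l * Real.log t| + |v l * Real.log t| := by
        calc |L l t| = |(L l t - v l * Real.log t) + v l * Real.log t| := by ring_nf
          _ ≤ _ := abs_add_le _ _
      rw [abs_mul, abs_of_nonneg hlt] at h6
      have h7 := le_abs_self (K l)
      have h8 : 0 ≤ |K l| * Real.log t := mul_nonneg (abs_nonneg _) hlt
      have h9 := abs_nonneg (v l)
      nlinarith
    rw [abs_mul, abs_mul, abs_neg, abs_inv, abs_of_pos htp]
    calc |(derivative (P l)).eval t⁻¹| * (t ^ 2)⁻¹ * |L l t| ≤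
          M l * (t ^ 2)⁻¹ * ((|v l| + |K l|) * (1 + Real.log t)) := by
          refine mul_le_mul (mul_le_mul_of_nonneg_right (hM l t ht1') (by positivity)) h5
            (abs_nonneg _) (mul_nonneg (hM0 l) (by positivity))
      _ = _ := by rw [div_eq_mul_inv]; ring
  obtain ⟨D, hD⟩ := LimX.bdd h1 hC0 hd hbd
  have hlim1 : Tendsto (fun t => (∑ l, (P l).eval t⁻¹ * L l t) / Real.log t) atTop (𝓝 0) := by
    refine LimX.tend_div_log (K := D) ?_
    filter_upwards [eventually_ge_atTop t1] with t ht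
    rw [zero_mul, sub_zero]
    exact hD t ht
  have hlim2 : Tendsto (fun t => (∑ l, (P l).eval t⁻¹ * L l t) / Real.log t) atTop
      (𝓝 (∑ l, (P l).eval 0 * v l)) := by
    have h4 : (fun t => (∑ l, (P l).eval t⁻¹ * L l t) / Real.log t) =
        fun t => ∑ l, (P l).eval t⁻¹ * (L l t / Real.log t) := by
      funext t
      rw [Finset.sum_div]
      refine Finset.sum_congr rfl fun l _ => ?_
      rw [mul_div_assoc]
    rw [h4]
    refine tendsto_finsetSum _ fun l _ => Tendsto.mul ?_ (LimX.tend_div_log (hK l))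
    exact ((P l).continuous.tendsto 0).comp tendsto_inv_atTop_zero
  have h5 := tendsto_nhds_unique hlim2 hlim1
  rw [← h5]
  refine Finset.sum_congr rfl fun l _ => ?_
  rw [hP, LimX.rv_zero]

end Pool.Agent.Work.MP_59f3ad_nt.Tw

end

section

/-! # MP_59f3ad_nt Tw, item Mk1: summation over the primes and Markov's inequality -/

set_option autoImplicit false

open Finset

namespace Pool.Agent.Work.MP_59f3ad_nt.Tw

namespace Mk1X

theorem box_finite (σ : Type) [Fintype σ] (H : ℕ) : {t : σ → ℤ | ∀ i, |t i| ≤ H}.Finite := by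
  classical
  refine (Set.finite_Icc (fun _ : σ => -(H : ℤ)) (fun _ => (H : ℤ))).subset ?_
  intro t ht
  simp only [Set.mem_ofPred_eq] at ht
  exact ⟨fun i => (abs_le.1 (ht i)).1, fun i => (abs_le.1 (ht i)).2⟩

theorem lt_of_sq (p H : ℕ) (hp : 2 ≤ p) (h : p ^ 2 ≤ H) : p < H := by
  have h2 : p < p ^ 2 := by nlinarith
  omega

theorem sum_inv_le (H : ℕ) (P : Finset ℕ) (h1 : ∀ p ∈ P, 1 ≤ p) (h2 : ∀ p ∈ P, p ≤ H) :
    ∑ p ∈ P, (1 : ℝ) / p ≤ 1 + Real.log H := by
  have hsub : P ⊆ Finset.Icc 1 H := fun p hp => Finset.mem_Icc.2 ⟨h1 p hp, h2 p hp⟩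
  calc ∑ p ∈ P, (1 : ℝ) / p ≤ ∑ p ∈ Finset.Icc 1 H, (1 : ℝ) / p :=
        Finset.sum_le_sum_of_subset_of_nonneg hsub fun _ _ _ => by positivity
    _ = (harmonic H : ℝ) := by
        rw [harmonic_eq_sum_Icc]
        push_cast
        simp
    _ ≤ 1 + Real.log H := by exact_mod_cast harmonic_le_one_add_log H

end Mk1X

open Mk1X

theorem pr_Mk1 : StMk1 := by
  classical
  intro σ _ C0 p0
  refine ⟨3 * C0, fun Bad H hH hB => ?_⟩
  set d := Fintype.card σ with hd
  have hlog2 : (0.69 : ℝ) < Real.log 2 := by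
    have := Real.log_two_gt_d9
    linarith
  have hHr : (2 : ℝ) ≤ H := by exact_mod_cast hH
  have hlog : (0.69 : ℝ) < Real.log H :=
    lt_of_lt_of_le hlog2 (Real.log_le_log (by norm_num) hHr)
  have hlogpos : 0 < Real.log H := by linarith
  let B : Finset (σ → ℤ) := (box_finite σ H).toFinset
  let P : Finset ℕ := (Finset.range H).filter fun p => p.Prime ∧ p0 < p ∧ p ^ 2 ≤ H
  have hPmem : ∀ p, p ∈ P ↔ p.Prime ∧ p0 < p ∧ p ^ 2 ≤ H := by
    intro p
    simp only [P, Finset.mem_filter, Finset.mem_range]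
    constructor
    · exact fun h => h.2
    · exact fun h => ⟨lt_of_sq p H h.1.two_le h.2.2, h⟩
  have hBmem : ∀ t, t ∈ B ↔ ∀ i, |t i| ≤ (H : ℤ) := by
    intro t
    simp [B]
  let c : (σ → ℤ) → ℕ := fun t => (P.filter fun p => t ∈ Bad p).card
  have hc : ∀ t, {p : ℕ | p.Prime ∧ p0 < p ∧ p ^ 2 ≤ H ∧ t ∈ Bad p}.ncard = c t := by
    intro t
    have : {p : ℕ | p.Prime ∧ p0 < p ∧ p ^ 2 ≤ H ∧ t ∈ Bad p} =
        ((P.filter fun p => t ∈ Bad p : Finset ℕ) : Set ℕ) := by
      ext p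
      simp only [Set.mem_ofPred_eq, Finset.coe_filter, hPmem]
      tauto
    rw [this, Set.ncard_coe_finset]
  let T : Finset (σ → ℤ) := B.filter fun t => (Real.log H) ^ 2 < (c t : ℝ)
  have hT : {t : σ → ℤ | (∀ i, |t i| ≤ H) ∧ (Real.log H) ^ 2 <
      ({p : ℕ | p.Prime ∧ p0 < p ∧ p ^ 2 ≤ H ∧ t ∈ Bad p}.ncard : ℝ)}.ncard =
      T.card := by
    have : {t : σ → ℤ | (∀ i, |t i| ≤ H) ∧ (Real.log H) ^ 2 <
      ({p : ℕ | p.Prime ∧ p0 < p ∧ p ^ 2 ≤ H ∧ t ∈ Bad p}.ncard : ℝ)} =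
        ((T : Finset (σ → ℤ)) : Set (σ → ℤ)) := by
      ext t
      simp only [Set.mem_ofPred_eq, T, Finset.coe_filter, hBmem, hc]
    rw [this, Set.ncard_coe_finset]
  rw [hT]
  -- the bound for a single prime
  have hsingle : ∀ p ∈ P, (((B.filter fun t => t ∈ Bad p).card : ℕ) : ℝ) ≤
      C0 * ((H : ℝ) ^ d * (1 / p)) := by
    intro p hp
    obtain ⟨h1, h2, h3⟩ := (hPmem p).1 hp
    have h4 := hB p h1 h2 h3
    have h5 : {t : σ → ℤ | (∀ i, |t i| ≤ H) ∧ t ∈ Bad p} =
        ((B.filter fun t => t ∈ Bad p : Finset (σ → ℤ)) : Set (σ → ℤ)) := by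
      ext t
      simp only [Set.mem_ofPred_eq, Finset.coe_filter, hBmem]
    rw [h5, Set.ncard_coe_finset] at h4
    have hp0 : (0 : ℝ) < p := by exact_mod_cast h1.pos
    have h6 : (p : ℝ) * ((B.filter fun t => t ∈ Bad p).card : ℝ) ≤
        C0 * (H : ℝ) ^ d := by exact_mod_cast h4
    have h7 : (((B.filter fun t => t ∈ Bad p).card : ℕ) : ℝ) ≤
        (C0 * (H : ℝ) ^ d) / p := by
      rw [le_div_iff₀ hp0]
      linarith [mul_comm (p : ℝ) ((B.filter fun t => t ∈ Bad p).card : ℝ)]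
    refine h7.trans (le_of_eq ?_)
    field_simp
  -- double counting
  have hdc : ∑ t ∈ B, c t = ∑ p ∈ P, (B.filter fun t => t ∈ Bad p).card := by
    simp only [c, Finset.card_filter]
    rw [Finset.sum_comm]
  have hP1 : ∀ p ∈ P, 1 ≤ p := fun p hp => ((hPmem p).1 hp).1.one_lt.le
  have hP2 : ∀ p ∈ P, p ≤ H := fun p hp =>
    (lt_of_sq p H ((hPmem p).1 hp).1.two_le ((hPmem p).1 hp).2.2).le
  have htot : ((∑ t ∈ B, c t : ℕ) : ℝ) ≤ C0 * ((H : ℝ) ^ d * (1 + Real.log H)) := by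
    rw [hdc]
    push_cast
    have hC0 : (0 : ℝ) ≤ C0 := Nat.cast_nonneg _
    have hHd : (0 : ℝ) ≤ (H : ℝ) ^ d := by positivity
    calc ∑ p ∈ P, ((B.filter fun t => t ∈ Bad p).card : ℝ)
        ≤ ∑ p ∈ P, (C0 : ℝ) * ((H : ℝ) ^ d * (1 / p)) :=
          Finset.sum_le_sum hsingle
      _ = C0 * ((H : ℝ) ^ d * ∑ p ∈ P, (1 : ℝ) / p) := by
          rw [← Finset.mul_sum, ← Finset.mul_sum]
      _ ≤ C0 * ((H : ℝ) ^ d * (1 + Real.log H)) :=
          mul_le_mul_of_nonneg_left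
            (mul_le_mul_of_nonneg_left (sum_inv_le H P hP1 hP2) hHd) hC0
  have hmark : (Real.log H) ^ 2 * (T.card : ℝ) ≤ ((∑ t ∈ B, c t : ℕ) : ℝ) := by
    push_cast
    calc (Real.log H) ^ 2 * (T.card : ℝ) = ∑ _t ∈ T, (Real.log H) ^ 2 := by
          rw [Finset.sum_const, nsmul_eq_mul]; ring
      _ ≤ ∑ t ∈ T, (c t : ℝ) := Finset.sum_le_sum fun t ht => (Finset.mem_filter.1 ht).2.le
      _ ≤ ∑ t ∈ B, (c t : ℝ) :=
          Finset.sum_le_sum_of_subset_of_nonneg (Finset.filter_subset _ _)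
            fun _ _ _ => Nat.cast_nonneg _
  have h8 : (Real.log H) ^ 2 * (T.card : ℝ) ≤ C0 * ((H : ℝ) ^ d * (1 + Real.log H)) :=
    hmark.trans htot
  have h9 : 1 + Real.log H ≤ 3 * Real.log H := by linarith
  rw [le_div_iff₀ hlogpos]
  have h10 : Real.log H * ((T.card : ℝ) * Real.log H) ≤
      Real.log H * ((((3 * C0 : ℕ) : ℝ)) * (H : ℝ) ^ d) := by
    have hC0 : (0 : ℝ) ≤ C0 := Nat.cast_nonneg _
    have hHd : (0 : ℝ) ≤ (H : ℝ) ^ d := by positivity
    have h11 : (C0 : ℝ) * ((H : ℝ) ^ d * (1 + Real.log H)) ≤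
        C0 * ((H : ℝ) ^ d * (3 * Real.log H)) :=
      mul_le_mul_of_nonneg_left (mul_le_mul_of_nonneg_left h9 hHd) hC0
    push_cast
    nlinarith
  exact le_of_mul_le_mul_left h10 hlogpos

end Pool.Agent.Work.MP_59f3ad_nt.Tw

end

section

/-! Taylor expansion modulo `p ^ 2` (MP_59f3ad_nt). -/

namespace Pool.Agent.Work.MP_59f3ad_nt.Tw

open Pool.Agent.Work.MP_59f3ad_nt Pool.Agent.Work.MP_59f3ad_nt.Cod

namespace MvTX

open MvPolynomial

variable {σ : Type} [Fintype σ]

theorem dv_C (v : σ → ℤ) (a : ℤ) : dv v (C a : MvPolynomial σ ℤ) = 0 := by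
  rw [dv_apply]
  exact Finset.sum_eq_zero fun i _ => by rw [pderiv_C, mul_zero]

theorem dv_mul_X (v : σ → ℤ) (P : MvPolynomial σ ℤ) (i : σ) :
    dv v (P * X i) = dv v P * X i + P * C (v i) := by
  classical
  rw [dv_apply, dv_apply, Finset.sum_mul]
  have h : ∀ j, (C (v j) : MvPolynomial σ ℤ) * pderiv j (P * X i) =
      C (v j) * pderiv j P * X i + (if j = i then P * C (v i) else 0) := by
    intro j
    rw [pderiv_mul]
    by_cases hj : j = i
    · subst hj
      rw [if_pos rfl, pderiv_X_self]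
      ring
    · rw [if_neg hj, pderiv_X_of_ne (Ne.symm hj)]
      ring
  rw [Finset.sum_congr rfl fun j _ => h j, Finset.sum_add_distrib]
  rw [Finset.sum_ite_eq' Finset.univ i]
  simp

end MvTX

open MvTX in
theorem pr_MvT : StMvT := by
  intro σ _ P t0 s p
  induction P using MvPolynomial.induction_on with
  | C a =>
    rw [dv_C, MvPolynomial.eval_C, MvPolynomial.eval_C, map_zero]
    simp
  | add P Q hP hQ =>
    obtain ⟨a, ha⟩ := hP
    obtain ⟨b, hb⟩ := hQ
    refine ⟨a + b, ?_⟩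
    rw [map_add, map_add, map_add, map_add]
    linear_combination ha + hb
  | mul_X P i hP =>
    obtain ⟨m, hm⟩ := hP
    refine ⟨MvPolynomial.eval t0 (dv s P) * s i + m * (t0 i + p * s i), ?_⟩
    rw [dv_mul_X]
    simp only [map_mul, map_add, MvPolynomial.eval_X, MvPolynomial.eval_C]
    linear_combination (t0 i + p * s i) * hm

end Pool.Agent.Work.MP_59f3ad_nt.Tw

end

section

/-!
MP_59f3ad_nt, `Tw.NVB`: the logarithmic derivatives of units of a one-parameter family which are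
independent modulo constants satisfy no relation over `ℤ[T]`.
-/

open Polynomial Filter Topology

namespace Pool.Agent.Work.MP_59f3ad_nt.Tw

open Pool.Agent.Work.MP_59f3ad_nt GrowthMinorC

namespace NVBX

theorem mc_add {R S : Type*} [CommRing R] [CommRing S] (δ : R →+ S) (P Q : R[X]) :
    mc δ (P + Q) = mc δ P + mc δ Q := by
  ext k
  simp [coeff_mc]

theorem mc_monomial {R S : Type*} [CommRing R] [CommRing S] (δ : R →+ S) (k : ℕ) (a : R) :
    mc δ (monomial k a) = monomial k (δ a) := by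
  ext i
  rw [coeff_mc, coeff_monomial, coeff_monomial]
  split_ifs <;> simp

theorem dT_apply (a : ℂ[X]) : dT a = derivative a := rfl

/-- Chain rule. -/
theorem hasDerivAt_value (P : ℂ[X][X]) (ξ : ℝ → ℂ) (ξ' : ℂ) (t : ℝ) (h : HasDerivAt ξ ξ' t) :
    HasDerivAt (fun t : ℝ => (P.map (evC (t : ℂ))).eval (ξ t))
      (((mc dT P).map (evC (t : ℂ))).eval (ξ t) +
        ((derivative P).map (evC (t : ℂ))).eval (ξ t) * ξ') t := by
  induction P using Polynomial.induction_on' with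
  | add P Q hP hQ =>
    have h1 := hP.add hQ
    refine (h1.congr_deriv ?_).congr_of_eventuallyEq (Eventually.of_forall fun s => ?_)
    · rw [mc_add, derivative_add]
      simp only [Polynomial.map_add, eval_add]
      ring
    · simp
  | monomial k a =>
    have ha : HasDerivAt (fun t : ℝ => a.eval (t : ℂ)) ((derivative a).eval (t : ℂ)) t := by
      have h1 := (a.hasDerivAt (t : ℂ)).comp_ofReal
      simpa using h1
    have h1 := ha.mul (h.pow k)
    refine (h1.congr_deriv ?_).congr_of_eventuallyEq (Eventually.of_forall fun s => ?_)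
    · rw [mc_monomial, derivative_monomial, dT_apply]
      simp [evC]
      ring
    · simp [evC]

theorem hasDerivAt_log_norm (h : ℝ → ℂ) (h' : ℂ) (t : ℝ) (hd : HasDerivAt h h' t)
    (h0 : h t ≠ 0) : HasDerivAt (fun t => Real.log ‖h t‖) (h' / h t).re t := by
  have hre : HasDerivAt (fun t => (h t).re) h'.re t :=
    (Complex.reCLM.hasFDerivAt (x := h t)).comp_hasDerivAt t hd
  have him : HasDerivAt (fun t => (h t).im) h'.im t :=
    (Complex.imCLM.hasFDerivAt (x := h t)).comp_hasDerivAt t hd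
  have hpos : 0 < (h t).re ^ 2 + (h t).im ^ 2 := by
    have h1 : 0 < Complex.normSq (h t) := Complex.normSq_pos.mpr h0
    rw [Complex.normSq_apply] at h1
    nlinarith
  have h2 : HasDerivAt (fun t => (h t).re ^ 2 + (h t).im ^ 2)
      (2 * (h t).re * h'.re + 2 * (h t).im * h'.im) t := by
    have h3 := (hre.mul hre).add (him.mul him)
    refine (h3.congr_deriv ?_).congr_of_eventuallyEq (Eventually.of_forall fun s => ?_)
    · ring
    · simp only [Pi.add_apply, Pi.mul_apply]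
      ring
  have h3 := (h2.log hpos.ne').const_mul (1 / 2 : ℝ)
  have h4 : (fun t => Real.log ‖h t‖) = fun t => 1 / 2 * Real.log ((h t).re ^ 2 + (h t).im ^ 2) := by
    funext s
    have h5 : (h s).re ^ 2 + (h s).im ^ 2 = ‖h s‖ ^ 2 := by
      rw [Complex.sq_norm, Complex.normSq_apply]
      ring
    rw [h5, Real.log_pow]
    push_cast
    ring
  rw [h4]
  refine h3.congr_deriv ?_
  rw [Complex.div_re, Complex.normSq_apply]
  have h6 : (h t).re * (h t).re + (h t).im * (h t).im ≠ 0 := by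
    have h7 : (h t).re * (h t).re + (h t).im * (h t).im = (h t).re ^ 2 + (h t).im ^ 2 := by ring
    rw [h7]
    exact hpos.ne'
  have h8 := hpos.ne'
  field_simp

theorem log_growth (h : ℝ → ℂ) (e : ℕ) (he : e ≠ 0) (v : ℤ) (c : ℂ) (hc : c ≠ 0)
    (hlim : Tendsto (fun t : ℝ => h t ^ e / (t : ℂ) ^ v) atTop (𝓝 c))
    (B : ℝ) (h0 : ∀ t : ℝ, B < t → h t ≠ 0) (s : ℝ) (hs : s * e = v) :
    ∃ K : ℝ, ∀ᶠ t in atTop, |Real.log ‖h t‖ - s * Real.log t| ≤ K := by
  have h1 : Tendsto (fun t : ℝ => Real.log ‖h t ^ e / (t : ℂ) ^ v‖) atTop (𝓝 (Real.log ‖c‖)) :=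
    hlim.norm.log (norm_ne_zero_iff.mpr hc)
  have h2 := (h1.sub_const (Real.log ‖c‖)).abs
  rw [sub_self, abs_zero] at h2
  have h3 := h2.eventually (Iio_mem_nhds (zero_lt_one))
  refine ⟨|Real.log ‖c‖| + 1, ?_⟩
  filter_upwards [h3, eventually_gt_atTop (max 0 B)] with t ht ht0
  have ht1 : 0 < t := (le_max_left _ _).trans_lt ht0
  have ht2 : h t ≠ 0 := h0 t ((le_max_right _ _).trans_lt ht0)
  have h4 : Real.log ‖h t ^ e / (t : ℂ) ^ v‖ = e * Real.log ‖h t‖ - v * Real.log t := by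
    rw [norm_div, norm_pow, norm_zpow, Complex.norm_real, Real.norm_of_nonneg ht1.le,
      Real.log_div (pow_ne_zero _ (norm_ne_zero_iff.mpr ht2)) (zpow_ne_zero _ ht1.ne'),
      Real.log_pow, Real.log_zpow]
  have h5 : |(e : ℝ) * (Real.log ‖h t‖ - s * Real.log t)| ≤ |Real.log ‖c‖| + 1 := by
    have h6 : (e : ℝ) * (Real.log ‖h t‖ - s * Real.log t) =
        Real.log ‖h t ^ e / (t : ℂ) ^ v‖ - Real.log ‖c‖ + Real.log ‖c‖ := by
      rw [h4, ← hs]
      ring
    rw [h6]
    refine (abs_add_le _ _).trans ?_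
    have h7 : |Real.log ‖h t ^ e / (t : ℂ) ^ v‖ - Real.log ‖c‖| < 1 := ht
    linarith
  rw [abs_mul] at h5
  have h6 : (1 : ℝ) ≤ |(e : ℝ)| := by
    rw [Nat.abs_cast]
    exact_mod_cast Nat.one_le_iff_ne_zero.mpr he
  exact (le_mul_of_one_le_left (abs_nonneg _) h6).trans h5

end NVBX

open NVBX in
theorem pr_NVB : StLim → StNVB := by
  classical
  intro hLim n d D
  let S : Finset ℚ := ((Finset.Icc (-(D : ℤ)) D) ×ˢ (Finset.Icc (-(d : ℤ)) d)).image
    fun ab => (ab.1 : ℚ) / ab.2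
  obtain ⟨T, hT0, hT⟩ := exists_relFin' n d S
  refine ⟨T, hT0, ?_⟩
  intro F hF hFd t0 hsep u hu H G hH hHG G' hG'0 hG'd hG'D hG'r g hg
  subst hFd
  by_contra hgne
  obtain ⟨B0, ξ, hξan, hξ⟩ := exists_analytic_rootsC F hF t0 hsep
  obtain ⟨B1, hB1⟩ := AnRootsC.exists_bound F hF t0 hsep
  set B := max (max B0 0) B1 with hB
  have hB0 : B0 ≤ B := (le_max_left _ _).trans (le_max_left _ _)
  have hBnn : 0 ≤ B := (le_max_right _ _).trans (le_max_left _ _)
  have hB1' : B1 ≤ B := le_max_right _ _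
  have hξan' : ∀ j, AnalyticOnNhd ℝ (ξ j) (Set.Ioi B) := fun j t ht =>
    hξan j t (lt_of_le_of_lt hB0 ht)
  have hξ' : ∀ t : ℝ, B < t → Function.Injective (fun j => ξ j t) ∧
        ∀ j, (F.map (evC t)).eval (ξ j t) = 0 := fun t ht => hξ t (lt_of_le_of_lt hB0 ht)
  -- the values of the units
  set h : Fin n → Fin F.natDegree → ℝ → ℂ := fun l j t => ((H l).map (evC t)).eval (ξ j t) with hh
  have han : ∀ l j, AnalyticOnNhd ℝ (h l j) (Set.Ioi B) := fun l j t ht =>
    analyticAt_valueC _ _ _ (hξan' j t ht)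
  have hGh : ∀ l j, ∀ t : ℝ, B < t → h l j t * ((G l).map (evC t)).eval (ξ j t) = 1 := by
    intro l j t ht
    obtain ⟨g, hg⟩ := hHG l
    have h1 := congrArg (fun P : ℂ[X][X] => (P.map (evC t)).eval (ξ j t)) hg
    simp only [Polynomial.map_sub, Polynomial.map_mul, Polynomial.map_one, eval_sub, eval_mul,
      eval_one, (hξ' t ht).2 j, zero_mul] at h1
    exact sub_eq_zero.mp h1
  have h0 : ∀ l j, ∀ t : ℝ, B < t → h l j t ≠ 0 := by
    intro l j t ht hzero
    have h1 := hGh l j t ht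
    rw [hzero, zero_mul] at h1
    exact zero_ne_one h1
  -- the growth exponents
  have hgr : ∀ l j, ∃ p0 ∈ (G' l).support.offDiag, ∃ c : ℂ, c ≠ 0 ∧
      Tendsto (fun t : ℝ => h l j t ^ (growthSlopeC (G' l) p0).den /
        (t : ℂ) ^ (growthSlopeC (G' l) p0).num) atTop (𝓝 c) := by
    intro l j
    exact exists_growthC_mem (G' l) (hG'0 l) B (h l j) (han l j).continuousOn (h0 l j)
      fun t ht => hG'r l t _ ((hξ' t ht).2 j)
  choose p0 hp0 c hc hlim using hgr
  let s : Fin n → Fin F.natDegree → ℚ := fun l j => growthSlopeC (G' l) (p0 l j)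
  have hsS : ∀ l j, s l j ∈ S := by
    intro l j
    obtain ⟨h1, h2, h3⟩ := Finset.mem_offDiag.mp (hp0 l j)
    have h4 : (p0 l j).1 ≤ F.natDegree := (le_natDegree_of_mem_supp _ h1).trans (hG'd l)
    have h5 : (p0 l j).2 ≤ F.natDegree := (le_natDegree_of_mem_supp _ h2).trans (hG'd l)
    have h6 := hG'D l (p0 l j).1
    have h7 := hG'D l (p0 l j).2
    refine Finset.mem_image.mpr ⟨((((G' l).coeff (p0 l j).2).natDegree : ℤ) -
      ((G' l).coeff (p0 l j).1).natDegree, ((p0 l j).1 : ℤ) - (p0 l j).2), ?_, ?_⟩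
    · rw [Finset.mem_product, Finset.mem_Icc, Finset.mem_Icc]
      refine ⟨⟨?_, ?_⟩, ?_, ?_⟩ <;> simp only <;> omega
    · simp only [s, growthSlopeC]
      push_cast
      rfl
  -- the relation between the logarithmic derivatives
  have hrel : ∀ j, ∀ t : ℝ, B < t →
      ∑ l, (((g l).map (Int.castRingHom ℝ)).eval t) * (deriv (h l j) t / h l j t).re = 0 := by
    intro j t ht
    have hξd : HasDerivAt (ξ j) (deriv (ξ j) t) t := (hξan' j t ht).differentiableAt.hasDerivAt
    have hF1 := hasDerivAt_value F (ξ j) _ t hξd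
    have hF2 : HasDerivAt (fun t : ℝ => (F.map (evC (t : ℂ))).eval (ξ j t)) 0 t := by
      refine (hasDerivAt_const t (0 : ℂ)).congr_of_eventuallyEq ?_
      filter_upwards [eventually_gt_nhds ht] with s hs
      exact (hξ' s hs).2 j
    have hF3 := hF1.unique hF2
    have hFne : ((derivative F).map (evC (t : ℂ))).eval (ξ j t) ≠ 0 := by
      have h4 := (hB1 t (lt_of_le_of_lt hB1' ht)).eval₂_derivative_ne_zero (RingHom.id ℂ)
        (x := ξ j t) (by
          rw [eval₂_id]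
          exact (hξ' t ht).2 j)
      rw [eval₂_id, Polynomial.derivative_map] at h4
      exact h4
    have hhd : ∀ l, deriv (h l j) t = ((mc dT (H l)).map (evC (t : ℂ))).eval (ξ j t) +
        ((derivative (H l)).map (evC (t : ℂ))).eval (ξ j t) * deriv (ξ j) t := fun l =>
      (hasDerivAt_value (H l) (ξ j) _ t hξd).deriv
    obtain ⟨q, hq⟩ := hg
    have h1 := congrArg (fun P : ℂ[X][X] => (P.map (evC t)).eval (ξ j t)) hq
    simp only [Polynomial.map_sum, Polynomial.map_mul, eval_mul, (hξ' t ht).2 j, zero_mul,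
      Polynomial.map_C, eval_finsetSum, eval_C] at h1
    have h2 : ∀ l, ((WF dT F (H l) (G l)).map (evC (t : ℂ))).eval (ξ j t) =
        ((derivative F).map (evC (t : ℂ))).eval (ξ j t) * (deriv (h l j) t / h l j t) := by
      intro l
      have h3 : (h l j t)⁻¹ = ((G l).map (evC t)).eval (ξ j t) :=
        inv_eq_of_mul_eq_one_right (hGh l j t ht)
      rw [div_eq_mul_inv, h3, WF, hhd]
      simp only [Polynomial.map_sub, Polynomial.map_mul, eval_sub, eval_mul]
      linear_combination (-(((G l).map (evC (t : ℂ))).eval (ξ j t)) *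
        ((derivative (H l)).map (evC (t : ℂ))).eval (ξ j t)) * hF3
    simp only [h2] at h1
    have h5 : ∑ l, evC (t : ℂ) ((g l).map (Int.castRingHom ℂ)) *
        (deriv (h l j) t / h l j t) = 0 := by
      have h6 : ((derivative F).map (evC (t : ℂ))).eval (ξ j t) *
          ∑ l, evC (t : ℂ) ((g l).map (Int.castRingHom ℂ)) *
            (deriv (h l j) t / h l j t) = 0 := by
        rw [← h1, Finset.mul_sum]
        exact Finset.sum_congr rfl fun l _ => by ring
      exact (mul_eq_zero.mp h6).resolve_left hFne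
    have h7 : ∀ l, evC (t : ℂ) ((g l).map (Int.castRingHom ℂ)) =
        (((((g l).map (Int.castRingHom ℝ)).eval t : ℝ)) : ℂ) := by
      intro l
      have h8 : (g l).map (Int.castRingHom ℂ) =
          ((g l).map (Int.castRingHom ℝ)).map (algebraMap ℝ ℂ) := by
        rw [Polynomial.map_map]
        rfl
      rw [h8]
      show eval (t : ℂ) _ = _
      have h10 := Polynomial.eval₂_at_apply (p := (g l).map (Int.castRingHom ℝ)) (algebraMap ℝ ℂ) t
      rw [eval_map]
      exact h10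
    have h11 := congrArg Complex.re h5
    rw [Complex.re_sum, Complex.zero_re] at h11
    rw [← h11]
    refine Finset.sum_congr rfl fun l _ => ?_
    rw [h7, Complex.re_ofReal_mul]
  -- the leading coefficients
  set N := Finset.univ.sup fun l => (g l).natDegree with hN
  have hNle : ∀ l, (g l).natDegree ≤ N := fun l =>
    Finset.le_sup (f := fun l => (g l).natDegree) (Finset.mem_univ l)
  have hγ : (fun l => (g l).coeff N) ≠ 0 := by
    intro hzero
    have hzero' : ∀ l, (g l).coeff N = 0 := fun l => congrFun hzero l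
    obtain ⟨l0, hl0⟩ : ∃ l, g l ≠ 0 := by
      by_contra hcon
      push Not at hcon
      exact hgne (funext hcon)
    have hne : (Finset.univ : Finset (Fin n)).Nonempty := ⟨l0, Finset.mem_univ _⟩
    obtain ⟨l1, -, hl1⟩ := Finset.exists_mem_eq_sup Finset.univ hne fun l => (g l).natDegree
    rw [← hN] at hl1
    have h1 := hzero' l1
    rw [hl1] at h1
    have h2 : g l1 = 0 := leadingCoeff_eq_zero.mp h1
    have h3 : N = 0 := by rw [hl1, h2, natDegree_zero]
    have h4 := hNle l0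
    rw [h3, Nat.le_zero] at h4
    have h5 := hzero' l0
    rw [h3, ← h4] at h5
    exact hl0 (leadingCoeff_eq_zero.mp h5)
  have hγs : ∀ j, ∑ l, ((g l).coeff N : ℚ) * s l j = 0 := by
    intro j
    have h1 := hLim n N B (fun l t => Real.log ‖h l j t‖) (fun l t => (deriv (h l j) t / h l j t).re)
      (fun l => (s l j : ℝ)) g
      (fun l t ht => hasDerivAt_log_norm _ _ _ (han l j t ht).differentiableAt.hasDerivAt
        (h0 l j t ht))
      (fun l => log_growth (h l j) _ (growthSlopeC (G' l) (p0 l j)).den_nz _ (c l j) (hc l j)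
        (hlim l j) B (h0 l j) _ (by
          have h2 := Rat.mul_den_eq_num (growthSlopeC (G' l) (p0 l j))
          exact_mod_cast h2)) hNle (hrel j)
    exact_mod_cast h1
  obtain ⟨E', hE', hE's⟩ := hT s hsS ⟨_, hγ, hγs⟩
  set e0 : ℕ := ∏ l, ∏ j, (s l j).den with he0
  have he0ne : e0 ≠ 0 := Finset.prod_ne_zero_iff.mpr fun l _ =>
    Finset.prod_ne_zero_iff.mpr fun j _ => (s l j).den_nz
  have hdvd : ∀ l j, (s l j).den ∣ e0 := fun l j =>
    (Finset.dvd_prod_of_mem _ (Finset.mem_univ j)).trans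
      (Finset.dvd_prod_of_mem (fun l => ∏ j, (s l j).den) (Finset.mem_univ l))
  choose q hq using hdvd
  set v : Fin n → Fin F.natDegree → ℤ := fun l j => (s l j).num * q l j with hv
  have hvs : ∀ l j, (v l j : ℚ) = s l j * e0 := by
    intro l j
    rw [hq l j, hv]
    push_cast
    rw [← mul_assoc, Rat.mul_den_eq_num]
  set c' : Fin n → Fin F.natDegree → ℂ := fun l j => c l j ^ q l j with hc'
  have hc'0 : ∀ l j, c' l j ≠ 0 := fun l j => pow_ne_zero _ (hc l j)
  have hlim' : ∀ l j, Tendsto (fun t : ℝ => h l j t ^ e0 / (t : ℂ) ^ (v l j)) atTop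
      (𝓝 (c' l j)) := by
    intro l j
    refine ((hlim l j).pow (q l j)).congr fun t => ?_
    rw [div_pow, ← pow_mul, ← hq l j, hv]
    simp only
    rw [zpow_mul, zpow_natCast]
  refine hu E' hE' ?_
  refine isAlgebraic_of_growth_rel F hF B ξ hξ' n u H hH e0 he0ne v c' hc'0 hlim' E' fun j => ?_
  have h3 : ((∑ i, E' i * v i j : ℤ) : ℚ) = 0 := by
    push_cast
    have h4 : ∑ i, (E' i : ℚ) * (v i j : ℚ) = (∑ i, (E' i : ℚ) * s i j) * e0 := by
      rw [Finset.sum_mul]
      refine Finset.sum_congr rfl fun i _ => ?_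
      rw [hvs]
      ring
    rw [h4, hE's j, zero_mul]
  exact_mod_cast h3

end Pool.Agent.Work.MP_59f3ad_nt.Tw

end

section

/-!
# (Pen) The linear pencil: at most `n` values of `τ` for which `a + τ w` is dependent.
-/

set_option autoImplicit false

namespace Pool.Agent.Work.MP_59f3ad_nt.Tw

namespace PenX

theorem exists_proj (p : ℕ) [Fact p.Prime] (n : ℕ) (V : Type) [AddCommGroup V]
    [Module (ZMod p) V] (w : Fin n → V) (hw : LinearIndependent (ZMod p) w) :
    ∃ π : V →ₗ[ZMod p] (Fin n → ZMod p), ∀ l, π (w l) = Pi.single l 1 := by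
  obtain ⟨π, hπ⟩ := LinearMap.exists_leftInverse_of_injective
    (Fintype.linearCombination (ZMod p) w)
    (LinearMap.ker_eq_bot.mpr (linearIndependent_iff_injective_fintypeLinearCombination.mp hw))
  refine ⟨π, fun l => ?_⟩
  have h1 := LinearMap.congr_fun hπ (Pi.single l (1 : ZMod p))
  have h2 : Fintype.linearCombination (ZMod p) w (Pi.single l (1 : ZMod p)) = w l := by
    simp [Fintype.linearCombination_apply]
  rw [LinearMap.comp_apply, h2] at h1
  simpa using h1

end PenX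

open PenX in
theorem pr_Pen : StPen := by
  intro p _ n V _ _ a w hw
  obtain ⟨π, hπ⟩ := exists_proj p n V w hw
  set A : Matrix (Fin n) (Fin n) (ZMod p) := Matrix.of fun l j => π (a l) j with hA
  have hsub : {τ : ZMod p | ∃ c : Fin n → ZMod p, c ≠ 0 ∧ ∑ l, c l • (a l + τ • w l) = 0} ⊆
      ((-A).charpoly.roots.toFinset : Set (ZMod p)) := by
    rintro τ ⟨c, hc, h⟩
    have hdet : (Matrix.scalar (Fin n) τ - -A).det = 0 := by
      rw [← Matrix.exists_vecMul_eq_zero_iff]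
      refine ⟨c, hc, ?_⟩
      have h1 := congrArg π h
      rw [map_sum, map_zero] at h1
      funext j
      have h2 := congrFun h1 j
      simp only [Finset.sum_apply, map_smul, map_add, hπ, Pi.smul_apply, Pi.add_apply,
        Pi.zero_apply, smul_eq_mul] at h2
      change ∑ l, c l * (Matrix.scalar (Fin n) τ - -A) l j = 0
      refine Eq.trans (Finset.sum_congr rfl fun l _ => ?_) h2
      simp only [Matrix.sub_apply, Matrix.neg_apply, hA, Matrix.of_apply, Matrix.scalar_apply,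
        Matrix.diagonal_apply, Pi.single_apply]
      by_cases hlj : l = j
      · subst hlj
        simp only [if_true]
        ring
      · rw [if_neg hlj, if_neg (fun h : j = l => hlj h.symm)]
        ring
    have hne : (-A).charpoly ≠ 0 := (Matrix.charpoly_monic _).ne_zero
    simp only [Finset.mem_coe, Multiset.mem_toFinset]
    rw [Polynomial.mem_roots hne, Polynomial.IsRoot.def, Matrix.eval_charpoly]
    exact hdet
  calc {τ : ZMod p | ∃ c : Fin n → ZMod p, c ≠ 0 ∧ ∑ l, c l • (a l + τ • w l) = 0}.ncard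
      ≤ ((-A).charpoly.roots.toFinset : Set (ZMod p)).ncard :=
        Set.ncard_le_ncard hsub (Finset.finite_toSet _)
    _ = (-A).charpoly.roots.toFinset.card := Set.ncard_coe_finset _
    _ ≤ (-A).charpoly.roots.card := Multiset.toFinset_card_le _
    _ ≤ (-A).charpoly.natDegree := Polynomial.card_roots' _
    _ = n := by rw [Matrix.charpoly_natDegree_eq_dim, Fintype.card_fin]

end Pool.Agent.Work.MP_59f3ad_nt.Tw

end

section

/-!
The bad parameters for a single prime.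
-/

open NumberField IsDedekindDomain Polynomial

namespace Pool.Agent.Work.MP_59f3ad_nt.Tw

open Pool.Agent.Work.MP_59f3ad_nt Pool.Agent.Work.MP_59f3ad_nt.Cod

universe u

namespace PrimeGX

theorem box_finite (σ : Type) [Fintype σ] (H : ℕ) : {t : σ → ℤ | ∀ i, |t i| ≤ H}.Finite := by
  have h : {t : σ → ℤ | ∀ i, |t i| ≤ H} =
      Set.pi Set.univ (fun _ : σ => Set.Icc (-(H : ℤ)) H) := by
    ext t
    simp only [Set.mem_ofPred_eq, Set.mem_pi, Set.mem_univ, true_implies, Set.mem_Icc, abs_le]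
  rw [h]
  exact Set.Finite.pi (fun _ => Set.finite_Icc _ _)

theorem ringHom_eq (σ : Type) (p : ℕ) (t0 : σ → ℤ) :
    (red p).comp (MvPolynomial.eval t0) =
      (MvPolynomial.aeval (fun i => ((t0 i : ℤ) : ZMod p)) :
        MvPolynomial σ ℤ →ₐ[ℤ] ZMod p).toRingHom := by
  apply MvPolynomial.ringHom_ext
  · intro r
    simp
  · intro i
    simp

theorem map_map_red (σ : Type) (p : ℕ) (t0 : σ → ℤ) (F : (MvPolynomial σ ℤ)[X]) :
    (F.map (MvPolynomial.eval t0)).map (red p) =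
      F.map (MvPolynomial.aeval (fun i => ((t0 i : ℤ) : ZMod p)) :
        MvPolynomial σ ℤ →ₐ[ℤ] ZMod p).toRingHom := by
  rw [Polynomial.map_map, ringHom_eq]

theorem eval_red (σ : Type) (p : ℕ) (t0 : σ → ℤ) (D : MvPolynomial σ ℤ) :
    ((MvPolynomial.eval t0 D : ℤ) : ZMod p) =
      MvPolynomial.aeval (fun i => ((t0 i : ℤ) : ZMod p)) D := by
  have h := congrArg (fun f : MvPolynomial σ ℤ →+* ZMod p => f D) (ringHom_eq σ p t0)
  exact h

end PrimeGX

theorem pr_PrimeG : StNVA → StClsG.{u} → StBadE → StCntV → StPrimeG.{u} := by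
  intro hNVA hCls hBad hCnt σ _ F hF i0 n u hu
  classical
  by_cases hex : ∃ t : σ → ℤ, Irreducible (F.map (MvPolynomial.eval t))
  swap
  · refine ⟨0, 0, fun p _ _ H _ => ?_⟩
    have h0 : {t : σ → ℤ | (∀ i, |t i| ≤ H) ∧ Irreducible (F.map (MvPolynomial.eval t)) ∧
        (¬ ((F.map (MvPolynomial.eval t)).map (red p)).Separable ∨ ¬ NBG.{u} F p n t)} = ∅ := by
      rw [Set.eq_empty_iff_forall_notMem]
      rintro t ⟨_, h2, _⟩
      exact hex ⟨t, h2⟩
    rw [h0, Set.ncard_empty]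
    simp
  choose H hH using fun i => AdjoinRoot.mk_surjective (u i : AdjoinRoot F)
  choose G hG using fun i => AdjoinRoot.mk_surjective ((u i)⁻¹ : (AdjoinRoot F)ˣ).val
  have hHG : ∀ l, F ∣ H l * G l - 1 := by
    intro l
    rw [← AdjoinRoot.mk_eq_zero, map_sub, map_mul, hH, hG, map_one, Units.mul_inv, sub_self]
  obtain ⟨v, φ, hΔ⟩ := hNVA σ F hF i0 n u hu hex H G hH hHG
  obtain ⟨C1, p0, hE⟩ := hBad σ F hF hex _ hΔ
  obtain ⟨C, hC⟩ := hCnt σ n C1 (Fintype.card_pos_iff.mpr ⟨i0⟩)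
  refine ⟨C, max p0 2, ?_⟩
  intro p hp hp0 B hB
  have hp1 : p0 < p := lt_of_le_of_lt (le_max_left _ _) hp0
  have hp2 : 2 < p := lt_of_le_of_lt (le_max_right _ _) hp0
  have h1 := hC p B hB (fun i => ((v i : ℤ) : ZMod p))
    {t | Irreducible (F.map (MvPolynomial.eval t)) ∧ ¬ NBG.{u} F p n t} _ (hE p hp1) (by
      intro t0 ht0 s'
      rw [Set.mem_ofPred_eq, not_or, not_not] at ht0
      have h2 := hCls p (by omega) σ F hF n H G hHG v φ t0
        (by rw [PrimeGX.map_map_red]; exact ht0.1)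
        (by rw [PrimeGX.eval_red]; exact ht0.2) s'
      exact h2)
  refine le_trans (Nat.mul_le_mul_left _ (Set.ncard_le_ncard ?_
    ((PrimeGX.box_finite σ B).subset fun t h => h.1))) h1
  rintro t ⟨hb, hirr, hs⟩
  refine ⟨hb, ?_⟩
  rcases hs with hs | hs
  · right
    left
    rw [← PrimeGX.map_map_red]
    exact hs
  · left
    exact ⟨hirr, hs⟩

end Pool.Agent.Work.MP_59f3ad_nt.Tw

end

section

/-!
Almost all members of an arbitrary family with a full system of parametric units have, for almost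
all primes `p ≤ √H`, no exceptional twists `r ≡ 1 mod p - 1` at all.
-/

open NumberField IsDedekindDomain Polynomial

namespace Pool.Agent.Work.MP_59f3ad_nt.Tw

open Pool.Agent.Work.MP_59f3ad_nt Pool.Agent.Work.MP_59f3ad_nt.Cod

universe u

/-- The theorem on arbitrary families. -/
def StSeven : Prop := ∀ (m : ℕ) (F : (MvPolynomial (Fin (m + 1)) ℤ)[X]), F.Monic → ∀ (n : ℕ)
  (u : Fin n → (AdjoinRoot F)ˣ),
  (∀ E : Fin n → ℤ, E ≠ 0 →
    Transcendental ℤ ((∏ i, u i ^ E i : (AdjoinRoot F)ˣ) : AdjoinRoot F)) →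
  ∃ A : ℕ, ∀ H : ℕ, 2 ≤ H → ∃ Bad : Set (Fin (m + 1) → ℤ),
    ({t : Fin (m + 1) → ℤ | (∀ i, |t i| ≤ H) ∧ t ∈ Bad}.ncard : ℝ) ≤
      A * (H : ℝ) ^ (m + 1) / Real.log H ∧
    ∀ t : Fin (m + 1) → ℤ, (∀ i, |t i| ≤ H) → t ∉ Bad →
      Irreducible (F.map (MvPolynomial.eval t)) →
      ∀ (K : Type u) [Field K] [NumberField K] (x : K),
        aeval x (F.map (MvPolynomial.eval t)) = 0 → Module.finrank ℚ K = F.natDegree →
        Units.rank K = n →
        (∀ (p : ℕ) [Fact p.Prime], p ^ 2 ≤ H → (∀ ζ : K, ζ ^ p = 1 → ζ = 1) →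
          ∀ S : Set (HeightOneSpectrum (𝓞 K)),
          (∀ v : HeightOneSpectrum (𝓞 K), (p : 𝓞 K) ∈ v.asIdeal → v ∈ S) →
          GoodB K p S (A * H ^ A)) ∧
        ∃ P : Finset ℕ, (P.card : ℝ) ≤ A * (Real.log H) ^ 2 ∧
          ∀ (p : ℕ) [Fact p.Prime], p ^ 2 ≤ H → p ∉ P →
          ∀ S : Set (HeightOneSpectrum (𝓞 K)),
          (∀ v : HeightOneSpectrum (𝓞 K), (p : 𝓞 K) ∈ v.asIdeal → v ∈ S) →
          ∀ r : ℤ, ((p : ℤ) - 1) ∣ r - 1 → Sha1 K p r S = ⊥

open SixX CoreX in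
theorem stSeven (hThree : StThree.{u}) (hPrime : StPrimeG.{u}) (hMk : StMk1) (hRootG : StRootG)
    (hTwo1 : StTwo1.{u}) (hLL : StLL.{u}) (hLL1 : StLL1.{u})
    (hTex : StTex.{u}) (hTex1 : StTex1.{u}) (hRed : StRed.{u}) (hIdx : StIdx.{u})
    (hHcl : StHcl.{u}) (hSig : StSig.{u}) (hZp : StZp) : StSeven.{u} := by
  classical
  intro m F hF n u hu
  have hcard : Fintype.card (Fin (m + 1)) = m + 1 := Fintype.card_fin _
  obtain ⟨Bad0, C0, -, hD, hGood⟩ := hThree m F hF n u hu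
  obtain ⟨C5, p0, hP1⟩ := hPrime (Fin (m + 1)) F hF 0 n u hu
  let Bad2 : ℕ → Set (Fin (m + 1) → ℤ) := fun p =>
    {t | Irreducible (F.map (MvPolynomial.eval t)) ∧
      (¬ ((F.map (MvPolynomial.eval t)).map (red p)).Separable ∨ ¬ NBG.{u} F p n t)}
  obtain ⟨C6, hC6⟩ := hMk (Fin (m + 1)) C5 p0
  have hMk' := fun (H : ℕ) (hH : 2 ≤ H) => hC6 Bad2 H hH (fun p hp hpp hpH => by
    haveI := Fact.mk hp
    exact hP1 p hpp H hpH)
  rw [hcard] at hMk'
  obtain ⟨Cr, hCr⟩ := hRootG (Fin (m + 1)) F hF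
  obtain ⟨Cg, hCg⟩ := good_core.{u} hTwo1 hLL hTex hIdx hHcl F.natDegree n 0 Cr
  have hbox := fun H => BoundX.box_finite (Fin (m + 1)) H
  let Bad3 : ℕ → Set (Fin (m + 1) → ℤ) := fun H => {t | ∃ p : ℕ, p.Prime ∧ p ^ 2 ≤ H ∧
      t ∈ Bad0 H p}
  let Bad4 : ℕ → Set (Fin (m + 1) → ℤ) := fun H => {t | (Real.log H) ^ 2 <
    ({p : ℕ | p.Prime ∧ p0 < p ∧ p ^ 2 ≤ H ∧ t ∈ Bad2 p}.ncard : ℝ)}
  refine ⟨C0 + C6 + (3 * (p0 + F.natDegree + 3) + 5 * Cg + 1), fun H hH =>
    ⟨Bad3 H ∪ Bad4 H, ?_, ?_⟩⟩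
  · have hH1 : (1 : ℝ) ≤ H := by exact_mod_cast (by omega : 1 ≤ H)
    have hL : (0 : ℝ) < Real.log H := Real.log_pos (by exact_mod_cast hH)
    have h1 : {t : Fin (m + 1) → ℤ | (∀ i, |t i| ≤ H) ∧ t ∈ (Bad3 H ∪ Bad4 H)} ⊆
        ({t : Fin (m + 1) → ℤ | (∀ i, |t i| ≤ H) ∧ ∃ p : ℕ, p.Prime ∧ p ^ 2 ≤ H ∧
          t ∈ Bad0 H p} ∪ {t : Fin (m + 1) → ℤ | (∀ i, |t i| ≤ H) ∧ (Real.log H) ^ 2 <
          ({p : ℕ | p.Prime ∧ p0 < p ∧ p ^ 2 ≤ H ∧ t ∈ Bad2 p}.ncard : ℝ)}) := by
      rintro t ⟨ht, ht' | ht'⟩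
      · exact Or.inl ⟨ht, ht'⟩
      · exact Or.inr ⟨ht, ht'⟩
    have h2 := ((Set.ncard_le_ncard h1 (((hbox H).subset fun t ht => ht.1).union
      ((hbox H).subset fun t ht => ht.1)))).trans (Set.ncard_union_le _ _)
    have h3 : (({t : Fin (m + 1) → ℤ | (∀ i, |t i| ≤ H) ∧ t ∈
        (Bad3 H ∪ Bad4 H)}.ncard : ℕ) : ℝ) ≤
        (({t : Fin (m + 1) → ℤ | (∀ i, |t i| ≤ H) ∧ ∃ p : ℕ, p.Prime ∧ p ^ 2 ≤ H ∧
          t ∈ Bad0 H p}.ncard : ℝ) + ({t : Fin (m + 1) → ℤ | (∀ i, |t i| ≤ H) ∧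
          (Real.log H) ^ 2 <
          ({p : ℕ | p.Prime ∧ p0 < p ∧ p ^ 2 ≤ H ∧ t ∈ Bad2 p}.ncard : ℝ)}.ncard : ℝ)) := by
      exact_mod_cast h2
    have h7 : (0 : ℝ) ≤ (3 * (p0 + F.natDegree + 3) + 5 * Cg + 1) * (H : ℝ) ^ (m + 1) /
        Real.log H := by positivity
    calc _ ≤ _ := h3
      _ ≤ (C0 * (H : ℝ) ^ (m + 1) / Real.log H +
          C6 * (H : ℝ) ^ (m + 1) / Real.log H) := add_le_add (hD H hH) (hMk' H hH)
      _ ≤ (C0 * (H : ℝ) ^ (m + 1) / Real.log H +
          C6 * (H : ℝ) ^ (m + 1) / Real.log H) +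
          (3 * (p0 + F.natDegree + 3) + 5 * Cg + 1) * (H : ℝ) ^ (m + 1) /
        Real.log H := le_add_of_nonneg_right h7
      _ = _ := by push_cast; ring
  intro t htH ht hirr K _ _ x hx hK hrank
  rw [Set.mem_union, not_or] at ht
  obtain ⟨ht3, ht4⟩ := ht
  set f : ℤ[X] := F.map (MvPolynomial.eval t) with hf
  have hfm : f.Monic := hF.map _
  have hfd : f.natDegree = F.natDegree := hF.natDegree_map _
  have hxint : IsIntegral ℤ x := ⟨f, hfm, hx⟩
  obtain ⟨y, hy⟩ : ∃ y : 𝓞 K, algebraMap (𝓞 K) K y = x := ⟨⟨x, hxint⟩, rfl⟩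
  have hy0 : aeval y f = 0 := by
    apply FaithfulSMul.algebraMap_injective (𝓞 K) K
    rw [map_zero, ← hx, ← hy]
    exact (aeval_algebraMap_apply K y f).symm
  have hroot : ∀ z : ℂ, (f.map (Int.castRingHom ℂ)).eval z = 0 → ‖z‖ ≤ Cr * (H : ℝ) ^ Cr :=
    fun z hz => hCr H (by omega) t htH z hz
  have hpH : ∀ p : ℕ, p ^ 2 ≤ H → p ≤ H := by
    intro p hp
    nlinarith [Nat.zero_le p]
  have hcl : classNumber K ≤ Cg * H ^ Cg := by
    haveI : Fact (Nat.Prime 2) := ⟨Nat.prime_two⟩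
    exact (hCg H 2 (by omega) f hfm hfd hirr hroot K y hK hy0).1
  refine ⟨?_, ?_⟩
  · intro p hpf hp hζ S hSp
    have h : t ∉ Bad0 H p := fun h => ht3 ⟨p, hpf.out, hp, h⟩
    obtain ⟨hG1, hG2⟩ := hGood H p (hpH p hp) t htH h hirr K x hx hK hrank hζ S hSp
    refine ⟨hG1, fun k r φ hφ hind => (hG2 k r φ hφ hind).trans ?_⟩
    exact Nat.mul_le_mul (by omega) (Nat.pow_le_pow_right (by omega) (by omega))
  · have hfinP : {p : ℕ | p.Prime ∧ p0 < p ∧ p ^ 2 ≤ H ∧ t ∈ Bad2 p}.Finite :=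
      (Set.finite_Iic H).subset fun p hp => hpH p hp.2.2.1
    refine ⟨Finset.range (p0 + F.natDegree + 3) ∪ (classNumber K).primeFactors ∪
      hfinP.toFinset, ?_, ?_⟩
    · have hL2 := Real.log_two_gt_d9
      have hLH : Real.log 2 ≤ Real.log H := Real.log_le_log (by norm_num) (by exact_mod_cast hH)
      set L := Real.log H with hLdef
      have hL : (0.69 : ℝ) ≤ L := by linarith
      have h1 : (Finset.range (p0 + F.natDegree + 3) ∪ (classNumber K).primeFactors ∪
          hfinP.toFinset).card ≤ (p0 + F.natDegree + 3) + Nat.log 2 (classNumber K) +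
          {p : ℕ | p.Prime ∧ p0 < p ∧ p ^ 2 ≤ H ∧ t ∈ Bad2 p}.ncard := by
        refine (Finset.card_union_le _ _).trans (Nat.add_le_add ?_ ?_)
        · refine (Finset.card_union_le _ _).trans (Nat.add_le_add ?_ ?_)
          · rw [Finset.card_range]
          · exact card_primeFactors_le _ (classNumber_ne_zero K)
        · rw [Set.ncard_eq_toFinset_card _ hfinP]
      have h2 : ({p : ℕ | p.Prime ∧ p0 < p ∧ p ^ 2 ≤ H ∧ t ∈ Bad2 p}.ncard : ℝ) ≤
          L ^ 2 := not_lt.mp ht4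
      have h3 : (Nat.log 2 (classNumber K) : ℝ) * Real.log 2 ≤ 2 * Cg * L := by
        have h5 : ((2 : ℝ)) ^ Nat.log 2 (classNumber K) ≤ (H : ℝ) ^ (2 * Cg) := by
          have h6 : 2 ^ Nat.log 2 (classNumber K) ≤ H ^ (2 * Cg) := by
            refine (Nat.pow_log_le_self 2 (classNumber_ne_zero K)).trans (hcl.trans ?_)
            calc Cg * H ^ Cg ≤ H ^ Cg * H ^ Cg := by
                  refine Nat.mul_le_mul_right _ ?_
                  exact (Nat.lt_two_pow_self).le.trans (Nat.pow_le_pow_left hH _)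
              _ = H ^ (2 * Cg) := by rw [two_mul, pow_add]
          exact_mod_cast h6
        have h7 := Real.log_le_log (by positivity) h5
        rw [Real.log_pow, Real.log_pow] at h7
        push_cast at h7
        linarith
      have h8 : (Nat.log 2 (classNumber K) : ℝ) ≤ 5 * Cg * L ^ 2 := by
        have h9 : (Nat.log 2 (classNumber K) : ℝ) * 0.69 ≤ 2 * Cg * L := by
          refine le_trans ?_ h3
          gcongr
          linarith
        have h10 : 2 * (Cg : ℝ) * L * 0.69 ≤ 2 * Cg * L * L := by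
          gcongr
        have h11 : (0 : ℝ) ≤ (Cg : ℝ) * L ^ 2 := by positivity
        nlinarith
      have h12 : (1 : ℝ) ≤ 3 * L ^ 2 := by nlinarith
      have h13 : ((p0 + F.natDegree + 3 : ℕ) : ℝ) ≤ 3 * ((p0 + F.natDegree + 3 : ℕ) : ℝ) * L ^ 2 := by
        have : (0 : ℝ) ≤ ((p0 + F.natDegree + 3 : ℕ) : ℝ) := Nat.cast_nonneg _
        nlinarith
      have h14 : ((Finset.range (p0 + F.natDegree + 3) ∪ (classNumber K).primeFactors ∪
          hfinP.toFinset).card : ℝ) ≤ ((p0 + F.natDegree + 3 : ℕ) : ℝ) +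
          (Nat.log 2 (classNumber K) : ℝ) +
          ({p : ℕ | p.Prime ∧ p0 < p ∧ p ^ 2 ≤ H ∧ t ∈ Bad2 p}.ncard : ℝ) := by
        exact_mod_cast h1
      refine h14.trans ?_
      have h15 : (0 : ℝ) ≤ (C0 + C6 : ℝ) * L ^ 2 := by positivity
      push_cast at h13 ⊢
      nlinarith
    · intro p hpf hp hpP S hSp r hrr
      rw [Finset.mem_union, Finset.mem_union, not_or, not_or, Finset.mem_range,
        Nat.mem_primeFactors, Set.Finite.mem_toFinset] at hpP
      obtain ⟨⟨hp1, hp2⟩, hp3⟩ := hpP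
      have hpb' : ¬ (Irreducible (F.map (MvPolynomial.eval t)) ∧
        (¬ ((F.map (MvPolynomial.eval t)).map (red p)).Separable ∨ ¬ NBG.{u} F p n t)) :=
        fun h => hp3 ⟨hpf.out, by omega, hp, h⟩
      push Not at hpb'
      obtain ⟨hsep, hNB⟩ := hpb' hirr
      obtain ⟨w, hw⟩ := hNB K y hK hy0
      exact none_core hTwo1 hLL1 hTex1 hRed hSig hZp K p
        (no_torsion K p hpf.out (by rw [hK]; omega)) f hfm hirr hsep y
        (by rw [hK, hfd]) hy0 _ hrank w hw
        (fun h => hp2 ⟨hpf.out, h, classNumber_ne_zero K⟩) S hSp r hrr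

end Pool.Agent.Work.MP_59f3ad_nt.Tw

end
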