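import Mathlib
import Pool.Agent.Work.MP_59f3ad_nt.Bdx.B04
import Pool.Agent.Work.MP_59f3ad_nt.Cod.ClassFinM
import Pool.Agent.Work.MP_59f3ad_nt.Cod.Sm
import Pool.Agent.Work.MP_59f3ad_nt.Cod.GC
import Pool.Agent.Work.MP_59f3ad_nt.Cod.Dig
import Pool.Agent.Work.MP_59f3ad_nt.Bdx.B03
import Pool.Agent.Work.MP_59f3ad_nt.Bd.B02

/-! Bundle of small proof modules (one section per former module). -/

section

/-!
MP_59f3ad_nt: the number of bad digits in a residue class (first order independence; the proof is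
the one of `Cod/ClassFinM.lean`).
-/

open Polynomial NumberField

namespace Pool.Agent.Work.MP_59f3ad_nt.Tw

open Pool.Agent.Work.MP_59f3ad_nt.Cod

universe u

open Pool.Agent.Work.MP_59f3ad_nt.Cod.ClassFinMX in
theorem pr_ClassFin1 : StDig1.{u} → StEv → StClassFin1.{u} := by
  intro hDig hEv r1 r2 k hd hk1 hk2 hk
  obtain ⟨N, hN⟩ := hEv r1 r2 k hd hk1 hk2 hk
  refine ⟨N, fun p _ hp2 hpd t0 h1 h2 h3 h4 s' => ?_⟩
  classical
  have hpr : p.Prime := Fact.out
  let ι : ZMod p →+* AlgebraicClosure (ZMod p) := algebraMap (ZMod p) _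
  have hι : Function.Injective ι := ι.injective
  have hιz : ∀ z : ℤ, ι (z : ZMod p) = (z : AlgebraicClosure (ZMod p)) := fun z => map_intCast ι z
  have hsep : ((gg t0 - 1).map (red p)).Separable := by
    have e : ((gg t0 - 1).map (red p)).map ι =
        (gg fun i => ((t0 i : ℤ) : AlgebraicClosure (ZMod p))) - 1 := by
      rw [Polynomial.map_map, Polynomial.map_sub, Polynomial.map_one, gg_map]
      congr 2
    rw [← Polynomial.separable_map ι, e]
    exact h2
  have h2F : (2 : AlgebraicClosure (ZMod p)) ≠ 0 := by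
    have := natCast_ne_zero_of_not_dvd p (AlgebraicClosure (ZMod p)) (n := 2)
      (fun h => hp2 ((Nat.prime_dvd_prime_iff_eq hpr Nat.prime_two).1 h))
    exact_mod_cast this
  have hdF : ((r1 + 2 * r2 : ℕ) : AlgebraicClosure (ZMod p)) ≠ 0 :=
    natCast_ne_zero_of_not_dvd p _ hpd
  obtain ⟨j0⟩ := exists_index r1 r2 hd
  obtain ⟨M, L, hM, hL⟩ := hDig p hp2 r1 r2 hd t0 hsep
  have hMF : (M : AlgebraicClosure (ZMod p)) ≠ 0 := natCast_ne_zero_of_not_dvd p _ hM
  set S : Set (Js r1 r2 k → ZMod p) := {τ | ∃ s : Ix r1 r2 → ℤ,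
    (∀ i, i ∉ Js r1 r2 k → ((s i : ℤ) : ZMod p) = ((s' i : ℤ) : ZMod p)) ∧
    (∀ i : Js r1 r2 k, ((s i : ℤ) : ZMod p) = τ i) ∧
    Irreducible (gg (sh t0 s p) - 1) ∧ ¬ NB1.{u} r1 r2 p (sh t0 s p)} with hS
  have hex : ∀ τ : S, ∃ s : Ix r1 r2 → ℤ,
    (∀ i, i ∉ Js r1 r2 k → ((s i : ℤ) : ZMod p) = ((s' i : ℤ) : ZMod p)) ∧
    (∀ i : Js r1 r2 k, ((s i : ℤ) : ZMod p) = τ.1 i) ∧
    Irreducible (gg (sh t0 s p) - 1) ∧ ¬ NB1.{u} r1 r2 p (sh t0 s p) := fun τ => τ.2
  choose s hs1 hs2 hs3 hs4 using hex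
  let σ : S → Ix r1 r2 → AlgebraicClosure (ZMod p) := fun τ i => ((s τ i : ℤ) : _)
  have hσ : Function.Injective σ := by
    intro τ τ' h
    apply Subtype.ext
    funext i
    rw [← hs2 τ i, ← hs2 τ' i]
    apply hι
    rw [hιz, hιz]
    exact congrFun h i
  have : Fintype S := Fintype.ofFinite S
  have hcard : ((Finset.univ : Finset S).image σ).card = S.ncard := by
    rw [Finset.card_image_of_injective _ hσ, Finset.card_univ, ← Nat.card_eq_fintype_card,
      Nat.card_coe_set_eq]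
  rw [← hcard]
  refine hN (AlgebraicClosure (ZMod p)) (fun i => ((t0 i : ℤ) : _)) h2F hdF h1 h3 h4 j0
    (fun j => (L j).map ι) (M : _) hMF (fun i => ((s' i : ℤ) : _)) _ ?_
  intro x hx
  obtain ⟨τ, -, rfl⟩ := Finset.mem_image.1 hx
  refine ⟨fun i hi => ?_, ?_⟩
  · change ((s τ i : ℤ) : AlgebraicClosure (ZMod p)) = ((s' i : ℤ) : _)
    rw [← hιz, ← hιz, hs1 τ i hi]
  · obtain ⟨c, hc0, hc, hrel⟩ := hL (s τ) (hs3 τ) (hs4 τ) j0
    refine ⟨fun j => ι (c j), by simp [hc0], ?_, ?_⟩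
    · intro h
      apply hc
      funext j
      apply hι
      rw [Pi.zero_apply, map_zero]
      exact congrFun h j
    · have h := congrArg (Polynomial.map ι) hrel
      rw [Polynomial.map_zero, Polynomial.map_sum] at h
      rw [← h]
      refine Finset.sum_congr rfl fun j _ => ?_
      rw [Polynomial.map_mul, Polynomial.map_add, Polynomial.map_mul, Polynomial.map_C,
        Polynomial.map_C, NN_map, map_natCast]
      simp only [hιz]
      rfl

end Pool.Agent.Work.MP_59f3ad_nt.Tw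

end

section

/-! MP_59f3ad_nt, Tw: counting the points of a box in bad classes modulo `p`, or with few bad
digits modulo `p ^ 2`. -/

set_option autoImplicit false

namespace Pool.Agent.Work.MP_59f3ad_nt.Tw

open Pool.Agent.Work.MP_59f3ad_nt.Cod

namespace CountX

open SmX

variable {σ : Type} [Fintype σ]

/-- the points of a box in a class modulo `m` -/
theorem cls {m H : ℕ} (hm : 0 < m) (hmH : m ≤ H) (t0 : σ → ℤ) :
    {t : σ → ℤ | (∀ i, |t i| ≤ H) ∧ ∀ i, (m : ℤ) ∣ t i - t0 i}.ncard ≤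
      (4 * (H / m)) ^ Fintype.card σ := by
  classical
  have hm' : (0 : ℤ) < m := by exact_mod_cast hm
  have hq : 1 ≤ H / m := (Nat.one_le_div_iff hm).2 hmH
  set Y : Finset (σ → ℤ) :=
    Fintype.piFinset fun _ => Finset.Icc (-((H / m : ℕ) : ℤ) - 1) ((H / m : ℕ) : ℤ) with hY
  have hYc : Y.card ≤ (4 * (H / m)) ^ Fintype.card σ := by
    rw [hY, Fintype.card_piFinset]
    simp only [Int.card_Icc, Finset.prod_const, Finset.card_univ]
    refine Nat.pow_le_pow_left ?_ _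
    omega
  refine le_trans ?_ hYc
  rw [← Set.ncard_coe_finset Y]
  refine Set.ncard_le_ncard_of_injOn (fun t i => t i / (m : ℤ)) ?_ ?_ (Finset.finite_toSet Y)
  · rintro t ⟨ht, -⟩
    rw [Finset.mem_coe, hY, Fintype.mem_piFinset]
    intro i
    obtain ⟨h1, h2⟩ := abs_le.1 (ht i)
    have h3 : (H : ℤ) < m * ((H / m : ℕ) + 1) := by
      exact_mod_cast Nat.lt_mul_div_succ H hm
    rw [Finset.mem_Icc]
    constructor
    · rw [Int.le_ediv_iff_mul_le hm']
      nlinarith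
    · have h4 : t i / m ≤ (H : ℤ) / m := Int.ediv_le_ediv hm' h2
      exact_mod_cast h4
  · rintro t ⟨-, ht⟩ t' ⟨-, ht'⟩ h
    funext i
    have h1 : t i / (m : ℤ) = t' i / (m : ℤ) := congrFun h i
    have h2 : (m : ℤ) ∣ t i - t' i := by
      have := dvd_sub (ht i) (ht' i)
      rwa [sub_sub_sub_cancel_right] at this
    have h3 : t i % (m : ℤ) = t' i % (m : ℤ) :=
      Int.emod_eq_emod_iff_emod_sub_eq_zero.2 (Int.emod_eq_zero_of_dvd h2)
    rw [← Int.mul_ediv_add_emod (t i) m, ← Int.mul_ediv_add_emod (t' i) m, h1, h3]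

end CountX

open SmX CountX in
theorem pr_Count : StCount := by
  intro σ _ J N C1 hJ
  classical
  obtain ⟨CG, hG⟩ := pr_GC σ J N
  refine ⟨4 ^ Fintype.card σ * (C1 + N) + CG, ?_⟩
  intro p _ H hpH S E hE hdig
  have hp : 0 < p := (Fact.out : p.Prime).pos
  have hp' : (0 : ℤ) < p := by exact_mod_cast hp
  have hJd : J.card ≤ Fintype.card σ := J.card_le_univ
  set d := Fintype.card σ with hd
  set k := J.card with hk
  have hd1 : 1 ≤ d := le_trans hJ hJd
  set A : Set (σ → ℤ) := {t | (∀ i, |t i| ≤ H) ∧ (fun i => ((t i : ℤ) : ZMod p)) ∈ E} with hA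
  set B : Set (σ → ℤ) :=
    {t | ((∀ i, |t i| ≤ H) ∧ t ∈ S) ∧ (fun i => ((t i : ℤ) : ZMod p)) ∉ E} with hB
  have hAfin : A.Finite := (box_finite H).subset fun t ht => ht.1
  have hBfin : B.Finite := (box_finite H).subset fun t ht => ht.1.1
  have hsplit : {t : σ → ℤ | (∀ i, |t i| ≤ H) ∧
      (t ∈ S ∨ (fun i => ((t i : ℤ) : ZMod p)) ∈ E)} ⊆ A ∪ B := by
    rintro t ⟨h1, h2⟩
    by_cases h : (fun i => ((t i : ℤ) : ZMod p)) ∈ E
    · exact Or.inl ⟨h1, h⟩
    · exact Or.inr ⟨⟨h1, h2.resolve_right h⟩, h⟩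
  have h0 := (Set.ncard_le_ncard hsplit (hAfin.union hBfin)).trans (Set.ncard_union_le A B)
  -- the classes in E
  have h1 : A.ncard ≤ (4 * (H / p)) ^ d * (C1 * p ^ (d - 1)) := by
    refine (fib A hAfin (fun t => fun i => ((t i : ℤ) : ZMod p)) E (Set.toFinite E)
      (fun t ht => ht.2) ((4 * (H / p)) ^ d) fun e _ => ?_).trans (Nat.mul_le_mul_left _ hE)
    rcases Set.eq_empty_or_nonempty {a : σ → ℤ | a ∈ A ∧
      (fun i => ((a i : ℤ) : ZMod p)) = e} with h2 | ⟨t0, ht0⟩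
    · rw [h2, Set.ncard_empty]
      exact Nat.zero_le _
    · refine (Set.ncard_le_ncard ?_ ((box_finite H).subset fun t ht => ht.1)).trans
        (cls hp hpH t0)
      rintro t ⟨⟨h3, _⟩, h5⟩
      refine ⟨h3, fun i => ?_⟩
      have h6 : ((t i : ℤ) : ZMod p) = ((t0 i : ℤ) : ZMod p) := by
        rw [← ht0.2] at h5
        exact congrFun h5 i
      exact (ZMod.intCast_eq_intCast_iff_dvd_sub _ _ _).1 h6.symm
  have h1' : p * A.ncard ≤ 4 ^ d * C1 * H ^ d := by
    have e1 : p * p ^ (d - 1) = p ^ d := by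
      rw [← pow_succ']
      congr 1
      omega
    calc p * A.ncard ≤ p * ((4 * (H / p)) ^ d * (C1 * p ^ (d - 1))) := Nat.mul_le_mul_left _ h1
      _ = 4 ^ d * C1 * ((H / p) ^ d * (p * p ^ (d - 1))) := by rw [mul_pow]; ring
      _ = 4 ^ d * C1 * (H / p * p) ^ d := by rw [e1, mul_pow]
      _ ≤ 4 ^ d * C1 * H ^ d :=
          Nat.mul_le_mul_left _ (Nat.pow_le_pow_left (Nat.div_mul_le_self H p) _)
  -- the other classes
  have h2' : p * B.ncard ≤ 4 ^ d * N * H ^ d + CG * (p ^ (k + 1) * H ^ (d - k)) := by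
    rcases Nat.le_total (p ^ 2) H with hH | hH
    · have h2 : B.ncard ≤ (4 * (H / p ^ 2)) ^ d * (N * p ^ (2 * d - k)) := by
        refine (fib B hBfin (dig p J) (dig p J '' B) (hBfin.image _)
          (fun t ht => Set.mem_image_of_mem _ ht) ((4 * (H / p ^ 2)) ^ d) ?_).trans
          (Nat.mul_le_mul_left _ ?_)
        · rintro _ ⟨t0, ht0, rfl⟩
          refine (Set.ncard_le_ncard ?_ ((box_finite H).subset fun t ht => ht.1)).trans
            (cls (pow_pos hp 2) hH t0)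
          rintro t ⟨⟨⟨h3, _⟩, _⟩, h5⟩
          refine ⟨h3, fun i => ?_⟩
          have := dig_inj J h5 i
          exact_mod_cast this
        · exact digits_card J B E S (fun t ht => ht.1.2) (fun t ht => ht.2) hdig
      have e1 : p * p ^ (2 * d - k) ≤ (p ^ 2) ^ d := by
        rw [← pow_succ', ← pow_mul]
        exact Nat.pow_le_pow_right hp (by omega)
      calc p * B.ncard ≤ p * ((4 * (H / p ^ 2)) ^ d * (N * p ^ (2 * d - k))) :=
            Nat.mul_le_mul_left _ h2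
        _ = 4 ^ d * N * ((H / p ^ 2) ^ d * (p * p ^ (2 * d - k))) := by rw [mul_pow]; ring
        _ ≤ 4 ^ d * N * ((H / p ^ 2) ^ d * (p ^ 2) ^ d) :=
            Nat.mul_le_mul_left _ (Nat.mul_le_mul_left _ e1)
        _ = 4 ^ d * N * (H / p ^ 2 * p ^ 2) ^ d := by rw [mul_pow]
        _ ≤ 4 ^ d * N * H ^ d :=
            Nat.mul_le_mul_left _ (Nat.pow_le_pow_left (Nat.div_mul_le_self H _) _)
        _ ≤ _ := Nat.le_add_right _ _
    · have h2 : B.ncard ≤ CG * (H / p) ^ (d - k) * p ^ d := by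
        have hc : (Set.univ : Set (σ → ZMod p)).ncard = p ^ d := by
          rw [Set.ncard_univ, Nat.card_fun, Nat.card_eq_fintype_card, Nat.card_eq_fintype_card,
            ZMod.card]
        rw [← hc]
        refine fib B hBfin (fun t => fun i => ((t i : ℤ) : ZMod p)) Set.univ (Set.toFinite _)
          (fun _ _ => Set.mem_univ _) _ fun u _ => ?_
        rcases Set.eq_empty_or_nonempty {a : σ → ℤ | a ∈ B ∧
          (fun i => ((a i : ℤ) : ZMod p)) = u} with h3 | ⟨t1, ht1⟩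
        · rw [h3, Set.ncard_empty]
          exact Nat.zero_le _
        · have hu : u ∉ E := by
            have := ht1.1.2
            rwa [ht1.2] at this
          set t0 : σ → ℤ := fun i => ((u i).val : ℤ) with ht0
          have hc0 : (fun i => ((t0 i : ℤ) : ZMod p)) = u := by
            funext i
            simp only [ht0]
            rw [Int.cast_natCast, ZMod.natCast_zmod_val]
          have h4 := hG p H hpH hH S t0 (fun i => ⟨by simp only [ht0]; positivity, by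
            simp only [ht0]
            exact_mod_cast ZMod.val_lt (u i)⟩) (fun s' => by
              refine le_trans (Set.ncard_le_ncard ?_ (Set.toFinite _))
                (hdig t0 (by rw [hc0]; exact hu) s')
              rintro τ ⟨s, hs1, hs2, hs3⟩
              exact ⟨s, fun i hi => by rw [hs1 i hi], hs2, hs3⟩)
          refine le_trans (Set.ncard_le_ncard ?_ ((box_finite H).subset fun t ht => ht.1)) h4
          rintro t ⟨⟨⟨h5, h6⟩, _⟩, h7⟩
          refine ⟨h5, fun i => ?_, h6⟩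
          have h8 : ((t i : ℤ) : ZMod p) = ((t0 i : ℤ) : ZMod p) := by
            rw [← hc0] at h7
            exact congrFun h7 i
          exact (ZMod.intCast_eq_intCast_iff_dvd_sub _ _ _).1 h8.symm
      have e1 : p * p ^ d = p ^ (k + 1) * p ^ (d - k) := by
        rw [← pow_succ', ← pow_add]
        congr 1
        omega
      calc p * B.ncard ≤ p * (CG * (H / p) ^ (d - k) * p ^ d) := Nat.mul_le_mul_left _ h2
        _ = CG * ((H / p) ^ (d - k) * (p * p ^ d)) := by ring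
        _ = CG * (p ^ (k + 1) * (H / p * p) ^ (d - k)) := by rw [e1, mul_pow]; ring
        _ ≤ CG * (p ^ (k + 1) * H ^ (d - k)) := Nat.mul_le_mul_left _ (Nat.mul_le_mul_left _
            (Nat.pow_le_pow_left (Nat.div_mul_le_self H p) _))
        _ ≤ _ := Nat.le_add_left _ _
  calc p * {t : σ → ℤ | (∀ i, |t i| ≤ H) ∧
      (t ∈ S ∨ (fun i => ((t i : ℤ) : ZMod p)) ∈ E)}.ncard
      ≤ p * (A.ncard + B.ncard) := Nat.mul_le_mul_left _ h0
    _ = p * A.ncard + p * B.ncard := by ring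
    _ ≤ 4 ^ d * C1 * H ^ d + (4 ^ d * N * H ^ d + CG * (p ^ (k + 1) * H ^ (d - k))) :=
        Nat.add_le_add h1' h2'
    _ = 4 ^ d * (C1 + N) * H ^ d + CG * (p ^ (k + 1) * H ^ (d - k)) := by ring
    _ ≤ (4 ^ d * (C1 + N) + CG) * (H ^ d + p ^ (k + 1) * H ^ (d - k)) := by
        nlinarith [Nat.zero_le (4 ^ d * (C1 + N) * (p ^ (k + 1) * H ^ (d - k))),
          Nat.zero_le (CG * H ^ d)]

end Pool.Agent.Work.MP_59f3ad_nt.Tw

end

section

/-!
MP_59f3ad_nt, `Tw.Dig1`: the digits for which the criterion of first order fails.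
-/

open Polynomial NumberField

namespace Pool.Agent.Work.MP_59f3ad_nt.Tw

open Pool.Agent.Work.MP_59f3ad_nt.Cod Pool.Agent.Work.MP_59f3ad_nt.Cod.DigX

universe u

theorem pr_Dig1 : StId → StOrd → StQN → StCrit1.{u} → StDig1.{u} := by
  intro hId hOrd hQN hCrit p _ hp2 r1 r2 h1 t0 hsep
  set fb : (ZMod p)[X] := (gg t0 - 1).map (red p) with hfb
  have hmon : (gg t0 - 1).Monic := ff_monic t0 h1
  have hfbm : fb.Monic := hmon.map _
  obtain ⟨M, hM0, hpM, hM⟩ := hOrd p fb hfbm hsep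
  have h0 := exq p h1 t0 M hM
  choose q0 hq0 using h0
  refine ⟨M, fun j => (derivative (gg t0) * q0 j).map (red p) %ₘ fb, hpM, ?_⟩
  intro s hirr hNB j0
  set t1 : Ix r1 r2 → ℤ := sh t0 s p with ht1
  have hcast : ∀ i, red p (t1 i) = red p (t0 i) := by
    intro i
    simp [ht1, sh]
  have hfb1 : (gg t1 - 1).map (red p) = fb := by
    rw [hfb, Polynomial.map_sub, Polynomial.map_sub, gg_map, gg_map]
    simp only [hcast]
  have h2 := exq p h1 t1 M (by rw [hfb1]; exact hM)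
  choose q1 hq1 using h2
  unfold NB1 at hNB
  push Not at hNB
  obtain ⟨K, _, _, x, hK, hx, hno⟩ := hNB
  obtain ⟨e⟩ := exists_equiv j0
  have h3 : ∃ c' : Fin (r1 + r2 - 1) → ZMod p,
      fb ∣ ∑ l, C (c' l) * (q1 (e l)).map (red p) ∧ c' ≠ 0 := by
    by_contra hcon
    push Not at hcon
    obtain ⟨w, hwc⟩ := hCrit p hp2 (gg t1 - 1) (ff_monic t1 h1) hirr
      (by rw [hfb1]; exact hsep) (r1 + r2 - 1) (fun l => fac t1 (e l)) (fun l => cof t1 (e l))
      (fun l => q1 (e l)) M hM0 (fun l => by rw [mul_cof]) (fun l => hq1 _)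
      (fun c' hc' => hcon c' (by rw [← hfb1]; exact hc')) K x
      (by rw [hK, ff_natDegree]) hx
    exact hno w hwc
  obtain ⟨c', hc', hc0⟩ := h3
  set c : Fin r1 ⊕ Fin r2 → ZMod p := fun j =>
    if h : j ≠ j0 then c' (e.symm ⟨j, h⟩) else 0 with hc
  have hcj0 : c j0 = 0 := by simp [hc]
  have hce : ∀ l, c (e l) = c' l := by
    intro l
    have : (e l : Fin r1 ⊕ Fin r2) ≠ j0 := (e l).2
    simp [hc, this]
  have hsum : ∀ F : Fin r1 ⊕ Fin r2 → (ZMod p)[X],
      ∑ j, C (c j) * F j = ∑ l, C (c' l) * F (e l) := by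
    intro F
    have h4 : ∑ l, C (c' l) * F (e l) =
        ∑ j : {j : Fin r1 ⊕ Fin r2 // j ≠ j0}, C (c j) * F j := by
      rw [← Equiv.sum_comp e]
      exact Finset.sum_congr rfl fun l _ => by rw [hce]
    rw [h4]
    have h5 := Fintype.sum_subtype_add_sum_subtype (fun j => j ≠ j0) (fun j => C (c j) * F j)
    rw [← h5]
    have h6 : ∑ j : {j : Fin r1 ⊕ Fin r2 // ¬ j ≠ j0}, C (c j) * F j = 0 := by
      apply Finset.sum_eq_zero
      intro j _
      have h7 : (j : Fin r1 ⊕ Fin r2) = j0 := not_not.1 j.2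
      rw [h7, hcj0, C_0, zero_mul]
    rw [h6, add_zero]
  refine ⟨c, hcj0, ?_, ?_⟩
  · intro h
    apply hc0
    funext l
    rw [← hce, h]
    rfl
  · -- the congruence
    have hN : ∀ j, (NN t0 s j).map (red p) = NN (fun i => ((t0 i : ℤ) : ZMod p))
        (fun i => ((s i : ℤ) : ZMod p)) j := fun j => by
      rw [NN_map]; rfl
    have hk : ∀ j, fb ∣ (derivative (gg t0)).map (red p) * ((q1 j).map (red p) -
        (q0 j).map (red p)) - C (M : ZMod p) * NN (fun i => ((t0 i : ℤ) : ZMod p))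
        (fun i => ((s i : ℤ) : ZMod p)) j := by
      intro j
      have h8 : fb ∣ _ := hQN p r1 r2 h1 t0 s M j (q0 j) (q1 j) hsep (hq0 j) (hq1 j)
      rw [Polynomial.map_sub, Polynomial.map_mul, Polynomial.map_mul, Polynomial.map_sub,
        Polynomial.map_C, hN] at h8
      simpa using h8
    have hL : ∀ j, fb ∣ (derivative (gg t0)).map (red p) * (q0 j).map (red p) -
        (derivative (gg t0) * q0 j).map (red p) %ₘ fb := by
      intro j
      refine ⟨(derivative (gg t0) * q0 j).map (red p) /ₘ fb, ?_⟩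
      have h9 := modByMonic_add_div ((derivative (gg t0) * q0 j).map (red p)) fb
      rw [← Polynomial.map_mul]
      linear_combination -h9
    have htot : fb ∣ ∑ j, C (c j) * ((derivative (gg t0) * q0 j).map (red p) %ₘ fb +
        C (M : ZMod p) * NN (fun i => ((t0 i : ℤ) : ZMod p))
        (fun i => ((s i : ℤ) : ZMod p)) j) := by
      have h10 : fb ∣ (derivative (gg t0)).map (red p) *
          ∑ j, C (c j) * (q1 j).map (red p) := by
        rw [hsum]
        exact Dvd.dvd.mul_left hc' _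
      have h11 : fb ∣ ∑ j, C (c j) * ((derivative (gg t0)).map (red p) * ((q1 j).map (red p) -
          (q0 j).map (red p)) - C (M : ZMod p) * NN (fun i => ((t0 i : ℤ) : ZMod p))
          (fun i => ((s i : ℤ) : ZMod p)) j) :=
        Finset.dvd_sum fun j _ => (hk j).mul_left _
      have h12 : fb ∣ ∑ j, C (c j) * ((derivative (gg t0)).map (red p) * (q0 j).map (red p) -
          (derivative (gg t0) * q0 j).map (red p) %ₘ fb) :=
        Finset.dvd_sum fun j _ => (hL j).mul_left _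
      have h13 := (h10.sub h11).sub h12
      convert h13 using 1
      rw [Finset.mul_sum, ← Finset.sum_sub_distrib, ← Finset.sum_sub_distrib]
      exact Finset.sum_congr rfl fun j _ => by ring
    have hnt : Nontrivial (ZMod p) := inferInstance
    have hfbd : fb.degree = ((r1 + 2 * r2 : ℕ) : WithBot ℕ) := by
      rw [hfb, hmon.degree_map, degree_eq_natDegree hmon.ne_zero, ff_natDegree]
    refine eq_zero_of_dvd_of_degree_lt htot ?_
    rw [hfbd]
    refine (degree_sum_le _ _).trans_lt ((Finset.sup_lt_iff (WithBot.bot_lt_coe _)).2 ?_)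
    intro j _
    rw [← smul_eq_C_mul]
    refine (degree_smul_le _ _).trans_lt ?_
    refine (degree_add_le _ _).trans_lt (max_lt ?_ ?_)
    · rw [← hfbd]
      exact degree_modByMonic_lt _ hfbm
    · rw [← smul_eq_C_mul]
      refine (degree_smul_le _ _).trans_lt ?_
      refine ((hId (ZMod p) r1 r2 _ _ j).2.2).trans_le ?_
      exact_mod_cast Nat.sub_le _ _

end Pool.Agent.Work.MP_59f3ad_nt.Tw

end

section

/-! # MP_59f3ad_nt Tw, item Mk: summation over the primes and Markov's inequality -/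

open Finset

namespace Pool.Agent.Work.MP_59f3ad_nt.Tw

namespace MkX

theorem box_finite (σ : Type) [Fintype σ] (H : ℕ) : {t : σ → ℤ | ∀ i, |t i| ≤ H}.Finite := by
  classical
  refine (Set.finite_Icc (fun _ : σ => -(H : ℤ)) (fun _ => (H : ℤ))).subset ?_
  intro t ht
  simp only [Set.mem_ofPred_eq] at ht
  exact ⟨fun i => (abs_le.1 (ht i)).1, fun i => (abs_le.1 (ht i)).2⟩

theorem lt_of_pow (k p H : ℕ) (hH : 2 ≤ H) (h : p ^ (k + 1) ≤ H ^ k) : p < H := by
  by_contra hc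
  push Not at hc
  have h1 : H ^ (k + 1) ≤ p ^ (k + 1) := Nat.pow_le_pow_left hc _
  have h2 : H ^ k < H ^ (k + 1) := Nat.pow_lt_pow_right (by omega) (by omega)
  omega

theorem sum_pow_le (k H : ℕ) (P : Finset ℕ) (h1 : ∀ p ∈ P, 1 ≤ p)
    (h2 : ∀ p ∈ P, p ^ (k + 1) ≤ H ^ k) : ∑ p ∈ P, p ^ k ≤ H ^ k := by
  rcases P.eq_empty_or_nonempty with rfl | hne
  · simp
  · set Q := P.max' hne with hQ
    have hle : ∀ p ∈ P, p ≤ Q := fun p hp => P.le_max' p hp
    have hcard : P.card ≤ Q := by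
      have : P ⊆ Finset.Icc 1 Q := fun p hp => Finset.mem_Icc.2 ⟨h1 p hp, hle p hp⟩
      simpa using Finset.card_le_card this
    calc ∑ p ∈ P, p ^ k ≤ ∑ _p ∈ P, Q ^ k :=
          Finset.sum_le_sum fun p hp => Nat.pow_le_pow_left (hle p hp) _
      _ = P.card * Q ^ k := by simp
      _ ≤ Q * Q ^ k := Nat.mul_le_mul_right _ hcard
      _ = Q ^ (k + 1) := by ring
      _ ≤ H ^ k := h2 Q (P.max'_mem hne)

theorem sum_inv_le (H : ℕ) (P : Finset ℕ) (h1 : ∀ p ∈ P, 1 ≤ p) (h2 : ∀ p ∈ P, p ≤ H) :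
    ∑ p ∈ P, (1 : ℝ) / p ≤ 1 + Real.log H := by
  have hsub : P ⊆ Finset.Icc 1 H := fun p hp => Finset.mem_Icc.2 ⟨h1 p hp, h2 p hp⟩
  calc ∑ p ∈ P, (1 : ℝ) / p ≤ ∑ p ∈ Finset.Icc 1 H, (1 : ℝ) / p :=
        Finset.sum_le_sum_of_subset_of_nonneg hsub fun _ _ _ => by positivity
    _ = (harmonic H : ℝ) := by
        rw [harmonic_eq_sum_Icc]
        push_cast
        simp
    _ ≤ 1 + Real.log H := by exact_mod_cast harmonic_le_one_add_log H

end MkX

open MkX

theorem pr_Mk : StMk := by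
  classical
  intro σ _ k C0 p0 hk hkd
  refine ⟨4 * C0, fun Bad hB H hH => ?_⟩
  set d := Fintype.card σ with hd
  have hlog2 : (0.69 : ℝ) < Real.log 2 := by
    have := Real.log_two_gt_d9
    linarith
  have hHr : (2 : ℝ) ≤ H := by exact_mod_cast hH
  have hlog : (0.69 : ℝ) < Real.log H :=
    lt_of_lt_of_le hlog2 (Real.log_le_log (by norm_num) hHr)
  have hlogpos : 0 < Real.log H := by linarith
  let B : Finset (σ → ℤ) := (box_finite σ H).toFinset
  let P : Finset ℕ := (Finset.range H).filter fun p => p.Prime ∧ p0 < p ∧ p ^ (k + 1) ≤ H ^ k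
  have hPmem : ∀ p, p ∈ P ↔ p.Prime ∧ p0 < p ∧ p ^ (k + 1) ≤ H ^ k := by
    intro p
    simp only [P, Finset.mem_filter, Finset.mem_range]
    constructor
    · exact fun h => h.2
    · exact fun h => ⟨lt_of_pow k p H hH h.2.2, h⟩
  have hBmem : ∀ t, t ∈ B ↔ ∀ i, |t i| ≤ (H : ℤ) := by
    intro t
    simp [B]
  let c : (σ → ℤ) → ℕ := fun t => (P.filter fun p => t ∈ Bad p).card
  have hc : ∀ t, {p : ℕ | p.Prime ∧ p0 < p ∧ p ^ (k + 1) ≤ H ^ k ∧ t ∈ Bad p}.ncard = c t := by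
    intro t
    have : {p : ℕ | p.Prime ∧ p0 < p ∧ p ^ (k + 1) ≤ H ^ k ∧ t ∈ Bad p} =
        ((P.filter fun p => t ∈ Bad p : Finset ℕ) : Set ℕ) := by
      ext p
      simp only [Set.mem_ofPred_eq, Finset.coe_filter, hPmem]
      tauto
    rw [this, Set.ncard_coe_finset]
  let T : Finset (σ → ℤ) := B.filter fun t => (Real.log H) ^ 2 < (c t : ℝ)
  have hT : {t : σ → ℤ | (∀ i, |t i| ≤ H) ∧ (Real.log H) ^ 2 <
      ({p : ℕ | p.Prime ∧ p0 < p ∧ p ^ (k + 1) ≤ H ^ k ∧ t ∈ Bad p}.ncard : ℝ)}.ncard =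
      T.card := by
    have : {t : σ → ℤ | (∀ i, |t i| ≤ H) ∧ (Real.log H) ^ 2 <
      ({p : ℕ | p.Prime ∧ p0 < p ∧ p ^ (k + 1) ≤ H ^ k ∧ t ∈ Bad p}.ncard : ℝ)} =
        ((T : Finset (σ → ℤ)) : Set (σ → ℤ)) := by
      ext t
      simp only [Set.mem_ofPred_eq, T, Finset.coe_filter, hBmem, hc]
    rw [this, Set.ncard_coe_finset]
  rw [hT]
  -- the bound for a single prime
  have hsingle : ∀ p ∈ P, (((B.filter fun t => t ∈ Bad p).card : ℕ) : ℝ) ≤
      C0 * ((H : ℝ) ^ d * (1 / p) + (p : ℝ) ^ k * (H : ℝ) ^ (d - k)) := by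
    intro p hp
    obtain ⟨h1, h2, h3⟩ := (hPmem p).1 hp
    have hpH : p ≤ H := (lt_of_pow k p H hH h3).le
    have h4 := hB p h1 h2 H hpH
    have h5 : {t : σ → ℤ | (∀ i, |t i| ≤ H) ∧ t ∈ Bad p} =
        ((B.filter fun t => t ∈ Bad p : Finset (σ → ℤ)) : Set (σ → ℤ)) := by
      ext t
      simp only [Set.mem_ofPred_eq, Finset.coe_filter, hBmem]
    rw [h5, Set.ncard_coe_finset] at h4
    have hp0 : (0 : ℝ) < p := by exact_mod_cast h1.pos
    have h6 : (p : ℝ) * ((B.filter fun t => t ∈ Bad p).card : ℝ) ≤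
        C0 * ((H : ℝ) ^ d + (p : ℝ) ^ (k + 1) * (H : ℝ) ^ (d - k)) := by exact_mod_cast h4
    have h7 : (((B.filter fun t => t ∈ Bad p).card : ℕ) : ℝ) ≤
        (C0 * ((H : ℝ) ^ d + (p : ℝ) ^ (k + 1) * (H : ℝ) ^ (d - k))) / p := by
      rw [le_div_iff₀ hp0]
      linarith [mul_comm (p : ℝ) ((B.filter fun t => t ∈ Bad p).card : ℝ)]
    refine h7.trans (le_of_eq ?_)
    field_simp
    ring
  -- double counting
  have hdc : ∑ t ∈ B, c t = ∑ p ∈ P, (B.filter fun t => t ∈ Bad p).card := by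
    simp only [c, Finset.card_filter]
    rw [Finset.sum_comm]
  have hP1 : ∀ p ∈ P, 1 ≤ p := fun p hp => ((hPmem p).1 hp).1.one_lt.le
  have hP2 : ∀ p ∈ P, p ≤ H := fun p hp => (lt_of_pow k p H hH ((hPmem p).1 hp).2.2).le
  have hP3 : ∀ p ∈ P, p ^ (k + 1) ≤ H ^ k := fun p hp => ((hPmem p).1 hp).2.2
  have htot : ((∑ t ∈ B, c t : ℕ) : ℝ) ≤ C0 * ((H : ℝ) ^ d * (2 + Real.log H)) := by
    rw [hdc]
    push_cast
    have hC0 : (0 : ℝ) ≤ C0 := Nat.cast_nonneg _
    have hHd : (0 : ℝ) ≤ (H : ℝ) ^ d := by positivity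
    calc ∑ p ∈ P, ((B.filter fun t => t ∈ Bad p).card : ℝ)
        ≤ ∑ p ∈ P, (C0 : ℝ) * ((H : ℝ) ^ d * (1 / p) + (p : ℝ) ^ k * (H : ℝ) ^ (d - k)) :=
          Finset.sum_le_sum hsingle
      _ = C0 * ((H : ℝ) ^ d * ∑ p ∈ P, (1 : ℝ) / p + (∑ p ∈ P, (p : ℝ) ^ k) *
            (H : ℝ) ^ (d - k)) := by
          rw [← Finset.mul_sum, Finset.sum_add_distrib, Finset.mul_sum, Finset.sum_mul]
      _ ≤ C0 * ((H : ℝ) ^ d * (1 + Real.log H) + (H : ℝ) ^ k * (H : ℝ) ^ (d - k)) := by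
          refine mul_le_mul_of_nonneg_left (add_le_add ?_ ?_) hC0
          · exact mul_le_mul_of_nonneg_left (sum_inv_le H P hP1 hP2) hHd
          · refine mul_le_mul_of_nonneg_right ?_ (by positivity)
            exact_mod_cast sum_pow_le k H P hP1 hP3
      _ = C0 * ((H : ℝ) ^ d * (2 + Real.log H)) := by
          rw [← pow_add, show k + (d - k) = d by omega]
          ring
  have hmark : (Real.log H) ^ 2 * (T.card : ℝ) ≤ ((∑ t ∈ B, c t : ℕ) : ℝ) := by
    push_cast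
    calc (Real.log H) ^ 2 * (T.card : ℝ) = ∑ _t ∈ T, (Real.log H) ^ 2 := by
          rw [Finset.sum_const, nsmul_eq_mul]; ring
      _ ≤ ∑ t ∈ T, (c t : ℝ) := Finset.sum_le_sum fun t ht => (Finset.mem_filter.1 ht).2.le
      _ ≤ ∑ t ∈ B, (c t : ℝ) :=
          Finset.sum_le_sum_of_subset_of_nonneg (Finset.filter_subset _ _)
            fun _ _ _ => Nat.cast_nonneg _
  have h8 : (Real.log H) ^ 2 * (T.card : ℝ) ≤ C0 * ((H : ℝ) ^ d * (2 + Real.log H)) :=
    hmark.trans htot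
  have h9 : 2 + Real.log H ≤ 4 * Real.log H := by linarith
  rw [le_div_iff₀ hlogpos]
  have h10 : Real.log H * ((T.card : ℝ) * Real.log H) ≤
      Real.log H * ((((4 * C0 : ℕ) : ℝ)) * (H : ℝ) ^ d) := by
    have hC0 : (0 : ℝ) ≤ C0 := Nat.cast_nonneg _
    have hHd : (0 : ℝ) ≤ (H : ℝ) ^ d := by positivity
    have h11 : (C0 : ℝ) * ((H : ℝ) ^ d * (2 + Real.log H)) ≤
        C0 * ((H : ℝ) ^ d * (4 * Real.log H)) :=
      mul_le_mul_of_nonneg_left (mul_le_mul_of_nonneg_left h9 hHd) hC0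
    push_cast
    nlinarith
  exact le_of_mul_le_mul_left h10 hlogpos

end Pool.Agent.Work.MP_59f3ad_nt.Tw

end

section

/-!
The bound for a single prime, for sets which depend on the height.
-/

open NumberField Polynomial

namespace Pool.Agent.Work.MP_59f3ad_nt.Tw

open Pool.Agent.Work.MP_59f3ad_nt.Cod

universe u

theorem pr_All : StClassFin1.{u} → StJs → StNorm → StSpec1 → StSpec0 → StSep → StSZ → StGC →
    StTot → StSm → StAll.{u} := by
  intro hCF hJs hNorm hS1 hS0 hSep hSZ hGC hTot hSm r1 r2 k hd hk1 hk2 hk3 C0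
  classical
  have hcard : Fintype.card (Ix r1 r2) = r1 + 2 * r2 := Ix_card r1 r2
  have hJc : (Js r1 r2 k).card = k := hJs r1 r2 k hd hk2 hk3
  have hspec : Spec r1 r2 := by
    rcases Nat.eq_zero_or_pos r1 with h | h
    · subst h
      exact hS0 r2 (by omega)
    · exact hS1 r1 r2 h
  obtain ⟨Γ1, e, hΓ1⟩ := hNorm r1 r2 hd
  obtain ⟨Γ2, hΓ20, hΓ2⟩ := hSep r1 r2 hd
  have hΓ10 : Γ1 ≠ 0 := by
    obtain ⟨ts, ζ, -, -, h1, h2⟩ := hspec
    intro h
    have h3 := hΓ1 ℂ ts ζ h1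
    rw [h, map_zero] at h3
    have h4 : (((r1 + 2 * r2 : ℕ) : ℂ)) ^ e * ∏ φ : Fin r2 ↪ Fin (r1 + 2 * r2 - 1),
        Cod.DD ts (fun l => ζ (φ l)) ≠ 0 := by
      refine mul_ne_zero (pow_ne_zero _ ?_) (Finset.prod_ne_zero_iff.mpr fun φ _ => h2 φ)
      have : r1 + 2 * r2 ≠ 0 := by omega
      exact_mod_cast this
    exact h4 h3.symm
  have hΓ0 : Γ1 * Γ2 ≠ 0 := mul_ne_zero hΓ10 hΓ20
  obtain ⟨C1, p1, hE⟩ := hSZ (Ix r1 r2) (Γ1 * Γ2) hΓ0
  obtain ⟨N, hN⟩ := hCF r1 r2 k hd hk1 hk2 hk3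
  obtain ⟨C3, hG⟩ := hGC (Ix r1 r2) (Js r1 r2 k) N
  obtain ⟨C4, hT⟩ := hTot (Ix r1 r2) k C1 C0 C3 (by rw [hcard]; exact hd)
    (by rw [hcard]; omega)
  obtain ⟨C5, hM⟩ := hSm (Ix r1 r2) (Js r1 r2 k) N C0 C1 (by rw [hJc]; exact hk1)
  rw [hJc] at hM
  set p0 : ℕ := max p1 (max 2 (r1 + 2 * r2)) with hp0
  have hbox := fun H => BoundX.box_finite (Ix r1 r2) H
  obtain ⟨K1, hK1⟩ : ∃ K1 : ℕ, K1 = 3 ^ (r1 + 2 * r2) := ⟨_, rfl⟩
  obtain ⟨K2, hK2⟩ : ∃ K2 : ℕ, K2 = C0 * p0 := ⟨_, rfl⟩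
  refine ⟨C4 + C5 + K1 + K2, fun p hp H hH Bd hB1 hB => ?_⟩
  have : Fact p.Prime := ⟨hp⟩
  set S : Set (Ix r1 r2 → ℤ) :=
    {t | t ∈ Bd ∧ Irreducible (gg t - 1) ∧ ¬ NB1.{u} r1 r2 p t} with hS
  set Q : ℕ := p ^ k * H ^ (Fintype.card (Ix r1 r2) - k) + H ^ (Fintype.card (Ix r1 r2) - 1)
    with hQ
  suffices hfin : {t : Ix r1 r2 → ℤ | (∀ i, |t i| ≤ H) ∧ t ∈ S}.ncard ≤
      (C4 + C5 + K1 + K2) * Q by
    rw [hQ, hcard] at hfin
    exact hfin
  have hgoal : ∀ D : ℕ, D ≤ C4 + C5 + K1 + K2 →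
      {t : Ix r1 r2 → ℤ | (∀ i, |t i| ≤ H) ∧ t ∈ S}.ncard ≤ D * Q →
      {t : Ix r1 r2 → ℤ | (∀ i, |t i| ≤ H) ∧ t ∈ S}.ncard ≤ (C4 + C5 + K1 + K2) * Q :=
    fun D hD h => h.trans (Nat.mul_le_mul_right _ hD)
  by_cases hpH : H < p
  · -- the trivial bound
    refine hgoal K1 (by omega) ?_
    have h2 := BoundX.box_ncard (Ix r1 r2) H hH
    rw [hcard] at h2
    refine (Set.ncard_le_ncard (fun t ht => ht.1) (hbox H)).trans (h2.trans ?_)
    rw [← hK1]
    refine Nat.mul_le_mul_left _ ?_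
    have h3 : H ^ (r1 + 2 * r2) = H ^ k * H ^ (r1 + 2 * r2 - k) := by
      rw [← pow_add]
      congr 1
      omega
    rw [hQ, hcard, h3]
    exact (Nat.mul_le_mul_right _ (Nat.pow_le_pow_left hpH.le k)).trans (Nat.le_add_right _ _)
  push Not at hpH
  -- the class bound for S
  have hBS : ∀ (m : ℕ) (t0 : Ix r1 r2 → ℤ), 1 ≤ m →
      {t : Ix r1 r2 → ℤ | (∀ i, |t i| ≤ H) ∧ (∀ i, (p : ℤ) ^ m ∣ t i - t0 i) ∧ t ∈ S}.ncard ≤
        C0 * (H / p ^ m + 1) ^ (Fintype.card (Ix r1 r2) - 1) := by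
    intro m t0 hm
    have h0 : {t : Ix r1 r2 → ℤ | (∀ i, |t i| ≤ H) ∧ (∀ i, (p : ℤ) ^ m ∣ t i - t0 i) ∧
        t ∈ Bd}.ncard ≤ C0 * (H / p ^ m + 1) ^ (Fintype.card (Ix r1 r2) - 1) := by
      rw [hcard]
      exact hB m hm t0
    refine le_trans (Set.ncard_le_ncard ?_ ((hbox H).subset fun t ht => ht.1)) h0
    rintro t ⟨h1, h2, h3, -, -⟩
    exact ⟨h1, h2, h3⟩
  by_cases hpp : p ≤ p0
  · -- small primes
    refine hgoal K2 (by omega) ?_
    have h1 := hB1
    have h2 : {t : Ix r1 r2 → ℤ | (∀ i, |t i| ≤ H) ∧ t ∈ S}.ncard ≤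
        C0 * p * H ^ (r1 + 2 * r2 - 1) := by
      refine le_trans (Set.ncard_le_ncard ?_ ((hbox H).subset fun t ht => ht.1)) h1
      rintro t ⟨h1, h2, -⟩
      exact ⟨h1, h2⟩
    calc _ ≤ C0 * p * H ^ (r1 + 2 * r2 - 1) := h2
      _ ≤ K2 * Q := by
        rw [hK2, hQ, hcard]
        exact Nat.mul_le_mul (Nat.mul_le_mul_left _ hpp) (Nat.le_add_left _ _)
  push Not at hpp
  have hpp1 : p1 < p := lt_of_le_of_lt (le_max_left _ _) hpp
  have hpp2 : 2 < p := lt_of_le_of_lt ((le_max_left _ _).trans (le_max_right _ _)) hpp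
  have hppd : r1 + 2 * r2 < p := lt_of_le_of_lt ((le_max_right _ _).trans (le_max_right _ _)) hpp
  have hdig : ∀ t0 : Ix r1 r2 → ℤ,
      (fun i => ((t0 i : ℤ) : ZMod p)) ∉ {t | MvPolynomial.aeval t (Γ1 * Γ2) = 0} →
      ∀ s' : Ix r1 r2 → ℤ, {τ : Js r1 r2 k → ZMod p | ∃ s : Ix r1 r2 → ℤ,
      (∀ i, i ∉ Js r1 r2 k → ((s i : ℤ) : ZMod p) = ((s' i : ℤ) : ZMod p)) ∧
      (∀ i : Js r1 r2 k, ((s i : ℤ) : ZMod p) = τ i) ∧ (fun i => t0 i + p * s i) ∈ S}.ncard ≤
      N := by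
    intro t0 htE s'
    obtain ⟨hs1, hs2, hs3, hDD⟩ := BoundX.good_class p (AlgebraicClosure (ZMod p)) hd hppd Γ1 Γ2 e
      (hΓ1 _) (hΓ2 _) t0 htE
    refine le_trans (Set.ncard_le_ncard ?_ (Set.toFinite _))
      (hN p (by omega) (fun h => absurd (Nat.le_of_dvd (by omega) h) (by omega)) t0 hs1 hs2 hs3
        hDD s')
    rintro τ ⟨s, h1, h2, -, h3, h4⟩
    exact ⟨s, h1, h2, h3, h4⟩
  by_cases hHp : H ≤ p ^ 2
  · refine hgoal C4 (by omega) ?_
    refine hT p H hpH S {t | MvPolynomial.aeval t (Γ1 * Γ2) = 0} (hE p hpp1) ?_ ?_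
    · intro t0
      have h1 := hBS 1 t0 le_rfl
      rw [pow_one] at h1
      simpa only [pow_one] using h1
    · intro t0 ht0 htE
      have hJc' : Fintype.card (Ix r1 r2) - k = Fintype.card (Ix r1 r2) - (Js r1 r2 k).card := by
        rw [hJc]
      rw [hJc']
      refine hG p H hpH hHp S t0 ht0 fun s' => ?_
      refine le_trans (Set.ncard_le_ncard ?_ (Set.toFinite _)) (hdig t0 htE s')
      rintro τ ⟨s, h1, h2, h3⟩
      exact ⟨s, fun i hi => by rw [h1 i hi], h2, h3⟩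
  · push Not at hHp
    refine hgoal C5 (by omega) ?_
    exact hM p H hHp.le S {t | MvPolynomial.aeval t (Γ1 * Γ2) = 0} (hE p hpp1) hBS hdig

end Pool.Agent.Work.MP_59f3ad_nt.Tw

end

section

/-!
The exceptional set of a family with several parameters, with explicit constants and bounds in the
residue classes modulo prime powers.
-/

open Polynomial NumberField

namespace Pool.Agent.Work.MP_59f3ad_nt.Tw

universe u

namespace BoxPX

theorem pind_mono {K : Type u} [Field K] [NumberField K] (p : ℕ) {n : ℕ} (w : Fin n → (𝓞 K)ˣ)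
    {c c' : ℕ} (h : c ≤ c') (hw : PInd K p w c) : PInd K p w c' := fun m E hE =>
  hw m E ((pow_dvd_pow _ (by omega)).trans hE)

theorem log_le {p H : ℕ} (hp : p.Prime) (hH : 1 ≤ H) :
    Nat.log p (2 * H) ≤ 1 + Nat.log p H := by
  calc Nat.log p (2 * H) ≤ Nat.log p (H * p) := by
        apply Nat.log_mono_right
        have := Nat.mul_le_mul_left H hp.two_le
        omega
    _ = Nat.log p H + 1 := Nat.log_mul_base hp.one_lt (by omega)
    _ = 1 + Nat.log p H := Nat.add_comm _ _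

theorem const_le (E C c1 : ℕ) (l l2 : ℕ) (h : l2 ≤ 1 + l) :
    2 + c1 + (E + (2 * E + 1) * l2) ≤ c1 + (C + 3 * E + 3) * (1 + l) := by
  have h1 : (2 * E + 1) * l2 ≤ (2 * E + 1) * (1 + l) := Nat.mul_le_mul_left _ h
  have h2 : (2 * E + 1) * (1 + l) + (C + E + 2) * (1 + l) = (C + 3 * E + 3) * (1 + l) := by ring
  have h3 : (C + E + 2) * 1 ≤ (C + E + 2) * (1 + l) := Nat.mul_le_mul_left _ (by omega)
  omega

end BoxPX

open BoxPX in
theorem pr_BoxP : StFamP.{u} → StBoxP.{u} := by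
  intro hFam σ _ F hF i0 n u hu
  classical
  by_cases hex : ∃ t : σ → ℤ, Irreducible (F.map (MvPolynomial.eval t))
  swap
  · refine ⟨fun _ _ => ∅, 0, fun p _ H _ => ?_, fun p _ m _ t0 H => ?_,
      fun p _ H _ t _ _ h => absurd ⟨t, h⟩ hex⟩
    · simp
    · simp
  obtain ⟨t1, ht1⟩ := hex
  have hm1 : (F.map (MvPolynomial.eval t1)).Monic := hF.map _
  have hd : 1 ≤ F.natDegree := by
    have h1 : (F.map (MvPolynomial.eval t1)).natDegree = F.natDegree := hF.natDegree_map _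
    rw [← h1]
    by_contra hcon
    have h2 : (F.map (MvPolynomial.eval t1)).natDegree = 0 := by omega
    have h3 : F.map (MvPolynomial.eval t1) = 1 := hm1.natDegree_eq_zero.mp h2
    rw [h3] at ht1
    exact ht1.not_isUnit isUnit_one
  -- the separability polynomial
  have hsep1 : (F.map (((algebraMap ℚ ℂ).comp (Int.castRingHom ℚ)).comp
      (MvPolynomial.eval t1))).Separable := by
    have h1 : Irreducible ((F.map (MvPolynomial.eval t1)).map (Int.castRingHom ℚ)) :=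
      (IsPrimitive.Int.irreducible_iff_irreducible_map_cast hm1.isPrimitive).mp ht1
    have h2 : (((F.map (MvPolynomial.eval t1)).map (Int.castRingHom ℚ)).map
      (algebraMap ℚ ℂ)).Separable := h1.separable.map
    rwa [Polynomial.map_map, Polynomial.map_map] at h2
  obtain ⟨g, hg0, hg⟩ := exists_sepPoly F hF _ hsep1
  -- polynomial representatives
  choose H hH using fun i => AdjoinRoot.mk_surjective (u i : AdjoinRoot F)
  choose G hG using fun i => AdjoinRoot.mk_surjective ((u i)⁻¹ : (AdjoinRoot F)ˣ).val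
  have hHG : ∀ l, F ∣ H l * G l - 1 := by
    intro l
    rw [← AdjoinRoot.mk_eq_zero, map_sub, map_mul, hH, hG, map_one, Units.mul_inv, sub_self]
  -- the characteristic polynomials
  let χ : AdjoinRoot F → (MvPolynomial σ ℤ)[X] := fun η =>
    (Algebra.leftMulMatrix (AdjoinRoot.powerBasisAux' hF) η).charpoly
  have hχm : ∀ η, (χ η).Monic := fun η => Matrix.charpoly_monic _
  have hχd : ∀ η, (χ η).natDegree = F.natDegree := fun η => by
    simp only [χ]
    rw [Matrix.charpoly_natDegree_eq_dim, Fintype.card_fin]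
  have hχr : ∀ η, aeval η (χ η) = 0 := by
    intro η
    apply Algebra.leftMulMatrix_injective (AdjoinRoot.powerBasisAux' hF)
    rw [← aeval_algHom_apply, map_zero]
    exact Matrix.aeval_self_charpoly _
  let D : ℕ := ∑ l : Fin n, ∑ k ∈ Finset.range (F.natDegree + 1),
    ((χ (u l)).coeff k).totalDegree
  have hD : ∀ (l : Fin n) (k : ℕ), ((χ (u l)).coeff k).totalDegree ≤ D := by
    intro l k
    by_cases hk : k ∈ Finset.range (F.natDegree + 1)
    · have h1 : ((χ (u l)).coeff k).totalDegree ≤ ∑ k ∈ Finset.range (F.natDegree + 1),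
          ((χ (u l)).coeff k).totalDegree :=
        Finset.single_le_sum (f := fun k => ((χ (u l)).coeff k).totalDegree)
          (fun _ _ => Nat.zero_le _) hk
      exact h1.trans (Finset.single_le_sum (f := fun l : Fin n =>
        ∑ k ∈ Finset.range (F.natDegree + 1), ((χ (u l)).coeff k).totalDegree)
          (fun _ _ => Nat.zero_le _) (Finset.mem_univ l))
    · rw [coeff_eq_zero_of_natDegree_lt (by
        rw [hχd]
        rw [Finset.mem_range] at hk
        omega), MvPolynomial.totalDegree_zero]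
      exact Nat.zero_le _
  obtain ⟨T, hT0, hT⟩ := exists_logDetC_fin n F.natDegree D
  let w : (Fin n → ℤ) → AdjoinRoot F := fun E => ((∏ i, u i ^ E i : (AdjoinRoot F)ˣ) : AdjoinRoot F)
  have hk : ∀ E : Fin n → ℤ, ∃ k : ℕ, E ∈ T → 0 < ((χ (w E)).coeff k).totalDegree := by
    intro E
    by_cases hE : E ∈ T
    · obtain ⟨k, hk⟩ := exists_coeff_totalDegree_pos F hF (w E) (hu E (hT0 E hE))
      exact ⟨k, fun _ => hk⟩
    · exact ⟨0, fun h => absurd h hE⟩
  choose k hk using hk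
  obtain ⟨v, hv0, hv⟩ := exists_direction (insert g (T.image fun E => (χ (w E)).coeff (k E)))
    (by
      intro c hc
      rw [Finset.mem_insert, Finset.mem_image] at hc
      rcases hc with rfl | ⟨E, hE, rfl⟩
      · exact hg0
      · intro h
        have h1 := hk E hE
        rw [h, MvPolynomial.totalDegree_zero] at h1
        exact lt_irrefl _ h1) i0
  have hvg := hv g (Finset.mem_insert_self _ _)
  -- the separability on all lines
  have hsepy : ∀ y : σ → ℂ, ∃ t0 : ℂ, ((F.map (lineHom v y)).map (evC t0)).Separable := by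
    intro y
    have h1 : lineHom v y g ≠ 0 := by
      intro h
      have h2 := coeff_lineHom v y g
      rw [h, coeff_zero] at h2
      exact hvg (by exact_mod_cast h2.symm)
    obtain ⟨t0, ht0⟩ : ∃ t0 : ℂ, (lineHom v y g).eval t0 ≠ 0 := by
      by_contra hcon
      push Not at hcon
      exact h1 (Polynomial.funext fun t => by rw [hcon t, eval_zero])
    refine ⟨t0, ?_⟩
    rw [Polynomial.map_map]
    exact hg _ ht0
  -- the analytic input on all lines
  have hC : ∀ ψ : MvPolynomial σ ℤ →+* ℂ, ∃ B : ℝ, ∀ τ : ℝ, B < τ →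
      LogDetC ((F.map (sliceHom v)).map (mapRingHom ψ))
        (fun l => ((H l).map (sliceHom v)).map (mapRingHom ψ)) τ := by
    intro ψ
    set y : σ → ℂ := fun i => ψ (MvPolynomial.X i) with hy
    simp only [Polynomial.map_map, slice_line, ← hy]
    obtain ⟨t0, ht0⟩ := hsepy y
    let h := adjMap (lineHom v y) F
    refine hT (F.map (lineHom v y)) (hF.map _) (hF.natDegree_map _) t0 ht0
      (fun l => Units.map (h : AdjoinRoot F →* AdjoinRoot (F.map (lineHom v y))) (u l)) ?_ _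
      (fun l => (G l).map (lineHom v y)) ?_ ?_ (fun l => (χ (u l)).map (lineHom v y)) ?_ ?_ ?_ ?_
    · intro E hE
      have h1 : ((∏ i, Units.map (h : AdjoinRoot F →* AdjoinRoot (F.map (lineHom v y)))
          (u i) ^ E i : (AdjoinRoot (F.map (lineHom v y)))ˣ) : AdjoinRoot (F.map (lineHom v y))) =
          h (w E) := by
        have h2 : (∏ i, Units.map (h : AdjoinRoot F →* AdjoinRoot (F.map (lineHom v y)))
          (u i) ^ E i) = Units.map (h : AdjoinRoot F →* AdjoinRoot (F.map (lineHom v y)))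
            (∏ i, u i ^ E i) := by
          rw [map_prod]
          simp only [map_zpow]
        rw [h2]
        rfl
      rw [h1]
      exact transcendental_line F hF (w E) (k E) _ rfl (hk E hE) v
        (hv _ (Finset.mem_insert_of_mem (Finset.mem_image_of_mem _ hE))) y t0 ht0 h
        (fun G => adjMap_mk _ F G)
    · intro l
      rw [← adjMap_mk, hH]
      rfl
    · intro l
      have h1 := Polynomial.map_dvd (lineHom v y) (hHG l)
      rwa [Polynomial.map_sub, Polynomial.map_mul, Polynomial.map_one] at h1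
    · intro l
      exact ((hχm _).map _).ne_zero
    · intro l
      exact natDegree_map_le.trans (hχd _).le
    · intro l k
      rw [coeff_map]
      exact (natDegree_lineHom_le v y _).trans (hD l k)
    · intro l t z hz
      rw [Polynomial.map_map, eval_map] at hz
      rw [Polynomial.map_map, Polynomial.map_map, eval_map, eval_map]
      have h1 := congrArg (AdjoinRoot.lift ((evC t).comp (lineHom v y)) z hz) (hχr (u l))
      rw [map_zero, aeval_def, Polynomial.hom_eval₂, ← hH, AdjoinRoot.lift_mk] at h1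
      have h2 : (AdjoinRoot.lift ((evC t).comp (lineHom v y)) z hz).comp
          (algebraMap (MvPolynomial σ ℤ) (AdjoinRoot F)) = (evC t).comp (lineHom v y) := by
        refine RingHom.ext fun f => ?_
        rw [RingHom.comp_apply, AdjoinRoot.algebraMap_eq]
        exact AdjoinRoot.lift_of _
      rw [h2] at h1
      rw [← hH]
      exact h1
  have : Countable (MvPolynomial σ ℤ) := countable_mv σ
  have hHG1 : ∀ l, F.map (sliceHom v) ∣ (H l).map (sliceHom v) * (G l).map (sliceHom v) - 1 := by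
    intro l
    have h1 := Polynomial.map_dvd (sliceHom v) (hHG l)
    rwa [Polynomial.map_sub, Polynomial.map_mul, Polynomial.map_one] at h1
  have hd1 : (F.map (sliceHom v)).natDegree = F.natDegree := hF.natDegree_map _
  obtain ⟨E, hE⟩ := hFam n (MvPolynomial σ ℤ) (F.map (sliceHom v)) (hF.map _)
    (by rw [hd1]; exact hd)
    (fun l => (H l).map (sliceHom v)) (fun l => (G l).map (sliceHom v)) hHG1 hC
  have hB'' : ∀ (Y p : ℕ) (y : σ → ℤ), ∃ Z : Set ℤ, p.Prime → Z.Finite ∧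
      Z.ncard ≤ (2 * E + 1) * p ∧
      (∀ s0 : ℤ, {s ∈ Z | (p : ℤ) ∣ s - s0}.ncard ≤ 2 * E + 1) ∧
      ∀ t : ℤ, |t| ≤ Y → t ∉ Z → Irreducible (((F.map (sliceHom v)).map
        (mapRingHom (MvPolynomial.eval y))).map (evalRingHom t)) →
      ∀ (K : Type u) [Field K] [NumberField K] (x : 𝓞 K),
      Module.finrank ℚ K = (F.map (sliceHom v)).natDegree →
      aeval x (((F.map (sliceHom v)).map (mapRingHom (MvPolynomial.eval y))).map
        (evalRingHom t)) = 0 →
      ∃ w : Fin n → (𝓞 K)ˣ, ∀ c1 : ℕ, IdxC K x (F.map (sliceHom v)).natDegree p c1 →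
        PInd K p w (2 + c1 + (E + (2 * E + 1) * Nat.log p (2 * Y))) := by
    intro Y p y
    by_cases hp : p.Prime
    · obtain ⟨Z, hZ⟩ := hE p hp (MvPolynomial.eval y) Y
      exact ⟨Z, fun _ => hZ⟩
    · exact ⟨∅, fun h => absurd h hp⟩
  choose Z hZ using hB''
  obtain ⟨C, hCc⟩ := box_count v i0 hv0
  obtain ⟨C1, hCc1⟩ := box_count_class_pow v i0 hv0
  refine ⟨fun Y p => {t | t i0 / v i0 ∈ if p.Prime then Z Y p (fun i => t i - t i0 / v i0 * v i)
    else ∅}, (C + C1) * (2 * E + 1) + 3 * E + 3, ?_, ?_, ?_⟩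
  · intro p hp H' hH'
    have h1 := hCc ((2 * E + 1) * p) (fun y => Z H' p y)
      (fun y => ⟨(hZ H' p y hp).1, (hZ H' p y hp).2.1⟩) H' hH'
    simp only [Set.mem_ofPred_eq, if_pos hp]
    calc _ ≤ _ := h1
      _ = (C * (2 * E + 1)) * p * H' ^ (Fintype.card σ - 1) := by ring
      _ ≤ _ := Nat.mul_le_mul_right _ (Nat.mul_le_mul_right _ (by
        have : C * (2 * E + 1) ≤ (C + C1) * (2 * E + 1) :=
          Nat.mul_le_mul_right _ (Nat.le_add_right _ _)
        omega))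
  · intro p hp m hm t0 H'
    have h1 := hCc1 p hp m hm (2 * E + 1) (fun y => Z H' p y)
      (fun y => ⟨(hZ H' p y hp).1, (hZ H' p y hp).2.2.1⟩) t0 H'
    simp only [Set.mem_ofPred_eq, if_pos hp]
    calc _ ≤ _ := h1
      _ ≤ _ := Nat.mul_le_mul_right _ (by
        have : C1 * (2 * E + 1) ≤ (C + C1) * (2 * E + 1) :=
          Nat.mul_le_mul_right _ (Nat.le_add_left _ _)
        omega)
  · intro p hp H' hH' t htH ht hirr K _ _ x hfin hx
    simp only [Set.mem_ofPred_eq, if_pos hp] at ht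
    have hmap : ∀ P : (MvPolynomial σ ℤ)[X], ((P.map (sliceHom v)).map
        (mapRingHom (MvPolynomial.eval (fun i => t i - t i0 / v i0 * v i)))).map
        (evalRingHom (t i0 / v i0)) = P.map (MvPolynomial.eval t) := by
      intro P
      rw [Polynomial.map_map, Polynomial.map_map, slice_eval]
      congr 2
      funext i
      ring
    have habs : |t i0 / v i0| ≤ (H' : ℤ) := (Int.abs_ediv_le_abs _ _).trans (htH i0)
    obtain ⟨w, hw⟩ := (hZ H' p _ hp).2.2.2 (t i0 / v i0) habs ht (by rw [hmap]; exact hirr) K x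
      (hfin.trans hd1.symm) (by rw [hmap]; exact hx)
    refine ⟨w, fun c1 hc1 => ?_⟩
    rw [hd1] at hw
    exact pind_mono p w (const_le E ((C + C1) * (2 * E + 1)) c1 _ _ (log_le hp hH')) (hw c1 hc1)

end Pool.Agent.Work.MP_59f3ad_nt.Tw

end

section

/-!
MP_59f3ad_nt, item DenK: the sum over the primes with `p ^ (k+1) ≤ H ^ k`.
-/

namespace Pool.Agent.Work.MP_59f3ad_nt.Tw

namespace DenKX

theorem ncard_biUnion_le_sum {α ι : Type*} [DecidableEq ι] (f : ι → Set α) (P : Finset ι) :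
    (⋃ p ∈ P, f p).ncard ≤ ∑ p ∈ P, (f p).ncard := by
  induction P using Finset.induction_on with
  | empty => simp
  | insert a s has ih =>
    rw [Finset.sum_insert has, Finset.set_biUnion_insert]
    refine (Set.ncard_union_le _ _).trans ?_
    omega

theorem box_fin {σ : Type} [Fintype σ] (X : ℕ) :
    {t : σ → ℤ | ∀ i, |t i| ≤ X}.Finite := by
  classical
  apply (Fintype.piFinset (fun _ : σ => Finset.Icc (-(X : ℤ)) X)).finite_toSet.subset
  intro t ht
  rw [Finset.mem_coe, Fintype.mem_piFinset]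
  intro i
  rw [Finset.mem_Icc]
  exact abs_le.mp (ht i)

end DenKX

open DenKX in
theorem pr_DenK : StDenK := by
  classical
  intro σ _ k C hk hkd
  refine ⟨40 * C, fun Bad hBad H hH => ?_⟩
  set d := Fintype.card σ with hd
  have hH1 : (1 : ℝ) < (H : ℝ) := by exact_mod_cast hH
  have hlogH : 0 < Real.log H := Real.log_pos hH1
  set S : Set (σ → ℤ) := {t : σ → ℤ | (∀ i, |t i| ≤ H) ∧ ∃ p : ℕ, p.Prime ∧
    p ^ (k + 1) ≤ H ^ k ∧ t ∈ Bad H p} with hS
  have hHd : (0 : ℝ) < (H : ℝ) ^ d := by positivity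
  rw [le_div_iff₀ hlogH]
  set P := Nat.findGreatest (fun P => P ^ (k + 1) ≤ H ^ k) H with hP
  have hP1 : P ^ (k + 1) ≤ H ^ k := by
    have := Nat.findGreatest_spec (P := fun P => P ^ (k + 1) ≤ H ^ k) (m := 0) (n := H)
      (Nat.zero_le _) (by simp)
    exact this
  have hPH : P ≤ H := Nat.findGreatest_le H
  have hHk : ∀ p : ℕ, p ^ (k + 1) ≤ H ^ k → p ≤ H := by
    intro p hp
    by_contra hcon
    push Not at hcon
    have h1 : H ^ k * H < p ^ k * p := by
      have := Nat.pow_lt_pow_left hcon (Nat.succ_ne_zero k)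
      rw [← pow_succ, ← pow_succ]
      exact this
    have h2 : H ^ k * 1 ≤ H ^ k * H := Nat.mul_le_mul_left _ (by omega)
    rw [pow_succ] at hp
    omega
  have hPmax : ∀ p : ℕ, p ^ (k + 1) ≤ H ^ k → p ≤ P := fun p hp =>
    Nat.le_findGreatest (hHk p hp) hp
  have hP2 : H ^ k < (P + 1) ^ (k + 1) := by
    by_contra hcon
    push Not at hcon
    have := hPmax _ hcon
    omega
  rcases lt_or_ge P 2 with hPlt | hP2'
  · have hemp : S = ∅ := by
      rw [Set.eq_empty_iff_forall_notMem]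
      rintro t ⟨-, p, hp, hpk, -⟩
      have h1 := hPmax p hpk
      have h2 := hp.two_le
      omega
    rw [hemp, Set.ncard_empty]
    simp only [Nat.cast_zero, zero_mul]
    positivity
  · have hHP4 : H ≤ P ^ 4 := by
      have h1 : P + 1 ≤ P ^ 2 := by nlinarith
      have h2 : H ^ k < (P ^ 2) ^ (k + 1) := lt_of_lt_of_le hP2 (Nat.pow_le_pow_left h1 _)
      have h3 : (P ^ 2) ^ (k + 1) ≤ (P ^ 4) ^ k := by
        rw [← pow_mul, ← pow_mul]
        exact Nat.pow_le_pow_right (by omega) (by omega)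
      exact (lt_of_pow_lt_pow_left₀ k (Nat.zero_le _) (lt_of_lt_of_le h2 h3)).le
    set Q := (Finset.range (P + 1)).filter Nat.Prime with hQ
    have hsub : S ⊆ ⋃ p ∈ Q, {t : σ → ℤ | (∀ i, |t i| ≤ H) ∧ t ∈ Bad H p} := by
      rintro t ⟨hb, p, hp, hpk, ht⟩
      simp only [Set.mem_iUnion]
      refine ⟨p, ?_, hb, ht⟩
      rw [hQ, Finset.mem_filter, Finset.mem_range]
      exact ⟨Nat.lt_succ_of_le (hPmax p hpk), hp⟩
    have hfinU : (⋃ p ∈ Q, {t : σ → ℤ | (∀ i, |t i| ≤ H) ∧ t ∈ Bad H p}).Finite :=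
      Q.finite_toSet.biUnion (fun p _ => (box_fin H).subset fun t ht => ht.1)
    have hcard : S.ncard ≤ Q.card * (C * (P ^ k * H ^ (d - k) + H ^ (d - 1))) := by
      calc S.ncard ≤ (⋃ p ∈ Q, {t : σ → ℤ | (∀ i, |t i| ≤ H) ∧ t ∈ Bad H p}).ncard :=
            Set.ncard_le_ncard hsub hfinU
        _ ≤ ∑ p ∈ Q, {t : σ → ℤ | (∀ i, |t i| ≤ H) ∧ t ∈ Bad H p}.ncard :=
            ncard_biUnion_le_sum _ _
        _ ≤ ∑ _p ∈ Q, C * (P ^ k * H ^ (d - k) + H ^ (d - 1)) := by
            apply Finset.sum_le_sum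
            intro p hp
            rw [hQ, Finset.mem_filter, Finset.mem_range] at hp
            obtain ⟨hpP, hpp⟩ := hp
            have hpP' : p ≤ P := by omega
            refine (hBad p hpp H (by omega)).trans ?_
            gcongr
        _ = Q.card * (C * (P ^ k * H ^ (d - k) + H ^ (d - 1))) := by
            rw [Finset.sum_const, smul_eq_mul]
    have hQcard : Q.card = Nat.primeCounting P := by
      rw [hQ, Nat.primeCounting, Nat.primeCounting', Nat.count_eq_card_filter_range]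
    have hpi := MP59f3adDensity.pi_le_nat P hP2'
    rw [← hQcard] at hpi
    have hP1r : (1 : ℝ) < (P : ℝ) := by exact_mod_cast hP2'
    have hlogP : 0 < Real.log P := Real.log_pos hP1r
    have hQr : (Q.card : ℝ) * Real.log P ≤ 5 * P := by
      rwa [le_div_iff₀ hlogP] at hpi
    have hlogle : Real.log H ≤ 4 * Real.log P := by
      have h3 : (H : ℝ) ≤ (P : ℝ) ^ 4 := by exact_mod_cast hHP4
      calc Real.log H ≤ Real.log ((P : ℝ) ^ 4) := Real.log_le_log (by linarith) h3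
        _ = 4 * Real.log P := by rw [Real.log_pow]; norm_num
    have hmain : (S.ncard : ℝ) ≤ Q.card * (C * ((P : ℝ) ^ k * (H : ℝ) ^ (d - k) +
        (H : ℝ) ^ (d - 1))) := by exact_mod_cast hcard
    have hA1 : (P : ℝ) * ((P : ℝ) ^ k * (H : ℝ) ^ (d - k)) ≤ (H : ℝ) ^ d := by
      have h1 : (P : ℝ) ^ (k + 1) ≤ (H : ℝ) ^ k := by exact_mod_cast hP1
      calc (P : ℝ) * ((P : ℝ) ^ k * (H : ℝ) ^ (d - k))
          = (P : ℝ) ^ (k + 1) * (H : ℝ) ^ (d - k) := by ring
        _ ≤ (H : ℝ) ^ k * (H : ℝ) ^ (d - k) := by gcongr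
        _ = (H : ℝ) ^ d := by rw [← pow_add, Nat.add_sub_cancel' hkd]
    have hA2 : (P : ℝ) * (H : ℝ) ^ (d - 1) ≤ (H : ℝ) ^ d := by
      have h1 : (P : ℝ) ≤ H := by exact_mod_cast hPH
      calc (P : ℝ) * (H : ℝ) ^ (d - 1) ≤ (H : ℝ) * (H : ℝ) ^ (d - 1) := by gcongr
        _ = (H : ℝ) ^ d := by rw [← pow_succ', Nat.sub_add_cancel (by omega)]
    set E : ℝ := (P : ℝ) ^ k * (H : ℝ) ^ (d - k) + (H : ℝ) ^ (d - 1) with hE
    have hE0 : 0 ≤ E := by positivity
    have hPE : (P : ℝ) * E ≤ 2 * (H : ℝ) ^ d := by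
      rw [hE, mul_add]
      linarith
    calc (S.ncard : ℝ) * Real.log H
        ≤ (Q.card * (C * E)) * Real.log H := mul_le_mul_of_nonneg_right hmain hlogH.le
      _ ≤ (Q.card * (C * E)) * (4 * Real.log P) := by
          apply mul_le_mul_of_nonneg_left hlogle
          positivity
      _ = 4 * (C * E) * (Q.card * Real.log P) := by ring
      _ ≤ 4 * (C * E) * (5 * P) := by
          apply mul_le_mul_of_nonneg_left hQr
          positivity
      _ = 20 * C * (P * E) := by ring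
      _ ≤ 20 * C * (2 * (H : ℝ) ^ d) := by
          apply mul_le_mul_of_nonneg_left hPE
          positivity
      _ = ((40 * C : ℕ) : ℝ) * (H : ℝ) ^ d := by push_cast; ring

end Pool.Agent.Work.MP_59f3ad_nt.Tw

end

section

/-!
# MP_59f3ad_nt, Tw, item FamP
-/

open Polynomial NumberField

namespace Pool.Agent.Work.MP_59f3ad_nt.Tw

universe u

theorem pr_FamP : StFamC.{u} → StFamP.{u} := by
  classical
  intro h0 n R _ _ F hF hd H G hHG hC
  obtain ⟨E, h⟩ := h0 n R F hF hd H G hHG hC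
  refine ⟨E, fun p hp y Y => ?_⟩
  choose Z hZ hZc hZ' using fun Q1 : ℤ => h p hp y Q1 Y
  have hpos : (0 : ℤ) < p := by exact_mod_cast hp.pos
  have hfin : (⋃ r ∈ Finset.range p, (fun t => (r : ℤ) + p * t) '' Z r).Finite :=
    Set.Finite.biUnion (Finset.finite_toSet _) fun r _ => (hZ r).image _
  refine ⟨⋃ r ∈ Finset.range p, (fun t => (r : ℤ) + p * t) '' Z r, hfin, ?_, ?_, ?_⟩
  · have h1 : (⋃ r ∈ Finset.range p, (fun t => (r : ℤ) + p * t) '' Z r).ncard ≤
        ∑ r ∈ Finset.range p, ((fun t => (r : ℤ) + p * t) '' Z r).ncard :=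
      Finset.set_ncard_biUnion_le _ _
    refine h1.trans ?_
    calc ∑ r ∈ Finset.range p, ((fun t => (r : ℤ) + p * t) '' Z r).ncard
        ≤ ∑ _r ∈ Finset.range p, (2 * E + 1) := Finset.sum_le_sum fun r _ =>
          (Set.ncard_image_le (hZ r)).trans (hZc r)
      _ = (2 * E + 1) * p := by
          rw [Finset.sum_const, Finset.card_range, smul_eq_mul, mul_comm]
  · intro s0
    set r := s0 % p with hr
    have hr0 : 0 ≤ r := Int.emod_nonneg _ hpos.ne'
    have hrp : r < p := Int.emod_lt_of_pos _ hpos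
    have hsub : {s ∈ ⋃ r ∈ Finset.range p, (fun t => (r : ℤ) + p * t) '' Z r |
        (p : ℤ) ∣ s - s0} ⊆ (fun t => r + p * t) '' Z r := by
      rintro s ⟨hs, hs0⟩
      rw [Set.mem_iUnion₂] at hs
      obtain ⟨r', hr', t, ht, rfl⟩ := hs
      rw [Finset.mem_range] at hr'
      have h1 : (r' : ℤ) = r := by
        have h2 : (p : ℤ) ∣ (r' : ℤ) - s0 := by
          have h3 : (r' : ℤ) - s0 = ((r' : ℤ) + p * t - s0) - p * t := by ring
          rw [h3]
          exact dvd_sub hs0 (dvd_mul_right _ _)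
        have h3 : s0 % p = (r' : ℤ) % p := ((Int.emod_eq_emod_iff_emod_sub_eq_zero).2
            (Int.emod_eq_zero_of_dvd h2)).symm
        rw [hr, h3, Int.emod_eq_of_lt (Int.natCast_nonneg _) (by exact_mod_cast hr')]
      rw [← h1]
      exact ⟨t, ht, rfl⟩
    exact (Set.ncard_le_ncard hsub ((hZ r).image _)).trans
      ((Set.ncard_image_le (hZ r)).trans (hZc r))
  · intro t htY ht
    set r := t % p with hr
    have hr0 : 0 ≤ r := Int.emod_nonneg _ hpos.ne'
    have hrp : r < p := Int.emod_lt_of_pos _ hpos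
    have h1 : t = r + p * (t / p) := (Int.emod_add_mul_ediv t p).symm
    have h2 : ((r.toNat : ℕ) : ℤ) = r := Int.toNat_of_nonneg hr0
    have h3 : t / p ∉ Z r := by
      intro h3
      apply ht
      rw [Set.mem_iUnion₂]
      refine ⟨r.toNat, ?_, ?_⟩
      · rw [Finset.mem_range]
        omega
      · rw [h2]
        exact ⟨_, h3, h1.symm⟩
    have h5 : |t / (p : ℤ)| ≤ Y := by
      have h6 : (t / (p : ℤ)).natAbs ≤ t.natAbs := Int.natAbs_ediv_le_natAbs t p
      have h7 : t.natAbs ≤ Y := by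
        have := htY
        rw [Int.abs_eq_natAbs] at this
        exact_mod_cast this
      rw [Int.abs_eq_natAbs]
      exact_mod_cast h6.trans h7
    have h4 := hZ' r _ h5 h3
    rw [← h1] at h4
    exact h4

end Pool.Agent.Work.MP_59f3ad_nt.Tw

end

section

/-!
MP_59f3ad_nt, `Tw.Prime1`: the bad parameters for a single prime.
-/

open Polynomial NumberField

namespace Pool.Agent.Work.MP_59f3ad_nt.Tw

open Pool.Agent.Work.MP_59f3ad_nt.Cod

universe u

theorem pr_Prime1 : StClassFin1.{u} → StJs → StNorm → StSpec1 → StSpec0 → StSep → StSZ →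
    StCount → StPrime1.{u} := by
  classical
  intro hCF hJs hNorm hS1 hS0 hSep hSZ hCount r1 r2 k hd hk1 hk2 hk3
  have hcard : Fintype.card (Ix r1 r2) = r1 + 2 * r2 := Ix_card r1 r2
  have hJc : (Js r1 r2 k).card = k := hJs r1 r2 k hd hk2 hk3
  have hspec : Spec r1 r2 := by
    rcases Nat.eq_zero_or_pos r1 with h | h
    · subst h
      exact hS0 r2 (by omega)
    · exact hS1 r1 r2 h
  obtain ⟨Γ1, e, hΓ1⟩ := hNorm r1 r2 hd
  obtain ⟨Γ2, hΓ20, hΓ2⟩ := hSep r1 r2 hd
  have hΓ10 : Γ1 ≠ 0 := by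
    obtain ⟨ts, ζ, -, -, h1, h2⟩ := hspec
    intro h
    have h3 := hΓ1 ℂ ts ζ h1
    rw [h, map_zero] at h3
    have h4 : (((r1 + 2 * r2 : ℕ) : ℂ)) ^ e * ∏ φ : Fin r2 ↪ Fin (r1 + 2 * r2 - 1),
        Cod.DD ts (fun l => ζ (φ l)) ≠ 0 := by
      refine mul_ne_zero (pow_ne_zero _ ?_) (Finset.prod_ne_zero_iff.mpr fun φ _ => h2 φ)
      have : r1 + 2 * r2 ≠ 0 := by omega
      exact_mod_cast this
    exact h4 h3.symm
  have hΓ0 : Γ1 * Γ2 ≠ 0 := mul_ne_zero hΓ10 hΓ20
  obtain ⟨C1, p1, hE⟩ := hSZ (Ix r1 r2) (Γ1 * Γ2) hΓ0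
  obtain ⟨N, hN⟩ := hCF r1 r2 k hd hk1 hk2 hk3
  obtain ⟨C, hC⟩ := hCount (Ix r1 r2) (Js r1 r2 k) N C1 (by rw [hJc]; exact hk1)
  refine ⟨C, max p1 (max 2 (r1 + 2 * r2)), fun p hpf hpp H hH => ?_⟩
  have hpp1 : p1 < p := lt_of_le_of_lt (le_max_left _ _) hpp
  have hpp2 : 2 < p := lt_of_le_of_lt ((le_max_left _ _).trans (le_max_right _ _)) hpp
  have hppd : r1 + 2 * r2 < p := lt_of_le_of_lt ((le_max_right _ _).trans (le_max_right _ _)) hpp
  have hgood : ∀ t0 : Ix r1 r2 → ℤ,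
      (fun i => ((t0 i : ℤ) : ZMod p)) ∉ {t | MvPolynomial.aeval t (Γ1 * Γ2) = 0} → _ :=
    fun t0 htE => BoundX.good_class p (AlgebraicClosure (ZMod p)) hd hppd Γ1 Γ2 e
      (hΓ1 _) (hΓ2 _) t0 htE
  have hdig : ∀ t0 : Ix r1 r2 → ℤ,
      (fun i => ((t0 i : ℤ) : ZMod p)) ∉ {t | MvPolynomial.aeval t (Γ1 * Γ2) = 0} →
      ∀ s' : Ix r1 r2 → ℤ, {τ : Js r1 r2 k → ZMod p | ∃ s : Ix r1 r2 → ℤ,
      (∀ i, i ∉ Js r1 r2 k → ((s i : ℤ) : ZMod p) = ((s' i : ℤ) : ZMod p)) ∧
      (∀ i : Js r1 r2 k, ((s i : ℤ) : ZMod p) = τ i) ∧ (fun i => t0 i + p * s i) ∈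
        {t : Ix r1 r2 → ℤ | Irreducible (gg t - 1) ∧ ¬ NB1.{u} r1 r2 p t}}.ncard ≤
      N := by
    intro t0 htE s'
    obtain ⟨hs1, hs2, hs3, hDD⟩ := hgood t0 htE
    refine le_trans (Set.ncard_le_ncard ?_ (Set.toFinite _))
      (hN p (by omega) (fun h => absurd (Nat.le_of_dvd (by omega) h) (by omega)) t0 hs1 hs2 hs3
        hDD s')
    rintro τ ⟨s, h1, h2, h3, h4⟩
    exact ⟨s, h1, h2, h3, h4⟩
  have key := hC p H hH {t : Ix r1 r2 → ℤ | Irreducible (gg t - 1) ∧ ¬ NB1.{u} r1 r2 p t}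
    {t | MvPolynomial.aeval t (Γ1 * Γ2) = 0} (hE p hpp1) hdig
  rw [hcard, hJc] at key
  refine le_trans (Nat.mul_le_mul_left _ (Set.ncard_le_ncard ?_
    ((BoundX.box_finite (Ix r1 r2) H).subset fun t ht => ht.1))) key
  rintro t ⟨h1, h2, h3⟩
  refine ⟨h1, ?_⟩
  by_cases htE : (fun i => ((t i : ℤ) : ZMod p)) ∈ {t | MvPolynomial.aeval t (Γ1 * Γ2) = 0}
  · exact Or.inr htE
  · left
    obtain ⟨hs1, hs2, hs3, hDD⟩ := hgood t htE
    have hsep : ((gg t - 1).map (red p)).Separable := by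
      have e : ((gg t - 1).map (red p)).map (algebraMap (ZMod p) (AlgebraicClosure (ZMod p))) =
          (gg fun i => ((t i : ℤ) : AlgebraicClosure (ZMod p))) - 1 := by
        rw [Polynomial.map_map, Polynomial.map_sub, Polynomial.map_one, gg_map]
        congr 2
      rw [← Polynomial.separable_map (algebraMap (ZMod p) (AlgebraicClosure (ZMod p))), e]
      exact hs2
    exact ⟨h2, h3.resolve_left (not_not.2 hsep)⟩

end Pool.Agent.Work.MP_59f3ad_nt.Tw

end
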